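import Pool.Agent.Helper17.CKF.OG1

/-! # CKF-OG2: products of closed groups of real matrices as groups of block matrices -/

set_option autoImplicit false

namespace Pool.Agent.Helper17.CKF

open Matrix Topology Filter NormedSpace Pool.Agent.Helper40.CK Pool.Agent.Helper20.CKP

section Blk

theorem exp_reindex {a b : Type} [Fintype a] [DecidableEq a] [Fintype b] [DecidableEq b]
    (e : a ≃ b) (A : Matrix a a ℝ) : exp (reindex e e A) = reindex e e (exp A) := by
  have hc : Continuous (Matrix.reindexAlgEquiv ℝ ℝ e) := by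
    show Continuous fun A : Matrix a a ℝ => A.submatrix e.symm e.symm
    exact continuous_id.matrix_submatrix _ _
  open scoped Norms.Operator in
  exact (map_exp (Matrix.reindexAlgEquiv ℝ ℝ e).toRingEquiv.toRingHom hc A).symm

variable {r : ℕ} (n : Fin r → ℕ)

/-- block diagonal matrices -/
noncomputable def bk : (∀ i, Matrix (Fin (n i)) (Fin (n i)) ℝ) →ₗ[ℝ]
    Matrix (Fin (∑ i, n i)) (Fin (∑ i, n i)) ℝ where
  toFun X := reindex finSigmaFinEquiv finSigmaFinEquiv (blockDiagonal' X)
  map_add' X Y := by rw [blockDiagonal'_add]; rfl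
  map_smul' c X := by rw [blockDiagonal'_smul]; rfl

/-- the diagonal blocks -/
noncomputable def bkInv : Matrix (Fin (∑ i, n i)) (Fin (∑ i, n i)) ℝ →ₗ[ℝ]
    (∀ i, Matrix (Fin (n i)) (Fin (n i)) ℝ) where
  toFun Z := blockDiag' (reindex finSigmaFinEquiv.symm finSigmaFinEquiv.symm Z)
  map_add' _ _ := rfl
  map_smul' _ _ := rfl

theorem bkInv_bk (X : ∀ i, Matrix (Fin (n i)) (Fin (n i)) ℝ) : bkInv n (bk n X) = X := by
  have h1 : reindex finSigmaFinEquiv.symm finSigmaFinEquiv.symm
      (reindex finSigmaFinEquiv finSigmaFinEquiv (blockDiagonal' X)) = blockDiagonal' X := by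
    rw [← reindex_symm, Equiv.symm_apply_apply]
  show blockDiag' (reindex finSigmaFinEquiv.symm finSigmaFinEquiv.symm
      (reindex finSigmaFinEquiv finSigmaFinEquiv (blockDiagonal' X))) = X
  rw [h1]
  exact blockDiag'_blockDiagonal' X

theorem bk_inj {X Y : ∀ i, Matrix (Fin (n i)) (Fin (n i)) ℝ} (h : bk n X = bk n Y) : X = Y := by
  rw [← bkInv_bk n X, h, bkInv_bk]

theorem bk_mul (X Y : ∀ i, Matrix (Fin (n i)) (Fin (n i)) ℝ) :
    bk n X * bk n Y = bk n (fun i => X i * Y i) := by
  show reindex finSigmaFinEquiv finSigmaFinEquiv (blockDiagonal' X) *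
    reindex finSigmaFinEquiv finSigmaFinEquiv (blockDiagonal' Y) =
      reindex finSigmaFinEquiv finSigmaFinEquiv (blockDiagonal' fun i => X i * Y i)
  rw [blockDiagonal'_mul, reindex_apply, reindex_apply, reindex_apply, submatrix_mul_equiv]

theorem bk_transpose (X : ∀ i, Matrix (Fin (n i)) (Fin (n i)) ℝ) :
    (bk n X)ᵀ = bk n (fun i => (X i)ᵀ) := by
  show (reindex finSigmaFinEquiv finSigmaFinEquiv (blockDiagonal' X))ᵀ =
    reindex finSigmaFinEquiv finSigmaFinEquiv (blockDiagonal' fun i => (X i)ᵀ)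
  rw [transpose_reindex, blockDiagonal'_transpose]

theorem bk_trace (X : ∀ i, Matrix (Fin (n i)) (Fin (n i)) ℝ) :
    (bk n X).trace = ∑ i, (X i).trace := by
  have h1 : (bk n X).trace = (blockDiagonal' X).trace := by
    show ∑ i, (blockDiagonal' X) (finSigmaFinEquiv.symm i) (finSigmaFinEquiv.symm i) = _
    exact Equiv.sum_comp finSigmaFinEquiv.symm fun i => (blockDiagonal' X) i i
  rw [h1, trace_blockDiagonal']

theorem bk_one : bk n (fun _ => 1) = 1 := by
  show reindex finSigmaFinEquiv finSigmaFinEquiv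
    (blockDiagonal' fun i => (1 : Matrix (Fin (n i)) (Fin (n i)) ℝ)) = 1
  have h1 : (blockDiagonal' fun i => (1 : Matrix (Fin (n i)) (Fin (n i)) ℝ)) = 1 :=
    blockDiagonal'_one
  rw [h1, reindex_apply, submatrix_one_equiv]

theorem bk_exp (X : ∀ i, Matrix (Fin (n i)) (Fin (n i)) ℝ) :
    exp (bk n X) = bk n (fun i => exp (X i)) := by
  show exp (reindex finSigmaFinEquiv finSigmaFinEquiv (blockDiagonal' X)) =
    reindex finSigmaFinEquiv finSigmaFinEquiv (blockDiagonal' fun i => exp (X i))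
  rw [exp_reindex, exp_blockDiagonal']
  congr 2
  open scoped Norms.Operator in
  exact Pi.exp_def X

theorem fn_bk (X : ∀ i, Matrix (Fin (n i)) (Fin (n i)) ℝ) : fn (bk n X) = ∑ i, fn (X i) := by
  rw [fn_eq_trace, bk_transpose, bk_mul, bk_trace]
  exact Finset.sum_congr rfl fun i _ => (fn_eq_trace (X i)).symm

end Blk

section Product

variable {r : ℕ} {n : Fin r → ℕ} {G : ∀ i, Subgroup (GL (Fin (n i)) ℝ)}

theorem isCompact_prod (hG : ∀ i, IsClosed (G i : Set (GL (Fin (n i)) ℝ))) (c : ℝ) :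
    IsCompact {g : ∀ i, G i |
      fn (bk n fun i => ((g i : GL (Fin (n i)) ℝ) : Matrix (Fin (n i)) (Fin (n i)) ℝ)) +
      fn (bk n fun i => ((g⁻¹ i : GL (Fin (n i)) ℝ) : Matrix (Fin (n i)) (Fin (n i)) ℝ)) ≤ c} := by
  have hb : Continuous (bk n) := (bk n).continuous_of_finiteDimensional
  have h1 : IsCompact (Set.pi Set.univ fun i => {g : G i | fn ((glM (hG i)).ι g) +
      fn ((glM (hG i)).ι g⁻¹) ≤ c}) := isCompact_univ_pi fun i => (glM (hG i)).compact c
  refine h1.of_isClosed_subset ?_ ?_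
  · refine isClosed_le ?_ continuous_const
    refine (continuous_fn.comp (hb.comp (continuous_pi fun i => ?_))).add
      (continuous_fn.comp (hb.comp (continuous_pi fun i => ?_)))
    · exact Units.continuous_val.comp (continuous_subtype_val.comp (continuous_apply i))
    · exact Units.continuous_val.comp (continuous_subtype_val.comp
        ((continuous_apply i).comp continuous_inv))
  · intro g hg i _
    have h2 : fn (bk n fun i => ((g i : GL (Fin (n i)) ℝ) : Matrix (Fin (n i)) (Fin (n i)) ℝ)) +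
      fn (bk n fun i => ((g⁻¹ i : GL (Fin (n i)) ℝ) : Matrix (Fin (n i)) (Fin (n i)) ℝ)) ≤ c := hg
    rw [fn_bk, fn_bk] at h2
    have h3 := Finset.single_le_sum
      (f := fun i => fn ((g i : GL (Fin (n i)) ℝ) : Matrix (Fin (n i)) (Fin (n i)) ℝ))
      (fun i _ => fn_nn _) (Finset.mem_univ i)
    have h4 := Finset.single_le_sum
      (f := fun i => fn ((g⁻¹ i : GL (Fin (n i)) ℝ) : Matrix (Fin (n i)) (Fin (n i)) ℝ))
      (fun i _ => fn_nn _) (Finset.mem_univ i)
    exact (add_le_add h3 h4).trans h2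

/-- a product of closed groups of matrices as a group of block matrices -/
noncomputable def prodM (hG : ∀ i, IsClosed (G i : Set (GL (Fin (n i)) ℝ))) :
    MatGroup (∀ i, G i) (∑ i, n i) where
  ι :=
    { toFun := fun g => bk n fun i =>
        ((g i : GL (Fin (n i)) ℝ) : Matrix (Fin (n i)) (Fin (n i)) ℝ)
      map_one' := bk_one n
      map_mul' := fun g h => (bk_mul n _ _).symm }
  inj := fun g h e => by
    have h1 := bk_inj n e
    funext i
    exact Subtype.ext (Units.ext (congrFun h1 i))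
  cont := by
    have hb : Continuous (bk n) := (bk n).continuous_of_finiteDimensional
    exact hb.comp (continuous_pi fun i =>
      Units.continuous_val.comp (continuous_subtype_val.comp (continuous_apply i)))
  compact := isCompact_prod hG

theorem prodM_apply (hG : ∀ i, IsClosed (G i : Set (GL (Fin (n i)) ℝ))) (g : ∀ i, G i) :
    (prodM hG).ι g = bk n fun i =>
      ((g i : GL (Fin (n i)) ℝ) : Matrix (Fin (n i)) (Fin (n i)) ℝ) := rfl

/-- the Cartan decomposition of the product -/
theorem cartan_prod (hG : ∀ i, IsReductive (G i)) :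
    Cartan (prodM fun i => (hG i).closed) ⊤
      ((Submodule.pi Set.univ fun i => pSpace (G i)).map (bk n)) := by
  refine cartan_of isClosed_univ ?_ ?_ ?_
  · rintro _ ⟨X, hX, rfl⟩
    rw [bk_transpose]
    congr 1
    funext i
    exact (cartan_single (hG i)).symm _ (hX i (Set.mem_univ i))
  · rintro _ ⟨X, hX, rfl⟩
    have h1 := fun i => (cartan_single (hG i)).exp_mem (X i) (hX i (Set.mem_univ i))
    choose g _ hg using h1
    refine ⟨g, Subgroup.mem_top _, ?_⟩
    rw [prodM_apply, bk_exp]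
    congr 1
    funext i
    exact hg i
  · intro g _
    have h1 := fun i => (cartan_single (hG i)).sq (Subgroup.mem_top (g i))
    choose X hX e using h1
    refine ⟨bk n X, Submodule.mem_map_of_mem (fun i _ => hX i), ?_⟩
    rw [prodM_apply, bk_transpose, bk_mul, ← map_smul, bk_exp]
    congr 1
    funext i
    exact e i

/-- the Cartan decomposition of a reductive subgroup of the product -/
theorem cartan_sub (hG : ∀ i, IsReductive (G i)) {H : Subgroup (∀ i, G i)}
    (hH : IsReductiveIn H) :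
    Cartan (prodM fun i => (hG i).closed) H ((pSub H).map (bk n)) := by
  have hmap : (pSub H).map (bk n) = Submodule.span ℝ (bk n '' {X | (∀ i, (X i)ᵀ = X i) ∧
      ∃ h ∈ H, ∀ i, (h i : GL (Fin (n i)) ℝ) = expGL (X i)}) := Submodule.map_span _ _
  refine cartan_of hH.closed ?_ ?_ ?_
  · intro Z hZ
    rw [hmap] at hZ
    refine symm_span ?_ hZ
    rintro _ ⟨X, ⟨hX, -⟩, rfl⟩
    rw [bk_transpose]
    congr 1
    funext i
    exact hX i
  · intro Z hZ
    rw [hmap] at hZ
    refine exp_span_mem hH.closed ?_ hZ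
    rintro _ ⟨X, ⟨hX, hXH⟩, rfl⟩ t
    obtain ⟨h, hh, e⟩ := hH.power X hX hXH t
    refine ⟨h, hh, ?_⟩
    rw [prodM_apply, ← map_smul, bk_exp]
    congr 1
    funext i
    rw [e i, coe_expGL]
    rfl
  · intro h hh
    have h1 := fun i => exists_log_mul (h i : GL (Fin (n i)) ℝ)
    choose X hX e using h1
    obtain ⟨h', hh', e'⟩ := hH.transpose h hh
    have h2 : (∀ i, (X i)ᵀ = X i) ∧ ∃ h ∈ H, ∀ i, (h i : GL (Fin (n i)) ℝ) = expGL (X i) := by
      refine ⟨hX, h * h', H.mul_mem hh hh', fun i => ?_⟩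
      apply Units.ext
      rw [coe_expGL, e i, ← e' i]
      rfl
    refine ⟨bk n ((1 / 2 : ℝ) • X),
      Submodule.mem_map_of_mem ((pSub H).smul_mem _ (Submodule.subset_span h2)), ?_⟩
    have h3 : (2 : ℝ) • bk n ((1 / 2 : ℝ) • X) = bk n X := by
      rw [map_smul, smul_smul]
      norm_num
    rw [prodM_apply, bk_transpose, bk_mul, h3, bk_exp]
    congr 1
    funext i
    exact (e i).symm

/-- the components of an element of `pSub H` -/
theorem pSub_apply {H : Subgroup (∀ i, G i)} {X : ∀ i, Matrix (Fin (n i)) (Fin (n i)) ℝ}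
    (hX : X ∈ pSub H) (i : Fin r) : X i ∈ pSpace (G i) := by
  have h1 : pSub H ≤ (pSpace (G i)).comap (LinearMap.proj i) := by
    refine Submodule.span_le.mpr ?_
    rintro Y ⟨hY, h, -, e⟩
    show Y i ∈ pSpace (G i)
    refine Submodule.subset_span ⟨hY i, ?_⟩
    rw [← e i]
    exact (h i).2
  exact h1 hX

theorem mem_pSub (hG : ∀ i, IsReductive (G i)) {H : Subgroup (∀ i, G i)}
    (hH : IsReductiveIn H) {X : ∀ i, Matrix (Fin (n i)) (Fin (n i)) ℝ} :
    X ∈ pSub H ↔ (∀ i, (X i)ᵀ = X i) ∧ ∃ h ∈ H, ∀ i, (h i : GL (Fin (n i)) ℝ) = expGL (X i) := by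
  constructor
  · intro hX
    refine ⟨fun i => (cartan_single (hG i)).symm _ (pSub_apply hX i), ?_⟩
    obtain ⟨h, hh, e⟩ := (cartan_sub hG hH).exp_mem _ (Submodule.mem_map_of_mem hX)
    refine ⟨h, hh, fun i => ?_⟩
    rw [prodM_apply, bk_exp] at e
    apply Units.ext
    rw [coe_expGL]
    exact congrFun (bk_inj n e) i
  · exact fun h => Submodule.subset_span h

end Product

end Pool.Agent.Helper17.CKF
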