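import Pool.Agent.Helper17.CKF.RC4
import Pool.Agent.Helper20.CKP.TwoK
import Pool.Agent.Helper40.CK.Ratio

/-! # CKF-RK: odd maps to `2 × n` matrices over `K` take all ratios of singular values -/

set_option autoImplicit false

namespace Pool.Agent.Helper17.CKF

open Topology Filter Module Matrix Pool.Agent.Helper20.CKP

theorem exists_inj_fin {E : Type} [AddCommGroup E] [Module ℝ E] [FiniteDimensional ℝ E] {m : ℕ}
    (h : m ≤ finrank ℝ E) : ∃ φ : (Fin m → ℝ) →ₗ[ℝ] E, Function.Injective φ := by
  let b := finBasis ℝ E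
  refine ⟨Fintype.linearCombination ℝ (fun i : Fin m => b (Fin.castLE h i)), ?_⟩
  have h2 : LinearIndependent ℝ (fun i : Fin m => b (Fin.castLE h i)) :=
    b.linearIndependent.comp _ (Fin.castLE_injective h)
  exact h2.fintypeLinearCombination_injective

section
variable {K : Type} [RCLike K] {n : ℕ}

theorem gd_map_real (h : RCLike.I = (0 : K)) (B : Matrix (Fin 2) (Fin n) K) :
    gd B = (B.map RCLike.re * (B.map RCLike.re)ᵀ).det := by
  have h1 : (RCLike.realRingEquiv h).toRingHom.mapMatrix (B * Bᴴ) =
      B.map RCLike.re * (B.map RCLike.re)ᵀ := by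
    ext i j
    simp only [RingHom.mapMatrix_apply, Matrix.map_apply, Matrix.mul_apply, Matrix.transpose_apply,
      Matrix.conjTranspose_apply]
    rw [map_sum]
    refine Finset.sum_congr rfl fun k _ => ?_
    rw [map_mul]
    show RCLike.re (B i k) * RCLike.re (star (B j k)) = RCLike.re (B i k) * RCLike.re (B j k)
    rw [RCLike.star_def, RCLike.conj_re]
  rw [← h1, ← RingHom.map_det]
  rfl

theorem gt_map_real (h : RCLike.I = (0 : K)) (B : Matrix (Fin 2) (Fin n) K) :
    gt B = (B.map RCLike.re * (B.map RCLike.re)ᵀ).trace := by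
  have h1 : (RCLike.realRingEquiv h).toRingHom.mapMatrix (B * Bᴴ) =
      B.map RCLike.re * (B.map RCLike.re)ᵀ := by
    ext i j
    simp only [RingHom.mapMatrix_apply, Matrix.map_apply, Matrix.mul_apply, Matrix.transpose_apply,
      Matrix.conjTranspose_apply]
    rw [map_sum]
    refine Finset.sum_congr rfl fun k _ => ?_
    rw [map_mul]
    show RCLike.re (B i k) * RCLike.re (star (B j k)) = RCLike.re (B i k) * RCLike.re (B j k)
    rw [RCLike.star_def, RCLike.conj_re]
  rw [← h1, Matrix.trace_fin_two, gt, Matrix.trace_fin_two, map_add]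
  rfl

theorem gram_map_complex (h : RCLike.im (RCLike.I : K) = 1) (B : Matrix (Fin 2) (Fin n) K) :
    (RCLike.complexRingEquiv h).toRingHom.mapMatrix (B * Bᴴ) =
      B.map (RCLike.complexRingEquiv h) * (B.map (RCLike.complexRingEquiv h))ᴴ := by
  ext i j
  simp only [RingHom.mapMatrix_apply, Matrix.map_apply, Matrix.mul_apply,
    Matrix.conjTranspose_apply]
  rw [map_sum]
  refine Finset.sum_congr rfl fun k _ => ?_
  rw [map_mul]
  show (RCLike.complexRingEquiv h) (B i k) * (RCLike.complexRingEquiv h) (star (B j k)) = _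
  congr 1
  apply Complex.ext
  · rw [RCLike.star_def]
    simp
  · rw [RCLike.star_def]
    simp

theorem gd_map_complex (h : RCLike.im (RCLike.I : K) = 1) (B : Matrix (Fin 2) (Fin n) K) :
    gd B = (B.map (RCLike.complexRingEquiv h) * (B.map (RCLike.complexRingEquiv h))ᴴ).det.re := by
  rw [← gram_map_complex, ← RingHom.map_det]
  show RCLike.re (B * Bᴴ).det = ((RCLike.complexRingEquiv h) (B * Bᴴ).det).re
  simp

theorem gt_map_complex (h : RCLike.im (RCLike.I : K) = 1) (B : Matrix (Fin 2) (Fin n) K) :
    gt B = (B.map (RCLike.complexRingEquiv h) * (B.map (RCLike.complexRingEquiv h))ᴴ).trace.re := by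
  rw [← gram_map_complex, Matrix.trace_fin_two, gt, Matrix.trace_fin_two, map_add]
  show _ = ((RCLike.complexRingEquiv h) ((B * Bᴴ) 0 0) +
    (RCLike.complexRingEquiv h) ((B * Bᴴ) 1 1)).re
  simp

/-- An odd map from a real vector space of dimension at least `n * dim K + 1`, without the origin,
to the matrices over `K` with two rows and `n` columns takes all ratios of the singular values. -/
theorem exists_ratioK (hn : 2 ≤ n) {E : Type} [AddCommGroup E] [Module ℝ E] [TopologicalSpace E]
    [IsTopologicalAddGroup E] [ContinuousSMul ℝ E] [FiniteDimensional ℝ E]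
    (hE : n * finrank ℝ K + 1 ≤ finrank ℝ E) (B : E → Matrix (Fin 2) (Fin n) K)
    (hB : ContinuousOn B {0}ᶜ) (hodd : ∀ x, x ≠ 0 → B (-x) = -B x) (δ : ℝ) (h0 : 0 ≤ δ)
    (h1 : δ ≤ 1 / 4) : ∃ x, x ≠ 0 ∧ gd (B x) = δ * gt (B x) ^ 2 := by
  rcases RCLike.I_eq_zero_or_im_I_eq_one (K := K) with h | h
  · have hK : finrank ℝ K = 1 := by
      rw [(RCLike.realLinearIsometryEquiv h).toLinearEquiv.finrank_eq, Module.finrank_self]
    rw [hK, mul_one] at hE
    obtain ⟨φ, hφ⟩ := exists_inj_fin hE
    have hφ0 : ∀ x, x ≠ 0 → φ x ≠ 0 := fun x hx h => hx (hφ (h.trans (map_zero φ).symm))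
    obtain ⟨x, hx, e⟩ := Pool.Agent.Helper40.CK.exists_ratio hn
      (fun x => (B (φ x)).map RCLike.re) (by
        have h2 : Continuous fun A : Matrix (Fin 2) (Fin n) K => A.map RCLike.re :=
          continuous_id.matrix_map RCLike.continuous_re
        exact h2.comp_continuousOn (hB.comp φ.continuous_of_finiteDimensional.continuousOn
          fun x hx => hφ0 x hx))
      (by
        intro x hx
        show (B (φ (-x))).map RCLike.re = -(B (φ x)).map RCLike.re
        rw [map_neg, hodd _ (hφ0 x hx)]
        ext i j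
        simp) δ h0 h1
    refine ⟨φ x, hφ0 x hx, ?_⟩
    rw [gd_map_real h, gt_map_real h]
    exact e
  · have hK : finrank ℝ K = 2 := by
      rw [(RCLike.complexLinearIsometryEquiv h).toLinearEquiv.finrank_eq,
        Complex.finrank_real_complex]
    rw [hK, mul_comm] at hE
    obtain ⟨φ, hφ⟩ := exists_inj_fin hE
    have hφ0 : ∀ x, x ≠ 0 → φ x ≠ 0 := fun x hx h => hx (hφ (h.trans (map_zero φ).symm))
    obtain ⟨x, hx, e⟩ := exists_ratio_C hn (E := Fin (2 * n + 1) → ℝ) (Module.finrank_fin_fun ℝ)
      (fun x => (B (φ x)).map (RCLike.complexRingEquiv h)) (by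
        have h2 : Continuous fun A : Matrix (Fin 2) (Fin n) K =>
            A.map (RCLike.complexRingEquiv h) :=
          continuous_id.matrix_map (RCLike.complexLinearIsometryEquiv h).continuous
        exact h2.comp_continuousOn (hB.comp φ.continuous_of_finiteDimensional.continuousOn
          fun x hx => hφ0 x hx))
      (by
        intro x hx
        show (B (φ (-x))).map (RCLike.complexRingEquiv h) =
          -(B (φ x)).map (RCLike.complexRingEquiv h)
        rw [map_neg, hodd _ (hφ0 x hx)]
        ext i j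
        rw [Matrix.map_apply, Matrix.neg_apply, map_neg, Matrix.neg_apply, Matrix.map_apply]) δ h0 h1
    refine ⟨φ x, hφ0 x hx, ?_⟩
    rw [gd_map_complex h, gt_map_complex h]
    exact e

end

end Pool.Agent.Helper17.CKF
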