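import Pool.Agent.Helper17.CKF.Defs

/-! # CKF-A1: the functional `Lam` -/

set_option autoImplicit false

namespace Pool.Agent.Helper17.CKF

open Pool.Agent.Helper19.HO Pool.Agent.Helper19.HO.P5

theorem Lam_add (n M k : ℕ) (a b : (Fin (k + 1) → (Fin (n + 1) → ℝ)) → ZMod 2) :
    Lam n M k (fun w => a w + b w) = Lam n M k a + Lam n M k b := by
  sorry

theorem Lam_zero (n M k : ℕ) :
    Lam n M k (fun _ : Fin (k + 1) → (Fin (n + 1) → ℝ) => 0) = 0 := by
  sorry

theorem Lam_mul (n M k : ℕ) (c : ZMod 2) (a : (Fin (k + 1) → (Fin (n + 1) → ℝ)) → ZMod 2) :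
    Lam n M k (fun w => c * a w) = c * Lam n M k a := by
  sorry

/-- Same proof as `sum_cp_succ` (Helper62/HO/P4.lean): after `sd_iterate_cob` the faces which omit
one of the first `k + 1` vertices cancel in pairs, the face which omits the last vertex runs
through all `cp (eb n) δ`, `δ : Fin (k + 1) → Bool`; split according to the last sign and flip all
signs when it is `-`; `sd_iterate_neg`. -/
theorem Lam_cob (n M k : ℕ) (a : (Fin (k + 1) → (Fin (n + 1) → ℝ)) → ZMod 2) :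
    Lam n M (k + 1) (cob a) = Lam n M k a + Lam n M k (fun w => a (-w)) := by
  sorry

/-- `sd_iterate_zero_dim`. -/
theorem Lam_dim0 (n M : ℕ) (a : (Fin 1 → (Fin (n + 1) → ℝ)) → ZMod 2) :
    Lam n M 0 a = a (fun _ => eb n 0) := by
  sorry

/-- `sd_iterate_congr` with `K = facet n ε`, `D = 2`, `mesh_le`, `cp_mem_facet`, `cross_dist`. -/
theorem Lam_congr {n M k : ℕ} (hk : k ≤ n) {δ : ℝ} (hδ : ((n : ℝ) / (n + 1)) ^ M * 2 < δ)
    (a a' : (Fin (k + 1) → (Fin (n + 1) → ℝ)) → ZMod 2)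
    (h : ∀ w : Fin (k + 1) → (Fin (n + 1) → ℝ),
      (∃ (l : ℕ) (ε : Fin l → Bool), ∀ i, w i ∈ facet n ε) →
      (∀ i j, dist (w i) (w j) < δ) → a w = a' w) :
    Lam n M k a = Lam n M k a' := by
  sorry

end Pool.Agent.Helper17.CKF
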