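import Pool.Agent.Helper17.CKF.Defs

/-! # CKF-A2: the algebra of families -/

set_option autoImplicit false

namespace Pool.Agent.Helper17.CKF

open Pool.Agent.Helper19.HO

variable {V1 V2 V3 : Type}

/-- `cob (cob a) = 0`, and coboundaries in different variables commute (everything mod 2). -/
theorem dT_dT (Φ : Fam V1 V2 V3) (k1 k2 k3 : ℕ) (σ : Fin (k1 + 1) → V1) (τ : Fin (k2 + 1) → V2)
    (ρ : Fin (k3 + 1) → V3) : dT (dT Φ) k1 k2 k3 σ τ ρ = 0 := by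
  sorry

theorem dT_unit (k1 k2 k3 : ℕ) (σ : Fin (k1 + 1) → V1) (τ : Fin (k2 + 1) → V2)
    (ρ : Fin (k3 + 1) → V3) : dT (unitF V1 V2 V3) k1 k2 k3 σ τ ρ = 0 := by
  sorry

theorem dT_Om (L : List (V1 → V2 → V3 → ZMod 2)) (k1 k2 k3 : ℕ) (σ : Fin (k1 + 1) → V1)
    (τ : Fin (k2 + 1) → V2) (ρ : Fin (k3 + 1) → V3) : dT (Om L) k1 k2 k3 σ τ ρ = 0 := by
  cases L with
  | nil => exact dT_unit k1 k2 k3 σ τ ρ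
  | cons θ L => exact dT_dT _ k1 k2 k3 σ τ ρ

/-- first edge in the first variable -/
def e1 (θ : V1 → V2 → V3 → ZMod 2) (Φ : Fam V1 V2 V3) : Fam V1 V2 V3
  | 0, _, _ => fun _ _ _ => 0
  | k + 1, k2, k3 => fun σ τ ρ =>
    (θ (σ 0) (τ 0) (ρ 0) + θ (σ 1) (τ 0) (ρ 0)) * Φ k k2 k3 (fun i => σ i.succ) τ ρ

/-- first edge in the second variable -/
def e2 (θ : V1 → V2 → V3 → ZMod 2) (Φ : Fam V1 V2 V3) : Fam V1 V2 V3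
  | _, 0, _ => fun _ _ _ => 0
  | k1, k + 1, k3 => fun σ τ ρ =>
    (θ (σ 0) (τ 0) (ρ 0) + θ (σ 0) (τ 1) (ρ 0)) * Φ k1 k k3 σ (fun i => τ i.succ) ρ

/-- first edge in the third variable -/
def e3 (θ : V1 → V2 → V3 → ZMod 2) (Φ : Fam V1 V2 V3) : Fam V1 V2 V3
  | _, _, 0 => fun _ _ _ => 0
  | k1, k2, k + 1 => fun σ τ ρ =>
    (θ (σ 0) (τ 0) (ρ 0) + θ (σ 0) (τ 0) (ρ 1)) * Φ k1 k2 k σ τ (fun i => ρ i.succ)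

/-- In `cob (fun σ' => θ (σ' 0) * Φ σ') σ` the face `i = 0` has first vertex `σ 1`, all other faces
have first vertex `σ 0`. -/
theorem dT_mulF (θ : V1 → V2 → V3 → ZMod 2) (Φ : Fam V1 V2 V3) (k1 k2 k3 : ℕ)
    (σ : Fin (k1 + 1) → V1) (τ : Fin (k2 + 1) → V2) (ρ : Fin (k3 + 1) → V3) :
    dT (mulF θ Φ) k1 k2 k3 σ τ ρ = e1 θ Φ k1 k2 k3 σ τ ρ + e2 θ Φ k1 k2 k3 σ τ ρ +
      e3 θ Φ k1 k2 k3 σ τ ρ + θ (σ 0) (τ 0) (ρ 0) * dT Φ k1 k2 k3 σ τ ρ := by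
  sorry

theorem Om_cons (θ : V1 → V2 → V3 → ZMod 2) (L : List (V1 → V2 → V3 → ZMod 2)) (k1 k2 k3 : ℕ)
    (σ : Fin (k1 + 1) → V1) (τ : Fin (k2 + 1) → V2) (ρ : Fin (k3 + 1) → V3) :
    Om (θ :: L) k1 k2 k3 σ τ ρ = e1 θ (Om L) k1 k2 k3 σ τ ρ + e2 θ (Om L) k1 k2 k3 σ τ ρ +
      e3 θ (Om L) k1 k2 k3 σ τ ρ := by
  have h := dT_mulF θ (Om L) k1 k2 k3 σ τ ρ
  rw [dT_Om, mul_zero, add_zero] at h
  exact h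

/-- Induction on `L` with `Om_cons`. -/
theorem Om_eq_zero (L : List (V1 → V2 → V3 → ZMod 2)) (k1 k2 k3 : ℕ)
    (σ : Fin (k1 + 1) → V1) (τ : Fin (k2 + 1) → V2) (ρ : Fin (k3 + 1) → V3)
    (h : ∃ θ ∈ L, ∃ c : ZMod 2, ∀ i j l, θ (σ i) (τ j) (ρ l) = c) :
    Om L k1 k2 k3 σ τ ρ = 0 := by
  sorry

/-- Induction on `L` with `Om_cons`. -/
theorem Om_congr (L : List (V1 → V2 → V3 → ZMod 2)) (k1 k2 k3 : ℕ)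
    (σ σ' : Fin (k1 + 1) → V1) (τ τ' : Fin (k2 + 1) → V2) (ρ ρ' : Fin (k3 + 1) → V3)
    (h : ∀ θ ∈ L, ∃ c : ZMod 2, ∀ i j l, θ (σ' i) (τ' j) (ρ' l) = θ (σ i) (τ j) (ρ l) + c) :
    Om L k1 k2 k3 σ' τ' ρ' = Om L k1 k2 k3 σ τ ρ := by
  sorry

end Pool.Agent.Helper17.CKF
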