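import Pool.Agent.Helper17.CKF.A1
import Pool.Agent.Helper17.CKF.A2

/-! # CKF-A3: evaluation of the product of coboundaries -/

set_option autoImplicit false

namespace Pool.Agent.Helper17.CKF

open Pool.Agent.Helper19.HO Pool.Agent.Helper19.HO.P5

/-- Induction on `L`.  `Om (θ :: L) = dT (mulF θ (Om L))`, so by `Lam_cob` in each variable
`Lam3 (k1,k2,k3) (Om (θ :: L)) = ∑_j Lam3 (k - e_j) ((1 + t_j) (mulF θ (Om L)))` (no term when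
`k_j = 0`), `t_j` = replace the `j`-th argument by its negative.  On tuples in facets (nonzero
vectors: `facet_subset`, `cross_ne_zero`) `(1 + t_j) (θ * Om L) = c_j * Om L` by the equivariance
and `Om_congr`; use `Lam_congr` with `δ = 3`.  Dimension `(0,0,0)` and `L = []`: `Lam_dim0`;
`L = []` and other dimensions: `unitF = 0`, `Lam_zero`. -/
theorem Lam3_Om {n1 n2 n3 : ℕ} (M : ℕ)
    (L : List (((Fin (n1 + 1) → ℝ) → (Fin (n2 + 1) → ℝ) → (Fin (n3 + 1) → ℝ) → ZMod 2) ×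
      (ZMod 2 × ZMod 2 × ZMod 2)))
    (h1 : ∀ p ∈ L, ∀ x y z, x ≠ 0 → y ≠ 0 → z ≠ 0 → p.1 (-x) y z = p.1 x y z + p.2.1)
    (h2 : ∀ p ∈ L, ∀ x y z, x ≠ 0 → y ≠ 0 → z ≠ 0 → p.1 x (-y) z = p.1 x y z + p.2.2.1)
    (h3 : ∀ p ∈ L, ∀ x y z, x ≠ 0 → y ≠ 0 → z ≠ 0 → p.1 x y (-z) = p.1 x y z + p.2.2.2)
    (k1 k2 k3 : ℕ) (hk1 : k1 ≤ n1) (hk2 : k2 ≤ n2) (hk3 : k3 ≤ n3) :
    Lam3 n1 n2 n3 M k1 k2 k3 (Om (L.map Prod.fst) k1 k2 k3) = coef (L.map Prod.snd) k1 k2 k3 := by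
  sorry

end Pool.Agent.Helper17.CKF
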