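import Pool.Agent.Helper17.CKF.A3

/-! # CKF-A4: the Borsuk-Ulam theorem for products of three spheres -/

set_option autoImplicit false

namespace Pool.Agent.Helper17.CKF

open Pool.Agent.Helper19.HO Pool.Agent.Helper19.HO.P5

/-- By contradiction.  On the compact set `cross n1 × cross n2 × cross n3` some `|f_i|` is at least
`η > 0` at every point (`max` over the finite list), and for suitable `δ > 0` every `f_i` varies by
less than `η` on pairs of points at distance `< δ` (compare `borsuk_ulam` in Helper19/HO/BU.lean).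
`θ_i = 1` where `f_i > 0`, `0` where `f_i < 0`, and where `f_i = 0` it is
`c.1 * s x + c.2.1 * s y + c.2.2 * s z` with `s : (Fin (n + 1) → ℝ) → ZMod 2` any function with
`s (-x) = s x + 1` for `x ≠ 0` (e.g. `1` iff the first nonzero coordinate is positive).  Choose `M`
with `(n_i / (n_i + 1)) ^ M * 2 < δ`.  On small tuples in facets some `θ_i` is constant, so
`Om = 0` (`Om_eq_zero`) and `Lam3 ... (Om ...) = 0` by `Lam_congr`, `Lam_zero`; but it is
`coef = 1` by `Lam3_Om`. -/
theorem borsuk_ulam3 {n1 n2 n3 : ℕ}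
    (L : List (((Fin (n1 + 1) → ℝ) → (Fin (n2 + 1) → ℝ) → (Fin (n3 + 1) → ℝ) → ℝ) ×
      (ZMod 2 × ZMod 2 × ZMod 2)))
    (hL : ∀ p ∈ L, Eqv p.1 p.2) (hc : coef (L.map Prod.snd) n1 n2 n3 = 1) :
    ∃ x y z, x ≠ 0 ∧ y ≠ 0 ∧ z ≠ 0 ∧ ∀ p ∈ L, p.1 x y z = 0 := by
  sorry

end Pool.Agent.Helper17.CKF
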