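import Pool.Agent.Helper17.CKF.Defs

/-! # CKF-A5: computation of coefficients -/

set_option autoImplicit false

namespace Pool.Agent.Helper17.CKF

/-- Induction on `L` (generalise: `coef L k 0 0 = if k = L.length then 1 else 0`). -/
theorem coef_top (L : List (ZMod 2 × ZMod 2 × ZMod 2)) (h : ∀ c ∈ L, c.1 = 1) :
    coef L L.length 0 0 = 1 := by
  sorry

theorem coef_b (L : List (ZMod 2 × ZMod 2 × ZMod 2)) (h : ∀ c ∈ L, c.1 = 1) (k : ℕ)
    (hk : k + 1 = L.length) : coef L k 1 0 = (L.map fun c => c.2.1).sum := by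
  sorry

theorem coef_c (L : List (ZMod 2 × ZMod 2 × ZMod 2)) (h : ∀ c ∈ L, c.1 = 1) (k : ℕ)
    (hk : k + 1 = L.length) : coef L k 0 1 = (L.map fun c => c.2.2).sum := by
  sorry

theorem coef_bc (L : List (ZMod 2 × ZMod 2 × ZMod 2)) (h : ∀ c ∈ L, c.1 = 1) (k : ℕ)
    (hk : k + 2 = L.length) : coef L k 1 1 = (L.map fun c => c.2.1).sum *
      (L.map fun c => c.2.2).sum + (L.map fun c => c.2.1 * c.2.2).sum := by
  sorry

theorem coef_choose (q i : ℕ) (hi : i ≤ q) :
    coef (List.replicate q (1, 1, 0)) (q - i) i 0 = (q.choose i : ZMod 2) := by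
  sorry

theorem coef_pp (p : ℕ) :
    coef (List.replicate p (0, 1, 0) ++ List.replicate p (1, 1, 0)) p p 0 = 1 := by
  sorry

end Pool.Agent.Helper17.CKF
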