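import Pool.Agent.Helper17.CKF.Defs

/-! # CKF-B1: the squared Frobenius norm -/

set_option autoImplicit false

namespace Pool.Agent.Helper17.CKF

open Matrix

variable {n : ℕ}

theorem fn_nonneg (A : Matrix (Fin n) (Fin n) ℝ) : 0 ≤ fn A := by
  unfold fn
  exact Finset.sum_nonneg fun i _ => Finset.sum_nonneg fun j _ => sq_nonneg _

theorem fn_eq_zero {A : Matrix (Fin n) (Fin n) ℝ} (h : fn A = 0) : A = 0 := by
  unfold fn at h
  ext i j
  have h1 := (Finset.sum_eq_zero_iff_of_nonneg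
    (fun i _ => Finset.sum_nonneg fun j _ => sq_nonneg (A i j))).mp h i (Finset.mem_univ i)
  have h2 := (Finset.sum_eq_zero_iff_of_nonneg
    (fun j _ => sq_nonneg (A i j))).mp h1 j (Finset.mem_univ j)
  exact pow_eq_zero_iff (two_ne_zero) |>.mp h2

theorem fn_eq_trace (A : Matrix (Fin n) (Fin n) ℝ) : fn A = (Aᵀ * A).trace := by
  unfold fn
  rw [Matrix.trace, Finset.sum_comm]
  refine Finset.sum_congr rfl fun i _ => ?_
  rw [Matrix.diag_apply, Matrix.mul_apply]
  refine Finset.sum_congr rfl fun j _ => ?_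
  rw [Matrix.transpose_apply, sq]

theorem continuous_fn : Continuous (fn : Matrix (Fin n) (Fin n) ℝ → ℝ) := by
  unfold fn
  exact continuous_finsetSum _ fun i _ => continuous_finsetSum _ fun j _ =>
    (continuous_id.matrix_elem i j).pow 2

theorem fn_transpose (A : Matrix (Fin n) (Fin n) ℝ) : fn Aᵀ = fn A := by
  unfold fn
  rw [Finset.sum_comm]
  rfl

/-- Cauchy-Schwarz. -/
theorem fn_mul_le (A B : Matrix (Fin n) (Fin n) ℝ) : fn (A * B) ≤ fn A * fn B := by
  have h : fn A * fn B = ∑ i, ∑ j, (∑ k, A i k ^ 2) * (∑ k, B k j ^ 2) := by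
    unfold fn
    rw [Finset.sum_comm (f := fun i j => B i j ^ 2), Finset.sum_mul_sum]
  rw [h]
  unfold fn
  refine Finset.sum_le_sum fun i _ => Finset.sum_le_sum fun j _ => ?_
  rw [Matrix.mul_apply]
  exact Finset.sum_mul_sq_le_sq_mul_sq _ _ _

theorem fn_mul_orth (A B : Matrix (Fin n) (Fin n) ℝ) (hB : B * Bᵀ = 1) : fn (A * B) = fn A := by
  rw [fn_eq_trace, fn_eq_trace, Matrix.transpose_mul, Matrix.mul_assoc, Matrix.trace_mul_comm,
    Matrix.mul_assoc, Matrix.mul_assoc, hB, Matrix.mul_one]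

theorem fn_orth_mul (A B : Matrix (Fin n) (Fin n) ℝ) (hB : B * Bᵀ = 1) : fn (B * A) = fn A := by
  rw [fn_eq_trace, fn_eq_trace, Matrix.transpose_mul, Matrix.mul_assoc, ← Matrix.mul_assoc Bᵀ,
    mul_eq_one_comm.mp hB, Matrix.one_mul]

theorem B1_sub (X Y : Matrix (Fin n) (Fin n) ℝ) :
    fn (X - Y) = fn X + fn Y - 2 * (Yᵀ * X).trace := by
  have h : (Xᵀ * Y).trace = (Yᵀ * X).trace := by
    rw [← Matrix.trace_transpose (Xᵀ * Y), Matrix.transpose_mul, Matrix.transpose_transpose]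
  rw [fn_eq_trace, fn_eq_trace, fn_eq_trace, Matrix.transpose_sub, Matrix.sub_mul, Matrix.mul_sub,
    Matrix.mul_sub, Matrix.trace_sub, Matrix.trace_sub, Matrix.trace_sub, h]
  ring

/-- `tr (AᵀA (1 + S⁴ - 2 S²)) = tr ((S² - 1) AᵀA (S² - 1))`. -/
theorem fn_mid_right (A S : Matrix (Fin n) (Fin n) ℝ) (hS : Sᵀ = S) :
    fn A + fn (A * S * S) - 2 * fn (A * S) = fn (A * S * S - A) := by
  rw [B1_sub, fn_eq_trace (A * S)]
  have h : ((A * S)ᵀ * (A * S)).trace = (Aᵀ * (A * S * S)).trace := by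
    rw [Matrix.transpose_mul, hS, Matrix.mul_assoc, Matrix.trace_mul_comm, Matrix.mul_assoc]
  rw [h]
  ring

theorem fn_mid_left (B S : Matrix (Fin n) (Fin n) ℝ) (hS : Sᵀ = S) :
    fn B + fn (S * (S * B)) - 2 * fn (S * B) = fn (S * (S * B) - B) := by
  have h := fn_mid_right Bᵀ S hS
  rw [← fn_transpose (Bᵀ * S * S), ← fn_transpose (Bᵀ * S), ← fn_transpose (Bᵀ * S * S - Bᵀ),
    Matrix.transpose_sub, Matrix.transpose_mul, Matrix.transpose_mul, Matrix.transpose_transpose,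
    hS, fn_transpose B] at h
  exact h

end Pool.Agent.Helper17.CKF
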