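import Pool.Agent.Helper17.CKF.B1

/-! # CKF-B2: the function `N` and the weight -/

set_option autoImplicit false

namespace Pool.Agent.Helper17.CKF

open Matrix Pool.Agent.Helper40.CK

variable {G : Type} [Group G] [TopologicalSpace G] {n : ℕ}

theorem MatGroup.N_nonneg (M : MatGroup G n) (g : G) : 0 ≤ M.N g :=
  add_nonneg (fn_nonneg _) (fn_nonneg _)

theorem MatGroup.continuous_N [IsTopologicalGroup G] (M : MatGroup G n) : Continuous M.N :=
  (continuous_fn.comp M.cont).add (continuous_fn.comp (M.cont.comp continuous_inv))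

theorem B2_inv_mul (M : MatGroup G n) (g : G) : M.ι g⁻¹ * M.ι g = 1 := by
  rw [← map_mul, inv_mul_cancel, map_one]

theorem B2_mul_inv (M : MatGroup G n) (g : G) : M.ι g * M.ι g⁻¹ = 1 := by
  rw [← map_mul, mul_inv_cancel, map_one]

/-- `N (g k) = N g` for orthogonal `k`. -/
theorem MatGroup.N_mul_orth (M : MatGroup G n) (g k : G) (hk : M.ι k * (M.ι k)ᵀ = 1) :
    M.N (g * k) = M.N g := by
  have h1 : M.ι k⁻¹ = (M.ι k)ᵀ := by
    calc M.ι k⁻¹ = M.ι k⁻¹ * (M.ι k * (M.ι k)ᵀ) := by rw [hk, mul_one]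
      _ = (M.ι k)ᵀ := by rw [← mul_assoc, B2_inv_mul, one_mul]
  unfold MatGroup.N
  rw [map_mul, fn_mul_orth _ _ hk, _root_.mul_inv_rev, map_mul, fn_orth_mul]
  rw [h1, transpose_transpose]
  exact mul_eq_one_comm.1 hk

/-- a positive definite matrix whose square is one -/
theorem B2_posDef_sq {S : Matrix (Fin n) (Fin n) ℝ} (hS : S.PosDef) (h : S * S = 1) : S = 1 := by
  have h1 : (S + 1).PosDef := hS.add PosDef.one
  have h2 : IsUnit (S + 1) := h1.isUnit
  have h3 : (S - 1) * (S + 1) = 0 := by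
    rw [sub_mul, mul_add, mul_add, h, mul_one, one_mul, mul_one]
    abel
  have h4 := (h2.mul_left_eq_zero).1 h3
  exact sub_eq_zero.1 h4

/-- Strict midpoint convexity: `N g + N (g r r) - 2 N (g r) > 0` if `ι r` is positive definite and
`r ≠ 1` (`fn_mid_right`, `fn_mid_left` with `S = ι r`, `S = ι r⁻¹`; `A S² = A`, `A` invertible,
gives `S² = 1`, hence `S = 1`). -/
theorem MatGroup.N_mid (M : MatGroup G n) (g r : G) (hr : (M.ι r).PosDef) (h1 : r ≠ 1) :
    2 * M.N (g * r) < M.N g + M.N (g * r * r) := by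
  have hS : (M.ι r)ᵀ = M.ι r := by
    rw [← conjTranspose_eq_transpose_of_trivial]
    exact hr.isHermitian.eq
  have hS' : (M.ι r⁻¹)ᵀ = M.ι r⁻¹ := by
    have h2 : M.ι r⁻¹ = (M.ι r)⁻¹ := (Matrix.inv_eq_left_inv (B2_inv_mul M r)).symm
    rw [h2, Matrix.transpose_nonsing_inv, hS]
  have e1 := fn_mid_right (M.ι g) (M.ι r) hS
  have e2 := fn_mid_left (M.ι g⁻¹) (M.ι r⁻¹) hS'
  have e3 : 0 ≤ fn (M.ι r⁻¹ * (M.ι r⁻¹ * M.ι g⁻¹) - M.ι g⁻¹) := fn_nonneg _
  have e4 : 0 < fn (M.ι g * M.ι r * M.ι r - M.ι g) := by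
    refine lt_of_le_of_ne (fn_nonneg _) fun h2 => h1 ?_
    have h3 := sub_eq_zero.1 (fn_eq_zero h2.symm)
    have h4 : M.ι r * M.ι r = 1 := by
      have h5 := congrArg (M.ι g⁻¹ * ·) h3
      rw [mul_assoc (M.ι g), ← mul_assoc (M.ι g⁻¹), B2_inv_mul, one_mul] at h5
      exact h5
    apply M.inj
    rw [map_one]
    exact B2_posDef_sq hr h4
  have n1 : M.N (g * r) = fn (M.ι g * M.ι r) + fn (M.ι r⁻¹ * M.ι g⁻¹) := by
    unfold MatGroup.N
    rw [map_mul, _root_.mul_inv_rev, map_mul]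
  have n2 : M.N (g * r * r) = fn (M.ι g * M.ι r * M.ι r) +
      fn (M.ι r⁻¹ * (M.ι r⁻¹ * M.ι g⁻¹)) := by
    unfold MatGroup.N
    rw [map_mul, map_mul, _root_.mul_inv_rev, _root_.mul_inv_rev, map_mul, map_mul]
  have n3 : M.N g = fn (M.ι g) + fn (M.ι g⁻¹) := rfl
  rw [n1, n2, n3]
  linarith

/-- `G` is locally compact and Hausdorff. -/
theorem MatGroup.locallyCompact [IsTopologicalGroup G] (M : MatGroup G n) :
    LocallyCompactSpace G := by
  refine (M.compact (M.N 1 + 1)).locallyCompactSpace_of_mem_nhds_of_group (x := 1) ?_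
  have h1 : {g : G | M.N g < M.N 1 + 1} ∈ nhds (1 : G) :=
    (isOpen_lt M.continuous_N continuous_const).mem_nhds (lt_add_one (M.N 1))
  exact Filter.mem_of_superset h1 fun g (hg : M.N g < M.N 1 + 1) => hg.le

theorem MatGroup.t2 (M : MatGroup G n) : T2Space G :=
  T2Space.of_injective_continuous M.inj M.cont

/-- `u g = inf { N (g h) : h ∈ H }` is right `H`-invariant, continuous (`u < c` is a union of open
sets; `u ≤ c` is `{N ≤ c} * H`, a compact set times a closed set; the infimum is attained because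
`H` is closed and `N` has compact sublevel sets), and `w g = max 0 (R - u g)`, `R` large. -/
theorem exists_weight [IsTopologicalGroup G] (M : MatGroup G n) {H : Subgroup G}
    (hH : IsClosed (H : Set G)) {D : Set G} (hD : IsCompact D) :
    ∃ w : G → ℝ, Continuous w ∧ (∀ g, 0 ≤ w g) ∧ (∀ g, ∀ h ∈ H, w (g * h) = w g) ∧
      (∀ g ∈ D, 0 < w g) ∧ ∃ C : Set G, IsCompact C ∧ ∀ g, w g ≠ 0 → ∃ h ∈ H, g * h ∈ C := by
  have hlc := M.locallyCompact
  have ht2 : T2Space (G ⧸ H) := by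
    rw [t2Space_iff_of_isOpenQuotientMap (QuotientGroup.isOpenQuotientMap_mk (N := H))]
    have h1 : {q : G × G | (q.1 : G ⧸ H) = (q.2 : G ⧸ H)} =
        (fun q : G × G => q.1⁻¹ * q.2) ⁻¹' (H : Set G) := by
      ext q
      exact QuotientGroup.eq
    rw [h1]
    exact hH.preimage (by fun_prop)
  obtain ⟨f, hf1, -, hfc, hf01⟩ := exists_continuous_one_zero_of_isCompact
    (hD.image (QuotientGroup.continuous_mk (N := H))) isClosed_empty (Set.disjoint_empty _)
  refine ⟨fun g => f (g : G ⧸ H), f.continuous.comp QuotientGroup.continuous_mk,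
    fun g => (hf01 _).1, ?_, ?_, ?_⟩
  · intro g h hh
    have h1 : ((g * h : G) : G ⧸ H) = (g : G ⧸ H) := by
      rw [QuotientGroup.mk_mul_of_mem g hh]
    dsimp only
    rw [h1]
  · intro g hg
    have h1 := hf1 (Set.mem_image_of_mem _ hg)
    dsimp only
    rw [h1]
    exact one_pos
  · choose C hC hCx using fun x : G => exists_compact_mem_nhds x
    have hop : IsOpenMap (fun g : G => (g : G ⧸ H)) := QuotientGroup.isOpenMap_coe
    obtain ⟨t, ht⟩ := (show IsCompact (tsupport f) from hfc).elim_finite_subcover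
      (fun x : G => (fun g : G => (g : G ⧸ H)) '' interior (C x))
      (fun x => hop _ isOpen_interior) (by
        intro y _
        obtain ⟨x, rfl⟩ := QuotientGroup.mk_surjective y
        exact Set.mem_iUnion.2 ⟨x, x, mem_interior_iff_mem_nhds.2 (hCx x), rfl⟩)
    refine ⟨⋃ x ∈ t, C x, t.isCompact_biUnion fun x _ => hC x, fun g hg => ?_⟩
    have h1 := ht (subset_tsupport f (show (g : G ⧸ H) ∈ Function.support f from hg))
    simp only [Set.mem_iUnion] at h1
    obtain ⟨x, hx, z, hz, hzg⟩ := h1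
    have h2 : (z : G ⧸ H) = (g : G ⧸ H) := hzg
    rw [eq_comm, QuotientGroup.eq] at h2
    refine ⟨g⁻¹ * z, h2, ?_⟩
    rw [mul_inv_cancel_left]
    simp only [Set.mem_iUnion]
    exact ⟨x, hx, interior_subset hz⟩

end Pool.Agent.Helper17.CKF
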