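import Pool.Agent.Helper17.CKF.B2

/-! # CKF-B3: the convex function on the cosets -/

set_option autoImplicit false

namespace Pool.Agent.Helper17.CKF

open Matrix Pool.Agent.Helper40.CK Topology

variable {G : Type} [Group G] [TopologicalSpace G] [IsTopologicalGroup G] {n : ℕ}

/-- compact lifts: there is a compact `D ⊆ G` with `Γ D H = G` -/
theorem exists_compact_lift (M : MatGroup G n) {H Γ : Subgroup G}
    (hΓ : IsCocompactDiscontinuousGroup Γ H) :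
    ∃ D : Set G, IsCompact D ∧ ∀ g : G, ∃ γ ∈ Γ, ∃ d ∈ D, ∃ h ∈ H, g = γ * d * h := by
  haveI := M.locallyCompact
  obtain ⟨K, hK, hcov⟩ := compact_iff.mp hΓ.compact
  choose C hC hCx using fun x : G => exists_compact_mem_nhds x
  have hsub : K ⊆ ⋃ x : G, (fun g : G => (g : G ⧸ H)) '' interior (C x) := by
    intro y _
    obtain ⟨x, rfl⟩ := QuotientGroup.mk_surjective y
    exact Set.mem_iUnion.mpr ⟨x, x, mem_interior_iff_mem_nhds.mpr (hCx x), rfl⟩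
  obtain ⟨t, ht⟩ := hK.elim_finite_subcover _
    (fun x => (QuotientGroup.isOpenMap_coe : IsOpenMap (fun g : G => (g : G ⧸ H))) _
      isOpen_interior) hsub
  refine ⟨⋃ x ∈ t, C x, t.isCompact_biUnion fun x _ => hC x, fun g => ?_⟩
  obtain ⟨γ, hγ, hx⟩ := hcov (g : G ⧸ H)
  have h1 := ht hx
  simp only [Set.mem_iUnion] at h1
  obtain ⟨y, hy, z, hz, hzx⟩ := h1
  have h2 : ((z : G) : G ⧸ H) = ((γ * g : G) : G ⧸ H) := hzx
  have h3 : z⁻¹ * (γ * g) ∈ H := QuotientGroup.eq.mp h2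
  refine ⟨γ⁻¹, Γ.inv_mem hγ, z, ?_, z⁻¹ * (γ * g), h3, ?_⟩
  · simp only [Set.mem_iUnion]
    exact ⟨y, hy, interior_subset hz⟩
  · group

/-- For compact `C`, `C'` only finitely many `γ` in `Γ` satisfy `γ C H ∩ C' H ≠ ∅`. -/
theorem finite_meet {H Γ : Subgroup G} (hΓ : IsDiscontinuousGroup Γ H) {C C' : Set G}
    (hC : IsCompact C) (hC' : IsCompact C') :
    {γ : G | γ ∈ Γ ∧ ∃ c ∈ C, ∃ c' ∈ C', ∃ h ∈ H, γ * c = c' * h}.Finite := by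
  refine (finite_two hΓ.proper (hC.image QuotientGroup.continuous_mk)
    (hC'.image QuotientGroup.continuous_mk)).subset ?_
  rintro γ ⟨hγ, c, hc, c', hc', h, hh, he⟩
  refine ⟨hγ, ((c : G) : G ⧸ H), ⟨c, hc, rfl⟩, c', hc', ?_⟩
  show ((c' : G) : G ⧸ H) = ((γ * c : G) : G ⧸ H)
  rw [he]
  exact (QuotientGroup.mk_mul_of_mem c' hh).symm

/-- local finiteness of the family `w (γ⁻¹ g)` -/
theorem b3_fin {H Γ : Subgroup G} (hΓ : IsDiscontinuousGroup Γ H) {w : G → ℝ} {C : Set G}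
    (hC : IsCompact C) (hw : ∀ g, w g ≠ 0 → ∃ h ∈ H, g * h ∈ C) {V : Set G} (hV : IsCompact V) :
    {γ : Γ | ∃ g ∈ V, w ((γ : G)⁻¹ * g) ≠ 0}.Finite := by
  refine ((finite_meet hΓ hC hV).preimage
    (Subtype.val_injective.injOn (s := (Subtype.val : Γ → G) ⁻¹' _))).subset ?_
  rintro γ ⟨g, hg, hne⟩
  obtain ⟨h, hh, hc⟩ := hw _ hne
  refine ⟨γ.2, (γ : G)⁻¹ * g * h, hc, g, hg, h, hh, ?_⟩
  group

/-- `Φ g h = ∑_{γ ∈ Γ} w (γ⁻¹ g) N (γ⁻¹ g h)` (a locally finite sum), `w` from `exists_weight` for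
the set `D` of `exists_compact_lift`.  (5): some `w (γ⁻¹ g)` is positive; `N_mid`.  (6): near `g₀`
one `w (γ⁻¹ g)` is at least `ε > 0`, so `Φ g h ≤ c` gives `N (γ⁻¹ g h) ≤ c / ε`. -/
theorem exists_Phi (M : MatGroup G n) {H Γ : Subgroup G} (hH : IsClosed (H : Set G))
    (hΓ : IsCocompactDiscontinuousGroup Γ H) :
    ∃ Φ : G → G → ℝ, Continuous (fun p : G × G => Φ p.1 p.2) ∧
      (∀ γ ∈ Γ, ∀ g h, Φ (γ * g) h = Φ g h) ∧
      (∀ h₀ ∈ H, ∀ g h, Φ (g * h₀) h = Φ g (h₀ * h)) ∧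
      (∀ g h k, M.ι k * (M.ι k)ᵀ = 1 → Φ g (h * k) = Φ g h) ∧
      (∀ g h r, (M.ι r).PosDef → r ≠ 1 → 2 * Φ g (h * r) < Φ g h + Φ g (h * r * r)) ∧
      (∀ g₀ c, ∃ U ∈ 𝓝 g₀, ∃ C : Set G, IsCompact C ∧ ∀ g ∈ U, ∀ h, Φ g h ≤ c → h ∈ C) := by
  classical
  haveI := M.locallyCompact
  obtain ⟨D, hD, hlift⟩ := exists_compact_lift M hΓ
  obtain ⟨w, hwc, hw0, hwH, hwD, C, hC, hwC⟩ := exists_weight M hH hD
  have hfin : ∀ g : G, {γ : Γ | w ((γ : G)⁻¹ * g) ≠ 0}.Finite := by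
    intro g
    refine (b3_fin hΓ.toIsDiscontinuousGroup hC hwC (isCompact_singleton (x := g))).subset ?_
    intro γ hγ
    exact ⟨g, rfl, hγ⟩
  have hpos : ∀ g : G, ∃ γ : Γ, 0 < w ((γ : G)⁻¹ * g) := by
    intro g
    obtain ⟨γ, hγ, d, hd, h, hh, he⟩ := hlift g
    refine ⟨⟨γ, hγ⟩, ?_⟩
    have h1 : (γ : G)⁻¹ * g = d * h := by
      rw [he]
      group
    show 0 < w (γ⁻¹ * g)
    rw [h1, hwH d h hh]
    exact hwD d hd
  have hterm : ∀ (g h : G) (γ : Γ), 0 ≤ w ((γ : G)⁻¹ * g) * M.N ((γ : G)⁻¹ * g * h) :=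
    fun g h γ => mul_nonneg (hw0 _) (M.N_nonneg _)
  have hsum : ∀ g h : G, (∑ᶠ γ : Γ, w ((γ : G)⁻¹ * g) * M.N ((γ : G)⁻¹ * g * h)) =
      ∑ γ ∈ (hfin g).toFinset, w ((γ : G)⁻¹ * g) * M.N ((γ : G)⁻¹ * g * h) := by
    intro g h
    refine finsum_eq_sum_of_support_subset _ ?_
    intro γ hγ
    rw [Set.Finite.coe_toFinset]
    exact left_ne_zero_of_mul hγ
  refine ⟨fun g h => ∑ᶠ γ : Γ, w ((γ : G)⁻¹ * g) * M.N ((γ : G)⁻¹ * g * h),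
    ?_, ?_, ?_, ?_, ?_, ?_⟩
  · have hcN := M.continuous_N
    refine continuous_finsum (f := fun (γ : Γ) (p : G × G) =>
      w ((γ : G)⁻¹ * p.1) * M.N ((γ : G)⁻¹ * p.1 * p.2)) ?_ ?_
    · intro γ
      exact (hwc.comp (continuous_const.mul continuous_fst)).mul
        (hcN.comp ((continuous_const.mul continuous_fst).mul continuous_snd))
    · intro p₀
      obtain ⟨V, hV, hVn⟩ := exists_compact_mem_nhds p₀.1
      refine ⟨V ×ˢ Set.univ, ?_, ?_⟩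
      · exact prod_mem_nhds hVn Filter.univ_mem
      · refine (b3_fin hΓ.toIsDiscontinuousGroup hC hwC hV).subset ?_
        rintro γ ⟨p, hp, hpV⟩
        exact ⟨p.1, hpV.1, left_ne_zero_of_mul hp⟩
  · intro γ₀ hγ₀ g h
    have h1 := finsum_comp_equiv (Equiv.mulLeft (⟨γ₀, hγ₀⟩ : Γ))
      (f := fun γ : Γ => w ((γ : G)⁻¹ * (γ₀ * g)) * M.N ((γ : G)⁻¹ * (γ₀ * g) * h))
    show (∑ᶠ γ : Γ, w ((γ : G)⁻¹ * (γ₀ * g)) * M.N ((γ : G)⁻¹ * (γ₀ * g) * h)) =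
      ∑ᶠ γ : Γ, w ((γ : G)⁻¹ * g) * M.N ((γ : G)⁻¹ * g * h)
    rw [← h1]
    refine finsum_congr fun γ => ?_
    have h2 : (((Equiv.mulLeft (⟨γ₀, hγ₀⟩ : Γ)) γ : Γ) : G)⁻¹ * (γ₀ * g) = (γ : G)⁻¹ * g := by
      show (γ₀ * (γ : G))⁻¹ * (γ₀ * g) = (γ : G)⁻¹ * g
      group
    rw [h2]
  · intro h₀ hh₀ g h
    refine finsum_congr fun γ => ?_
    have h1 : (γ : G)⁻¹ * (g * h₀) = (γ : G)⁻¹ * g * h₀ := by group
    have h2 : (γ : G)⁻¹ * g * h₀ * h = (γ : G)⁻¹ * g * (h₀ * h) := by group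
    rw [h1, hwH _ _ hh₀, h2]
  · intro g h k hk
    refine finsum_congr fun γ => ?_
    have h1 : (γ : G)⁻¹ * g * (h * k) = (γ : G)⁻¹ * g * h * k := by group
    rw [h1, M.N_mul_orth _ _ hk]
  · intro g h r hr hr1
    show 2 * (∑ᶠ γ : Γ, w ((γ : G)⁻¹ * g) * M.N ((γ : G)⁻¹ * g * (h * r))) <
      (∑ᶠ γ : Γ, w ((γ : G)⁻¹ * g) * M.N ((γ : G)⁻¹ * g * h)) +
        ∑ᶠ γ : Γ, w ((γ : G)⁻¹ * g) * M.N ((γ : G)⁻¹ * g * (h * r * r))
    rw [hsum, hsum, hsum, Finset.mul_sum, ← Finset.sum_add_distrib]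
    obtain ⟨γ₁, hγ₁⟩ := hpos g
    have hm : ∀ γ : Γ, 2 * M.N ((γ : G)⁻¹ * g * (h * r)) <
        M.N ((γ : G)⁻¹ * g * h) + M.N ((γ : G)⁻¹ * g * (h * r * r)) := by
      intro γ
      have h1 := M.N_mid ((γ : G)⁻¹ * g * h) r hr hr1
      have h2 : (γ : G)⁻¹ * g * h * r = (γ : G)⁻¹ * g * (h * r) := by group
      have h3 : (γ : G)⁻¹ * g * (h * r) * r = (γ : G)⁻¹ * g * (h * r * r) := by group
      rw [h2, h3] at h1
      exact h1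
    refine Finset.sum_lt_sum ?_ ⟨γ₁, ?_, ?_⟩
    · intro γ _
      have h1 := mul_le_mul_of_nonneg_left (hm γ).le (hw0 ((γ : G)⁻¹ * g))
      nlinarith [h1]
    · rw [Set.Finite.mem_toFinset]
      exact hγ₁.ne'
    · have h1 := mul_lt_mul_of_pos_left (hm γ₁) hγ₁
      nlinarith [h1]
  · intro g₀ c
    obtain ⟨γ₁, hγ₁⟩ := hpos g₀
    obtain ⟨V, hV, hVn⟩ := exists_compact_mem_nhds g₀
    have hcont : Continuous fun g : G => w ((γ₁ : G)⁻¹ * g) :=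
      hwc.comp (continuous_const.mul continuous_id)
    have hU : {g : G | w ((γ₁ : G)⁻¹ * g₀) / 2 < w ((γ₁ : G)⁻¹ * g)} ∈ 𝓝 g₀ := by
      refine (isOpen_lt continuous_const hcont).mem_nhds ?_
      show w ((γ₁ : G)⁻¹ * g₀) / 2 < w ((γ₁ : G)⁻¹ * g₀)
      linarith
    refine ⟨_, Filter.inter_mem hU hVn,
      (fun q : G × G => q.1⁻¹ * (γ₁ : G) * q.2) ''
        (V ×ˢ {g : G | fn (M.ι g) + fn (M.ι g⁻¹) ≤ c / (w ((γ₁ : G)⁻¹ * g₀) / 2)}), ?_, ?_⟩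
    · exact (hV.prod (M.compact _)).image
        ((continuous_fst.inv.mul continuous_const).mul continuous_snd)
    · rintro g ⟨hg1, hg2⟩ h hle
      have hle' : (∑ᶠ γ : Γ, w ((γ : G)⁻¹ * g) * M.N ((γ : G)⁻¹ * g * h)) ≤ c := hle
      have hsupp : (Function.support fun γ : Γ =>
          w ((γ : G)⁻¹ * g) * M.N ((γ : G)⁻¹ * g * h)).Finite := by
        refine (hfin g).subset ?_
        intro γ hγ
        exact left_ne_zero_of_mul hγ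
      have h1 : w ((γ₁ : G)⁻¹ * g) * M.N ((γ₁ : G)⁻¹ * g * h) ≤ c :=
        (single_le_finsum γ₁ hsupp (hterm g h)).trans hle'
      have h2 : w ((γ₁ : G)⁻¹ * g₀) / 2 * M.N ((γ₁ : G)⁻¹ * g * h) ≤ c :=
        (mul_le_mul_of_nonneg_right (le_of_lt hg1) (M.N_nonneg _)).trans h1
      have h3 : M.N ((γ₁ : G)⁻¹ * g * h) ≤ c / (w ((γ₁ : G)⁻¹ * g₀) / 2) := by
        rw [le_div_iff₀ (by linarith)]
        linarith
      refine ⟨(g, (γ₁ : G)⁻¹ * g * h), ⟨hg2, h3⟩, ?_⟩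
      show g⁻¹ * (γ₁ : G) * ((γ₁ : G)⁻¹ * g * h) = h
      group

end Pool.Agent.Helper17.CKF
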