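import Pool.Agent.Helper17.CKF.B2

/-! # CKF-B4: the minimiser -/

set_option autoImplicit false

namespace Pool.Agent.Helper17.CKF

open Matrix Topology

variable {G : Type} [Group G] [TopologicalSpace G] [IsTopologicalGroup G] {n : ℕ}

private theorem b4_trace_zero {P X : Matrix (Fin n) (Fin n) ℝ} (hP : P.PosDef)
    (hX : (Xᵀ * P * X).trace = 0) : X = 0 := by
  have h1 : ∀ j, (Xᵀ * P * X) j j = (fun i => X i j) ⬝ᵥ (P *ᵥ fun i => X i j) := by
    intro j
    rw [Matrix.mul_assoc, Matrix.mul_apply]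
    refine Finset.sum_congr rfl fun i _ => ?_
    rw [Matrix.transpose_apply, Matrix.mul_apply]
    rfl
  have h2 : ∀ j, 0 ≤ (Xᵀ * P * X) j j := by
    intro j
    rw [h1 j]
    by_cases h : (fun i => X i j) = 0
    · rw [h]
      simp
    · have := hP.dotProduct_mulVec_pos h
      simpa using this.le
  have h3 : ∀ j, (Xᵀ * P * X) j j = 0 := by
    intro j
    have h4 : ∑ j, (Xᵀ * P * X) j j = 0 := hX
    exact (Finset.sum_eq_zero_iff_of_nonneg (fun i _ => h2 i)).mp h4 j (Finset.mem_univ j)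
  ext i j
  by_contra h
  have h5 : (fun i => X i j) ≠ 0 := by
    intro h6
    exact h (congrFun h6 i)
  have h7 := hP.dotProduct_mulVec_pos h5
  have h8 := h3 j
  rw [h1 j] at h8
  have h9 : star (fun i => X i j) = fun i => X i j := by
    funext i
    simp
  rw [h9, h8] at h7
  exact lt_irrefl _ h7

/-- If `s`, `s'` are positive definite and `s' = s k` with `k` orthogonal, then `s' = s`
(`s'² = s' s'ᵀ = s²`, uniqueness of positive square roots). -/
theorem posDef_eq_of_orth {S S' K : Matrix (Fin n) (Fin n) ℝ} (hS : S.PosDef) (hS' : S'.PosDef)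
    (hK : K * Kᵀ = 1) (h : S' = S * K) : S' = S := by
  have hSt : Sᵀ = S := by
    have := hS.1
    rwa [Matrix.IsHermitian, Matrix.conjTranspose_eq_transpose_of_trivial] at this
  have hSt' : S'ᵀ = S' := by
    have := hS'.1
    rwa [Matrix.IsHermitian, Matrix.conjTranspose_eq_transpose_of_trivial] at this
  have h1 : S' * S' = S * S := by
    calc S' * S' = S' * S'ᵀ := by rw [hSt']
      _ = S * K * (S * K)ᵀ := by rw [← h]
      _ = S * K * (Kᵀ * Sᵀ) := by rw [Matrix.transpose_mul]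
      _ = S * (K * Kᵀ) * Sᵀ := by simp only [Matrix.mul_assoc]
      _ = S * S := by rw [hK, Matrix.mul_one, hSt]
  have h2 : ((S' - S)ᵀ * (S' + S) * (S' - S)).trace = 0 := by
    rw [Matrix.transpose_sub, hSt, hSt']
    have e1 : (S' - S) * (S' + S) * (S' - S) =
        S' * (S * S') - S' * (S * S) - (S * (S' * S') - S * (S' * S)) := by
      have e2 : (S' - S) * (S' + S) = S' * S - S * S' := by
        rw [Matrix.sub_mul, Matrix.mul_add, Matrix.mul_add, h1]
        abel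
      rw [e2]
      simp only [Matrix.sub_mul, Matrix.mul_sub, Matrix.mul_assoc]
      abel
    rw [e1]
    simp only [Matrix.trace_sub]
    have e3 : (S' * (S * S')).trace = (S * (S' * S')).trace := by
      rw [Matrix.trace_mul_comm, Matrix.mul_assoc]
    have e4 : (S * (S' * S)).trace = (S' * (S * S)).trace := by
      rw [Matrix.trace_mul_comm, Matrix.mul_assoc]
    rw [e3, e4]
    ring
  have h3 : (S' + S).PosDef := hS'.add hS
  have h4 := b4_trace_zero h3 h2
  exact sub_eq_zero.mp h4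

private theorem b4_uniq (M : MatGroup G n) {H : Subgroup G} (hH : Polar M H) (f : G → ℝ)
    (hk : ∀ h k, M.ι k * (M.ι k)ᵀ = 1 → f (h * k) = f h)
    (hm : ∀ h r, (M.ι r).PosDef → r ≠ 1 → 2 * f (h * r) < f h + f (h * r * r))
    {s h : G} (hs : s ∈ H) (hsm : ∀ h' ∈ H, f s ≤ f h') (hh : h ∈ H) (hhm : ∀ h' ∈ H, f h ≤ f h') :
    ∃ k, M.ι k * (M.ι k)ᵀ = 1 ∧ h = s * k := by
  obtain ⟨r, hr, k, hkH, hrP, hkO, e⟩ := hH.polar (s⁻¹ * h) (H.mul_mem (H.inv_mem hs) hh)
  have h1 : h = s * r * r * k := by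
    rw [mul_assoc, mul_assoc, ← mul_assoc r r k, ← e, mul_inv_cancel_left]
  have h2 : f h = f (s * r * r) := by
    rw [h1]
    exact hk _ _ hkO
  by_cases hr1 : r = 1
  · refine ⟨k, hkO, ?_⟩
    rw [h1, hr1, mul_one, mul_one]
  · exfalso
    have h3 := hm s r hrP hr1
    have h4 := hsm (s * r) (H.mul_mem hs hr)
    have h5 := hhm s hs
    rw [← h2] at h3
    linarith

private theorem b4_pt (M : MatGroup G n) {H : Subgroup G} (hH : Polar M H) (f : G → ℝ)
    (hc : Continuous f)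
    (hk : ∀ h k, M.ι k * (M.ι k)ᵀ = 1 → f (h * k) = f h)
    (hp : ∃ C : Set G, IsCompact C ∧ ∀ h, f h ≤ f 1 → h ∈ C) :
    ∃ s ∈ H, (M.ι s).PosDef ∧ ∀ h' ∈ H, f s ≤ f h' := by
  obtain ⟨C, hC, hCf⟩ := hp
  have h1 : IsCompact (C ∩ (H : Set G)) := hC.inter_right hH.closed
  obtain ⟨m, hm, hmin⟩ := h1.exists_isMinOn ⟨1, hCf 1 le_rfl, H.one_mem⟩ hc.continuousOn
  have h2 : ∀ h' ∈ H, f m ≤ f h' := by
    intro h' hh'
    by_cases h3 : f h' ≤ f 1
    · exact hmin ⟨hCf h' h3, hh'⟩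
    · have h4 : f m ≤ f 1 := hmin ⟨hCf 1 le_rfl, H.one_mem⟩
      exact h4.trans (le_of_not_ge h3)
  obtain ⟨r, hr, k, hkH, hrP, hkO, e⟩ := hH.polar m hm.2
  refine ⟨r * r, H.mul_mem hr hr, ?_, fun h' hh' => ?_⟩
  · rw [map_mul]
    have h5 : (M.ι r)ᴴ = M.ι r := hrP.1
    have h6 : ((M.ι r)ᴴ * M.ι r).PosDef :=
      Matrix.PosDef.conjTranspose_mul_self _ (Matrix.mulVec_injective_of_isUnit hrP.isUnit)
    rwa [h5] at h6
  · have h7 : f m = f (r * r) := by
      rw [e]
      exact hk _ _ hkO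
    rw [← h7]
    exact h2 h' hh'

private theorem b4_posDef_of_tendsto (M : MatGroup G n) {ι' : Type} {F : Filter ι'} [F.NeBot]
    {u : ι' → G} {h : G} (hu : Filter.Tendsto u F (𝓝 h)) (hP : ∀ i, (M.ι (u i)).PosDef) :
    (M.ι h).PosDef := by
  have hT : Filter.Tendsto (fun i => M.ι (u i)) F (𝓝 (M.ι h)) :=
    (M.cont.tendsto h).comp hu
  have h1 : (M.ι h).IsHermitian := by
    have hcl : IsClosed {A : Matrix (Fin n) (Fin n) ℝ | A.IsHermitian} := by
      have : {A : Matrix (Fin n) (Fin n) ℝ | A.IsHermitian} = {A | Aᴴ = A} := rfl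
      rw [this]
      exact isClosed_eq (continuous_id.matrix_conjTranspose) continuous_id
    exact hcl.mem_of_tendsto hT (Filter.Eventually.of_forall fun i => (hP i).1)
  have h2 : (M.ι h).PosSemidef := by
    refine Matrix.PosSemidef.of_dotProduct_mulVec_nonneg h1 fun x => ?_
    have hcx : Continuous fun A : Matrix (Fin n) (Fin n) ℝ => star x ⬝ᵥ (A *ᵥ x) := by
      exact Continuous.dotProduct continuous_const (continuous_id.matrix_mulVec continuous_const)
    refine ge_of_tendsto' ((hcx.tendsto _).comp hT) fun i => ?_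
    exact (hP i).posSemidef.dotProduct_mulVec_nonneg x
  have h3 : IsUnit (M.ι h) := by
    refine IsUnit.of_mul_eq_one (M.ι h⁻¹) ?_
    rw [← map_mul, mul_inv_cancel, map_one]
  exact h2.posDef_iff_isUnit.mpr h3

/-- Let `Φ g` be continuous, right invariant under orthogonal elements, strictly midpoint convex
and locally uniformly proper.  Then `Φ g` has a minimiser on `H`; by the polar decomposition it can
be chosen in the positive definite elements of `H`; it is unique there, and all minimisers on `H`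
are `s g * k`, `k` orthogonal (if `h`, `h'` are minimisers, `h⁻¹ h' = r r k`, then `r = 1` by
convexity).  Continuity at `g₀`: near `g₀` the points `s g` lie in a compact set
(`Φ g (s g) ≤ Φ g 1 ≤ c`), and every cluster point is a positive definite minimiser of `Φ g₀` on
`H` (`IsCompact.tendsto_nhds_of_unique_mapClusterPt`); limits of positive definite elements of `G`
are positive semidefinite and invertible. -/
theorem exists_min (M : MatGroup G n) {H : Subgroup G} (hH : Polar M H) (Φ : G → G → ℝ)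
    (hc : Continuous (fun p : G × G => Φ p.1 p.2))
    (hk : ∀ g h k, M.ι k * (M.ι k)ᵀ = 1 → Φ g (h * k) = Φ g h)
    (hm : ∀ g h r, (M.ι r).PosDef → r ≠ 1 → 2 * Φ g (h * r) < Φ g h + Φ g (h * r * r))
    (hp : ∀ g₀ c, ∃ U ∈ 𝓝 g₀, ∃ C : Set G, IsCompact C ∧ ∀ g ∈ U, ∀ h, Φ g h ≤ c → h ∈ C) :
    ∃ s : G → G, Continuous s ∧ (∀ g, s g ∈ H) ∧ (∀ g, ∀ h ∈ H, Φ g (s g) ≤ Φ g h) ∧
      ∀ g, ∀ h ∈ H, (∀ h' ∈ H, Φ g h ≤ Φ g h') → ∃ k, M.ι k * (M.ι k)ᵀ = 1 ∧ h = s g * k := by
  have hcg : ∀ g, Continuous (Φ g) := fun g => hc.comp (continuous_const.prodMk continuous_id)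
  have hpt : ∀ g, ∃ s ∈ H, (M.ι s).PosDef ∧ ∀ h' ∈ H, Φ g s ≤ Φ g h' := by
    intro g
    refine b4_pt M hH (Φ g) (hcg g) (hk g) ?_
    obtain ⟨U, hU, C, hC, hUC⟩ := hp g (Φ g 1)
    exact ⟨C, hC, hUC g (mem_of_mem_nhds hU)⟩
  choose s hsH hsP hsm using hpt
  refine ⟨s, ?_, hsH, hsm, fun g h hh hhm => b4_uniq M hH (Φ g) (hk g) (hm g) (hsH g) (hsm g) hh hhm⟩
  rw [continuous_iff_continuousAt]
  intro g₀
  obtain ⟨U, hU, C, hC, hUC⟩ := hp g₀ (Φ g₀ 1 + 1)
  have h1 : ∀ᶠ g in 𝓝 g₀, Φ g 1 < Φ g₀ 1 + 1 := by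
    have h2 : Continuous fun g => Φ g 1 := hc.comp (continuous_id.prodMk continuous_const)
    exact (h2.tendsto g₀).eventually (gt_mem_nhds (by linarith))
  have h2 : ∀ᶠ g in 𝓝 g₀, s g ∈ C := by
    filter_upwards [h1, hU] with g hg1 hgU
    exact hUC g hgU (s g) ((hsm g 1 H.one_mem).trans hg1.le)
  refine hC.tendsto_nhds_of_unique_mapClusterPt h2 fun h _ hcl => ?_
  rw [mapClusterPt_iff_ultrafilter] at hcl
  obtain ⟨W, hW, hWt⟩ := hcl
  have hhH : h ∈ H := hH.closed.mem_of_tendsto hWt (Filter.Eventually.of_forall fun g => hsH g)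
  have hhP : (M.ι h).PosDef := b4_posDef_of_tendsto M hWt hsP
  have hpair : Filter.Tendsto (fun g => (g, s g)) W (𝓝 (g₀, h)) := by
    rw [nhds_prod_eq]
    exact Filter.Tendsto.prodMk hW hWt
  have hhm : ∀ h' ∈ H, Φ g₀ h ≤ Φ g₀ h' := by
    intro h' hh'
    have a1 : Filter.Tendsto (fun g => Φ g (s g)) W (𝓝 (Φ g₀ h)) := (hc.tendsto _).comp hpair
    have a2 : Filter.Tendsto (fun g => Φ g h') W (𝓝 (Φ g₀ h')) := by
      have h2 : Continuous fun g => Φ g h' := hc.comp (continuous_id.prodMk continuous_const)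
      exact (h2.tendsto g₀).mono_left hW
    exact le_of_tendsto_of_tendsto' a1 a2 fun g => hsm g h' hh'
  obtain ⟨k, hkO, e⟩ := b4_uniq M hH (Φ g₀) (hk g₀) (hm g₀) (hsH g₀) (hsm g₀) hhH hhm
  have e2 : M.ι h = M.ι (s g₀) * M.ι k := by rw [e, map_mul]
  exact M.inj (posDef_eq_of_orth (hsP g₀) hhP hkO e2)

end Pool.Agent.Helper17.CKF
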