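import Pool.Agent.Helper17.CKF.B3
import Pool.Agent.Helper17.CKF.B4

/-! # CKF-B5: the selection theorem -/

set_option autoImplicit false

namespace Pool.Agent.Helper17.CKF

open Matrix Topology Pool.Agent.Helper40.CK

variable {G : Type} [Group G] [TopologicalSpace G] [IsTopologicalGroup G] {n : ℕ}

omit [IsTopologicalGroup G] in
/-- The orthogonal elements of `G` form a compact set. -/
private theorem b5_orth_compact (M : MatGroup G n) :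
    IsCompact {k : G | M.ι k * (M.ι k)ᵀ = 1} := by
  refine (M.compact (M.N 1)).of_isClosed_subset ?_ ?_
  · exact isClosed_eq (M.cont.mul M.cont.matrix_transpose) continuous_const
  · intro k hk
    have h := M.N_mul_orth 1 k hk
    rw [one_mul] at h
    exact h.le

/-- `Φ` from `exists_Phi`, `s` from `exists_min`.  For `g = γ d h₀` the element `h₀ * s g`
minimises `Φ d` on `H`, so `h₀ * s g = s d * k` and `g * s g = γ * (d * s d) * k`.  The orthogonal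
elements `k` of `G` form a compact set. -/
theorem selection (M : MatGroup G n) {H Γ : Subgroup G} (hH : Polar M H)
    (hΓ : IsCocompactDiscontinuousGroup Γ H) :
    ∃ s : G → G, Continuous s ∧ (∀ g, s g ∈ H) ∧
      ∃ D : Set G, IsCompact D ∧ ∀ g, ∃ γ ∈ Γ, γ * (g * s g) ∈ D := by
  obtain ⟨D, hD, hcov⟩ := exists_compact_lift M hΓ
  obtain ⟨Φ, hc, hΓi, hHi, hk, hm, hp⟩ := exists_Phi M hH.closed hΓ
  obtain ⟨s, hs, hsH, hmin, huniq⟩ := exists_min M hH Φ hc hk hm hp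
  have hK := b5_orth_compact M
  refine ⟨s, hs, hsH, (fun p : G × G => p.1 * (s p.1 * p.2)) '' (D ×ˢ {k : G | M.ι k * (M.ι k)ᵀ = 1}),
    (hD.prod hK).image ?_, fun g => ?_⟩
  · exact continuous_fst.mul ((hs.comp continuous_fst).mul continuous_snd)
  · obtain ⟨γ, hγ, d, hd, h₀, hh₀, hg⟩ := hcov g
    have hΦ : ∀ h, Φ g h = Φ d (h₀ * h) := by
      intro h
      rw [hg, mul_assoc, hΓi γ hγ, hHi h₀ hh₀]
    obtain ⟨k, hk1, hk2⟩ := huniq d (h₀ * s g) (H.mul_mem hh₀ (hsH g)) (by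
      intro h' hh'
      have h1 := hmin g (h₀⁻¹ * h') (H.mul_mem (H.inv_mem hh₀) hh')
      rw [hΦ, hΦ, mul_inv_cancel_left] at h1
      exact h1)
    refine ⟨γ⁻¹, Γ.inv_mem hγ, (d, k), ⟨hd, hk1⟩, ?_⟩
    simp only
    rw [← hk2]
    nth_rewrite 2 [hg]
    group

/-- With `s`, `D` of `selection`, `t_i = g_i * s g_i`, `γ_i t_i ∈ D`: if `t₁⁻¹ t₂ = k₁ h k₂`, then
`γ = γ₁ γ₂⁻¹` satisfies `γ * (d₂ k₂⁻¹) = d₁ k₁ * h`, so `γ` is in a finite set `F`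
(`finite_meet`) and `t₁⁻¹ t₂ = d₁⁻¹ γ d₂` is in the compact set `D⁻¹ F D`. -/
theorem exists_selection (M : MatGroup G n) {H Γ : Subgroup G} (hH : Polar M H)
    (hΓ : IsCocompactDiscontinuousGroup Γ H) {K : Set G} (hK : IsCompact K) :
    ∃ s : G → G, Continuous s ∧ (∀ g, s g ∈ H) ∧ ∃ C : Set G, IsCompact C ∧
      ∀ g₁ g₂ : G, (∃ k₁ ∈ K, ∃ h ∈ H, ∃ k₂ ∈ K, (g₁ * s g₁)⁻¹ * (g₂ * s g₂) = k₁ * h * k₂) →
        (g₁ * s g₁)⁻¹ * (g₂ * s g₂) ∈ C := by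
  obtain ⟨s, hs, hsH, D, hD, hDc⟩ := selection M hH hΓ
  have hC1 : IsCompact ((fun p : G × G => p.1 * p.2⁻¹) '' (D ×ˢ K)) :=
    (hD.prod hK).image (continuous_fst.mul continuous_snd.inv)
  have hC2 : IsCompact ((fun p : G × G => p.1 * p.2) '' (D ×ˢ K)) :=
    (hD.prod hK).image (continuous_fst.mul continuous_snd)
  have hF := finite_meet hΓ.toIsDiscontinuousGroup hC1 hC2
  refine ⟨s, hs, hsH, _, ((hD.prod (hF.isCompact.prod hD)).image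
    (f := fun p : G × G × G => p.1⁻¹ * p.2.1 * p.2.2) ?_), ?_⟩
  · exact (continuous_fst.inv.mul (continuous_fst.comp continuous_snd)).mul
      (continuous_snd.comp continuous_snd)
  · rintro g₁ g₂ ⟨k₁, hk₁, h, hh, k₂, hk₂, he⟩
    obtain ⟨γ₁, hγ₁, hd₁⟩ := hDc g₁
    obtain ⟨γ₂, hγ₂, hd₂⟩ := hDc g₂
    set t₁ := g₁ * s g₁ with ht₁
    set t₂ := g₂ * s g₂ with ht₂
    refine ⟨(γ₁ * t₁, γ₁ * γ₂⁻¹, γ₂ * t₂), ⟨hd₁, ⟨⟨Γ.mul_mem hγ₁ (Γ.inv_mem hγ₂), ?_⟩, hd₂⟩⟩, ?_⟩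
    · refine ⟨_, ⟨(γ₂ * t₂, k₂), ⟨hd₂, hk₂⟩, rfl⟩, _, ⟨(γ₁ * t₁, k₁), ⟨hd₁, hk₁⟩, rfl⟩, h, hh, ?_⟩
      have h2 : t₂ = t₁ * (k₁ * h * k₂) := by rw [← he]; group
      simp only
      rw [h2]
      group
    · simp only
      group

end Pool.Agent.Helper17.CKF
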