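import Pool.Agent.Helper17.CKF.B1

/-! # CKF-C1: `SL(n, ℝ)` as a group of matrices; polar decomposition -/

set_option autoImplicit false

namespace Pool.Agent.Helper17.CKF

open Matrix

/-- `SL(n, ℝ)` with the inclusion into the matrices.  (`{g ∈ SL | fn g + fn g⁻¹ ≤ c}` is the
preimage of a closed bounded set under the closed embedding `SL → Matrix`.) -/
theorem isCompact_sl (n : ℕ) (c : ℝ) :
    IsCompact {g : Matrix.SpecialLinearGroup (Fin n) ℝ |
      fn (g : Matrix (Fin n) (Fin n) ℝ) +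
        fn ((g⁻¹ : Matrix.SpecialLinearGroup (Fin n) ℝ) : Matrix (Fin n) (Fin n) ℝ) ≤ c} := by
  sorry

/-- the inclusion -/
def slι (n : ℕ) : Matrix.SpecialLinearGroup (Fin n) ℝ →* Matrix (Fin n) (Fin n) ℝ where
  toFun g := (g : Matrix (Fin n) (Fin n) ℝ)
  map_one' := Matrix.SpecialLinearGroup.coe_one
  map_mul' := Matrix.SpecialLinearGroup.coe_mul

/-- `SL(n, ℝ)` as a group of matrices. -/
def slM (n : ℕ) : MatGroup (Matrix.SpecialLinearGroup (Fin n) ℝ) n where
  ι := slι n
  inj := fun _ _ h => Subtype.ext h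
  cont := continuous_subtype_val
  compact := fun c => isCompact_sl n c

/-- Positive definite matrices have positive definite square roots. -/
theorem exists_posDef_sqrt {n : ℕ} {P : Matrix (Fin n) (Fin n) ℝ} (hP : P.PosDef) :
    ∃ S : Matrix (Fin n) (Fin n) ℝ, S.PosDef ∧ S * S = P := by
  sorry

/-- If `P = S * S` fixes `v`, `S` positive definite, then `S` fixes `v`
(`(S + 1) (S v - v) = 0`). -/
theorem sqrt_fix {n : ℕ} {S : Matrix (Fin n) (Fin n) ℝ} (hS : S.PosDef) {v : Fin n → ℝ}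
    (h : (S * S) *ᵥ v = v) : S *ᵥ v = v := by
  sorry

/-- The positive definite square root `S` of a positive definite matrix of the form `diag(1, A)`,
`det = 1`, has the same form. -/
theorem sqrt_mem_blk {r n : ℕ} {P : Matrix.SpecialLinearGroup (Fin n) ℝ} (hP : P ∈ blk r n)
    {S : Matrix (Fin n) (Fin n) ℝ} (hS : S.PosDef)
    (h : S * S = (P : Matrix (Fin n) (Fin n) ℝ)) :
    ∃ R : Matrix.SpecialLinearGroup (Fin n) ℝ, R ∈ blk r n ∧
      (R : Matrix (Fin n) (Fin n) ℝ) = S := by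
  sorry

/-- `h hᵀ = P² = (R²)²`, `k = P⁻¹ h`. -/
theorem polar_blk (r n : ℕ) : Polar (slM n) (blk r n) := by
  sorry

/-- The set of orthogonal elements of `SL(n, ℝ)` is compact. -/
theorem isCompact_so (n : ℕ) : IsCompact {k : Matrix.SpecialLinearGroup (Fin n) ℝ |
    (k : Matrix (Fin n) (Fin n) ℝ) * (k : Matrix (Fin n) (Fin n) ℝ)ᵀ = 1} := by
  sorry

end Pool.Agent.Helper17.CKF
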