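import Pool.Agent.Helper17.CKF.C1

/-! # CKF-C2: positions in `K H K` -/

set_option autoImplicit false

namespace Pool.Agent.Helper17.CKF

open Matrix

/-- A linearly independent family of `r` vectors of `ℝ ^ n`, `r < n`: there is a rotation `k` such
that `k e_i`, `i < r`, lie in their span (Gram-Schmidt, e.g. `gramSchmidtOrthonormalBasis`; change
the sign of the last column if the determinant is `-1`). -/
theorem exists_rotation {r n : ℕ} (hr : r < n) (b : Fin r → (Fin n → ℝ))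
    (hb : LinearIndependent ℝ b) :
    ∃ k : Matrix.SpecialLinearGroup (Fin n) ℝ,
      (k : Matrix (Fin n) (Fin n) ℝ) * (k : Matrix (Fin n) (Fin n) ℝ)ᵀ = 1 ∧
      ∀ i : Fin n, (i : ℕ) < r →
        (k : Matrix (Fin n) (Fin n) ℝ) *ᵥ Pi.single i 1 ∈ Submodule.span ℝ (Set.range b) := by
  sorry

/-- If `g gᵀ` fixes `r` linearly independent vectors, `r < n`, then `g = k₁ h k₂` with `h` in
`blk r n` and `k₁`, `k₂` orthogonal: `k₁` from `exists_rotation`, `P = k₁⁻¹ g gᵀ k₁` is positive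
definite and fixes `e_i`, `i < r`, so `P ∈ blk r n`; `h` its positive definite square root
(`sqrt_mem_blk`), `k₂ = h⁻¹ k₁⁻¹ g`. -/
theorem khk_of_fix {r n : ℕ} (hr : r < n) (g : Matrix.SpecialLinearGroup (Fin n) ℝ)
    (b : Fin r → (Fin n → ℝ)) (hb : LinearIndependent ℝ b)
    (h : ∀ i, ((g : Matrix (Fin n) (Fin n) ℝ) * (g : Matrix (Fin n) (Fin n) ℝ)ᵀ) *ᵥ b i = b i) :
    ∃ k₁ ∈ {k : Matrix.SpecialLinearGroup (Fin n) ℝ |
        (k : Matrix (Fin n) (Fin n) ℝ) * (k : Matrix (Fin n) (Fin n) ℝ)ᵀ = 1},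
      ∃ h ∈ blk r n, ∃ k₂ ∈ {k : Matrix.SpecialLinearGroup (Fin n) ℝ |
        (k : Matrix (Fin n) (Fin n) ℝ) * (k : Matrix (Fin n) (Fin n) ℝ)ᵀ = 1},
        g = k₁ * h * k₂ := by
  sorry

/-- `g = t₁⁻¹ t₂`: `g gᵀ - 1 = t₁⁻¹ (t₂ t₂ᵀ - t₁ t₁ᵀ) t₁⁻ᵀ` kills the vectors `t₁ᵀ b_i`, `i < r`. -/
theorem khk {r n : ℕ} (hr : r < n) (t₁ t₂ : Matrix.SpecialLinearGroup (Fin n) ℝ)
    (B : Matrix (Fin n) (Fin n) ℝ) (hB : IsUnit B.det)
    (h : ∀ i : Fin n, (i : ℕ) < r →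
      ((t₂ : Matrix (Fin n) (Fin n) ℝ) * (t₂ : Matrix (Fin n) (Fin n) ℝ)ᵀ -
        (t₁ : Matrix (Fin n) (Fin n) ℝ) * (t₁ : Matrix (Fin n) (Fin n) ℝ)ᵀ) *ᵥ
          (B *ᵥ Pi.single i 1) = 0) :
    ∃ k₁ ∈ {k : Matrix.SpecialLinearGroup (Fin n) ℝ |
        (k : Matrix (Fin n) (Fin n) ℝ) * (k : Matrix (Fin n) (Fin n) ℝ)ᵀ = 1},
      ∃ h ∈ blk r n, ∃ k₂ ∈ {k : Matrix.SpecialLinearGroup (Fin n) ℝ |
        (k : Matrix (Fin n) (Fin n) ℝ) * (k : Matrix (Fin n) (Fin n) ℝ)ᵀ = 1},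
        t₁⁻¹ * t₂ = k₁ * h * k₂ := by
  sorry

end Pool.Agent.Helper17.CKF
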