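import Pool.Agent.Helper17.CKF.C1

/-! # CKF-C3: the transversal -/

set_option autoImplicit false

namespace Pool.Agent.Helper17.CKF

open Matrix

/-- number of pairs `(i, j)` with `i < r`, `i ≤ j < n` -/
def Nn (r n : ℕ) : ℕ := ∑ i ∈ Finset.range r, (n - i)

/-- A linear injection of `ℝ ^ (A + 1)`, `A + 1 ≤ Nn r n`, into the traceless symmetric matrices,
which is even injective on the first `r` rows: the first `A + 1` pairs `(i, j)`, `i < r`,
`i ≤ j < n` carry the coordinates of `x` (at `(i, j)` and `(j, i)`), the entries `(i, i)`, `r ≤ i`,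
are all equal to the number which makes the trace zero, all other entries are zero. -/
theorem exists_rows {r n A : ℕ} (hr : r < n) (hA : A + 1 ≤ Nn r n) :
    ∃ q : (Fin (A + 1) → ℝ) →ₗ[ℝ] Matrix (Fin n) (Fin n) ℝ,
      (∀ x, (q x)ᵀ = q x) ∧ (∀ x, (q x).trace = 0) ∧
      ∀ x (l : Fin (A + 1)), x l ^ 2 ≤ ∑ i : Fin n, ∑ j : Fin n,
        if (i : ℕ) < r then q x i j ^ 2 else 0 := by
  sorry

/-- `(exp Y + exp (-Y))_{ii} ≥ 2 + (Y²)_{ii}` for symmetric `Y` (diagonalise `Y` orthogonally;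
`e^t + e^{-t} ≥ 2 + t²`). -/
theorem exp_diag {n : ℕ} (Y : Matrix (Fin n) (Fin n) ℝ) (hY : Yᵀ = Y) (i : Fin n) :
    2 + ∑ j, Y i j ^ 2 ≤ NormedSpace.exp Y i i + NormedSpace.exp (-Y) i i := by
  sorry

/-- `det (exp Y) = 1` for symmetric `Y` of trace `0` (diagonalise `Y`). -/
theorem det_exp_sym {n : ℕ} (Y : Matrix (Fin n) (Fin n) ℝ) (hY : Yᵀ = Y) (h : Y.trace = 0) :
    (NormedSpace.exp Y).det = 1 := by
  sorry

/-- `c x R = exp (R * q x / ‖x‖)`.  Then `(c (-x) R)⁻¹ * c x R = exp (2 R q x / ‖x‖)`; the entries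
`(i, i)`, `i < r`, of `g` and `g⁻¹` do not change if `g` is multiplied on both sides by elements of
`blk r n`; by `exp_diag` their sum is at least `4 R ^ 2` for some... (sum over all `i < r`), while
it is bounded on the compact set `C`. -/
theorem exists_transversal {r n A : ℕ} (hr : r < n) (hA : A + 1 ≤ Nn r n) :
    ∃ c : (Fin (A + 1) → ℝ) → ℝ → Matrix.SpecialLinearGroup (Fin n) ℝ,
      (∀ R, ContinuousOn (fun x => c x R) {0}ᶜ) ∧
      ∀ C : Set (Matrix.SpecialLinearGroup (Fin n) ℝ), IsCompact C → ∃ R : ℝ,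
        ∀ x, x ≠ 0 → ∀ h₁ ∈ blk r n, ∀ h₂ ∈ blk r n,
          h₁ * (c (-x) R)⁻¹ * c x R * h₂ ∉ C := by
  sorry

end Pool.Agent.Helper17.CKF
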