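import Pool.Agent.Helper17.CKF.B5
import Pool.Agent.Helper17.CKF.C2
import Pool.Agent.Helper17.CKF.C3

/-! # CKF-C4: the odd map -/

set_option autoImplicit false

namespace Pool.Agent.Helper17.CKF

open Matrix Pool.Agent.Helper40.CK

/-- A continuous odd map `F` from `ℝ ^ (A + 1) \ {0}` to symmetric matrices such that `F x` does
not vanish on any subspace of dimension `r`. -/
structure OddF (r n A : ℕ) (F : (Fin (A + 1) → ℝ) → Matrix (Fin n) (Fin n) ℝ) : Prop where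
  cont : ContinuousOn F {0}ᶜ
  odd : ∀ x, x ≠ 0 → F (-x) = -F x
  symm : ∀ x, x ≠ 0 → (F x)ᵀ = F x
  nv : ∀ x, x ≠ 0 → ∀ B : Matrix (Fin n) (Fin n) ℝ, IsUnit B.det →
    ∃ i : Fin n, (i : ℕ) < r ∧ F x *ᵥ (B *ᵥ Pi.single i 1) ≠ 0

/-- `s`, `C` from `exists_selection` for `K =` orthogonal elements (`isCompact_so`), `c`, `R` from
`exists_transversal` for this `C`; `t x = c x R * s (c x R)`, `F x = t x (t x)ᵀ - t (-x) (t (-x))ᵀ`.
If `F x` kills `B e_i` for all `i < r`, then `(t (-x))⁻¹ * t x` is in `K H K` (`khk`), hence in `C`;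
but it is `(s _)⁻¹ * (c (-x) R)⁻¹ * c x R * s _`. -/
theorem exists_oddF {r n A : ℕ} (hr : r < n) (hA : A + 1 ≤ Nn r n)
    (h : AdmitsCocompact (blk r n)) :
    ∃ F : (Fin (A + 1) → ℝ) → Matrix (Fin n) (Fin n) ℝ, OddF r n A F := by
  sorry

end Pool.Agent.Helper17.CKF
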