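import Pool.Agent.Helper17.CKF.A5
import Pool.Agent.Helper17.CKF.C3

/-! # CKF-D1: the list of pairs and the parities -/

set_option autoImplicit false

namespace Pool.Agent.Helper17.CKF

/-- the pairs `(i, j)` with `i < r`, `i ≤ j < n` -/
def JL (r n : ℕ) : List (ℕ × ℕ) :=
  (List.range r).flatMap fun i => (List.range (n - i)).map fun l => (i, i + l)

theorem length_JL (r n : ℕ) : (JL r n).length = Nn r n := by
  sorry

theorem mem_JL {r n i j : ℕ} (hrn : r ≤ n) : (i, j) ∈ JL r n ↔ i < r ∧ i ≤ j ∧ j < n := by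
  sorry

/-- `β i = 1` for `i = 0` and `i = r` -/
def bet (r i : ℕ) : ZMod 2 := if i = 0 ∨ i = r then 1 else 0

/-- `γ i = 1` for `i = 1` and `i = r + 1` -/
def gam (r i : ℕ) : ZMod 2 := if i = 1 ∨ i = r + 1 then 1 else 0

/-- the characters `(1, β i + β j, 0)` -/
def chE (r n : ℕ) : List (ZMod 2 × ZMod 2 × ZMod 2) :=
  (JL r n).map fun p => (1, bet r p.1 + bet r p.2, 0)

/-- the characters `(1, β i + β j, γ i + γ j)` -/
def chO (r n : ℕ) : List (ZMod 2 × ZMod 2 × ZMod 2) :=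
  (JL r n).map fun p => (1, bet r p.1 + bet r p.2, gam r p.1 + gam r p.2)

/-- `n - r` even.  `∑_{i<r} ∑_{i≤j<n} (β i + β j) = n * β 0 + 0 + ∑_{1≤i<r} 1 = n + r - 1`
(`i = 0`: `∑_j β j = 2 = 0`), which is odd. -/
theorem sum_even {r n k : ℕ} (hr : 1 ≤ r) (hn : r + 1 ≤ n) (h : Even (n - r))
    (hk : k + 1 = Nn r n) : coef (chE r n) k 1 0 = 1 := by
  sorry

/-- `n - r` odd, `r ≥ 2`, `n ≥ r + 2`.  By `coef_bc` the coefficient is
`(∑ (β i + β j)) * (∑ (γ i + γ j)) + ∑ (β i + β j) (γ i + γ j)`.  The first sum is `n + r - 1`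
(even); the last one is `∑_i γ i ∑_{j≥i} β j + ∑_i β i ∑_{j≥i} γ j = 1 + 0` (`i < r`; `i = 1`:
`∑_{j≥1} β j = 1`; `i = 0`: `∑_{j≥0} γ j = 2 = 0`). -/
theorem sum_odd {r n k : ℕ} (hr : 2 ≤ r) (hn : r + 2 ≤ n) (h : Odd (n - r))
    (hk : k + 2 = Nn r n) : coef (chO r n) k 1 1 = 1 := by
  sorry

end Pool.Agent.Helper17.CKF
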