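import Pool.Agent.Helper17.CKF.A4
import Pool.Agent.Helper17.CKF.C4
import Pool.Agent.Helper17.CKF.D1

/-! # CKF-D2: the contradictions -/

set_option autoImplicit false

namespace Pool.Agent.Helper17.CKF

open Matrix

/-- the adapted basis: columns `b_0 = u_0 e_0 + u_1 e_r`, `b_r = -u_1 e_0 + u_0 e_r`,
`b_j = e_j` otherwise -/
def bas1 (r n : ℕ) (u : Fin 2 → ℝ) : Matrix (Fin n) (Fin n) ℝ := fun i j =>
  if (j : ℕ) = 0 then (if (i : ℕ) = 0 then u 0 else if (i : ℕ) = r then u 1 else 0)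
  else if (j : ℕ) = r then (if (i : ℕ) = 0 then -u 1 else if (i : ℕ) = r then u 0 else 0)
  else if i = j then 1 else 0

/-- the adapted basis: columns `b_0 = u_0 e_0 + u_1 e_r`, `b_r = -u_1 e_0 + u_0 e_r`,
`b_1 = v_0 e_1 + v_1 e_{r+1}`, `b_{r+1} = -v_1 e_1 + v_0 e_{r+1}`, `b_j = e_j` otherwise -/
def bas2 (r n : ℕ) (u v : Fin 2 → ℝ) : Matrix (Fin n) (Fin n) ℝ := fun i j =>
  if (j : ℕ) = 0 then (if (i : ℕ) = 0 then u 0 else if (i : ℕ) = r then u 1 else 0)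
  else if (j : ℕ) = r then (if (i : ℕ) = 0 then -u 1 else if (i : ℕ) = r then u 0 else 0)
  else if (j : ℕ) = 1 then (if (i : ℕ) = 1 then v 0 else if (i : ℕ) = r + 1 then v 1 else 0)
  else if (j : ℕ) = r + 1 then
    (if (i : ℕ) = 1 then -v 1 else if (i : ℕ) = r + 1 then v 0 else 0)
  else if i = j then 1 else 0

/-- `det = u_0² + u_1²`; or give the inverse. -/
theorem isUnit_bas1 {r n : ℕ} (hr : 1 ≤ r) (hn : r + 1 ≤ n) {u : Fin 2 → ℝ} (hu : u ≠ 0) :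
    IsUnit (bas1 r n u).det := by
  sorry

theorem isUnit_bas2 {r n : ℕ} (hr : 2 ≤ r) (hn : r + 2 ≤ n) {u v : Fin 2 → ℝ} (hu : u ≠ 0)
    (hv : v ≠ 0) : IsUnit (bas2 r n u v).det := by
  sorry

/-- `B (-u) = B u * diag (±1)` -/
theorem bas1_neg {r n : ℕ} (hr : 1 ≤ r) (u : Fin 2 → ℝ) (i j : Fin n) :
    bas1 r n (-u) i j = sgn2 (bet r j) * bas1 r n u i j := by
  sorry

theorem bas2_neg1 {r n : ℕ} (hr : 2 ≤ r) (u v : Fin 2 → ℝ) (i j : Fin n) :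
    bas2 r n (-u) v i j = sgn2 (bet r j) * bas2 r n u v i j := by
  sorry

theorem bas2_neg2 {r n : ℕ} (hr : 2 ≤ r) (u v : Fin 2 → ℝ) (i j : Fin n) :
    bas2 r n u (-v) i j = sgn2 (gam r j) * bas2 r n u v i j := by
  sorry

/-- If `S` is symmetric, `B` invertible and `(Bᵀ S B) i j = 0` for all `i < r`, `i ≤ j`, then
`S (B e_i) = 0` for all `i < r`. -/
theorem kill_of_entries {r n : ℕ} (S B : Matrix (Fin n) (Fin n) ℝ) (hS : Sᵀ = S)
    (hB : IsUnit B.det)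
    (h : ∀ i j : Fin n, (i : ℕ) < r → i ≤ j → (Bᵀ * S * B) i j = 0) :
    ∀ i : Fin n, (i : ℕ) < r → S *ᵥ (B *ᵥ Pi.single i 1) = 0 := by
  sorry

/-- `n - r` even: `borsuk_ulam3` with `n1 = A`, `n2 = 1`, `n3 = 0` for the functions
`(x, u, z) ↦ (B(u)ᵀ F(x) B(u)) i j`, `(i, j) ∈ JL r n`, `B = bas1`, characters `chE r n`, and
`sum_even`. -/
theorem no_oddF_even {r n A : ℕ} (hr : 1 ≤ r) (hn : r + 1 ≤ n) (h : Even (n - r))
    (hA : A + 1 = Nn r n) (F : (Fin (A + 1) → ℝ) → Matrix (Fin n) (Fin n) ℝ)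
    (hF : OddF r n A F) : False := by
  sorry

/-- `n - r` odd, `r ≥ 2`: `borsuk_ulam3` with `n1 = A`, `n2 = n3 = 1`, `B = bas2`, characters
`chO r n`, `sum_odd`. -/
theorem no_oddF_odd {r n A : ℕ} (hr : 2 ≤ r) (hn : r + 2 ≤ n) (h : Odd (n - r))
    (hA : A + 2 = Nn r n) (F : (Fin (A + 1) → ℝ) → Matrix (Fin n) (Fin n) ℝ)
    (hF : OddF r n A F) : False := by
  sorry

end Pool.Agent.Helper17.CKF
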