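import Mathlib
import Pool.Agent.Helper19.HO.BU
import Pool.Agent.Helper40.CK.Defs

/-!
# Project CKF (MP_bf60c4_gt): cocompact discontinuous groups for `SL(n) / SL(m)` and
`O(p+1,q) / O(p,q)`.  Definitions.
-/

set_option autoImplicit false

namespace Pool.Agent.Helper17.CKF

open Pool.Agent.Helper19.HO Pool.Agent.Helper19.HO.P5

/-! ### Part 1: chains on a product of three spheres -/

section Chains

/-- The simplex `(± e_0, ..., ± e_{k-1}, e_k)` of a hemisphere of the cross-polytope. -/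
noncomputable def hemi {V : Type} [AddCommGroup V] (e : ℕ → V) {k : ℕ} (ε : Fin k → Bool) :
    Fin (k + 1) → V :=
  cp e (Fin.snoc (α := fun _ => Bool) ε true)

/-- Evaluation of a cochain on the `M`-th subdivision of the hemisphere of dimension `k` in the
boundary of the cross-polytope of `ℝ ^ (n + 1)`. -/
noncomputable def Lam (n M k : ℕ) (a : (Fin (k + 1) → (Fin (n + 1) → ℝ)) → ZMod 2) : ZMod 2 :=
  ∑ ε : Fin k → Bool, (sd^[M] a) (hemi (eb n) ε)

/-- Evaluation on the product of three hemispheres. -/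
noncomputable def Lam3 (n1 n2 n3 M k1 k2 k3 : ℕ)
    (Φ : (Fin (k1 + 1) → (Fin (n1 + 1) → ℝ)) → (Fin (k2 + 1) → (Fin (n2 + 1) → ℝ)) →
      (Fin (k3 + 1) → (Fin (n3 + 1) → ℝ)) → ZMod 2) : ZMod 2 :=
  Lam n1 M k1 fun σ => Lam n2 M k2 fun τ => Lam n3 M k3 fun ρ => Φ σ τ ρ

/-- Families of cochains in three variables, one for every triple of dimensions. -/
def Fam (V1 V2 V3 : Type) : Type :=
  ∀ k1 k2 k3 : ℕ, (Fin (k1 + 1) → V1) → (Fin (k2 + 1) → V2) → (Fin (k3 + 1) → V3) → ZMod 2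

variable {V1 V2 V3 : Type}

/-- coboundary in the first variable -/
def d1 (Φ : Fam V1 V2 V3) : Fam V1 V2 V3
  | 0, _, _ => fun _ _ _ => 0
  | k1 + 1, k2, k3 => fun σ τ ρ => cob (fun σ' => Φ k1 k2 k3 σ' τ ρ) σ

/-- coboundary in the second variable -/
def d2 (Φ : Fam V1 V2 V3) : Fam V1 V2 V3
  | _, 0, _ => fun _ _ _ => 0
  | k1, k2 + 1, k3 => fun σ τ ρ => cob (fun τ' => Φ k1 k2 k3 σ τ' ρ) τ

/-- coboundary in the third variable -/
def d3 (Φ : Fam V1 V2 V3) : Fam V1 V2 V3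
  | _, _, 0 => fun _ _ _ => 0
  | k1, k2, k3 + 1 => fun σ τ ρ => cob (fun ρ' => Φ k1 k2 k3 σ τ ρ') ρ

/-- total coboundary -/
def dT (Φ : Fam V1 V2 V3) : Fam V1 V2 V3 := fun k1 k2 k3 σ τ ρ =>
  d1 Φ k1 k2 k3 σ τ ρ + d2 Φ k1 k2 k3 σ τ ρ + d3 Φ k1 k2 k3 σ τ ρ

/-- product with a function of the first vertices -/
def mulF (θ : V1 → V2 → V3 → ZMod 2) (Φ : Fam V1 V2 V3) : Fam V1 V2 V3 :=
  fun k1 k2 k3 σ τ ρ => θ (σ 0) (τ 0) (ρ 0) * Φ k1 k2 k3 σ τ ρ

/-- the constant `1` in dimension `(0, 0, 0)` -/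
def unitF (V1 V2 V3 : Type) : Fam V1 V2 V3 := fun k1 k2 k3 _ _ _ =>
  if k1 = 0 ∧ k2 = 0 ∧ k3 = 0 then 1 else 0

/-- the product of the coboundaries of the functions of the list -/
def Om : List (V1 → V2 → V3 → ZMod 2) → Fam V1 V2 V3
  | [] => unitF V1 V2 V3
  | θ :: L => dT (mulF θ (Om L))

/-- The coefficient of `a ^ k1 * b ^ k2 * c ^ k3` in the product over the list of
`(c.1 * a + c.2.1 * b + c.2.2 * c)`. -/
def coef : List (ZMod 2 × ZMod 2 × ZMod 2) → ℕ → ℕ → ℕ → ZMod 2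
  | [], k1, k2, k3 => if k1 = 0 ∧ k2 = 0 ∧ k3 = 0 then 1 else 0
  | c :: L, k1, k2, k3 =>
    c.1 * (if k1 = 0 then 0 else coef L (k1 - 1) k2 k3) +
      c.2.1 * (if k2 = 0 then 0 else coef L k1 (k2 - 1) k3) +
      c.2.2 * (if k3 = 0 then 0 else coef L k1 k2 (k3 - 1))

/-- `1` or `-1` -/
def sgn2 (c : ZMod 2) : ℝ := if c = 0 then 1 else -1

/-- `f` is continuous off zero and equivariant for the character `c` of `(ℤ/2)^3`. -/
structure Eqv {n1 n2 n3 : ℕ}
    (f : (Fin (n1 + 1) → ℝ) → (Fin (n2 + 1) → ℝ) → (Fin (n3 + 1) → ℝ) → ℝ)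
    (c : ZMod 2 × ZMod 2 × ZMod 2) : Prop where
  cont : ContinuousOn (fun p : (Fin (n1 + 1) → ℝ) × (Fin (n2 + 1) → ℝ) × (Fin (n3 + 1) → ℝ) =>
    f p.1 p.2.1 p.2.2) {p | p.1 ≠ 0 ∧ p.2.1 ≠ 0 ∧ p.2.2 ≠ 0}
  neg1 : ∀ x y z, x ≠ 0 → y ≠ 0 → z ≠ 0 → f (-x) y z = sgn2 c.1 * f x y z
  neg2 : ∀ x y z, x ≠ 0 → y ≠ 0 → z ≠ 0 → f x (-y) z = sgn2 c.2.1 * f x y z
  neg3 : ∀ x y z, x ≠ 0 → y ≠ 0 → z ≠ 0 → f x y (-z) = sgn2 c.2.2 * f x y z

end Chains

/-! ### Part 2: groups of matrices and the selection theorem -/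

section Groups

open Pool.Agent.Helper40.CK

/-- squared Frobenius norm -/
def fn {n : ℕ} (A : Matrix (Fin n) (Fin n) ℝ) : ℝ := ∑ i, ∑ j, A i j ^ 2

/-- `G` is realised by `ι` as a group of real `n × n` matrices such that the sets
`|ι g|² + |ι g⁻¹|² ≤ c` are compact (i.e. as a closed subgroup of `GL(n, ℝ)`). -/
structure MatGroup (G : Type) [Group G] [TopologicalSpace G] (n : ℕ) where
  /-- the embedding -/
  ι : G →* Matrix (Fin n) (Fin n) ℝ
  inj : Function.Injective ι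
  cont : Continuous ι
  compact : ∀ c : ℝ, IsCompact {g : G | fn (ι g) + fn (ι g⁻¹) ≤ c}

variable {G : Type} [Group G] [TopologicalSpace G] {n : ℕ}

/-- `|ι g|² + |ι g⁻¹|²` -/
def MatGroup.N (M : MatGroup G n) (g : G) : ℝ := fn (M.ι g) + fn (M.ι g⁻¹)

/-- `H` is closed in `G` and has a polar decomposition with square roots: every `h` in `H` is
`r * r * k` with `r`, `k` in `H`, `ι r` positive definite and `ι k` orthogonal. -/
structure Polar (M : MatGroup G n) (H : Subgroup G) : Prop where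
  closed : IsClosed (H : Set G)
  polar : ∀ h ∈ H, ∃ r ∈ H, ∃ k ∈ H, (M.ι r).PosDef ∧ M.ι k * (M.ι k).transpose = 1 ∧
    h = r * r * k

end Groups

/-! ### Part 3: the special linear groups -/

section SL

open Matrix

/-- The subgroup of `SL(n, ℝ)` of all block matrices `diag(1, A)`, with `1` of size `r`: a copy of
`SL(n - r, ℝ)`. -/
def blk (r n : ℕ) : Subgroup (Matrix.SpecialLinearGroup (Fin n) ℝ) where
  carrier := {g | ∀ i j : Fin n, (i : ℕ) < r ∨ (j : ℕ) < r →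
    (g : Matrix (Fin n) (Fin n) ℝ) i j = if i = j then 1 else 0}
  mul_mem' := by
    intro g h hg hh i j hij
    refine (congrFun (congrFun (Matrix.SpecialLinearGroup.coe_mul g h) i) j).trans ?_
    rw [Matrix.mul_apply]
    rcases hij with hi | hj
    · rw [Finset.sum_eq_single i]
      · rw [hg i i (Or.inl hi), if_pos rfl, one_mul, hh i j (Or.inl hi)]
      · intro b _ hb
        rw [hg i b (Or.inl hi), if_neg (Ne.symm hb), zero_mul]
      · intro h'; exact absurd (Finset.mem_univ _) h'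
    · rw [Finset.sum_eq_single j]
      · rw [hh j j (Or.inr hj), if_pos rfl, mul_one, hg i j (Or.inr hj)]
      · intro b _ hb
        rw [hh b j (Or.inr hj), if_neg hb, mul_zero]
      · intro h'; exact absurd (Finset.mem_univ _) h'
  one_mem' := by
    intro i j _
    refine (congrFun (congrFun (Matrix.SpecialLinearGroup.coe_one) i) j).trans ?_
    rw [Matrix.one_apply]
  inv_mem' := by
    intro g hg i j hij
    rcases hij with hi | hj
    · have h1 : ((g : Matrix (Fin n) (Fin n) ℝ) * (g⁻¹ : Matrix.SpecialLinearGroup (Fin n) ℝ)) i j =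
          if i = j then 1 else 0 := by
        rw [← Matrix.SpecialLinearGroup.coe_mul, mul_inv_cancel, Matrix.SpecialLinearGroup.coe_one,
          Matrix.one_apply]
      rw [Matrix.mul_apply, Finset.sum_eq_single i] at h1
      · rwa [hg i i (Or.inl hi), if_pos rfl, one_mul] at h1
      · intro b _ hb
        rw [hg i b (Or.inl hi), if_neg (Ne.symm hb), zero_mul]
      · intro h'; exact absurd (Finset.mem_univ _) h'
    · have h1 : (((g⁻¹ : Matrix.SpecialLinearGroup (Fin n) ℝ) : Matrix (Fin n) (Fin n) ℝ) * g) i j =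
          if i = j then 1 else 0 := by
        rw [← Matrix.SpecialLinearGroup.coe_mul, inv_mul_cancel, Matrix.SpecialLinearGroup.coe_one,
          Matrix.one_apply]
      rw [Matrix.mul_apply, Finset.sum_eq_single j] at h1
      · rwa [hg j j (Or.inr hj), if_pos rfl, mul_one] at h1
      · intro b _ hb
        rw [hg b j (Or.inr hj), if_neg hb, mul_zero]
      · intro h'; exact absurd (Finset.mem_univ _) h'

end SL

end Pool.Agent.Helper17.CKF
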