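import Pool.Agent.Helper17.CKF.Defs

/-! # CKF-E1: positive frames -/

set_option autoImplicit false

namespace Pool.Agent.Helper17.CKF

open Matrix

/-- An invertible symmetric matrix of size `2 p`: it or its negative has `p` linearly independent
vectors which span a positive subspace (eigenvectors; one sign occurs at least `p` times). -/
theorem exists_positive {n p : ℕ} (hn : n = 2 * p) (B : Matrix (Fin n) (Fin n) ℝ) (hB : Bᵀ = B)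
    (hdet : IsUnit B.det) :
    ∃ (ε : ℝ) (v : Fin p → (Fin n → ℝ)), (ε = 1 ∨ ε = -1) ∧
      ∀ c : Fin p → ℝ, c ≠ 0 → 0 < ε * ((∑ j, c j • v j) ⬝ᵥ (B *ᵥ (∑ j, c j • v j))) := by
  sorry

/-- There are `τ` and `μ' > 0`, depending only on `μ`, `Λ`, such that for every symmetric `B` with
`μ² |w|² ≤ |B w|² ≤ Λ² |w|²` and every `w` with `⟨w, B w⟩ > 0` the vector `w' = exp (τ B) w` has
`⟨w', B w'⟩ ≥ μ' |w'|²`.  (Eigenbasis of `B`; `P`, `M` the squared norms of the positive and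
negative parts of `w`: `Λ P ≥ μ M`, `P' ≥ e^{2τμ} P`, `M' ≤ e^{-2τμ} M`,
`⟨w', B w'⟩ ≥ μ P' - Λ M'`.) -/
theorem exp_cone {n : ℕ} {μ Λ : ℝ} (hμ : 0 < μ) (hΛ : 0 < Λ) :
    ∃ τ μ' : ℝ, 0 < μ' ∧ ∀ B : Matrix (Fin n) (Fin n) ℝ, Bᵀ = B →
      (∀ w : Fin n → ℝ, μ ^ 2 * (w ⬝ᵥ w) ≤ (B *ᵥ w) ⬝ᵥ (B *ᵥ w) ∧
        (B *ᵥ w) ⬝ᵥ (B *ᵥ w) ≤ Λ ^ 2 * (w ⬝ᵥ w)) →
      ∀ w : Fin n → ℝ, 0 < w ⬝ᵥ (B *ᵥ w) →
        μ' * ((NormedSpace.exp (τ • B) *ᵥ w) ⬝ᵥ (NormedSpace.exp (τ • B) *ᵥ w)) ≤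
          (NormedSpace.exp (τ • B) *ᵥ w) ⬝ᵥ (B *ᵥ (NormedSpace.exp (τ • B) *ᵥ w)) := by
  sorry

end Pool.Agent.Helper17.CKF
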