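import Pool.Agent.Helper17.CKF.E1
import Pool.Agent.Helper17.CKF.A4
import Pool.Agent.Helper17.CKF.A5
import Pool.Agent.Helper17.CKF.C4

/-! # CKF-E2: the case `n = m + 1` -/

set_option autoImplicit false

namespace Pool.Agent.Helper17.CKF

open Matrix

/-- Transport of positive frames.  `B` continuous on the compact set `[0,1] × X` with values in the
invertible symmetric matrices; frames `v₀` positive for `B (0, x)`, continuous in `x`.  Then there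
are continuous frames positive for `B (1, x)`.  (`μ`, `Λ` by compactness, `τ`, `μ'` from
`exp_cone`; subdivide `[0,1]` such that `B` varies by less than `μ'` in each step;
`v_{i+1} x j = exp (τ • B (s_{i+1}, x)) *ᵥ v_i x j`.) -/
theorem transport {n p : ℕ} {X : Type} [TopologicalSpace X] [CompactSpace X]
    (B : ℝ → X → Matrix (Fin n) (Fin n) ℝ)
    (hB : ContinuousOn (fun q : ℝ × X => B q.1 q.2) (Set.Icc 0 1 ×ˢ Set.univ))
    (hs : ∀ s ∈ Set.Icc (0 : ℝ) 1, ∀ x, (B s x)ᵀ = B s x)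
    (hi : ∀ s ∈ Set.Icc (0 : ℝ) 1, ∀ x, IsUnit (B s x).det)
    (v₀ : X → Fin p → (Fin n → ℝ)) (hv : Continuous v₀)
    (hpos : ∀ x (c : Fin p → ℝ), c ≠ 0 →
      0 < (∑ j, c j • v₀ x j) ⬝ᵥ (B 0 x *ᵥ (∑ j, c j • v₀ x j))) :
    ∃ v : X → Fin p → (Fin n → ℝ), Continuous v ∧ ∀ x (c : Fin p → ℝ), c ≠ 0 →
      0 < (∑ j, c j • v x j) ⬝ᵥ (B 1 x *ᵥ (∑ j, c j • v x j)) := by
  sorry

/-- `F` odd, symmetric, invertible on `ℝ ^ n \ {0}`, `n = 2 p`, `p ≥ 2`.  Then there are frames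
`v x`, `x ∈ ℝ ^ (p + 1) \ {0}`, such that `v x`, `v (-x)` together span `ℝ ^ n`.
(`e = ε e_{p+1}`, the sign from `exists_positive` for `F e_{p+1}`; the path `(1 - s) e + s x` for
`x` in the unit sphere of `ℝ ^ (p + 1)` does not meet `0`; `transport`; `v x` spans a positive
subspace of `F x`, `v (-x)` a negative one; extend from the sphere by `v (x / |x|)`.) -/
theorem exists_frames {n p A : ℕ} (hn : n = 2 * p) (hp : 2 ≤ p) (hA : A + 1 = n)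
    (F : (Fin (A + 1) → ℝ) → Matrix (Fin n) (Fin n) ℝ) (hc : ContinuousOn F {0}ᶜ)
    (ho : ∀ x, x ≠ 0 → F (-x) = -F x) (hs : ∀ x, x ≠ 0 → (F x)ᵀ = F x)
    (hi : ∀ x, x ≠ 0 → IsUnit (F x).det) :
    ∃ v : (Fin (p + 1) → ℝ) → Fin p → (Fin n → ℝ), ContinuousOn v {0}ᶜ ∧
      ∀ x, x ≠ 0 → ∀ z : Fin n → ℝ, (∀ j, v x j ⬝ᵥ z = 0) → (∀ j, v (-x) j ⬝ᵥ z = 0) → z = 0 := by
  sorry

/-- `borsuk_ulam3` with `n1 = n2 = p`, `n3 = 0` for the `2 p` functions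
`(x, z) ↦ ⟨v x j + v (-x) j, z⟩` (character `(0,1,0)`), `⟨v x j - v (-x) j, z⟩` (character
`(1,1,0)`), `z ∈ ℝ ^ (p + 1) ⊆ ℝ ^ n`, and `coef_pp`. -/
theorem no_frames {n p : ℕ} (hn : n = 2 * p) (hp : 2 ≤ p)
    (v : (Fin (p + 1) → ℝ) → Fin p → (Fin n → ℝ)) (hv : ContinuousOn v {0}ᶜ)
    (h : ∀ x, x ≠ 0 → ∀ z : Fin n → ℝ, (∀ j, v x j ⬝ᵥ z = 0) → (∀ j, v (-x) j ⬝ᵥ z = 0) →
      z = 0) : False := by
  sorry

/-- `n - 1` odd, `r = 1`. -/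
theorem no_oddF_one {n A : ℕ} (hn : 3 ≤ n) (h : Odd (n - 1)) (hA : A + 1 = n)
    (F : (Fin (A + 1) → ℝ) → Matrix (Fin n) (Fin n) ℝ) (hF : OddF 1 n A F) : False := by
  sorry

end Pool.Agent.Helper17.CKF
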