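import Pool.Agent.Helper17.CKF.D2
import Pool.Agent.Helper17.CKF.E2

/-! # CKF-F1: `SL(n, ℝ) / SL(m, ℝ)`, `1 < m < n`, admits no cocompact discontinuous group -/

set_option autoImplicit false

namespace Pool.Agent.Helper17.CKF

open Pool.Agent.Helper40.CK

theorem not_admits (r n : ℕ) (hr : 1 ≤ r) (hn : r + 2 ≤ n) : ¬ AdmitsCocompact (blk r n) := by
  intro h
  have hN : n ≤ Nn r n := by
    unfold Nn
    calc n = n - 0 := by simp
      _ ≤ _ := Finset.single_le_sum (f := fun i => n - i) (fun _ _ => Nat.zero_le _)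
        (Finset.mem_range.2 (by omega))
  rcases Nat.even_or_odd (n - r) with he | ho
  · obtain ⟨F, hF⟩ := exists_oddF (r := r) (n := n) (A := Nn r n - 1) (by omega) (by omega) h
    exact no_oddF_even hr (by omega) he (by omega) F hF
  · rcases Nat.lt_or_ge 1 r with h1 | h1
    · obtain ⟨F, hF⟩ := exists_oddF (r := r) (n := n) (A := Nn r n - 2) (by omega) (by omega) h
      exact no_oddF_odd h1 hn ho (by omega) F hF
    · have hr1 : r = 1 := by omega
      subst hr1
      obtain ⟨F, hF⟩ := exists_oddF (r := 1) (n := n) (A := n - 1) (by omega) (by omega) h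
      exact no_oddF_one (by omega) ho (by omega) F hF

end Pool.Agent.Helper17.CKF
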