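import Pool.Agent.Helper17.CKF.B1

/-! # CKF-G0: the group `O(p+1, q)` and the stabiliser `O(p, q)` of `e_p`: definitions -/

set_option autoImplicit false

namespace Pool.Agent.Helper17.CKF

open Matrix

/-- the diagonal matrix with `p + 1` ones and `q` minus ones -/
def Jm (p q : ℕ) : Matrix (Fin (p + 1 + q)) (Fin (p + 1 + q)) ℝ :=
  Matrix.diagonal fun i => if (i : ℕ) < p + 1 then 1 else -1

/-- the indefinite orthogonal group `O(p+1, q)` -/
def indO (p q : ℕ) : Subgroup (Matrix.GeneralLinearGroup (Fin (p + 1 + q)) ℝ) where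
  carrier := {g | (g : Matrix (Fin (p + 1 + q)) (Fin (p + 1 + q)) ℝ)ᵀ * Jm p q *
    (g : Matrix (Fin (p + 1 + q)) (Fin (p + 1 + q)) ℝ) = Jm p q}
  mul_mem' := by
    intro g h hg hh
    simp only [Set.mem_ofPred_eq] at hg hh ⊢
    rw [Units.val_mul, Matrix.transpose_mul]
    calc _ = (h : Matrix (Fin (p + 1 + q)) (Fin (p + 1 + q)) ℝ)ᵀ *
          ((g : Matrix (Fin (p + 1 + q)) (Fin (p + 1 + q)) ℝ)ᵀ * Jm p q *
          (g : Matrix (Fin (p + 1 + q)) (Fin (p + 1 + q)) ℝ)) * h := by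
            simp only [Matrix.mul_assoc]
      _ = _ := by rw [hg, hh]
  one_mem' := by simp
  inv_mem' := by
    intro g hg
    simp only [Set.mem_ofPred_eq] at hg ⊢
    have h1 : (g : Matrix (Fin (p + 1 + q)) (Fin (p + 1 + q)) ℝ) *
        ((g⁻¹ : Matrix.GeneralLinearGroup (Fin (p + 1 + q)) ℝ) :
          Matrix (Fin (p + 1 + q)) (Fin (p + 1 + q)) ℝ) = 1 := by
      rw [← Units.val_mul, mul_inv_cancel, Units.val_one]
    have h2 : ((g⁻¹ : Matrix.GeneralLinearGroup (Fin (p + 1 + q)) ℝ) :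
          Matrix (Fin (p + 1 + q)) (Fin (p + 1 + q)) ℝ)ᵀ *
          (g : Matrix (Fin (p + 1 + q)) (Fin (p + 1 + q)) ℝ)ᵀ = 1 := by
      rw [← Matrix.transpose_mul, h1, Matrix.transpose_one]
    conv_lhs => rw [← hg]
    calc _ = (((g⁻¹ : Matrix.GeneralLinearGroup (Fin (p + 1 + q)) ℝ) :
          Matrix (Fin (p + 1 + q)) (Fin (p + 1 + q)) ℝ)ᵀ *
          (g : Matrix (Fin (p + 1 + q)) (Fin (p + 1 + q)) ℝ)ᵀ) * Jm p q *
          ((g : Matrix (Fin (p + 1 + q)) (Fin (p + 1 + q)) ℝ) *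
        ((g⁻¹ : Matrix.GeneralLinearGroup (Fin (p + 1 + q)) ℝ) :
          Matrix (Fin (p + 1 + q)) (Fin (p + 1 + q)) ℝ)) := by
            simp only [Matrix.mul_assoc]
      _ = _ := by rw [h1, h2, Matrix.one_mul, Matrix.mul_one]

/-- the index `p` -/
def ip (p q : ℕ) : Fin (p + 1 + q) := ⟨p, by omega⟩

/-- the matrix of an element of `O(p+1, q)` -/
def om {p q : ℕ} (g : indO p q) : Matrix (Fin (p + 1 + q)) (Fin (p + 1 + q)) ℝ :=
  ((g : Matrix.GeneralLinearGroup (Fin (p + 1 + q)) ℝ) :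
    Matrix (Fin (p + 1 + q)) (Fin (p + 1 + q)) ℝ)

/-- The stabiliser of `e_p` in `O(p+1, q)`, a copy of `O(p, q)`. -/
def stab (p q : ℕ) : Subgroup (indO p q) where
  carrier := {g | om g *ᵥ Pi.single (ip p q) 1 = Pi.single (ip p q) 1}
  mul_mem' := by
    intro g h hg hh
    show (om g * om h) *ᵥ _ = _
    rw [← Matrix.mulVec_mulVec, hh, hg]
  one_mem' := by
    show (1 : Matrix (Fin (p + 1 + q)) (Fin (p + 1 + q)) ℝ) *ᵥ _ = _
    rw [Matrix.one_mulVec]
  inv_mem' := by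
    intro g hg
    have h1 : om (g⁻¹) * om g = 1 := by
      show ((g⁻¹ * g : indO p q) : Matrix.GeneralLinearGroup (Fin (p + 1 + q)) ℝ).val = 1
      rw [inv_mul_cancel]; rfl
    show om (g⁻¹) *ᵥ _ = _
    conv_lhs => rw [← hg]
    rw [Matrix.mulVec_mulVec, h1, Matrix.one_mulVec]

end Pool.Agent.Helper17.CKF
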