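import Pool.Agent.Helper17.CKF.G0
import Pool.Agent.Helper17.CKF.C1

/-! # CKF-G1: `O(p+1, q)` as a group of matrices; polar decomposition -/

set_option autoImplicit false

namespace Pool.Agent.Helper17.CKF

open Matrix

variable {p q : ℕ}

theorem om_mul (g h : indO p q) : om (g * h) = om g * om h := rfl

theorem om_one : om (1 : indO p q) = 1 := rfl

/-- `om g` preserves the form, and so does its transpose. -/
theorem om_form (g : indO p q) : (om g)ᵀ * Jm p q * om g = Jm p q := g.2

theorem om_form' (g : indO p q) : om g * Jm p q * (om g)ᵀ = Jm p q := by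
  sorry

theorem om_inv (g : indO p q) : om g⁻¹ = Jm p q * (om g)ᵀ * Jm p q := by
  sorry

/-- a matrix which preserves the form is in the group -/
theorem exists_om (A : Matrix (Fin (p + 1 + q)) (Fin (p + 1 + q)) ℝ)
    (h : Aᵀ * Jm p q * A = Jm p q) : ∃ g : indO p q, om g = A := by
  sorry

theorem isCompact_indO (c : ℝ) : IsCompact {g : indO p q | fn (om g) + fn (om g⁻¹) ≤ c} := by
  sorry

/-- the inclusion -/
def omι (p q : ℕ) : indO p q →* Matrix (Fin (p + 1 + q)) (Fin (p + 1 + q)) ℝ where
  toFun g := om g
  map_one' := rfl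
  map_mul' := fun _ _ => rfl

/-- `O(p+1, q)` as a group of matrices. -/
def oM (p q : ℕ) : MatGroup (indO p q) (p + 1 + q) where
  ι := omι p q
  inj := fun _ _ h => Subtype.ext (Units.ext h)
  cont := Units.continuous_val.comp continuous_subtype_val
  compact := fun c => isCompact_indO c

/-- If `P = S * S` preserves the form, `S` positive definite, so does `S`: `J P J = P⁻¹` for
symmetric `P`, so `J S J` and `S⁻¹` are positive definite square roots of `P⁻¹` (uniqueness of
positive definite square roots). -/
theorem sqrt_form {S : Matrix (Fin (p + 1 + q)) (Fin (p + 1 + q)) ℝ} (hS : S.PosDef)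
    (h : (S * S)ᵀ * Jm p q * (S * S) = Jm p q) : Sᵀ * Jm p q * S = Jm p q := by
  sorry

/-- `h hᵀ = P² = (R²)²`, `k = P⁻¹ h`; `sqrt_form`, `sqrt_fix`.  (`h e = e`, `e = e_p`, and
`J e = e` give `hᵀ e = e`.) -/
theorem polar_stab (p q : ℕ) : Polar (oM p q) (stab p q) := by
  sorry

/-- The set of orthogonal elements is compact. -/
theorem isCompact_oo (p q : ℕ) : IsCompact {k : indO p q | om k * (om k)ᵀ = 1} := by
  sorry

end Pool.Agent.Helper17.CKF
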