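import Pool.Agent.Helper17.CKF.G1

/-! # CKF-G2: the contraction attached to an element, and the transversal -/

set_option autoImplicit false

namespace Pool.Agent.Helper17.CKF

open Matrix

variable {p q : ℕ}

/-- the vector `(u, w)` of `ℝ ^ (p + 1) ⊕ ℝ ^ q` -/
def vec2 (u : Fin (p + 1) → ℝ) (w : Fin q → ℝ) : Fin (p + 1 + q) → ℝ := Fin.append u w

/-- upper left block of `g` -/
def ga (g : indO p q) : Matrix (Fin (p + 1)) (Fin (p + 1)) ℝ :=
  fun i j => om g (Fin.castAdd q i) (Fin.castAdd q j)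

/-- lower left block of `g` -/
def gc (g : indO p q) : Matrix (Fin q) (Fin (p + 1)) ℝ :=
  fun i j => om g (Fin.natAdd (p + 1) i) (Fin.castAdd q j)

/-- `T g = c a⁻¹`: the positive `(p+1)`-plane `g (ℝ ^ (p + 1) ⊕ 0)` is the graph of `T g`. -/
noncomputable def TT (g : indO p q) : Matrix (Fin q) (Fin (p + 1)) ℝ := gc g * (ga g)⁻¹

/-- `aᵀ a = 1 + cᵀ c` -/
theorem isUnit_ga (g : indO p q) : IsUnit (ga g).det := by
  sorry

theorem continuous_TT : Continuous (TT : indO p q → Matrix (Fin q) (Fin (p + 1)) ℝ) := by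
  sorry

/-- the graph property -/
theorem TT_graph (g : indO p q) (u : Fin (p + 1) → ℝ) :
    om g *ᵥ vec2 u 0 = vec2 (ga g *ᵥ u) (TT g *ᵥ (ga g *ᵥ u)) := by
  sorry

/-- If `T t₁` and `T t₂` agree on a vector `u ≠ 0`, then `t₁⁻¹ t₂ = k₁ h k₂`, `h` in the
stabiliser of `e_p`, `k₁`, `k₂` orthogonal: `(u, T u) = t₁ (u₁, 0) = t₂ (u₂, 0)`, `|u₁| = |u₂|` by
the form; scale to `|u₁| = 1`; `k₁ e_p = (u₁, 0)`, `k₂⁻¹ e_p = (u₂, 0)`. -/
theorem khk_stab (t₁ t₂ : indO p q) (u : Fin (p + 1) → ℝ) (hu : u ≠ 0)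
    (h : TT t₁ *ᵥ u = TT t₂ *ᵥ u) :
    ∃ k₁ ∈ {k : indO p q | om k * (om k)ᵀ = 1}, ∃ h ∈ stab p q,
      ∃ k₂ ∈ {k : indO p q | om k * (om k)ᵀ = 1}, t₁⁻¹ * t₂ = k₁ * h * k₂ := by
  sorry

/-- The transversal: hyperbolic rotation by `R` in the plane of `e_p` and `x / |x|`:
`c x R = 1 + sinh R • E + (cosh R - 1) • E²`, `E = e_p yᵀ + y e_pᵀ`, `y = x / |x|` (Euclidean
norm).  `(c (-x) R)⁻¹ * c x R = c x (2 R)` has entry `cosh (2 R)` at `(p, p)`; this entry does not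
change if one multiplies on both sides by elements of the stabiliser. -/
theorem exists_boost (p q : ℕ) :
    ∃ c : (Fin q → ℝ) → ℝ → indO p q,
      (∀ R, ContinuousOn (fun x => c x R) {0}ᶜ) ∧
      (∀ x, x ≠ 0 → ∀ R, om (c x R) *ᵥ Pi.single (ip p q) 1 =
        vec2 (Pi.single (Fin.last p) (Real.cosh R)) ((Real.sinh R / √(x ⬝ᵥ x)) • x)) ∧
      ∀ C : Set (indO p q), IsCompact C → ∃ R : ℝ, 0 < R ∧
        ∀ x, x ≠ 0 → ∀ h₁ ∈ stab p q, ∀ h₂ ∈ stab p q,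
          h₁ * (c (-x) R)⁻¹ * c x R * h₂ ∉ C := by
  sorry

/-- If `t e_p = (cosh R e_p, sinh R y)` then `T t e_p = tanh R • y`. -/
theorem TT_last (t : indO p q) (R : ℝ) (y : Fin q → ℝ)
    (h : om t *ᵥ Pi.single (ip p q) 1 = vec2 (Pi.single (Fin.last p) (Real.cosh R))
      (Real.sinh R • y)) :
    TT t *ᵥ Pi.single (Fin.last p) 1 = Real.tanh R • y := by
  sorry

end Pool.Agent.Helper17.CKF
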