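import Pool.Agent.Helper17.CKF.B5
import Pool.Agent.Helper17.CKF.G2
import Pool.Agent.Helper17.CKF.A4
import Pool.Agent.Helper17.CKF.A5

/-! # CKF-G3: `O(p+1, q) / O(p, q)` -/

set_option autoImplicit false

namespace Pool.Agent.Helper17.CKF

open Matrix Pool.Agent.Helper40.CK

/-- `s`, `C` from `exists_selection` for `K =` orthogonal elements, `c`, `R` from `exists_boost`
for this `C`; `t x = c x R * s (c x R)`, `F x = T (t x) - T (t (-x))` (`khk_stab`, `TT_last`;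
`s g e_p = e_p`). -/
theorem exists_oddT {p q : ℕ} (h : AdmitsCocompact (stab p q)) :
    ∃ (F : (Fin q → ℝ) → Matrix (Fin q) (Fin (p + 1)) ℝ) (κ : ℝ), 0 < κ ∧ ContinuousOn F {0}ᶜ ∧
      (∀ x, x ≠ 0 → F (-x) = -F x) ∧ (∀ x, x ≠ 0 → ∀ u, u ≠ 0 → F x *ᵥ u ≠ 0) ∧
      ∀ x, x ≠ 0 → F x *ᵥ Pi.single (Fin.last p) 1 = (κ / √(x ⬝ᵥ x)) • x := by
  sorry

/-- Tangent fields: `v x i = F x e_i - (⟨F x e_i, x⟩ / ⟨x, x⟩) x`, `i < p`. -/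
theorem exists_fields {p q : ℕ} (h : AdmitsCocompact (stab p q)) :
    ∃ v : Fin p → (Fin q → ℝ) → (Fin q → ℝ), (∀ i, ContinuousOn (v i) {0}ᶜ) ∧
      (∀ i x, x ≠ 0 → v i (-x) = -v i x) ∧ (∀ i x, x ≠ 0 → v i x ⬝ᵥ x = 0) ∧
      ∀ x, x ≠ 0 → LinearIndependent ℝ fun i => v i x := by
  sorry

/-- `borsuk_ulam3` with `n1 = q - i - 1 + 1`, `n2 = i`, `n3 = 0`: the `q` functions
`(x, u, z) ↦ (F x *ᵥ u) l` with character `(1, 1, 0)` for `x` in `ℝ ^ (q - i + 1) ⊆ ℝ ^ q` and `u`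
in `ℝ ^ (i + 1) ⊆ ℝ ^ (p + 1)`, and `coef_choose`. -/
theorem choose_even {p q : ℕ} (F : (Fin q → ℝ) → Matrix (Fin q) (Fin (p + 1)) ℝ)
    (hc : ContinuousOn F {0}ᶜ) (ho : ∀ x, x ≠ 0 → F (-x) = -F x)
    (hi : ∀ x, x ≠ 0 → ∀ u, u ≠ 0 → F x *ᵥ u ≠ 0) (hq : 1 ≤ q) (i : ℕ) (h1 : 1 ≤ i)
    (hip : i ≤ p) : Even (q.choose i) := by
  sorry

/-- Kummer or Lucas: the `k`-th binary digit of `q` is the parity of `q.choose (2 ^ k)`. -/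
theorem two_pow_dvd {p q : ℕ} (h : ∀ i, 1 ≤ i → i ≤ p → Even (q.choose i)) (k : ℕ)
    (hk : 2 ^ k ≤ p) : 2 ^ (k + 1) ∣ q := by
  sorry

end Pool.Agent.Helper17.CKF
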