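import Pool.Agent.Helper17.CKF.B5

/-! # CKF-O0: Cartan decomposition of a subgroup -/

set_option autoImplicit false

namespace Pool.Agent.Helper17.CKF

open Matrix Topology Pool.Agent.Helper40.CK

variable {G : Type} [Group G] [TopologicalSpace G] {n : ℕ}

/-- `H` is closed in `G` and has the Cartan decomposition `H = exp (q) (H ∩ O(n))`, `q` a linear
space of symmetric matrices. -/
structure Cartan (M : MatGroup G n) (H : Subgroup G)
    (q : Submodule ℝ (Matrix (Fin n) (Fin n) ℝ)) : Prop where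
  closed : IsClosed (H : Set G)
  symm : ∀ X ∈ q, Xᵀ = X
  exp_mem : ∀ X ∈ q, ∃ h ∈ H, M.ι h = NormedSpace.exp X
  polar : ∀ h ∈ H, ∃ X ∈ q, ∃ k ∈ H, M.ι k * (M.ι k)ᵀ = 1 ∧ M.ι h = NormedSpace.exp X * M.ι k

end Pool.Agent.Helper17.CKF
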