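import Mathlib

/-! # CKF-O1: quadratic forms of exponentials of symmetric matrices -/

set_option autoImplicit false

namespace Pool.Agent.Helper17.CKF

open Matrix Topology Filter

variable {n : ℕ}

/-- the quadratic form of a matrix -/
def qf (A : Matrix (Fin n) (Fin n) ℝ) (v : Fin n → ℝ) : ℝ := v ⬝ᵥ (A *ᵥ v)

theorem qf_add (A B : Matrix (Fin n) (Fin n) ℝ) (v : Fin n → ℝ) :
    qf (A + B) v = qf A v + qf B v := by
  simp only [qf, add_mulVec, dotProduct_add]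

theorem qf_sub (A B : Matrix (Fin n) (Fin n) ℝ) (v : Fin n → ℝ) :
    qf (A - B) v = qf A v - qf B v := by
  simp only [qf, sub_mulVec, dotProduct_sub]

theorem qf_neg (A : Matrix (Fin n) (Fin n) ℝ) (v : Fin n → ℝ) : qf (-A) v = -qf A v := by
  simp only [qf, neg_mulVec, dotProduct_neg]

theorem qf_smul (c : ℝ) (A : Matrix (Fin n) (Fin n) ℝ) (v : Fin n → ℝ) :
    qf (c • A) v = c * qf A v := by
  simp only [qf, smul_mulVec, dotProduct_smul, smul_eq_mul]

theorem qf_one (v : Fin n → ℝ) : qf (1 : Matrix (Fin n) (Fin n) ℝ) v = v ⬝ᵥ v := by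
  simp only [qf, one_mulVec]

/-- `qf (Bᵀ A B) v = qf A (B v)` -/
theorem qf_conj (A B : Matrix (Fin n) (Fin n) ℝ) (v : Fin n → ℝ) :
    qf (Bᵀ * A * B) v = qf A (B *ᵥ v) := by
  simp only [qf]
  rw [← mulVec_mulVec, ← mulVec_mulVec, dotProduct_mulVec v Bᵀ, vecMul_transpose]

theorem qf_transpose_mul_self (B : Matrix (Fin n) (Fin n) ℝ) (v : Fin n → ℝ) :
    qf (Bᵀ * B) v = (B *ᵥ v) ⬝ᵥ (B *ᵥ v) := by
  have h := qf_conj 1 B v
  rwa [mul_one, qf_one] at h

theorem dot_self_pos {v : Fin n → ℝ} (hv : v ≠ 0) : 0 < v ⬝ᵥ v := by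
  rcases lt_or_eq_of_le (dotProduct_self_nonneg v) with h | h
  · exact h
  · exact absurd (dotProduct_self_eq_zero.mp h.symm) hv
where
  dotProduct_self_nonneg (v : Fin n → ℝ) : 0 ≤ v ⬝ᵥ v := by
    simp only [dotProduct]
    exact Finset.sum_nonneg fun i _ => mul_self_nonneg _

/-- A symmetric matrix with nonnegative eigenvalues has a nonnegative form: contrapositive, with an
eigenvector. -/
theorem exists_neg_eigen {A : Matrix (Fin n) (Fin n) ℝ} (hA : Aᵀ = A) {v : Fin n → ℝ}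
    (hv : qf A v < 0) : ∃ (w : Fin n → ℝ) (l : ℝ), w ≠ 0 ∧ l < 0 ∧ A *ᵥ w = l • w := by
  have hH : A.IsHermitian := by
    rw [IsHermitian, conjTranspose_eq_transpose_of_trivial]; exact hA
  by_contra hcon
  push Not at hcon
  have h1 : A.PosSemidef := by
    rw [hH.posSemidef_iff_eigenvalues_nonneg]
    intro i
    by_contra hi
    have hi' : hH.eigenvalues i < 0 := not_le.mp hi
    have h2 := hcon (hH.eigenvectorBasis i) (hH.eigenvalues i) (by
      intro h0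
      have h3 := hH.eigenvectorBasis.orthonormal.ne_zero i
      apply h3
      ext j
      have := congrFun h0 j
      simpa using this) hi'
    exact h2 (hH.mulVec_eigenvectorBasis i)
  have h2 := h1.dotProduct_mulVec_nonneg v
  simp only [star_trivial] at h2
  exact absurd h2 (not_le.mpr hv)

/-- The square root is operator monotone. -/
theorem qf_sqrt {A B : Matrix (Fin n) (Fin n) ℝ} (hA : Aᵀ = A) (hB : Bᵀ = B)
    (hA0 : ∀ v, v ≠ 0 → 0 < qf A v) (hB0 : ∀ v, v ≠ 0 → 0 < qf B v)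
    (h : ∀ v, qf (A * A) v ≤ qf (B * B) v) (v : Fin n → ℝ) : qf A v ≤ qf B v := by
  by_contra hv
  have hv' : qf (B - A) v < 0 := by rw [qf_sub]; linarith [not_le.mp hv]
  obtain ⟨w, l, hw, hl, hwl⟩ := exists_neg_eigen (A := B - A)
    (by rw [transpose_sub, hA, hB]) hv'
  have h1 := h w
  have e1 : qf (A * A) w = (A *ᵥ w) ⬝ᵥ (A *ᵥ w) := by
    conv_lhs => rw [show A * A = Aᵀ * A by rw [hA]]
    exact qf_transpose_mul_self A w
  have e2 : qf (B * B) w = (B *ᵥ w) ⬝ᵥ (B *ᵥ w) := by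
    conv_lhs => rw [show B * B = Bᵀ * B by rw [hB]]
    exact qf_transpose_mul_self B w
  have e3 : B *ᵥ w = A *ᵥ w + l • w := by
    rw [← hwl, sub_mulVec]; abel
  rw [e1, e2] at h1
  have e4 : (B *ᵥ w) ⬝ᵥ (B *ᵥ w) - (A *ᵥ w) ⬝ᵥ (A *ᵥ w) = l * (qf A w + qf B w) := by
    simp only [qf]
    rw [e3]
    simp only [dotProduct_add, add_dotProduct, dotProduct_smul, smul_dotProduct, smul_eq_mul]
    rw [dotProduct_comm (A *ᵥ w) w]
    ring
  have h5 := hA0 w hw
  have h6 := hB0 w hw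
  nlinarith [mul_pos_of_neg_of_neg hl (by linarith : -(qf A w + qf B w) < 0)]

/-! ### exponentials -/

open NormedSpace

theorem exp_tr {X : Matrix (Fin n) (Fin n) ℝ} (hX : Xᵀ = X) : (exp X)ᵀ = exp X := by
  rw [← exp_transpose, hX]

theorem exp_half_mul (X : Matrix (Fin n) (Fin n) ℝ) :
    exp ((1 / 2 : ℝ) • X) * exp ((1 / 2 : ℝ) • X) = exp X := by
  rw [← Matrix.exp_add_of_commute _ _ (Commute.refl _), ← add_smul]
  norm_num

theorem exp_mul_neg (X : Matrix (Fin n) (Fin n) ℝ) : exp X * exp (-X) = 1 := by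
  rw [← Matrix.exp_add_of_commute _ _ ((Commute.refl X).neg_right), add_neg_cancel]
  exact NormedSpace.exp_zero

theorem exp_neg_mul (X : Matrix (Fin n) (Fin n) ℝ) : exp (-X) * exp X = 1 := by
  rw [← Matrix.exp_add_of_commute _ _ ((Commute.refl X).neg_left), neg_add_cancel]
  exact NormedSpace.exp_zero

theorem qf_exp_pos {X : Matrix (Fin n) (Fin n) ℝ} (hX : Xᵀ = X) {v : Fin n → ℝ} (hv : v ≠ 0) :
    0 < qf (exp X) v := by
  have hY : ((1 / 2 : ℝ) • X)ᵀ = (1 / 2 : ℝ) • X := by rw [transpose_smul, hX]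
  have h1 : qf (exp X) v = (exp ((1 / 2 : ℝ) • X) *ᵥ v) ⬝ᵥ (exp ((1 / 2 : ℝ) • X) *ᵥ v) := by
    rw [← qf_transpose_mul_self, exp_tr hY, exp_half_mul]
  rw [h1]
  apply dot_self_pos
  intro h0
  apply hv
  have h2 : exp (-((1 / 2 : ℝ) • X)) *ᵥ (exp ((1 / 2 : ℝ) • X) *ᵥ v) = v := by
    rw [mulVec_mulVec, exp_neg_mul, one_mulVec]
  rw [← h2, h0, mulVec_zero]

/-- derivative at `0` of `t ↦ qf (exp (t X)) v` -/
theorem hasDerivAt_qf_exp (X : Matrix (Fin n) (Fin n) ℝ) (v : Fin n → ℝ) :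
    HasDerivAt (fun t : ℝ => qf (exp (t • X)) v) (qf X v) 0 := by
  let _ : NormedRing (Matrix (Fin n) (Fin n) ℝ) := Matrix.linftyOpNormedRing
  let _ : NormedAlgebra ℝ (Matrix (Fin n) (Fin n) ℝ) := Matrix.linftyOpNormedAlgebra
  have h1 : HasDerivAt (fun u : ℝ => exp (u • X)) (exp ((0 : ℝ) • X) * X) 0 :=
    hasDerivAt_exp_smul_const X 0
  rw [zero_smul, NormedSpace.exp_zero, one_mul] at h1
  let L : Matrix (Fin n) (Fin n) ℝ →ₗ[ℝ] ℝ :=
    { toFun := fun A => qf A v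
      map_add' := fun A B => qf_add A B v
      map_smul' := fun c A => qf_smul c A v }
  have h2 : Continuous L := L.continuous_of_finiteDimensional
  let L' : Matrix (Fin n) (Fin n) ℝ →L[ℝ] ℝ := ⟨L, h2⟩
  exact L'.hasFDerivAt.comp_hasDerivAt (0 : ℝ) h1

end Pool.Agent.Helper17.CKF
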