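import Pool.Agent.Helper17.CKF.O1

/-! # CKF-O2: the logarithm is operator monotone; consequences -/

set_option autoImplicit false

namespace Pool.Agent.Helper17.CKF

open Matrix Topology Filter NormedSpace

variable {n : ℕ}

theorem qf_smul_exp_pos {X : Matrix (Fin n) (Fin n) ℝ} (hX : Xᵀ = X) {c : ℝ} (hc : 0 < c)
    {v : Fin n → ℝ} (hv : v ≠ 0) : 0 < qf (c • exp X) v := by
  rw [qf_smul]
  exact mul_pos hc (qf_exp_pos hX hv)

theorem qf_exp_half {X Y : Matrix (Fin n) (Fin n) ℝ} (hX : Xᵀ = X) (hY : Yᵀ = Y) {c : ℝ}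
    (h : ∀ v, qf (exp X) v ≤ Real.exp c * qf (exp Y) v) (v : Fin n → ℝ) :
    qf (exp ((1 / 2 : ℝ) • X)) v ≤ Real.exp (c / 2) * qf (exp ((1 / 2 : ℝ) • Y)) v := by
  have hX' : ((1 / 2 : ℝ) • X)ᵀ = (1 / 2 : ℝ) • X := by rw [transpose_smul, hX]
  have hY' : ((1 / 2 : ℝ) • Y)ᵀ = (1 / 2 : ℝ) • Y := by rw [transpose_smul, hY]
  rw [← qf_smul]
  apply qf_sqrt (exp_tr hX') (by rw [transpose_smul, exp_tr hY'])
    (fun v hv => qf_exp_pos hX' hv)
    (fun v hv => qf_smul_exp_pos hY' (Real.exp_pos _) hv)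
  intro w
  have e : (Real.exp (c / 2) • exp ((1 / 2 : ℝ) • Y)) * (Real.exp (c / 2) • exp ((1 / 2 : ℝ) • Y))
      = Real.exp c • exp Y := by
    rw [smul_mul_smul_comm, exp_half_mul, ← Real.exp_add]
    congr 2
    ring
  rw [exp_half_mul, e, qf_smul]
  exact h w

theorem qf_exp_pow {X Y : Matrix (Fin n) (Fin n) ℝ} (hX : Xᵀ = X) (hY : Yᵀ = Y) {c : ℝ}
    (h : ∀ v, qf (exp X) v ≤ Real.exp c * qf (exp Y) v) (k : ℕ) :
    ∀ v, qf (exp (((1 / 2 : ℝ) ^ k) • X)) v ≤
      Real.exp ((1 / 2 : ℝ) ^ k * c) * qf (exp (((1 / 2 : ℝ) ^ k) • Y)) v := by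
  induction k with
  | zero =>
    intro v
    rw [pow_zero, one_smul, one_smul, one_mul]
    exact h v
  | succ k ih =>
    intro v
    have h1 := qf_exp_half (X := ((1 / 2 : ℝ) ^ k) • X) (Y := ((1 / 2 : ℝ) ^ k) • Y)
      (by rw [transpose_smul, hX]) (by rw [transpose_smul, hY]) ih v
    rw [smul_smul, smul_smul] at h1
    rw [pow_succ']
    have e : (1 / 2 : ℝ) * (1 / 2 : ℝ) ^ k * c = (1 / 2 : ℝ) ^ k * c / 2 := by ring
    rw [e]
    exact h1

/-- The logarithm is operator monotone. -/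
theorem qf_exp_mono {X Y : Matrix (Fin n) (Fin n) ℝ} (hX : Xᵀ = X) (hY : Yᵀ = Y) {c : ℝ}
    (h : ∀ v, qf (exp X) v ≤ Real.exp c * qf (exp Y) v) (v : Fin n → ℝ) :
    qf X v ≤ c * (v ⬝ᵥ v) + qf Y v := by
  have h1 := hasDerivAt_qf_exp X v
  have h2 := hasDerivAt_qf_exp Y v
  have h3 : HasDerivAt (fun t : ℝ => Real.exp (t * c)) c 0 := by
    have h4 : HasDerivAt (fun t : ℝ => t * c) c 0 := by
      simpa using (hasDerivAt_id (0 : ℝ)).mul_const c
    have h5 := h4.exp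
    simpa using h5
  have h6 : HasDerivAt (fun t : ℝ => Real.exp (t * c) * qf (exp (t • Y)) v - qf (exp (t • X)) v)
      (c * (v ⬝ᵥ v) + qf Y v - qf X v) 0 := by
    have h7 := (h3.mul h2).sub h1
    refine h7.congr_deriv ?_
    rw [zero_smul, zero_mul, Real.exp_zero, NormedSpace.exp_zero, qf_one, one_mul]
  rw [hasDerivAt_iff_tendsto_slope_zero] at h6
  have h8 : Tendsto (fun k : ℕ => (1 / 2 : ℝ) ^ k) atTop (𝓝[≠] 0) := by
    rw [tendsto_nhdsWithin_iff]
    refine ⟨tendsto_pow_atTop_nhds_zero_of_lt_one (by norm_num) (by norm_num), ?_⟩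
    exact Filter.Eventually.of_forall fun k => (pow_pos (by norm_num : (0 : ℝ) < 1 / 2) k).ne'
  have h9 := h6.comp h8
  have h10 : 0 ≤ c * (v ⬝ᵥ v) + qf Y v - qf X v := by
    refine ge_of_tendsto h9 (Filter.Eventually.of_forall fun k => ?_)
    have hk : 0 < (1 / 2 : ℝ) ^ k := pow_pos (by norm_num) k
    simp only [Function.comp_apply, zero_add, zero_smul, zero_mul, Real.exp_zero,
      NormedSpace.exp_zero, qf_one, one_mul, sub_self, sub_zero, smul_eq_mul]
    exact mul_nonneg (inv_nonneg.mpr hk.le) (sub_nonneg.mpr (qf_exp_pow hX hY h k v))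
  linarith

/-! ### polarisation -/

theorem qf_single_add (Z : Matrix (Fin n) (Fin n) ℝ) (hZ : Zᵀ = Z) (i j : Fin n) :
    qf Z (Pi.single i 1 + Pi.single j 1) - qf Z (Pi.single i 1 - Pi.single j 1) = 4 * Z i j := by
  have hs : Z j i = Z i j := by
    have := congrFun (congrFun hZ i) j
    rw [transpose_apply] at this
    exact this
  simp only [qf, mulVec_add, mulVec_sub, dotProduct_add, add_dotProduct, dotProduct_sub,
    sub_dotProduct, mulVec_single_one, single_one_dotProduct, col_apply]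
  rw [hs]
  ring

theorem eq_zero_of_qf {Z : Matrix (Fin n) (Fin n) ℝ} (hZ : Zᵀ = Z) (h : ∀ v, qf Z v = 0) :
    Z = 0 := by
  ext i j
  have h1 := qf_single_add Z hZ i j
  rw [h, h, sub_zero] at h1
  rw [Matrix.zero_apply]
  linarith

theorem dot_single (i j : Fin n) :
    (Pi.single i 1 + Pi.single j 1 : Fin n → ℝ) ⬝ᵥ (Pi.single i 1 + Pi.single j 1) +
      (Pi.single i 1 - Pi.single j 1 : Fin n → ℝ) ⬝ᵥ (Pi.single i 1 - Pi.single j 1) = 4 := by
  simp only [dotProduct_add, add_dotProduct, dotProduct_sub, sub_dotProduct,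
    single_one_dotProduct, Pi.single_eq_same]
  ring

/-- entries of a matrix with `- c ≤ E ≤ c` -/
theorem entry_le {E : Matrix (Fin n) (Fin n) ℝ} (hE : Eᵀ = E) {c : ℝ}
    (h1 : ∀ v, qf E v ≤ c * (v ⬝ᵥ v)) (h2 : ∀ v, -(c * (v ⬝ᵥ v)) ≤ qf E v) (i j : Fin n) :
    |E i j| ≤ c := by
  have h3 := qf_single_add E hE i j
  have h4 := dot_single i j
  have h5 := h1 (Pi.single i 1 + Pi.single j 1)
  have h6 := h2 (Pi.single i 1 + Pi.single j 1)
  have h7 := h1 (Pi.single i 1 - Pi.single j 1)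
  have h8 := h2 (Pi.single i 1 - Pi.single j 1)
  rw [abs_le]
  constructor <;> nlinarith

/-- `exp` is injective on symmetric matrices -/
theorem exp_inj {X Y : Matrix (Fin n) (Fin n) ℝ} (hX : Xᵀ = X) (hY : Yᵀ = Y)
    (h : exp X = exp Y) : X = Y := by
  have h1 : X - Y = 0 := by
    apply eq_zero_of_qf (by rw [transpose_sub, hX, hY])
    intro v
    have h2 := qf_exp_mono (c := 0) hX hY (fun v => by rw [h, Real.exp_zero, one_mul]) v
    have h3 := qf_exp_mono (c := 0) hY hX (fun v => by rw [h, Real.exp_zero, one_mul]) v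
    rw [qf_sub]
    linarith
  exact sub_eq_zero.mp h1

end Pool.Agent.Helper17.CKF
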