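import Pool.Agent.Helper17.CKF.O0
import Pool.Agent.Helper17.CKF.O2

/-! # CKF-O3: `h exp(2 R x) h'` leaves every compact set -/

set_option autoImplicit false

namespace Pool.Agent.Helper17.CKF

open Matrix Topology Filter NormedSpace

variable {n : ℕ}

/-- `v · (A Aᵀ) v ≤ |A|² v · v` -/
theorem qf_mul_transpose_le (A : Matrix (Fin n) (Fin n) ℝ) (v : Fin n → ℝ) :
    qf (A * Aᵀ) v ≤ fn A * (v ⬝ᵥ v) := by
  have h1 : qf (A * Aᵀ) v = (Aᵀ *ᵥ v) ⬝ᵥ (Aᵀ *ᵥ v) := by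
    have h := qf_transpose_mul_self Aᵀ v
    rwa [transpose_transpose] at h
  rw [h1]
  have h2 : ∀ j, (Aᵀ *ᵥ v) j ^ 2 ≤ (∑ i, A i j ^ 2) * ∑ i, v i ^ 2 := by
    intro j
    have : (Aᵀ *ᵥ v) j = ∑ i, A i j * v i := by
      simp only [mulVec, dotProduct, transpose_apply]
    rw [this]
    exact Finset.sum_mul_sq_le_sq_mul_sq _ _ _
  have h3 : (Aᵀ *ᵥ v) ⬝ᵥ (Aᵀ *ᵥ v) = ∑ j, (Aᵀ *ᵥ v) j ^ 2 := by
    simp only [dotProduct, sq]
  have h4 : v ⬝ᵥ v = ∑ i, v i ^ 2 := by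
    simp only [dotProduct, sq]
  rw [h3, h4, fn, Finset.sum_comm, Finset.sum_mul]
  exact Finset.sum_le_sum fun j _ => h2 j

theorem fn_nn (A : Matrix (Fin n) (Fin n) ℝ) : 0 ≤ fn A :=
  Finset.sum_nonneg fun _ _ => Finset.sum_nonneg fun _ _ => sq_nonneg _

/-- if `|y|² ≤ c` and `|y⁻¹|² ≤ c` then `1 / c ≤ y yᵀ ≤ c` -/
theorem qf_two_sided {y z : Matrix (Fin n) (Fin n) ℝ} (hyz : y * z = 1) {c : ℝ}
    (hy : fn y ≤ c) (hz : fn z ≤ c) (v : Fin n → ℝ) :
    qf (y * yᵀ) v ≤ c * (v ⬝ᵥ v) ∧ v ⬝ᵥ v ≤ c * qf (y * yᵀ) v := by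
  have hvv : 0 ≤ v ⬝ᵥ v := dot_self_pos.dotProduct_self_nonneg v
  constructor
  · exact (qf_mul_transpose_le y v).trans (mul_le_mul_of_nonneg_right hy hvv)
  · -- `v = zᵀ (yᵀ v)`
    set w : Fin n → ℝ := yᵀ *ᵥ v with hw
    have h1 : qf (y * yᵀ) v = w ⬝ᵥ w := by
      have h := qf_transpose_mul_self yᵀ v
      rwa [transpose_transpose] at h
    have h2 : zᵀ *ᵥ w = v := by
      rw [hw, mulVec_mulVec, ← transpose_mul, hyz, transpose_one, one_mulVec]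
    have h3 : v ⬝ᵥ v ≤ fn z * (w ⬝ᵥ w) := by
      have h4 := qf_mul_transpose_le z w
      have h5 : qf (z * zᵀ) w = (zᵀ *ᵥ w) ⬝ᵥ (zᵀ *ᵥ w) := by
        have h := qf_transpose_mul_self zᵀ w
        rwa [transpose_transpose] at h
      rw [h5, h2] at h4
      exact h4
    rw [h1]
    exact h3.trans (mul_le_mul_of_nonneg_right hz (dot_self_pos.dotProduct_self_nonneg w))

/-- `|tr (x E)| ≤ c n²` if `|x|² = 1` and `- c ≤ E ≤ c` -/
theorem trace_le {x E : Matrix (Fin n) (Fin n) ℝ} (hx : fn x = 1) (hE : Eᵀ = E) {c : ℝ}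
    (h1 : ∀ v, qf E v ≤ c * (v ⬝ᵥ v)) (h2 : ∀ v, -(c * (v ⬝ᵥ v)) ≤ qf E v) :
    (x * E).trace ≤ c * (n : ℝ) ^ 2 := by
  have hxe : ∀ i j, |x i j| ≤ 1 := by
    intro i j
    have h3 : x i j ^ 2 ≤ 1 := by
      rw [← hx, fn]
      calc x i j ^ 2 ≤ ∑ j, x i j ^ 2 :=
            Finset.single_le_sum (f := fun j => x i j ^ 2) (fun _ _ => sq_nonneg _)
              (Finset.mem_univ j)
        _ ≤ ∑ i, ∑ j, x i j ^ 2 :=
            Finset.single_le_sum (f := fun i => ∑ j, x i j ^ 2)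
              (fun _ _ => Finset.sum_nonneg fun _ _ => sq_nonneg _) (Finset.mem_univ i)
    exact (sq_le_one_iff_abs_le_one _).mp h3
  have h4 : (x * E).trace = ∑ i, ∑ j, x i j * E j i := by
    simp only [trace, diag_apply, mul_apply]
  rw [h4]
  calc ∑ i, ∑ j, x i j * E j i ≤ ∑ _i : Fin n, ∑ _j : Fin n, c := by
        refine Finset.sum_le_sum fun i _ => Finset.sum_le_sum fun j _ => ?_
        have h5 := entry_le hE h1 h2 j i
        calc x i j * E j i ≤ |x i j * E j i| := le_abs_self _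
          _ = |x i j| * |E j i| := abs_mul _ _
          _ ≤ 1 * c := mul_le_mul (hxe i j) h5 (abs_nonneg _) zero_le_one
          _ = c := one_mul c
    _ = c * (n : ℝ) ^ 2 := by
        simp only [Finset.sum_const, Finset.card_univ, Fintype.card_fin, nsmul_eq_mul]
        ring

variable {G : Type} [Group G] [TopologicalSpace G]

/-- `ι g (ι g)ᵀ = exp (2 X)` -/
theorem Cartan.sq {M : MatGroup G n} {H : Subgroup G}
    {q : Submodule ℝ (Matrix (Fin n) (Fin n) ℝ)} (hH : Cartan M H q) {h : G} (hh : h ∈ H) :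
    ∃ X ∈ q, M.ι h * (M.ι h)ᵀ = exp ((2 : ℝ) • X) := by
  obtain ⟨X, hX, k, hk, hk1, e⟩ := hH.polar h hh
  refine ⟨X, hX, ?_⟩
  rw [e, transpose_mul, exp_tr (hH.symm X hX), mul_assoc, ← mul_assoc (M.ι k), hk1, one_mul,
    ← Matrix.exp_add_of_commute _ _ (Commute.refl _), ← two_smul ℝ X]

/-- main step: the comparison with the geometric mean -/
theorem escape_aux {M : MatGroup G n} {H : Subgroup G}
    {q : Submodule ℝ (Matrix (Fin n) (Fin n) ℝ)} (hH : Cartan M H q) {c : ℝ} (hc : 1 ≤ c)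
    {x : Matrix (Fin n) (Fin n) ℝ} (hx : xᵀ = x) {h h' g : G} (hh : h ∈ H) (hh' : h' ∈ H)
    (hg : M.ι g = exp x) (hN : M.N (h * g * h') ≤ c) :
    ∃ C ∈ q, (∀ v, qf (x - C) v ≤ Real.log c / 2 * (v ⬝ᵥ v)) ∧
      ∀ v, -(Real.log c / 2 * (v ⬝ᵥ v)) ≤ qf (x - C) v := by
  have hc0 : 0 < c := lt_of_lt_of_le one_pos hc
  set y : G := h * g * h' with hy
  have hyz : M.ι y * M.ι y⁻¹ = 1 := by rw [← map_mul, mul_inv_cancel, map_one]
  have hNy : fn (M.ι y) ≤ c := by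
    have h1 : M.N y = fn (M.ι y) + fn (M.ι y⁻¹) := rfl
    have h2 := fn_nn (M.ι y⁻¹)
    linarith
  have hNz : fn (M.ι y⁻¹) ≤ c := by
    have h1 : M.N y = fn (M.ι y) + fn (M.ι y⁻¹) := rfl
    have h2 := fn_nn (M.ι y)
    linarith
  have hts := qf_two_sided hyz hNy hNz
  obtain ⟨A, hA, k, hk, hk1, hb⟩ := hH.polar h' hh'
  have hAs : Aᵀ = A := hH.symm A hA
  obtain ⟨sA, hsA, esA⟩ := hH.exp_mem A hA
  obtain ⟨C', hC', eC'⟩ := hH.sq (mul_mem hsA (inv_mem hh))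
  have hC's : C'ᵀ = C' := hH.symm C' hC'
  set S : Matrix (Fin n) (Fin n) ℝ := exp A with hS
  have hSs : Sᵀ = S := exp_tr hAs
  set L : Matrix (Fin n) (Fin n) ℝ := exp x with hL
  have hLs : Lᵀ = L := exp_tr hx
  set Z : Matrix (Fin n) (Fin n) ℝ := S * L * S with hZ
  have hZs : Zᵀ = Z := by
    rw [hZ, transpose_mul, transpose_mul, hSs, hLs, mul_assoc]
  -- the vector `S w` is nonzero
  have hSinj : ∀ w : Fin n → ℝ, w ≠ 0 → S *ᵥ w ≠ 0 := by
    intro w hw h0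
    apply hw
    have h2 : exp (-A) *ᵥ (S *ᵥ w) = w := by rw [mulVec_mulVec, hS, exp_neg_mul, one_mulVec]
    rw [← h2, h0, mulVec_zero]
  have hqZ : ∀ w, qf Z w = qf L (S *ᵥ w) := by
    intro w
    have h := qf_conj L S w
    rwa [hSs] at h
  have hZ0 : ∀ w, w ≠ 0 → 0 < qf Z w := by
    intro w hw
    rw [hqZ]
    exact qf_exp_pos hx (hSinj w hw)
  -- `Z Z = P (y yᵀ) Pᵀ` with `P = S a⁻¹`
  set P : Matrix (Fin n) (Fin n) ℝ := M.ι (sA * h⁻¹) with hP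
  have hLb : L * M.ι h' = M.ι h⁻¹ * M.ι y := by
    rw [← hg, ← map_mul, ← map_mul, hy]
    congr 1
    group
  have hSL : S * L * M.ι h' = P * M.ι y := by
    have h3 : P = S * M.ι h⁻¹ := by rw [hP, map_mul M.ι sA, esA]
    rw [mul_assoc, hLb, h3, mul_assoc]
  have hSS : S * S = M.ι h' * (M.ι h')ᵀ := by
    rw [hb, transpose_mul, hSs, mul_assoc, ← mul_assoc (M.ι k), hk1, one_mul]
  have hZZ : Z * Z = P * (M.ι y * (M.ι y)ᵀ) * Pᵀ := by
    calc Z * Z = (S * L) * (S * S) * (L * S) := by rw [hZ]; noncomm_ring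
      _ = (S * L * M.ι h') * ((M.ι h')ᵀ * (L * S)) := by rw [hSS]; noncomm_ring
      _ = (S * L * M.ι h') * (S * L * M.ι h')ᵀ := by
          rw [transpose_mul (S * L), transpose_mul S L, hSs, hLs]
      _ = P * (M.ι y * (M.ι y)ᵀ) * Pᵀ := by
          rw [hSL, transpose_mul]; noncomm_ring
  have hqZZ : ∀ w, qf (Z * Z) w = qf (M.ι y * (M.ι y)ᵀ) (Pᵀ *ᵥ w) := by
    intro w
    have h := qf_conj (M.ι y * (M.ι y)ᵀ) Pᵀ w
    rw [transpose_transpose] at h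
    rw [hZZ, h]
  have hqP : ∀ w, qf (exp ((2 : ℝ) • C')) w = (Pᵀ *ᵥ w) ⬝ᵥ (Pᵀ *ᵥ w) := by
    intro w
    have h := qf_transpose_mul_self Pᵀ w
    rw [transpose_transpose] at h
    rw [← eC', h]
  have hup : ∀ w, qf (Z * Z) w ≤ c * qf (exp ((2 : ℝ) • C')) w := by
    intro w
    rw [hqZZ, hqP]
    exact (hts _).1
  have hlo : ∀ w, qf (exp ((2 : ℝ) • C')) w ≤ c * qf (Z * Z) w := by
    intro w
    rw [hqZZ, hqP]
    exact (hts _).2
  set r : ℝ := Real.exp (Real.log c / 2) with hr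
  have hr0 : 0 < r := Real.exp_pos _
  have hrr : r * r = c := by
    rw [hr, ← Real.exp_add, add_halves, Real.exp_log hc0]
  have hCC : exp C' * exp C' = exp ((2 : ℝ) • C') := by
    rw [← Matrix.exp_add_of_commute _ _ (Commute.refl _), ← two_smul ℝ C']
  have h1 : ∀ w, qf Z w ≤ r * qf (exp C') w := by
    intro w
    rw [← qf_smul]
    apply qf_sqrt hZs (by rw [transpose_smul, exp_tr hC's]) hZ0
      (fun v hv => qf_smul_exp_pos hC's hr0 hv)
    intro v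
    rw [smul_mul_smul_comm, hrr, hCC, qf_smul]
    exact hup v
  have h2 : ∀ w, qf (exp C') w ≤ r * qf Z w := by
    intro w
    rw [← qf_smul]
    apply qf_sqrt (exp_tr hC's) (by rw [transpose_smul, hZs]) (fun v hv => qf_exp_pos hC's hv)
      (fun v hv => by rw [qf_smul]; exact mul_pos hr0 (hZ0 v hv))
    intro v
    rw [smul_mul_smul_comm, hrr, hCC, qf_smul]
    exact hlo v
  -- back to `L`
  have hnA : -A ∈ q := neg_mem hA
  have hnAs : (-A)ᵀ = -A := by rw [transpose_neg, hAs]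
  obtain ⟨sB, hsB, esB⟩ := hH.exp_mem (-A) hnA
  obtain ⟨sC, hsC, esC⟩ := hH.exp_mem ((1 / 2 : ℝ) • C') (q.smul_mem _ hC')
  obtain ⟨D, hD, eD⟩ := hH.sq (mul_mem hsB hsC)
  have hDs : Dᵀ = D := hH.symm D hD
  have hCh : ((1 / 2 : ℝ) • C')ᵀ = (1 / 2 : ℝ) • C' := by rw [transpose_smul, hC's]
  have eD' : exp ((2 : ℝ) • D) = exp (-A) * exp C' * exp (-A) := by
    rw [← eD, map_mul, esB, esC, transpose_mul, exp_tr hnAs, exp_tr hCh, ← exp_half_mul C']
    noncomm_ring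
  have hqD : ∀ v, qf (exp ((2 : ℝ) • D)) v = qf (exp C') (exp (-A) *ᵥ v) := by
    intro v
    have h := qf_conj (exp C') (exp (-A)) v
    rw [exp_tr hnAs] at h
    rw [eD', h]
  have hqL : ∀ v, qf L v = qf Z (exp (-A) *ᵥ v) := by
    intro v
    rw [hqZ, mulVec_mulVec, hS, exp_mul_neg, one_mulVec]
  have hDD : ((2 : ℝ) • D)ᵀ = (2 : ℝ) • D := by rw [transpose_smul, hDs]
  refine ⟨(2 : ℝ) • D, q.smul_mem _ hD, ?_, ?_⟩
  · intro v
    have h3 := qf_exp_mono (X := x) (Y := (2 : ℝ) • D) (c := Real.log c / 2) hx hDD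
      (fun v => by rw [← hL, hqL, hqD]; exact h1 _) v
    rw [qf_sub]
    linarith
  · intro v
    have h3 := qf_exp_mono (X := (2 : ℝ) • D) (Y := x) (c := Real.log c / 2) hDD hx
      (fun v => by rw [← hL, hqL, hqD]; exact h2 _) v
    rw [qf_sub]
    linarith

/-- The lemma. -/
theorem escape {M : MatGroup G n} {H : Subgroup G}
    {q : Submodule ℝ (Matrix (Fin n) (Fin n) ℝ)} (hH : Cartan M H q) {c : ℝ} (hc : 1 ≤ c)
    {x : Matrix (Fin n) (Fin n) ℝ} (hx : xᵀ = x) (hx1 : fn x = 1)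
    (hxq : ∀ y ∈ q, (x * y).trace = 0) {R : ℝ} (hR : Real.log c / 2 * (n : ℝ) ^ 2 < R) {h h' g : G}
    (hh : h ∈ H) (hh' : h' ∈ H) (hg : M.ι g = exp (R • x)) : c < M.N (h * g * h') := by
  by_contra hcon
  obtain ⟨C, hC, h1, h2⟩ := escape_aux hH hc (x := R • x) (by rw [transpose_smul, hx]) hh hh' hg
    (not_lt.mp hcon)
  have h3 := trace_le hx1 (E := R • x - C)
    (by rw [transpose_sub, transpose_smul, hx, hH.symm C hC]) h1 h2
  have h4 : (x * (R • x - C)).trace = R := by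
    rw [mul_sub, trace_sub, Matrix.mul_smul, trace_smul, hxq C hC, sub_zero]
    have h5 : (x * x).trace = fn x := by
      simp only [trace, diag_apply, mul_apply, fn]
      refine Finset.sum_congr rfl fun i _ => Finset.sum_congr rfl fun j _ => ?_
      have : x j i = x i j := by
        have := congrFun (congrFun hx i) j
        rw [transpose_apply] at this
        exact this
      rw [this, sq]
    rw [h5, hx1, smul_eq_mul, mul_one]
  rw [h4] at h3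
  linarith

end Pool.Agent.Helper17.CKF
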