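import Pool.Agent.Helper17.CKF.O3
import Pool.Agent.Helper17.CKF.B2

/-! # CKF-O4: polar logarithm, the inverse of the exponential map, orthogonal elements -/

set_option autoImplicit false

namespace Pool.Agent.Helper17.CKF

open Matrix Topology Filter NormedSpace

variable {n : ℕ} {G : Type} [Group G] [TopologicalSpace G]

/-- a cluster point of a convergent function is its limit -/
theorem mapClusterPt_eq {α X : Type} [TopologicalSpace X] [T2Space X] {F : Filter α} {u : α → X}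
    {y z : X} (h : MapClusterPt y F u) (hz : Tendsto u F (𝓝 z)) : y = z := by
  have h1 : NeBot (𝓝 y ⊓ map u F) := h
  have h2 : NeBot (𝓝 y ⊓ 𝓝 z) := h1.mono (inf_le_inf_left _ hz)
  exact eq_of_nhds_neBot h2

/-- continuity into `G` is continuity of the matrix and of the inverse matrix -/
theorem MatGroup.tendsto_of [IsTopologicalGroup G] (M : MatGroup G n) {α : Type} {F : Filter α}
    {f : α → G} {g : G} (h1 : Tendsto (fun a => M.ι (f a)) F (𝓝 (M.ι g)))
    (h2 : Tendsto (fun a => M.ι (f a)⁻¹) F (𝓝 (M.ι g⁻¹))) : Tendsto f F (𝓝 g) := by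
  have h3 : Tendsto (fun a => M.N (f a)) F (𝓝 (M.N g)) := by
    have h4 : Tendsto (fun a => fn (M.ι (f a))) F (𝓝 (fn (M.ι g))) :=
      (continuous_fn.tendsto _).comp h1
    have h5 : Tendsto (fun a => fn (M.ι (f a)⁻¹)) F (𝓝 (fn (M.ι g⁻¹))) :=
      (continuous_fn.tendsto _).comp h2
    exact h4.add h5
  refine (M.compact (M.N g + 1)).tendsto_nhds_of_unique_mapClusterPt ?_ ?_
  · filter_upwards [h3.eventually (gt_mem_nhds (lt_add_one (M.N g)))] with a ha
    exact ha.le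
  · intro y _ hy
    apply M.inj
    exact mapClusterPt_eq (hy.tendsto_comp (M.cont.tendsto y)) h1

/-- `g gᵀ` determines the polar logarithm -/
theorem two_smul_exp_inj {X Y : Matrix (Fin n) (Fin n) ℝ} (hX : Xᵀ = X) (hY : Yᵀ = Y)
    (h : exp ((2 : ℝ) • X) = exp ((2 : ℝ) • Y)) : X = Y := by
  have h1 := exp_inj (by rw [transpose_smul, hX]) (by rw [transpose_smul, hY]) h
  exact smul_right_injective _ (two_ne_zero) h1

section Pl

variable {M : MatGroup G n} {p : Submodule ℝ (Matrix (Fin n) (Fin n) ℝ)}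

/-- the polar logarithm: `g gᵀ = exp (2 X)` -/
noncomputable def pl (hG : Cartan M ⊤ p) (g : G) : Matrix (Fin n) (Fin n) ℝ :=
  (hG.sq (Subgroup.mem_top g)).choose

theorem pl_mem (hG : Cartan M ⊤ p) (g : G) : pl hG g ∈ p :=
  (hG.sq (Subgroup.mem_top g)).choose_spec.1

theorem pl_sq (hG : Cartan M ⊤ p) (g : G) :
    M.ι g * (M.ι g)ᵀ = exp ((2 : ℝ) • pl hG g) :=
  (hG.sq (Subgroup.mem_top g)).choose_spec.2

theorem pl_symm (hG : Cartan M ⊤ p) (g : G) : (pl hG g)ᵀ = pl hG g := hG.symm _ (pl_mem hG g)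

theorem pl_unique (hG : Cartan M ⊤ p) {g : G} {X : Matrix (Fin n) (Fin n) ℝ} (hX : Xᵀ = X)
    (h : M.ι g * (M.ι g)ᵀ = exp ((2 : ℝ) • X)) : pl hG g = X :=
  two_smul_exp_inj (pl_symm hG g) hX ((pl_sq hG g).symm.trans h)

theorem pl_bound (hG : Cartan M ⊤ p) {g : G} {c : ℝ} (hc : 1 ≤ c) (hN : M.N g ≤ c) (i j : Fin n) :
    |((2 : ℝ) • pl hG g) i j| ≤ Real.log c := by
  have hc0 : 0 < c := lt_of_lt_of_le one_pos hc
  have h1 : M.N g = fn (M.ι g) + fn (M.ι g⁻¹) := rfl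
  have h2 := fn_nn (M.ι g)
  have h3 := fn_nn (M.ι g⁻¹)
  have hyz : M.ι g * M.ι g⁻¹ = 1 := by rw [← map_mul, mul_inv_cancel, map_one]
  have hts := qf_two_sided hyz (by linarith : fn (M.ι g) ≤ c) (by linarith : fn (M.ι g⁻¹) ≤ c)
  have hs : ((2 : ℝ) • pl hG g)ᵀ = (2 : ℝ) • pl hG g := by rw [transpose_smul, pl_symm]
  have hs0 : (0 : Matrix (Fin n) (Fin n) ℝ)ᵀ = 0 := transpose_zero
  have hq0 : ∀ v, qf (exp (0 : Matrix (Fin n) (Fin n) ℝ)) v = v ⬝ᵥ v := by
    intro v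
    rw [NormedSpace.exp_zero, qf_one]
  have hz : ∀ v, qf (0 : Matrix (Fin n) (Fin n) ℝ) v = 0 := by
    intro v
    simp only [qf, zero_mulVec, dotProduct_zero]
  refine entry_le hs ?_ ?_ i j
  · intro v
    have h4 := qf_exp_mono (X := (2 : ℝ) • pl hG g) (Y := 0) (c := Real.log c) hs hs0 (fun v => by
      rw [← pl_sq, Real.exp_log hc0, hq0]
      exact (hts v).1) v
    rw [hz] at h4
    linarith
  · intro v
    have h4 := qf_exp_mono (X := 0) (Y := (2 : ℝ) • pl hG g) (c := Real.log c) hs0 hs (fun v => by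
      rw [← pl_sq, Real.exp_log hc0, hq0]
      exact (hts v).2) v
    rw [hz] at h4
    linarith

theorem continuous_exp_two : Continuous fun X : Matrix (Fin n) (Fin n) ℝ => exp ((2 : ℝ) • X) := by
  let _ : NormedRing (Matrix (Fin n) (Fin n) ℝ) := Matrix.linftyOpNormedRing
  let _ : NormedAlgebra ℝ (Matrix (Fin n) (Fin n) ℝ) := Matrix.linftyOpNormedAlgebra
  let _ : NormedAlgebra ℚ (Matrix (Fin n) (Fin n) ℝ) := NormedAlgebra.restrictScalars ℚ ℝ _
  exact (NormedSpace.exp_continuous (𝔸 := Matrix (Fin n) (Fin n) ℝ)).comp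
    (continuous_const_smul (2 : ℝ))

theorem continuous_mexp : Continuous fun X : Matrix (Fin n) (Fin n) ℝ => exp X := by
  let _ : NormedRing (Matrix (Fin n) (Fin n) ℝ) := Matrix.linftyOpNormedRing
  let _ : NormedAlgebra ℝ (Matrix (Fin n) (Fin n) ℝ) := Matrix.linftyOpNormedAlgebra
  let _ : NormedAlgebra ℚ (Matrix (Fin n) (Fin n) ℝ) := NormedAlgebra.restrictScalars ℚ ℝ _
  exact NormedSpace.exp_continuous (𝔸 := Matrix (Fin n) (Fin n) ℝ)

theorem continuous_pl [IsTopologicalGroup G] (hG : Cartan M ⊤ p) : Continuous (pl hG) := by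
  rw [continuous_iff_continuousAt]
  intro g₀
  set c : ℝ := M.N g₀ + 1 with hc
  have hc1 : 1 ≤ c := by
    have := M.N_nonneg g₀
    linarith
  have hK : IsCompact {X : Matrix (Fin n) (Fin n) ℝ |
      Xᵀ = X ∧ ∀ i j, |((2 : ℝ) • X) i j| ≤ Real.log c} := by
    have h1 : IsCompact (Set.pi Set.univ fun _ : Fin n => Set.pi Set.univ fun _ : Fin n =>
        Set.Icc (-(Real.log c / 2)) (Real.log c / 2)) :=
      isCompact_univ_pi fun _ => isCompact_univ_pi fun _ => isCompact_Icc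
    refine IsCompact.of_isClosed_subset h1 ?_ ?_
    · refine IsClosed.inter ?_ ?_
      · exact isClosed_eq continuous_id.matrix_transpose continuous_id
      · have h2 : {X : Matrix (Fin n) (Fin n) ℝ | ∀ i j, |((2 : ℝ) • X) i j| ≤ Real.log c} =
            ⋂ i, ⋂ j, {X : Matrix (Fin n) (Fin n) ℝ | |((2 : ℝ) • X) i j| ≤ Real.log c} := by
          ext X
          simp only [Set.mem_ofPred_eq, Set.mem_iInter]
        have h3 : IsClosed {X : Matrix (Fin n) (Fin n) ℝ |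
            ∀ i j, |((2 : ℝ) • X) i j| ≤ Real.log c} := by
          rw [h2]
          refine isClosed_iInter fun i => isClosed_iInter fun j => isClosed_le ?_ continuous_const
          exact ((continuous_const_smul (2 : ℝ)).matrix_elem i j).abs
        exact h3
    · rintro X ⟨-, hX⟩ i - j -
      have h4 := hX i j
      rw [Matrix.smul_apply, smul_eq_mul, abs_mul, abs_two] at h4
      have h5 := abs_le.mp (by linarith : |X i j| ≤ Real.log c / 2)
      exact ⟨by linarith [h5.1], h5.2⟩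
  refine hK.tendsto_nhds_of_unique_mapClusterPt ?_ ?_
  · filter_upwards [M.continuous_N.continuousAt.eventually
      (gt_mem_nhds (lt_add_one (M.N g₀)))] with g hg
    exact ⟨pl_symm hG g, fun i j => pl_bound hG hc1 hg.le i j⟩
  · rintro y ⟨hy, -⟩ hyc
    have h6 : MapClusterPt (exp ((2 : ℝ) • y)) (𝓝 g₀) ((fun X => exp ((2 : ℝ) • X)) ∘ pl hG) :=
      hyc.tendsto_comp (continuous_exp_two.tendsto y)
    have h7 : Tendsto ((fun X => exp ((2 : ℝ) • X)) ∘ pl hG) (𝓝 g₀)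
        (𝓝 (M.ι g₀ * (M.ι g₀)ᵀ)) := by
      have e : ((fun X => exp ((2 : ℝ) • X)) ∘ pl hG) = fun g => M.ι g * (M.ι g)ᵀ := by
        funext g
        exact (pl_sq hG g).symm
      rw [e]
      exact (M.cont.mul M.cont.matrix_transpose).tendsto g₀
    have h8 := mapClusterPt_eq h6 h7
    exact (pl_unique hG hy h8.symm).symm

/-- the element `exp X` of `G` -/
noncomputable def eG (hG : Cartan M ⊤ p) (X : p) : G := (hG.exp_mem X X.2).choose

theorem eG_spec (hG : Cartan M ⊤ p) (X : p) :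
    M.ι (eG hG X) = exp (X : Matrix (Fin n) (Fin n) ℝ) :=
  (hG.exp_mem X X.2).choose_spec.2

theorem eG_neg (hG : Cartan M ⊤ p) (X : p) : eG hG (-X) = (eG hG X)⁻¹ := by
  rw [eq_inv_iff_mul_eq_one]
  apply M.inj
  rw [map_mul, eG_spec, eG_spec, map_one]
  show exp (-(X : Matrix (Fin n) (Fin n) ℝ)) * exp (X : Matrix (Fin n) (Fin n) ℝ) = 1
  exact exp_neg_mul _

theorem continuous_eG [IsTopologicalGroup G] (hG : Cartan M ⊤ p) : Continuous (eG hG) := by
  rw [continuous_iff_continuousAt]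
  intro X₀
  refine M.tendsto_of ?_ ?_
  · simp only [eG_spec]
    exact ((continuous_mexp (n := n)).comp continuous_subtype_val).tendsto X₀
  · have e : ∀ X : p, M.ι (eG hG X)⁻¹ = exp (-(X : Matrix (Fin n) (Fin n) ℝ)) := by
      intro X
      rw [← eG_neg, eG_spec]
      rfl
    simp only [e]
    exact ((continuous_mexp (n := n)).comp (continuous_neg.comp continuous_subtype_val)).tendsto X₀

/-- `p` is stable under conjugation by orthogonal elements -/
theorem conj_mem (hG : Cartan M ⊤ p) {k : G} (hk : M.ι k * (M.ι k)ᵀ = 1)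
    {X : Matrix (Fin n) (Fin n) ℝ} (hX : X ∈ p) : M.ι k * X * (M.ι k)ᵀ ∈ p := by
  have hXs := hG.symm X hX
  have hk' : (M.ι k)ᵀ * M.ι k = 1 := mul_eq_one_comm.mp hk
  have h1 : M.ι (k * eG hG ⟨X, hX⟩) = M.ι k * exp X := by rw [map_mul, eG_spec]
  have h2 : exp (M.ι k * ((2 : ℝ) • X) * (M.ι k)ᵀ) = M.ι k * exp ((2 : ℝ) • X) * (M.ι k)ᵀ := by
    have h3 : IsUnit (M.ι k) := ⟨⟨M.ι k, (M.ι k)ᵀ, hk, hk'⟩, rfl⟩
    have h4 : (M.ι k)⁻¹ = (M.ι k)ᵀ := inv_eq_right_inv hk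
    have h5 := Matrix.exp_conj (M.ι k) ((2 : ℝ) • X) h3
    rwa [h4] at h5
  have h6 : pl hG (k * eG hG ⟨X, hX⟩) = M.ι k * X * (M.ι k)ᵀ := by
    apply pl_unique hG
    · rw [transpose_mul, transpose_mul, transpose_transpose, hXs, mul_assoc]
    · rw [h1, transpose_mul, exp_tr hXs]
      have h7 : (2 : ℝ) • (M.ι k * X * (M.ι k)ᵀ) = M.ι k * ((2 : ℝ) • X) * (M.ι k)ᵀ := by
        rw [Matrix.mul_smul, Matrix.smul_mul]
      rw [h7, h2, two_smul ℝ X, Matrix.exp_add_of_commute _ _ (Commute.refl X)]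
      noncomm_ring
  rw [← h6]
  exact pl_mem hG _

/-- the orthogonal elements form a compact set -/
theorem isCompact_orth [IsTopologicalGroup G] (M : MatGroup G n) :
    IsCompact {k : G | M.ι k * (M.ι k)ᵀ = 1} := by
  refine IsCompact.of_isClosed_subset (M.compact (2 * fn (1 : Matrix (Fin n) (Fin n) ℝ))) ?_ ?_
  · exact isClosed_eq (M.cont.mul M.cont.matrix_transpose) continuous_const
  · intro k hk
    have hk : M.ι k * (M.ι k)ᵀ = 1 := hk
    have h1 : fn (M.ι k) = fn (1 : Matrix (Fin n) (Fin n) ℝ) := by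
      have := fn_mul_orth 1 (M.ι k) hk
      rwa [one_mul] at this
    have h2 : M.ι k⁻¹ = (M.ι k)ᵀ := by
      have h3 : M.ι k * M.ι k⁻¹ = 1 := by rw [← map_mul, mul_inv_cancel, map_one]
      have hk' : (M.ι k)ᵀ * M.ι k = 1 := mul_eq_one_comm.mp hk
      calc M.ι k⁻¹ = (M.ι k)ᵀ * M.ι k * M.ι k⁻¹ := by rw [hk', one_mul]
        _ = (M.ι k)ᵀ := by rw [mul_assoc, h3, mul_one]
    show fn (M.ι k) + fn (M.ι k⁻¹) ≤ _
    rw [h2, fn_transpose, h1]
    linarith

theorem orth_mul {M : MatGroup G n} {k l : G} (hk : M.ι k * (M.ι k)ᵀ = 1)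
    (hl : M.ι l * (M.ι l)ᵀ = 1) : M.ι (k * l) * (M.ι (k * l))ᵀ = 1 := by
  rw [map_mul, transpose_mul, mul_assoc, ← mul_assoc (M.ι l), hl, one_mul, hk]

theorem orth_inv {M : MatGroup G n} {k : G} (hk : M.ι k * (M.ι k)ᵀ = 1) :
    M.ι k⁻¹ * (M.ι k⁻¹)ᵀ = 1 := by
  have h3 : M.ι k * M.ι k⁻¹ = 1 := by rw [← map_mul, mul_inv_cancel, map_one]
  have hk' : (M.ι k)ᵀ * M.ι k = 1 := mul_eq_one_comm.mp hk
  have h2 : M.ι k⁻¹ = (M.ι k)ᵀ := by
    calc M.ι k⁻¹ = (M.ι k)ᵀ * M.ι k * M.ι k⁻¹ := by rw [hk', one_mul]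
      _ = (M.ι k)ᵀ := by rw [mul_assoc, h3, mul_one]
  rw [h2, transpose_transpose, hk']

theorem inv_eq_transpose {M : MatGroup G n} {k : G} (hk : M.ι k * (M.ι k)ᵀ = 1) :
    M.ι k⁻¹ = (M.ι k)ᵀ := by
  have h3 : M.ι k * M.ι k⁻¹ = 1 := by rw [← map_mul, mul_inv_cancel, map_one]
  have hk' : (M.ι k)ᵀ * M.ι k = 1 := mul_eq_one_comm.mp hk
  calc M.ι k⁻¹ = (M.ι k)ᵀ * M.ι k * M.ι k⁻¹ := by rw [hk', one_mul]
    _ = (M.ι k)ᵀ := by rw [mul_assoc, h3, mul_one]

/-- the orthogonal part `exp (- pl g) g` -/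
noncomputable def ko (hG : Cartan M ⊤ p) (g : G) : G := (eG hG ⟨pl hG g, pl_mem hG g⟩)⁻¹ * g

theorem ko_orth (hG : Cartan M ⊤ p) (g : G) : M.ι (ko hG g) * (M.ι (ko hG g))ᵀ = 1 := by
  have h1 : M.ι (ko hG g) = exp (-(pl hG g)) * M.ι g := by
    rw [ko, map_mul, ← eG_neg, eG_spec]
    rfl
  have h2 : (-(pl hG g))ᵀ = -(pl hG g) := by rw [transpose_neg, pl_symm]
  rw [h1, transpose_mul, exp_tr h2, mul_assoc, ← mul_assoc (M.ι g), pl_sq hG g, two_smul ℝ,
    Matrix.exp_add_of_commute _ _ (Commute.refl _), mul_assoc, exp_mul_neg, mul_one, exp_neg_mul]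

theorem eG_mul_ko (hG : Cartan M ⊤ p) (g : G) :
    eG hG ⟨pl hG g, pl_mem hG g⟩ * ko hG g = g := by
  rw [ko, mul_inv_cancel_left]

theorem continuous_ko [IsTopologicalGroup G] (hG : Cartan M ⊤ p) : Continuous (ko hG) := by
  unfold ko
  exact ((continuous_eG hG).comp ((continuous_pl hG).subtype_mk _)).inv.mul continuous_id

end Pl

end Pool.Agent.Helper17.CKF
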