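import Pool.Agent.Helper17.CKF.O4

/-! # CKF-O5: the odd map -/

set_option autoImplicit false

namespace Pool.Agent.Helper17.CKF

open Matrix Topology Filter NormedSpace Pool.Agent.Helper40.CK

variable {n : ℕ} {G : Type} [Group G] [TopologicalSpace G]

theorem qf_ext {A B : Matrix (Fin n) (Fin n) ℝ} (hA : Aᵀ = A) (hB : Bᵀ = B)
    (h : ∀ v, qf A v = qf B v) : A = B := by
  have h1 : A - B = 0 := by
    apply eq_zero_of_qf (by rw [transpose_sub, hA, hB])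
    intro v
    rw [qf_sub, h v, sub_self]
  exact sub_eq_zero.mp h1

/-- uniqueness of positive square roots -/
theorem sqrt_unique {A B : Matrix (Fin n) (Fin n) ℝ} (hA : Aᵀ = A) (hB : Bᵀ = B)
    (hA0 : ∀ v, v ≠ 0 → 0 < qf A v) (hB0 : ∀ v, v ≠ 0 → 0 < qf B v) (h : A * A = B * B) :
    A = B :=
  qf_ext hA hB fun v => le_antisymm
    (qf_sqrt hA hB hA0 hB0 (fun v => by rw [h]) v) (qf_sqrt hB hA hB0 hA0 (fun v => by rw [h]) v)

/-- uniqueness of the midpoint frame -/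
theorem frame_unique {T S W F W' F' : Matrix (Fin n) (Fin n) ℝ} (hTS : T * S = 1)
    (hST : S * T = 1) (hW : Wᵀ = W) (hF : Fᵀ = F) (hW' : W'ᵀ = W') (hF' : F'ᵀ = F')
    (h1 : exp W * exp ((2 : ℝ) • F) * exp W = exp W' * exp ((2 : ℝ) • F') * exp W')
    (h2 : exp W * exp (-((2 : ℝ) • F)) * exp W = T * Tᵀ)
    (h3 : exp W' * exp (-((2 : ℝ) • F')) * exp W' = T * Tᵀ) : F = F' := by
  -- `N = S exp(2W) Sᵀ`, `N N = S (exp W exp(2F) exp W) Sᵀ`
  have hSTt : Tᵀ * Sᵀ = 1 := by rw [← transpose_mul, hST, transpose_one]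
  have hTSt : Sᵀ * Tᵀ = 1 := by rw [← transpose_mul, hTS, transpose_one]
  have key : ∀ {W F : Matrix (Fin n) (Fin n) ℝ},
      exp W * exp (-((2 : ℝ) • F)) * exp W = T * Tᵀ →
      (S * (exp W * exp W) * Sᵀ) * (S * (exp W * exp W) * Sᵀ) =
        S * (exp W * exp ((2 : ℝ) • F) * exp W) * Sᵀ := by
    intro W F h
    -- `Sᵀ S = exp(-W) exp(2F) exp(-W)`
    have h4 : Sᵀ * S = exp (-W) * exp ((2 : ℝ) • F) * exp (-W) := by
      have h5 : (exp (-W) * exp ((2 : ℝ) • F) * exp (-W)) * (T * Tᵀ) = 1 := by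
        rw [← h]
        calc exp (-W) * exp ((2 : ℝ) • F) * exp (-W) *
              (exp W * exp (-((2 : ℝ) • F)) * exp W) =
            exp (-W) * exp ((2 : ℝ) • F) * (exp (-W) * exp W) * exp (-((2 : ℝ) • F)) * exp W := by
              noncomm_ring
          _ = exp (-W) * (exp ((2 : ℝ) • F) * exp (-((2 : ℝ) • F))) * exp W := by
              rw [exp_neg_mul]; noncomm_ring
          _ = 1 := by rw [exp_mul_neg, mul_one, exp_neg_mul]
      have h6 : (T * Tᵀ) * (Sᵀ * S) = 1 := by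
        calc (T * Tᵀ) * (Sᵀ * S) = T * (Tᵀ * Sᵀ) * S := by noncomm_ring
          _ = 1 := by rw [hSTt, mul_one, hTS]
      calc Sᵀ * S = ((exp (-W) * exp ((2 : ℝ) • F) * exp (-W)) * (T * Tᵀ)) * (Sᵀ * S) := by
            rw [h5, one_mul]
        _ = exp (-W) * exp ((2 : ℝ) • F) * exp (-W) := by rw [mul_assoc, h6, mul_one]
    calc (S * (exp W * exp W) * Sᵀ) * (S * (exp W * exp W) * Sᵀ) =
          S * (exp W * (exp W * (Sᵀ * S) * exp W) * exp W) * Sᵀ := by noncomm_ring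
      _ = S * (exp W * (exp W * exp (-W) * exp ((2 : ℝ) • F) * (exp (-W) * exp W)) * exp W) *
            Sᵀ := by rw [h4]; noncomm_ring
      _ = S * (exp W * exp ((2 : ℝ) • F) * exp W) * Sᵀ := by
          rw [exp_mul_neg, exp_neg_mul, one_mul, mul_one]
  have hsym : ∀ {W : Matrix (Fin n) (Fin n) ℝ}, Wᵀ = W →
      (S * (exp W * exp W) * Sᵀ)ᵀ = S * (exp W * exp W) * Sᵀ := by
    intro W hW
    simp only [transpose_mul, transpose_transpose, exp_tr hW]
    noncomm_ring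
  have hpos : ∀ {W : Matrix (Fin n) (Fin n) ℝ}, Wᵀ = W → ∀ v, v ≠ 0 →
      0 < qf (S * (exp W * exp W) * Sᵀ) v := by
    intro W hW v hv
    have h5 : qf (S * (exp W * exp W) * Sᵀ) v = qf (exp W * exp W) (Sᵀ *ᵥ v) := by
      have h := qf_conj (exp W * exp W) Sᵀ v
      rwa [transpose_transpose] at h
    have h6 : Sᵀ *ᵥ v ≠ 0 := by
      intro h0
      apply hv
      have h7 : Tᵀ *ᵥ (Sᵀ *ᵥ v) = v := by rw [mulVec_mulVec, hSTt, one_mulVec]
      rw [← h7, h0, mulVec_zero]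
    rw [h5]
    have h8 : exp W * exp W = exp ((2 : ℝ) • W) := by
      rw [← Matrix.exp_add_of_commute _ _ (Commute.refl _), ← two_smul ℝ W]
    rw [h8]
    exact qf_exp_pos (by rw [transpose_smul, hW]) h6
  have h9 : S * (exp W * exp W) * Sᵀ = S * (exp W' * exp W') * Sᵀ := by
    apply sqrt_unique (hsym hW) (hsym hW') (hpos hW) (hpos hW')
    rw [key h2, key h3, h1]
  have h10 : exp W * exp W = exp W' * exp W' := by
    calc exp W * exp W = (T * S) * (exp W * exp W) * (Sᵀ * Tᵀ) := by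
          rw [hTS, hTSt, one_mul, mul_one]
      _ = T * (S * (exp W * exp W) * Sᵀ) * Tᵀ := by noncomm_ring
      _ = T * (S * (exp W' * exp W') * Sᵀ) * Tᵀ := by rw [h9]
      _ = (T * S) * (exp W' * exp W') * (Sᵀ * Tᵀ) := by noncomm_ring
      _ = exp W' * exp W' := by rw [hTS, hTSt, one_mul, mul_one]
  have h11 : W = W' := by
    apply two_smul_exp_inj hW hW'
    rw [two_smul ℝ W, two_smul ℝ W', Matrix.exp_add_of_commute _ _ (Commute.refl _),
      Matrix.exp_add_of_commute _ _ (Commute.refl _), h10]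
  subst h11
  apply two_smul_exp_inj hF hF'
  calc exp ((2 : ℝ) • F) = (exp (-W) * exp W) * exp ((2 : ℝ) • F) * (exp W * exp (-W)) := by
        rw [exp_neg_mul, exp_mul_neg, one_mul, mul_one]
    _ = exp (-W) * (exp W * exp ((2 : ℝ) • F) * exp W) * exp (-W) := by noncomm_ring
    _ = exp (-W) * (exp W * exp ((2 : ℝ) • F') * exp W) * exp (-W) := by rw [h1]
    _ = (exp (-W) * exp W) * exp ((2 : ℝ) • F') * (exp W * exp (-W)) := by noncomm_ring
    _ = exp ((2 : ℝ) • F') := by rw [exp_neg_mul, exp_mul_neg, one_mul, mul_one]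

section Mid

variable {M : MatGroup G n} {p : Submodule ℝ (Matrix (Fin n) (Fin n) ℝ)}

/-- the polar logarithm of `a⁻¹ b` -/
noncomputable def mX (hG : Cartan M ⊤ p) (a b : G) : p := ⟨pl hG (a⁻¹ * b), pl_mem hG _⟩

/-- a frame at the midpoint -/
noncomputable def mW (hG : Cartan M ⊤ p) (a b : G) : G := a * eG hG ((1 / 2 : ℝ) • mX hG a b)

/-- the direction from the midpoint to the second point in the canonical frame of the midpoint -/
noncomputable def mF (hG : Cartan M ⊤ p) (a b : G) : Matrix (Fin n) (Fin n) ℝ :=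
  M.ι (ko hG (mW hG a b)) * ((1 / 2 : ℝ) • (mX hG a b : Matrix (Fin n) (Fin n) ℝ)) *
    (M.ι (ko hG (mW hG a b)))ᵀ

theorem mF_mem (hG : Cartan M ⊤ p) (a b : G) : mF hG a b ∈ p :=
  conj_mem hG (ko_orth hG _) (p.smul_mem _ (mX hG a b).2)

theorem mF_symm (hG : Cartan M ⊤ p) (a b : G) : (mF hG a b)ᵀ = mF hG a b :=
  hG.symm _ (mF_mem hG a b)

theorem continuous_mX [IsTopologicalGroup G] (hG : Cartan M ⊤ p) :
    Continuous fun q : G × G => mX hG q.1 q.2 :=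
  ((continuous_pl hG).comp (continuous_fst.inv.mul continuous_snd)).subtype_mk _

theorem continuous_mW [IsTopologicalGroup G] (hG : Cartan M ⊤ p) :
    Continuous fun q : G × G => mW hG q.1 q.2 := by
  unfold mW
  exact continuous_fst.mul ((continuous_eG hG).comp
    ((continuous_const_smul (1 / 2 : ℝ)).comp (continuous_mX hG)))

theorem continuous_mF [IsTopologicalGroup G] (hG : Cartan M ⊤ p) :
    Continuous fun q : G × G => mF hG q.1 q.2 := by
  unfold mF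
  have h1 : Continuous fun q : G × G => M.ι (ko hG (mW hG q.1 q.2)) :=
    M.cont.comp ((continuous_ko hG).comp (continuous_mW hG))
  have h2 : Continuous fun q : G × G =>
      (1 / 2 : ℝ) • (mX hG q.1 q.2 : Matrix (Fin n) (Fin n) ℝ) :=
    (continuous_const_smul (1 / 2 : ℝ)).comp (continuous_subtype_val.comp (continuous_mX hG))
  exact (h1.mul h2).mul h1.matrix_transpose

/-- `exp (2 F) = k exp X kᵀ` -/
theorem exp_mF (hG : Cartan M ⊤ p) (a b : G) (r : ℝ) :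
    exp (r • mF hG a b) = M.ι (ko hG (mW hG a b)) *
      exp ((r / 2) • (mX hG a b : Matrix (Fin n) (Fin n) ℝ)) * (M.ι (ko hG (mW hG a b)))ᵀ := by
  have hk := ko_orth hG (mW hG a b)
  have hk' : (M.ι (ko hG (mW hG a b)))ᵀ * M.ι (ko hG (mW hG a b)) = 1 := mul_eq_one_comm.mp hk
  have h3 : IsUnit (M.ι (ko hG (mW hG a b))) := ⟨⟨_, _, hk, hk'⟩, rfl⟩
  have h4 : (M.ι (ko hG (mW hG a b)))⁻¹ = (M.ι (ko hG (mW hG a b)))ᵀ := inv_eq_right_inv hk
  have h5 := Matrix.exp_conj (M.ι (ko hG (mW hG a b)))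
    ((r / 2) • (mX hG a b : Matrix (Fin n) (Fin n) ℝ)) h3
  rw [h4] at h5
  rw [← h5, mF]
  congr 1
  rw [Matrix.mul_smul, Matrix.smul_mul, Matrix.mul_smul, Matrix.smul_mul, smul_smul]
  congr 1
  ring

/-- the two points in the canonical frame -/
theorem mid_fst (hG : Cartan M ⊤ p) (a b : G) :
    exp (pl hG (mW hG a b)) * exp (-((2 : ℝ) • mF hG a b)) * exp (pl hG (mW hG a b)) =
      M.ι a * (M.ι a)ᵀ := by
  set w := mW hG a b with hw
  set X : Matrix (Fin n) (Fin n) ℝ := (mX hG a b : Matrix (Fin n) (Fin n) ℝ) with hX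
  have hXs : Xᵀ = X := hG.symm _ (mX hG a b).2
  have hWs := pl_symm hG w
  have h1 : M.ι w = M.ι a * exp ((1 / 2 : ℝ) • X) := by
    rw [hw, mW, map_mul, eG_spec]
    rfl
  have h2 : exp (pl hG w) * M.ι (ko hG w) = M.ι w := by
    have := eG_mul_ko hG w
    conv_rhs => rw [← this]
    rw [map_mul, eG_spec]
  have h3 : exp (-((2 : ℝ) • mF hG a b)) =
      M.ι (ko hG w) * exp (-X) * (M.ι (ko hG w))ᵀ := by
    have h := exp_mF hG a b (-2)
    rw [neg_smul] at h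
    rw [h]
    congr 3
    rw [← hX]
    norm_num
  have hYs : ((1 / 2 : ℝ) • X)ᵀ = (1 / 2 : ℝ) • X := by rw [transpose_smul, hXs]
  calc exp (pl hG w) * exp (-((2 : ℝ) • mF hG a b)) * exp (pl hG w) =
        (exp (pl hG w) * M.ι (ko hG w)) * exp (-X) * ((M.ι (ko hG w))ᵀ * exp (pl hG w)) := by
        rw [h3]; noncomm_ring
    _ = M.ι w * exp (-X) * (M.ι w)ᵀ := by
        rw [h2]
        congr 1
        rw [← h2, transpose_mul, exp_tr hWs]
    _ = M.ι a * (exp ((1 / 2 : ℝ) • X) * exp (-X) * exp ((1 / 2 : ℝ) • X)) * (M.ι a)ᵀ := by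
        rw [h1, transpose_mul, exp_tr hYs]; noncomm_ring
    _ = M.ι a * (M.ι a)ᵀ := by
        have h4 : Commute ((1 / 2 : ℝ) • X) (-X) := ((Commute.refl X).smul_left _).neg_right
        have h5 : exp ((1 / 2 : ℝ) • X) * exp (-X) * exp ((1 / 2 : ℝ) • X) = 1 := by
          have h6 : exp ((1 / 2 : ℝ) • X) * exp (-X) = exp (-X) * exp ((1 / 2 : ℝ) • X) := by
            rw [← Matrix.exp_add_of_commute _ _ h4, ← Matrix.exp_add_of_commute _ _ h4.symm,
              add_comm]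
          rw [h6, mul_assoc, exp_half_mul, exp_neg_mul]
        rw [h5, mul_one]

theorem mid_snd (hG : Cartan M ⊤ p) (a b : G) :
    exp (pl hG (mW hG a b)) * exp ((2 : ℝ) • mF hG a b) * exp (pl hG (mW hG a b)) =
      M.ι b * (M.ι b)ᵀ := by
  set w := mW hG a b with hw
  set X : Matrix (Fin n) (Fin n) ℝ := (mX hG a b : Matrix (Fin n) (Fin n) ℝ) with hX
  have hXs : Xᵀ = X := hG.symm _ (mX hG a b).2
  have hWs := pl_symm hG w
  have h1 : M.ι w = M.ι a * exp ((1 / 2 : ℝ) • X) := by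
    rw [hw, mW, map_mul, eG_spec]
    rfl
  have h2 : exp (pl hG w) * M.ι (ko hG w) = M.ι w := by
    have := eG_mul_ko hG w
    conv_rhs => rw [← this]
    rw [map_mul, eG_spec]
  have h3 : exp ((2 : ℝ) • mF hG a b) = M.ι (ko hG w) * exp X * (M.ι (ko hG w))ᵀ := by
    have h := exp_mF hG a b 2
    rw [h]
    congr 3
    rw [← hX]
    norm_num
  have hYs : ((1 / 2 : ℝ) • X)ᵀ = (1 / 2 : ℝ) • X := by rw [transpose_smul, hXs]
  have hy : M.ι (a⁻¹ * b) * (M.ι (a⁻¹ * b))ᵀ = exp ((2 : ℝ) • X) := pl_sq hG (a⁻¹ * b)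
  have hb : M.ι b = M.ι a * M.ι (a⁻¹ * b) := by rw [← map_mul, mul_inv_cancel_left]
  calc exp (pl hG w) * exp ((2 : ℝ) • mF hG a b) * exp (pl hG w) =
        (exp (pl hG w) * M.ι (ko hG w)) * exp X * ((M.ι (ko hG w))ᵀ * exp (pl hG w)) := by
        rw [h3]; noncomm_ring
    _ = M.ι w * exp X * (M.ι w)ᵀ := by
        rw [h2]
        congr 1
        rw [← h2, transpose_mul, exp_tr hWs]
    _ = M.ι a * (exp ((1 / 2 : ℝ) • X) * exp X * exp ((1 / 2 : ℝ) • X)) * (M.ι a)ᵀ := by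
        rw [h1, transpose_mul, exp_tr hYs]; noncomm_ring
    _ = M.ι a * exp ((2 : ℝ) • X) * (M.ι a)ᵀ := by
        have h4 : Commute ((1 / 2 : ℝ) • X) X := (Commute.refl X).smul_left _
        have h5 : exp ((1 / 2 : ℝ) • X) * exp X * exp ((1 / 2 : ℝ) • X) = exp ((2 : ℝ) • X) := by
          have h6 : exp ((1 / 2 : ℝ) • X) * exp X = exp X * exp ((1 / 2 : ℝ) • X) := by
            rw [← Matrix.exp_add_of_commute _ _ h4, ← Matrix.exp_add_of_commute _ _ h4.symm,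
              add_comm]
          rw [h6, mul_assoc, exp_half_mul, ← Matrix.exp_add_of_commute _ _ (Commute.refl _),
            ← two_smul ℝ X]
        rw [h5]
    _ = M.ι b * (M.ι b)ᵀ := by
        rw [← hy, hb, transpose_mul]; noncomm_ring

/-- oddness -/
theorem mF_swap (hG : Cartan M ⊤ p) (a b : G) : mF hG b a = -mF hG a b := by
  have hTS : M.ι a * M.ι a⁻¹ = 1 := by rw [← map_mul, mul_inv_cancel, map_one]
  have hST : M.ι a⁻¹ * M.ι a = 1 := by rw [← map_mul, inv_mul_cancel, map_one]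
  have hFs : (-mF hG b a)ᵀ = -mF hG b a := by rw [transpose_neg, mF_symm]
  have h1 := mid_fst hG a b
  have h2 := mid_snd hG a b
  have h3 := mid_fst hG b a
  have h4 := mid_snd hG b a
  have h5 := frame_unique hTS hST (pl_symm hG (mW hG a b)) (mF_symm hG a b)
    (pl_symm hG (mW hG b a)) hFs
    (by rw [h2, smul_neg, h3]) h1 (by rw [smul_neg, neg_neg, h4])
  rw [h5, neg_neg]

/-- if `mF a b` is conjugate into `q`, then `a⁻¹ b = k h k'` -/
theorem mF_conj (hG : Cartan M ⊤ p) {H : Subgroup G}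
    {q : Submodule ℝ (Matrix (Fin n) (Fin n) ℝ)} (hH : Cartan M H q) {a b k : G}
    (hk : M.ι k * (M.ι k)ᵀ = 1) {y : Matrix (Fin n) (Fin n) ℝ} (hy : y ∈ q)
    (h : mF hG a b = M.ι k * y * (M.ι k)ᵀ) :
    ∃ k₁ ∈ {k : G | M.ι k * (M.ι k)ᵀ = 1}, ∃ h ∈ H, ∃ k₂ ∈ {k : G | M.ι k * (M.ι k)ᵀ = 1},
      a⁻¹ * b = k₁ * h * k₂ := by
  obtain ⟨h₀, hh₀, e₀⟩ := hH.exp_mem ((2 : ℝ) • y) (q.smul_mem _ hy)
  set u := ko hG (mW hG a b) with hu
  have hu1 : M.ι u * (M.ι u)ᵀ = 1 := ko_orth hG _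
  have hv1 : M.ι (ko hG (a⁻¹ * b)) * (M.ι (ko hG (a⁻¹ * b)))ᵀ = 1 := ko_orth hG _
  refine ⟨u⁻¹ * k, orth_mul (orth_inv hu1) hk, h₀, hh₀, k⁻¹ * u * ko hG (a⁻¹ * b),
    orth_mul (orth_mul (orth_inv hk) hu1) hv1, ?_⟩
  have h1 : eG hG ⟨pl hG (a⁻¹ * b), pl_mem hG _⟩ = u⁻¹ * k * h₀ * (k⁻¹ * u) := by
    apply M.inj
    have h2 : M.ι (u⁻¹ * k * h₀ * (k⁻¹ * u)) =
        (M.ι u)ᵀ * (M.ι k * exp ((2 : ℝ) • y) * (M.ι k)ᵀ) * M.ι u := by
      rw [map_mul, map_mul, map_mul, map_mul, e₀, inv_eq_transpose hu1, inv_eq_transpose hk]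
      noncomm_ring
    have h3 : M.ι k * exp ((2 : ℝ) • y) * (M.ι k)ᵀ = exp ((2 : ℝ) • mF hG a b) := by
      have hk' : (M.ι k)ᵀ * M.ι k = 1 := mul_eq_one_comm.mp hk
      have h3 : IsUnit (M.ι k) := ⟨⟨M.ι k, (M.ι k)ᵀ, hk, hk'⟩, rfl⟩
      have h4 : (M.ι k)⁻¹ = (M.ι k)ᵀ := inv_eq_right_inv hk
      have h5 := Matrix.exp_conj (M.ι k) ((2 : ℝ) • y) h3
      rw [h4] at h5
      rw [← h5, h]
      congr 1
      rw [Matrix.mul_smul, Matrix.smul_mul]
    have h4 : exp ((2 : ℝ) • mF hG a b) =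
        M.ι u * exp ((mX hG a b : Matrix (Fin n) (Fin n) ℝ)) * (M.ι u)ᵀ := by
      have h := exp_mF hG a b 2
      rw [h, hu]
      congr 3
      norm_num
    have hu' : (M.ι u)ᵀ * M.ι u = 1 := mul_eq_one_comm.mp hu1
    rw [h2, h3, h4, eG_spec]
    calc exp (pl hG (a⁻¹ * b)) = ((M.ι u)ᵀ * M.ι u) *
          exp ((mX hG a b : Matrix (Fin n) (Fin n) ℝ)) * ((M.ι u)ᵀ * M.ι u) := by
          rw [hu', one_mul, mul_one]
          rfl
      _ = (M.ι u)ᵀ * (M.ι u * exp ((mX hG a b : Matrix (Fin n) (Fin n) ℝ)) * (M.ι u)ᵀ) *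
          M.ι u := by noncomm_ring
  calc a⁻¹ * b = eG hG ⟨pl hG (a⁻¹ * b), pl_mem hG _⟩ * ko hG (a⁻¹ * b) :=
        (eG_mul_ko hG _).symm
    _ = u⁻¹ * k * h₀ * (k⁻¹ * u * ko hG (a⁻¹ * b)) := by rw [h1]; group

end Mid

end Pool.Agent.Helper17.CKF
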