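import Pool.Agent.Helper17.CKF.O5
import Pool.Agent.Helper17.CKF.B5

/-! # CKF-O6: the odd map of a cocompact discontinuous group -/

set_option autoImplicit false

namespace Pool.Agent.Helper17.CKF

open Matrix Topology Filter NormedSpace Pool.Agent.Helper40.CK

variable {G : Type} [Group G] [TopologicalSpace G] {n : ℕ}

theorem Cartan.toPolar {M : MatGroup G n} {H : Subgroup G}
    {q : Submodule ℝ (Matrix (Fin n) (Fin n) ℝ)} (hH : Cartan M H q) : Polar M H where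
  closed := hH.closed
  polar := by
    intro h hh
    obtain ⟨X, hX, k, hk, hk1, e⟩ := hH.polar h hh
    obtain ⟨r, hr, er⟩ := hH.exp_mem ((1 / 2 : ℝ) • X) (q.smul_mem _ hX)
    have hYs : ((1 / 2 : ℝ) • X)ᵀ = (1 / 2 : ℝ) • X := by rw [transpose_smul, hH.symm X hX]
    refine ⟨r, hr, k, hk, ?_, hk1, ?_⟩
    · rw [er]
      refine Matrix.PosDef.of_dotProduct_mulVec_pos ?_ ?_
      · rw [IsHermitian, conjTranspose_eq_transpose_of_trivial]
        exact exp_tr hYs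
      · intro v hv
        have h1 := qf_exp_pos hYs hv
        simpa [qf] using h1
    · apply M.inj
      rw [map_mul, map_mul, er, exp_half_mul, e]

theorem fn_smul (c : ℝ) (A : Matrix (Fin n) (Fin n) ℝ) : fn (c • A) = c ^ 2 * fn A := by
  simp only [fn, Matrix.smul_apply, smul_eq_mul, mul_pow, Finset.mul_sum]

theorem fn_pos {A : Matrix (Fin n) (Fin n) ℝ} (hA : A ≠ 0) : 0 < fn A := by
  rcases lt_or_eq_of_le (fn_nn A) with h | h
  · exact h
  · exfalso
    apply hA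
    ext i j
    have h1 : ∑ j, A i j ^ 2 = 0 :=
      (Finset.sum_eq_zero_iff_of_nonneg
        (fun i _ => Finset.sum_nonneg fun _ _ => sq_nonneg _)).1 h.symm i (Finset.mem_univ i)
    have h2 : A i j ^ 2 = 0 :=
      (Finset.sum_eq_zero_iff_of_nonneg (fun _ _ => sq_nonneg _)).1 h1 j (Finset.mem_univ j)
    rw [Matrix.zero_apply]
    exact pow_eq_zero_iff (two_ne_zero) |>.1 h2

/-- the first part: an equivariant choice -/
theorem odd_pre [IsTopologicalGroup G] (M : MatGroup G n)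
    {p q : Submodule ℝ (Matrix (Fin n) (Fin n) ℝ)} {H Γ : Subgroup G}
    (hG : Cartan M ⊤ p) (hH : Cartan M H q) (hΓ : IsCocompactDiscontinuousGroup Γ H) :
    ∃ t : p → G, ContinuousOn t {0}ᶜ ∧
      ∀ x : p, (∀ y ∈ q, ((x : Matrix (Fin n) (Fin n) ℝ) * y).trace = 0) → x ≠ 0 →
        ∀ k₁, M.ι k₁ * (M.ι k₁)ᵀ = 1 → ∀ h ∈ H, ∀ k₂, M.ι k₂ * (M.ι k₂)ᵀ = 1 →
          (t (-x))⁻¹ * t x ≠ k₁ * h * k₂ := by
  obtain ⟨s, hs, hsH, C, hC, hsel⟩ := exists_selection M hH.toPolar hΓ (isCompact_orth M)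
  obtain ⟨c, hc1, hcN⟩ : ∃ c : ℝ, 1 ≤ c ∧ ∀ g ∈ C, M.N g ≤ c := by
    obtain ⟨c, hc⟩ := hC.exists_bound_of_continuousOn M.continuous_N.continuousOn
    exact ⟨max c 1, le_max_right _ _, fun g hg =>
      ((le_abs_self _).trans (hc g hg)).trans (le_max_left _ _)⟩
  set R : ℝ := Real.log c / 2 * (n : ℝ) ^ 2 + 1 with hR
  let a : p → ℝ := fun x => R / 2 / Real.sqrt (fn (x : Matrix (Fin n) (Fin n) ℝ))
  have hfn : ∀ x : p, a (-x) = a x := by
    intro x
    have h1 : fn ((-x : p) : Matrix (Fin n) (Fin n) ℝ) = fn (x : Matrix (Fin n) (Fin n) ℝ) := by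
      rw [Submodule.coe_neg]
      simp only [fn, Matrix.neg_apply, neg_sq]
    simp only [a, h1]
  have hac : ContinuousOn a {0}ᶜ := by
    refine continuousOn_const.div
      ((continuous_fn.comp continuous_subtype_val).sqrt.continuousOn) ?_
    intro x hx
    refine (Real.sqrt_pos.2 (fn_pos ?_)).ne'
    intro h0
    exact hx (Subtype.ext h0)
  refine ⟨fun x => eG hG (a x • x) * s (eG hG (a x • x)), ?_, ?_⟩
  · have h1 : ContinuousOn (fun x : p => a x • x) {0}ᶜ := hac.smul continuousOn_id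
    have h2 : ContinuousOn (fun x : p => eG hG (a x • x)) {0}ᶜ :=
      (continuous_eG hG).comp_continuousOn h1
    exact h2.mul (hs.comp_continuousOn h2)
  · intro x hxq hx0 k₁ hk₁ h hh k₂ hk₂ e
    set g₂ : G := eG hG (a x • x) with hg₂
    set g₁ : G := eG hG (a (-x) • -x) with hg₁
    have hg : g₁ = g₂⁻¹ := by rw [hg₁, hg₂, hfn, smul_neg, eG_neg]
    have e' : (g₁ * s g₁)⁻¹ * (g₂ * s g₂) = k₁ * h * k₂ := e
    have h1 : M.N ((g₁ * s g₁)⁻¹ * (g₂ * s g₂)) ≤ c :=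
      hcN _ (hsel g₁ g₂ ⟨k₁, hk₁, h, hh, k₂, hk₂, e'⟩)
    have hx0' : (x : Matrix (Fin n) (Fin n) ℝ) ≠ 0 := fun h0 => hx0 (Subtype.ext h0)
    have hfx := fn_pos hx0'
    set y : Matrix (Fin n) (Fin n) ℝ :=
      (1 / Real.sqrt (fn (x : Matrix (Fin n) (Fin n) ℝ))) • (x : Matrix (Fin n) (Fin n) ℝ) with hy
    have h2 : fn y = 1 := by
      rw [hy, fn_smul, div_pow, one_pow, Real.sq_sqrt hfx.le, one_div, inv_mul_cancel₀ hfx.ne']
    have h3 : ∀ z ∈ q, (y * z).trace = 0 := by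
      intro z hz
      rw [hy, Matrix.smul_mul, trace_smul, hxq z hz, smul_zero]
    have h4 : M.ι (g₂ * g₂) = exp (R • y) := by
      rw [map_mul, hg₂, eG_spec, ← Matrix.exp_add_of_commute _ _ (Commute.refl _)]
      congr 1
      rw [Submodule.coe_smul, ← add_smul, hy, smul_smul]
      congr 1
      simp only [a]
      ring
    have h5 := escape hH hc1 (x := y) (R := R)
      (by rw [hy, transpose_smul, hG.symm x x.2]) h2 h3 (by rw [hR]; linarith)
      (inv_mem (hsH g₁)) (hsH g₂) h4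
    have e1 : (s g₁)⁻¹ * (g₂ * g₂) * s g₂ = (g₁ * s g₁)⁻¹ * (g₂ * s g₂) := by
      rw [_root_.mul_inv_rev, mul_assoc, mul_assoc, mul_assoc]
      congr 1
      rw [hg, inv_inv]
    rw [e1] at h5
    exact absurd h1 (not_le.mpr h5)

theorem continuous_mF' [IsTopologicalGroup G] {M : MatGroup G n}
    {p : Submodule ℝ (Matrix (Fin n) (Fin n) ℝ)} (hG : Cartan M ⊤ p) {X : Type}
    [TopologicalSpace X] {f g : X → G} (hf : Continuous f) (hg : Continuous g) :
    Continuous fun x => mF hG (f x) (g x) := by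
  have h1 : Continuous fun x => (f x, g x) := hf.prodMk hg
  have h2 := (continuous_mF hG).comp h1
  exact h2

/-- an extension of a function on `p` -/
theorem exists_ext (p : Submodule ℝ (Matrix (Fin n) (Fin n) ℝ))
    (f : p → Matrix (Fin n) (Fin n) ℝ) :
    ∃ F : Matrix (Fin n) (Fin n) ℝ → Matrix (Fin n) (Fin n) ℝ, ∀ x : p, F x = f x := by
  classical
  exact ⟨fun x => if h : x ∈ p then f ⟨x, h⟩ else 0, fun x => dif_pos x.2⟩

/-- Theorem O. -/
theorem odd_map [IsTopologicalGroup G] (M : MatGroup G n)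
    {p q : Submodule ℝ (Matrix (Fin n) (Fin n) ℝ)} {H Γ : Subgroup G}
    (hG : Cartan M ⊤ p) (hH : Cartan M H q) (hΓ : IsCocompactDiscontinuousGroup Γ H) :
    ∃ F : Matrix (Fin n) (Fin n) ℝ → Matrix (Fin n) (Fin n) ℝ,
      ContinuousOn F {x | x ∈ p ∧ (∀ y ∈ q, (x * y).trace = 0) ∧ x ≠ 0} ∧
      ∀ x ∈ p, (∀ y ∈ q, (x * y).trace = 0) → x ≠ 0 →
        F x ∈ p ∧ F (-x) = -F x ∧
          ∀ k : G, M.ι k * (M.ι k)ᵀ = 1 → ∀ y ∈ q, F x ≠ M.ι k * y * (M.ι k)ᵀ := by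
  obtain ⟨t, htc, ht⟩ := odd_pre M hG hH hΓ
  obtain ⟨F, hFx⟩ := exists_ext p fun x => mF hG (t (-x)) (t x)
  refine ⟨F, ?_, ?_⟩
  · -- continuity
    rw [continuousOn_iff_continuous_domRestrict]
    set D : Set (Matrix (Fin n) (Fin n) ℝ) :=
      {x | x ∈ p ∧ (∀ y ∈ q, (x * y).trace = 0) ∧ x ≠ 0} with hD
    let j : D → p := fun x => ⟨x, x.2.1⟩
    have hj : Continuous j := continuous_subtype_val.subtype_mk _
    have hj0 : ∀ x, j x ∈ ({0}ᶜ : Set p) := by
      intro x h0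
      exact x.2.2.2 (congrArg Subtype.val h0)
    have hj0' : ∀ x, -j x ∈ ({0}ᶜ : Set p) := by
      intro x h0
      exact hj0 x (neg_eq_zero.1 h0)
    have h1 : Continuous fun x : D => t (j x) := htc.comp_continuous hj hj0
    have h2 : Continuous fun x : D => t (-j x) := htc.comp_continuous hj.neg hj0'
    have h3 := continuous_mF' hG h2 h1
    have e : D.domRestrict F = fun x : D => mF hG (t (-j x)) (t (j x)) := by
      funext x
      exact hFx (j x)
    rw [e]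
    exact h3
  · intro x hx hxq hx0
    have e : F x = mF hG (t (-⟨x, hx⟩)) (t ⟨x, hx⟩) := hFx ⟨x, hx⟩
    have e' : F (-x) = mF hG (t (- -⟨x, hx⟩)) (t (-⟨x, hx⟩)) := hFx (-⟨x, hx⟩)
    rw [neg_neg] at e'
    refine ⟨?_, ?_, ?_⟩
    · rw [e]
      exact mF_mem hG _ _
    · rw [e, e']
      exact mF_swap hG _ _
    · intro k hk y hy hF
      rw [e] at hF
      obtain ⟨k₁, hk₁, h, hh, k₂, hk₂, e2⟩ := mF_conj hG hH hk hy hF
      exact ht ⟨x, hx⟩ hxq (fun h0 => hx0 (congrArg Subtype.val h0)) k₁ hk₁ h hh k₂ hk₂ e2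

end Pool.Agent.Helper17.CKF
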