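import Pool.Agent.Helper17.CKF.O6

/-! # CKF-O7: the odd map is homotopic to the inclusion -/

set_option autoImplicit false

namespace Pool.Agent.Helper17.CKF

open Matrix Topology Filter NormedSpace Pool.Agent.Helper40.CK

variable {n : ℕ} {G : Type} [Group G] [TopologicalSpace G]
  {M : MatGroup G n} {p q : Submodule ℝ (Matrix (Fin n) (Fin n) ℝ)} {H Γ : Subgroup G}

theorem exp_two (X : Matrix (Fin n) (Fin n) ℝ) : exp ((2 : ℝ) • X) = exp X * exp X := by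
  rw [← Matrix.exp_add_of_commute _ _ (Commute.refl X), ← two_smul ℝ X]

/-- the symmetric logarithm of an element of `H` is in `q` -/
theorem mem_of_exp (hH : Cartan M H q) {h : G} (hh : h ∈ H) {X : Matrix (Fin n) (Fin n) ℝ}
    (hX : Xᵀ = X) (e : M.ι h = exp X) : X ∈ q := by
  obtain ⟨Y, hY, e'⟩ := hH.sq hh
  have h1 : exp ((2 : ℝ) • X) = exp ((2 : ℝ) • Y) := by
    rw [← e', e, exp_tr hX, exp_two]
  rw [two_smul_exp_inj hX (hH.symm Y hY) h1]
  exact hY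

theorem pl_mem_of_mem (hG : Cartan M ⊤ p) (hH : Cartan M H q) {h : G} (hh : h ∈ H) :
    pl hG h ∈ q := by
  obtain ⟨X, hX, e⟩ := hH.sq hh
  rw [pl_unique hG (hH.symm X hX) e]
  exact hX

/-- `exp Z exp (2 S) exp Z` is in `exp q` only if `Z` is in `q`, for `S` in `q` -/
theorem mem_of_sandwich (hH : Cartan M H q) {Z S B : Matrix (Fin n) (Fin n) ℝ} (hZ : Zᵀ = Z)
    (hS : S ∈ q) (hB : B ∈ q) (e : exp Z * exp ((2 : ℝ) • S) * exp Z = exp ((2 : ℝ) • B)) :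
    Z ∈ q := by
  have hSs := hH.symm S hS
  have hBs := hH.symm B hB
  obtain ⟨s, hs, es⟩ := hH.exp_mem S hS
  obtain ⟨s', hs', es'⟩ := hH.exp_mem (-S) (neg_mem hS)
  obtain ⟨b, hb, eb⟩ := hH.exp_mem B hB
  obtain ⟨C, hC, eC⟩ := hH.sq (mul_mem hs hb)
  have hCs := hH.symm C hC
  obtain ⟨c, hc, ec⟩ := hH.exp_mem C hC
  have h1 : exp S * exp Z * exp S = exp C := by
    apply sqrt_unique
    · rw [transpose_mul, transpose_mul, exp_tr hSs, exp_tr hZ, mul_assoc]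
    · exact exp_tr hCs
    · intro v hv
      have h2 : qf (exp S * exp Z * exp S) v = qf (exp Z) (exp S *ᵥ v) := by
        have h := qf_conj (exp Z) (exp S) v
        rwa [exp_tr hSs] at h
      rw [h2]
      apply qf_exp_pos hZ
      intro h0
      apply hv
      have h3 : exp (-S) *ᵥ (exp S *ᵥ v) = v := by rw [mulVec_mulVec, exp_neg_mul, one_mulVec]
      rw [← h3, h0, mulVec_zero]
    · exact fun v hv => qf_exp_pos hCs hv
    · rw [← exp_two, ← eC, map_mul, es, eb, transpose_mul, exp_tr hSs, exp_tr hBs]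
      calc exp S * exp Z * exp S * (exp S * exp Z * exp S) =
            exp S * (exp Z * (exp S * exp S) * exp Z) * exp S := by noncomm_ring
        _ = exp S * exp B * (exp B * exp S) := by
            rw [← exp_two, e, exp_two]; noncomm_ring
  refine mem_of_exp hH (mul_mem (mul_mem hs' hc) hs') hZ ?_
  rw [map_mul, map_mul, es', ec, ← h1]
  calc exp (-S) * (exp S * exp Z * exp S) * exp (-S) =
        (exp (-S) * exp S) * exp Z * (exp S * exp (-S)) := by noncomm_ring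
    _ = exp Z := by rw [exp_neg_mul, exp_mul_neg, one_mul, mul_one]

/-- the midpoint vector of a point of `H` and a point of `exp x exp q` is not in `q` -/
theorem mF_not_mem (hG : Cartan M ⊤ p) (hH : Cartan M H q) {a b : G} (ha : a ∈ H)
    {x Y : Matrix (Fin n) (Fin n) ℝ} (hx : xᵀ = x) (hxq : x ∉ q) (hY : Y ∈ q)
    (hb : M.ι b = exp x * exp Y) : mF hG a b ∉ q := by
  intro hF
  have hYs := hH.symm Y hY
  have h1 := mid_fst hG a b
  have h2 := mid_snd hG a b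
  obtain ⟨A, hA, eA⟩ := hH.sq ha
  have hW : pl hG (mW hG a b) ∈ q := by
    refine mem_of_sandwich hH (S := -mF hG a b) (pl_symm hG _) (neg_mem hF) hA ?_
    rw [smul_neg, h1, eA]
  obtain ⟨w, hw, ew⟩ := hH.exp_mem _ hW
  obtain ⟨f, hf, ef⟩ := hH.exp_mem _ hF
  obtain ⟨B, hB, eB⟩ := hH.sq (mul_mem hw hf)
  refine hxq (mem_of_sandwich hH hx hY hB ?_)
  have h3 : exp x * exp ((2 : ℝ) • Y) * exp x = M.ι b * (M.ι b)ᵀ := by
    rw [hb, transpose_mul, exp_tr hx, exp_tr hYs, exp_two]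
    noncomm_ring
  rw [h3, ← h2, ← eB, map_mul, ew, ef, transpose_mul, exp_tr (pl_symm hG _),
    exp_tr (mF_symm hG a b), exp_two]
  noncomm_ring

/-- an equivariant choice with values `exp q` -/
theorem odd_pre' [IsTopologicalGroup G] (hG : Cartan M ⊤ p) (hH : Cartan M H q)
    (hΓ : IsCocompactDiscontinuousGroup Γ H) :
    ∃ (R : ℝ) (Y : G → p), 0 < R ∧ Continuous Y ∧
      (∀ g, (Y g : Matrix (Fin n) (Fin n) ℝ) ∈ q) ∧
      ∀ x : p, (∀ y ∈ q, ((x : Matrix (Fin n) (Fin n) ℝ) * y).trace = 0) → x ≠ 0 →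
        R ≤ Real.sqrt (fn (x : Matrix (Fin n) (Fin n) ℝ)) → ∀ σ : ℝ, 0 ≤ σ →
        ∀ k₁, M.ι k₁ * (M.ι k₁)ᵀ = 1 → ∀ h ∈ H, ∀ k₂, M.ι k₂ * (M.ι k₂)ᵀ = 1 →
          (eG hG (-(σ • x)) * eG hG (Y (eG hG (-(σ • x)))))⁻¹ *
            (eG hG x * eG hG (Y (eG hG x))) ≠ k₁ * h * k₂ := by
  obtain ⟨s, hs, hsH, C, hC, hsel⟩ := exists_selection M hH.toPolar hΓ (isCompact_orth M)
  obtain ⟨c, hc1, hcN⟩ : ∃ c : ℝ, 1 ≤ c ∧ ∀ g ∈ C, M.N g ≤ c := by
    obtain ⟨c, hc⟩ := hC.exists_bound_of_continuousOn M.continuous_N.continuousOn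
    exact ⟨max c 1, le_max_right _ _, fun g hg =>
      ((le_abs_self _).trans (hc g hg)).trans (le_max_left _ _)⟩
  have hlog : 0 ≤ Real.log c / 2 * (n : ℝ) ^ 2 := by
    have := Real.log_nonneg hc1
    positivity
  refine ⟨Real.log c / 2 * (n : ℝ) ^ 2 + 1, fun g => ⟨pl hG (s g), pl_mem hG _⟩, by linarith,
    ((continuous_pl hG).comp hs).subtype_mk _, fun g => pl_mem_of_mem hG hH (hsH g), ?_⟩
  intro x hxq hx0 hR σ hσ k₁ hk₁ h hh k₂ hk₂ e
  set g₁ : G := eG hG (-(σ • x)) with hg₁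
  set g₂ : G := eG hG x with hg₂
  -- the orthogonal parts
  have hk : ∀ g, eG hG ⟨pl hG (s g), pl_mem hG _⟩ = s g * (ko hG (s g))⁻¹ := by
    intro g
    rw [eq_mul_inv_iff_mul_eq, eG_mul_ko]
  simp only [hk] at e
  have hko := fun g => ko_orth hG (s g)
  have e' : (g₁ * s g₁)⁻¹ * (g₂ * s g₂) = ((ko hG (s g₁))⁻¹ * k₁) * h * (k₂ * ko hG (s g₂)) := by
    have e1 : (g₁ * s g₁)⁻¹ * (g₂ * s g₂) = (ko hG (s g₁))⁻¹ *
        ((g₁ * (s g₁ * (ko hG (s g₁))⁻¹))⁻¹ * (g₂ * (s g₂ * (ko hG (s g₂))⁻¹))) *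
          ko hG (s g₂) := by group
    rw [e1, e]
    group
  have h1 : M.N ((g₁ * s g₁)⁻¹ * (g₂ * s g₂)) ≤ c :=
    hcN _ (hsel g₁ g₂ ⟨_, orth_mul (orth_inv (hko g₁)) hk₁, h, hh, _, orth_mul hk₂ (hko g₂), e'⟩)
  have hx0' : (x : Matrix (Fin n) (Fin n) ℝ) ≠ 0 := fun h0 => hx0 (Subtype.ext h0)
  have hfx := fn_pos hx0'
  set ρ : ℝ := Real.sqrt (fn (x : Matrix (Fin n) (Fin n) ℝ)) with hρ
  have hρ0 : 0 < ρ := Real.sqrt_pos.2 hfx
  set y : Matrix (Fin n) (Fin n) ℝ := (1 / ρ) • (x : Matrix (Fin n) (Fin n) ℝ) with hy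
  have h2 : fn y = 1 := by
    rw [hy, fn_smul, div_pow, one_pow, Real.sq_sqrt hfx.le, one_div, inv_mul_cancel₀ hfx.ne']
  have h3 : ∀ z ∈ q, (y * z).trace = 0 := by
    intro z hz
    rw [hy, Matrix.smul_mul, trace_smul, hxq z hz, smul_zero]
  have hxy : (x : Matrix (Fin n) (Fin n) ℝ) = ρ • y := by
    rw [hy, smul_smul, mul_one_div_cancel hρ0.ne', one_smul]
  have h4 : M.ι (g₁⁻¹ * g₂) = exp (((1 + σ) * ρ) • y) := by
    rw [map_mul, hg₁, ← eG_neg, neg_neg, hg₂, eG_spec, eG_spec, Submodule.coe_smul, hxy, smul_smul,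
      ← Matrix.exp_add_of_commute _ _ (((Commute.refl y).smul_left _).smul_right _), ← add_smul]
    congr 2
    ring
  have h5 := escape hH hc1 (x := y) (R := (1 + σ) * ρ)
    (by rw [hy, transpose_smul, hG.symm x x.2]) h2 h3
    (by
      have : ρ ≤ (1 + σ) * ρ := by nlinarith
      linarith)
    (inv_mem (hsH g₁)) (hsH g₂) h4
  have e1 : (s g₁)⁻¹ * (g₁⁻¹ * g₂) * s g₂ = (g₁ * s g₁)⁻¹ * (g₂ * s g₂) := by
    rw [_root_.mul_inv_rev, mul_assoc, mul_assoc, mul_assoc]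
  rw [e1] at h5
  exact absurd h1 (not_le.mpr h5)

end Pool.Agent.Helper17.CKF
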