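import Pool.Agent.Helper17.CKF.O7

/-! # CKF-O8: the odd map theorem with the homotopy to the inclusion -/

set_option autoImplicit false

namespace Pool.Agent.Helper17.CKF

open Matrix Topology Filter NormedSpace Pool.Agent.Helper40.CK

variable {n : ℕ} {G : Type} [Group G] [TopologicalSpace G]
  {M : MatGroup G n} {p q : Submodule ℝ (Matrix (Fin n) (Fin n) ℝ)} {H Γ : Subgroup G}

theorem eG_eq (hG : Cartan M ⊤ p) {X : p} {g : G}
    (h : M.ι g = exp (X : Matrix (Fin n) (Fin n) ℝ)) : eG hG X = g := by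
  apply M.inj
  rw [eG_spec, h]

theorem eG_zero (hG : Cartan M ⊤ p) : eG hG 0 = 1 := by
  apply eG_eq
  rw [map_one]
  exact NormedSpace.exp_zero.symm

theorem eG_mem (hG : Cartan M ⊤ p) (hH : Cartan M H q) {X : p}
    (hX : (X : Matrix (Fin n) (Fin n) ℝ) ∈ q) : eG hG X ∈ H := by
  obtain ⟨h, hh, e⟩ := hH.exp_mem _ hX
  rw [eG_eq hG e]
  exact hh

theorem pl_eG (hG : Cartan M ⊤ p) (X : p) : pl hG (eG hG X) = X := by
  apply pl_unique hG (hG.symm _ X.2)
  rw [eG_spec, exp_tr (hG.symm _ X.2), exp_two]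

theorem ko_eG (hG : Cartan M ⊤ p) (X : p) : ko hG (eG hG X) = 1 := by
  have h1 := eG_mul_ko hG (eG hG X)
  have h2 : (⟨pl hG (eG hG X), pl_mem hG _⟩ : p) = X := Subtype.ext (pl_eG hG X)
  rw [h2] at h1
  exact mul_eq_left.1 h1

theorem mF_one (hG : Cartan M ⊤ p) (X : p) :
    mF hG 1 (eG hG X) = (1 / 2 : ℝ) • (X : Matrix (Fin n) (Fin n) ℝ) := by
  have h1 : mX hG 1 (eG hG X) = X := by
    apply Subtype.ext
    show pl hG (1⁻¹ * eG hG X) = X
    rw [inv_one, one_mul, pl_eG]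
  have h2 : mW hG 1 (eG hG X) = eG hG ((1 / 2 : ℝ) • X) := by
    rw [mW, h1, one_mul]
  rw [mF, h1, h2, ko_eG, map_one, one_mul, transpose_one, mul_one]

theorem homotopic_of {D : Type} [TopologicalSpace D]
    {f g : C(D, {z : Matrix (Fin n) (Fin n) ℝ // z ∈ p ∧ z ∉ q})}
    (h : unitInterval × D → Matrix (Fin n) (Fin n) ℝ) (hc : Continuous h)
    (hpq : ∀ z, h z ∈ p ∧ h z ∉ q)
    (h0 : ∀ x, h (0, x) = (f x : Matrix (Fin n) (Fin n) ℝ))
    (h1 : ∀ x, h (1, x) = (g x : Matrix (Fin n) (Fin n) ℝ)) : f.Homotopic g :=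
  ⟨{ toFun := fun z => ⟨h z, hpq z⟩
     continuous_toFun := hc.subtype_mk _
     map_zero_left := fun x => Subtype.ext (h0 x)
     map_one_left := fun x => Subtype.ext (h1 x) }⟩

/-- the nonzero elements of `p` orthogonal to `q` -/
abbrev Dom {n : ℕ} (p q : Submodule ℝ (Matrix (Fin n) (Fin n) ℝ)) : Type :=
  {x : Matrix (Fin n) (Fin n) ℝ // x ∈ p ∧ (∀ y ∈ q, (x * y).trace = 0) ∧ x ≠ 0}

/-- the elements of `p` not in `q` -/
abbrev Cod {n : ℕ} (p q : Submodule ℝ (Matrix (Fin n) (Fin n) ℝ)) : Type :=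
  {z : Matrix (Fin n) (Fin n) ℝ // z ∈ p ∧ z ∉ q}

/-- Theorem O, strong form. -/
theorem odd_map_homotopic [IsTopologicalGroup G] (M : MatGroup G n)
    {p q : Submodule ℝ (Matrix (Fin n) (Fin n) ℝ)} {H Γ : Subgroup G}
    (hG : Cartan M ⊤ p) (hH : Cartan M H q) (hΓ : IsCocompactDiscontinuousGroup Γ H) :
    ∃ F i : C(Dom p q, Cod p q),
      (∀ x : Dom p q, (i x : Matrix (Fin n) (Fin n) ℝ) = x) ∧ F.Homotopic i ∧
      (∀ x x' : Dom p q, (x' : Matrix (Fin n) (Fin n) ℝ) = -x →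
        (F x' : Matrix (Fin n) (Fin n) ℝ) = -(F x : Matrix (Fin n) (Fin n) ℝ)) ∧
      ∀ x : Dom p q, ∀ k : G, M.ι k * (M.ι k)ᵀ = 1 → ∀ y ∈ q,
        (F x : Matrix (Fin n) (Fin n) ℝ) ≠ M.ι k * y * (M.ι k)ᵀ := by
  obtain ⟨R, Y, hR, hYc, hYq, hsel⟩ := odd_pre' hG hH hΓ
  let D := Dom p q
  have hρ : ∀ x : D, 0 < Real.sqrt (fn (x : Matrix (Fin n) (Fin n) ℝ)) := fun x =>
    Real.sqrt_pos.2 (fn_pos x.2.2.2)
  have hρc : Continuous fun x : D => Real.sqrt (fn (x : Matrix (Fin n) (Fin n) ℝ)) :=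
    (continuous_fn.comp continuous_subtype_val).sqrt
  have hnq : ∀ x : D, (x : Matrix (Fin n) (Fin n) ℝ) ∉ q := by
    intro x hx
    have h1 := x.2.2.1 _ hx
    apply x.2.2.2
    apply fn_eq_zero
    rw [fn_eq_trace, hG.symm _ x.2.1]
    exact h1
  have hnqc : ∀ (x : D) (c : ℝ), 0 < c → c • (x : Matrix (Fin n) (Fin n) ℝ) ∉ q := by
    intro x c hc hx
    apply hnq x
    have h1 := q.smul_mem c⁻¹ hx
    rwa [smul_smul, inv_mul_cancel₀ hc.ne', one_smul] at h1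
  -- the normalised vector
  obtain ⟨ξ, hξ⟩ : ∃ ξ : D → p, ∀ x, (ξ x : Matrix (Fin n) (Fin n) ℝ) =
      (R / Real.sqrt (fn (x : Matrix (Fin n) (Fin n) ℝ))) • (x : Matrix (Fin n) (Fin n) ℝ) :=
    ⟨fun x => ⟨_, p.smul_mem _ x.2.1⟩, fun x => rfl⟩
  have hξc : Continuous ξ := by
    rw [continuous_induced_rng]
    have e : (Subtype.val ∘ ξ) = fun x : D =>
        (R / Real.sqrt (fn (x : Matrix (Fin n) (Fin n) ℝ))) •
          (x : Matrix (Fin n) (Fin n) ℝ) := funext hξ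
    rw [e]
    exact (continuous_const.div hρc fun x => (hρ x).ne').smul continuous_subtype_val
  have hξq : ∀ x, ∀ y ∈ q, ((ξ x : Matrix (Fin n) (Fin n) ℝ) * y).trace = 0 := by
    intro x y hy
    rw [hξ, Matrix.smul_mul, trace_smul, x.2.2.1 y hy, smul_zero]
  have hξn : ∀ x, (ξ x : Matrix (Fin n) (Fin n) ℝ) ∉ q := by
    intro x
    rw [hξ]
    exact hnqc x _ (div_pos hR (hρ x))
  have hξ0 : ∀ x, ξ x ≠ 0 := by
    intro x h0
    apply hξn x
    rw [h0]
    exact q.zero_mem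
  have hξR : ∀ x, R ≤ Real.sqrt (fn (ξ x : Matrix (Fin n) (Fin n) ℝ)) := by
    intro x
    rw [hξ, fn_smul, Real.sqrt_mul (sq_nonneg _), Real.sqrt_sq (div_pos hR (hρ x)).le,
      div_mul_cancel₀ _ (hρ x).ne']
  have hξneg : ∀ x x' : D, (x' : Matrix (Fin n) (Fin n) ℝ) = -x → ξ x' = -ξ x := by
    intro x x' h
    apply Subtype.ext
    have h1 : fn (-(x : Matrix (Fin n) (Fin n) ℝ)) = fn (x : Matrix (Fin n) (Fin n) ℝ) := by
      simp only [fn, Matrix.neg_apply, neg_sq]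
    rw [hξ, h, h1, Submodule.coe_neg, hξ, smul_neg]
  have hec := continuous_eG hG
  -- the point at parameter `σ`
  let T : p → G := fun z => eG hG z * eG hG (Y (eG hG z))
  have hTc : Continuous T := hec.mul (hec.comp (hYc.comp hec))
  have havoid : ∀ (σ : ℝ) (_ : 0 ≤ σ) (x : D), ∀ k : G, M.ι k * (M.ι k)ᵀ = 1 → ∀ y ∈ q,
      mF hG (T (-(σ • ξ x))) (T (ξ x)) ≠ M.ι k * y * (M.ι k)ᵀ := by
    intro σ hσ x k hk y hy e
    obtain ⟨k₁, hk₁, h, hh, k₂, hk₂, e2⟩ := mF_conj hG hH hk hy e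
    exact hsel (ξ x) (hξq x) (hξ0 x) (hξR x) σ hσ k₁ hk₁ h hh k₂ hk₂ e2
  have hnot : ∀ (σ : ℝ) (_ : 0 ≤ σ) (x : D), mF hG (T (-(σ • ξ x))) (T (ξ x)) ∉ q := by
    intro σ hσ x hq
    refine havoid σ hσ x 1 (by rw [map_one, transpose_one, mul_one]) _ hq ?_
    rw [map_one, one_mul, transpose_one, mul_one]
  -- the maps
  have hmFc : Continuous fun z : unitInterval × D =>
      mF hG (T (-((z.1 : ℝ) • ξ z.2))) (T (ξ z.2)) := by
    have h1 : Continuous fun z : unitInterval × D => ξ z.2 := hξc.comp continuous_snd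
    have h2 : Continuous fun z : unitInterval × D => (z.1 : ℝ) • ξ z.2 :=
      (continuous_subtype_val.comp continuous_fst).smul h1
    have h3 : Continuous fun z : unitInterval × D => T (-((z.1 : ℝ) • ξ z.2)) := hTc.comp h2.neg
    have h4 : Continuous fun z : unitInterval × D => T (ξ z.2) := hTc.comp h1
    exact continuous_mF' hG h3 h4
  have hmFc2 : Continuous fun z : unitInterval × D =>
      mF hG (eG hG ((z.1 : ℝ) • Y 1)) (eG hG (ξ z.2) * eG hG ((z.1 : ℝ) • Y (eG hG (ξ z.2)))) := by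
    have h0 : Continuous fun z : unitInterval × D => (z.1 : ℝ) :=
      continuous_subtype_val.comp continuous_fst
    have h1 : Continuous fun z : unitInterval × D => ξ z.2 := hξc.comp continuous_snd
    have h2 : Continuous fun z : unitInterval × D => eG hG ((z.1 : ℝ) • Y 1) :=
      hec.comp (h0.smul continuous_const)
    have h3 : Continuous fun z : unitInterval × D => (z.1 : ℝ) • Y (eG hG (ξ z.2)) :=
      h0.smul (hYc.comp (hec.comp h1))
    have h4 : Continuous fun z : unitInterval × D =>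
        eG hG (ξ z.2) * eG hG ((z.1 : ℝ) • Y (eG hG (ξ z.2))) := (hec.comp h1).mul (hec.comp h3)
    exact continuous_mF' hG h2 h4
  have hnot2 : ∀ (τ : ℝ) (x : D),
      mF hG (eG hG (τ • Y 1)) (eG hG (ξ x) * eG hG (τ • Y (eG hG (ξ x)))) ∉ q := by
    intro τ x
    refine mF_not_mem hG hH (x := ξ x) (Y := τ • (Y (eG hG (ξ x)) : Matrix (Fin n) (Fin n) ℝ))
      ?_ (hG.symm _ (ξ x).2) (hξn x) (q.smul_mem _ (hYq _)) ?_
    · exact eG_mem hG hH (q.smul_mem _ (hYq _))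
    · rw [map_mul, eG_spec, eG_spec, Submodule.coe_smul]
  let B := {z : Matrix (Fin n) (Fin n) ℝ // z ∈ p ∧ z ∉ q}
  let F : C(D, B) := ⟨fun x => ⟨mF hG (T (-((1 : ℝ) • ξ x))) (T (ξ x)), mF_mem hG _ _,
    hnot 1 zero_le_one x⟩, by
      have h1 : Continuous fun x : D => ((1 : unitInterval), x) := by fun_prop
      have h2 := hmFc.comp h1
      exact h2.subtype_mk _⟩
  let f₁ : C(D, B) := ⟨fun x => ⟨mF hG (T (-((0 : ℝ) • ξ x))) (T (ξ x)), mF_mem hG _ _,
    hnot 0 le_rfl x⟩, by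
      have h1 : Continuous fun x : D => ((0 : unitInterval), x) := by fun_prop
      have h2 := hmFc.comp h1
      exact h2.subtype_mk _⟩
  let f₂ : C(D, B) := ⟨fun x => ⟨(1 / 2 : ℝ) • (ξ x : Matrix (Fin n) (Fin n) ℝ),
    p.smul_mem _ (ξ x).2, by
      rw [hξ, smul_smul]
      exact hnqc x _ (mul_pos (by norm_num) (div_pos hR (hρ x)))⟩, by
      have h0 : Continuous fun x : D => (ξ x : Matrix (Fin n) (Fin n) ℝ) :=
        continuous_subtype_val.comp hξc
      have h1 : Continuous fun x : D => (1 / 2 : ℝ) • (ξ x : Matrix (Fin n) (Fin n) ℝ) :=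
        (continuous_const_smul (1 / 2 : ℝ)).comp h0
      exact h1.subtype_mk _⟩
  let i : C(D, B) := ⟨fun x => ⟨x, x.2.1, hnq x⟩, continuous_subtype_val.subtype_mk _⟩
  have H1 : f₁.Homotopic F :=
    homotopic_of (fun z : unitInterval × D => mF hG (T (-((z.1 : ℝ) • ξ z.2))) (T (ξ z.2)))
      hmFc (fun z => ⟨mF_mem hG _ _, hnot _ z.1.2.1 z.2⟩) (fun x => rfl) (fun x => rfl)
  have H2 : f₂.Homotopic f₁ := by
    refine homotopic_of (fun z : unitInterval × D =>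
      mF hG (eG hG ((z.1 : ℝ) • Y 1)) (eG hG (ξ z.2) * eG hG ((z.1 : ℝ) • Y (eG hG (ξ z.2)))))
      hmFc2 (fun z => ⟨mF_mem hG _ _, hnot2 _ z.2⟩) (fun x => ?_) (fun x => ?_)
    · show mF hG (eG hG ((0 : ℝ) • Y 1)) (eG hG (ξ x) * eG hG ((0 : ℝ) • Y (eG hG (ξ x)))) =
        (1 / 2 : ℝ) • (ξ x : Matrix (Fin n) (Fin n) ℝ)
      rw [zero_smul, zero_smul, eG_zero, mul_one, mF_one]
    · show mF hG (eG hG ((1 : ℝ) • Y 1)) (eG hG (ξ x) * eG hG ((1 : ℝ) • Y (eG hG (ξ x)))) =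
        mF hG (T (-((0 : ℝ) • ξ x))) (T (ξ x))
      have e1 : T (-((0 : ℝ) • ξ x)) = eG hG (Y 1) := by
        show eG hG (-((0 : ℝ) • ξ x)) * eG hG (Y (eG hG (-((0 : ℝ) • ξ x)))) = _
        rw [zero_smul, neg_zero, eG_zero, one_mul]
      rw [one_smul, one_smul, e1]
  have H3 : i.Homotopic f₂ := by
    refine homotopic_of (fun z : unitInterval × D =>
      ((1 - (z.1 : ℝ)) + (z.1 : ℝ) * ((1 / 2) * (R / Real.sqrt (fn (z.2 : Matrix (Fin n) (Fin n) ℝ)))))
        • (z.2 : Matrix (Fin n) (Fin n) ℝ)) ?_ (fun z => ⟨p.smul_mem _ z.2.2.1, ?_⟩)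
      (fun x => ?_) (fun x => ?_)
    · have h0 : Continuous fun z : unitInterval × D => (z.1 : ℝ) :=
        continuous_subtype_val.comp continuous_fst
      have h1 : Continuous fun z : unitInterval × D =>
          R / Real.sqrt (fn (z.2 : Matrix (Fin n) (Fin n) ℝ)) :=
        (continuous_const.div hρc fun x => (hρ x).ne').comp continuous_snd
      have h2 : Continuous fun z : unitInterval × D => (z.2 : Matrix (Fin n) (Fin n) ℝ) :=
        continuous_subtype_val.comp continuous_snd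
      exact ((continuous_const.sub h0).add (h0.mul (continuous_const.mul h1))).smul h2
    · apply hnqc
      have h1 : 0 < (1 / 2) * (R / Real.sqrt (fn (z.2 : Matrix (Fin n) (Fin n) ℝ))) :=
        mul_pos (by norm_num) (div_pos hR (hρ z.2))
      have h2 := z.1.2.1
      have h3 := z.1.2.2
      rcases eq_or_lt_of_le h2 with h4 | h4
      · rw [← h4]
        norm_num
      · have h5 := mul_pos h4 h1
        linarith
    · show ((1 - (0 : ℝ)) + (0 : ℝ) * _) • (x : Matrix (Fin n) (Fin n) ℝ) = x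
      rw [sub_zero, zero_mul, add_zero, one_smul]
    · show ((1 - (1 : ℝ)) + (1 : ℝ) * _) • (x : Matrix (Fin n) (Fin n) ℝ) =
        (1 / 2 : ℝ) • (ξ x : Matrix (Fin n) (Fin n) ℝ)
      rw [sub_self, zero_add, one_mul, hξ, smul_smul]
  refine ⟨F, i, fun x => rfl, (H3.trans (H2.trans H1)).symm, ?_, ?_⟩
  · intro x x' h
    show mF hG (T (-((1 : ℝ) • ξ x'))) (T (ξ x')) = -mF hG (T (-((1 : ℝ) • ξ x))) (T (ξ x))
    rw [hξneg x x' h, one_smul, one_smul, neg_neg]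
    exact mF_swap hG _ _
  · exact fun x k hk y hy => havoid 1 zero_le_one x k hk y hy

end Pool.Agent.Helper17.CKF
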