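import Pool.Agent.Helper17.CKF.O6
import Pool.Agent.Helper20.CKP.Defs
import Pool.Agent.Helper29.CKP.Conj2

/-! # CKF-OG1: closed groups of real matrices; logarithms; a criterion for `Cartan` -/

set_option autoImplicit false

namespace Pool.Agent.Helper17.CKF

open Matrix Topology Filter NormedSpace Pool.Agent.Helper40.CK Pool.Agent.Helper20.CKP

/-- A positive definite matrix has a symmetric logarithm. -/
theorem exists_log {m : ℕ} {P : Matrix (Fin m) (Fin m) ℝ} (hP : Pᵀ = P)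
    (h : ∀ v, v ≠ 0 → 0 < qf P v) :
    ∃ X : Matrix (Fin m) (Fin m) ℝ, Xᵀ = X ∧ exp X = P := by
  have hH : P.IsHermitian := by
    rw [IsHermitian, conjTranspose_eq_transpose_of_trivial]
    exact hP
  have hpd : P.PosDef := Matrix.PosDef.of_dotProduct_mulVec_pos hH fun v hv => by
    simpa [qf] using h v hv
  have hd : ∀ i, 0 < hH.eigenvalues i := hpd.eigenvalues_pos
  set U : Matrix (Fin m) (Fin m) ℝ := (hH.eigenvectorUnitary : Matrix (Fin m) (Fin m) ℝ) with hUdef
  have hU : IsUnit U := (Unitary.toUnits hH.eigenvectorUnitary).isUnit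
  have h2 : U⁻¹ = Uᵀ := by
    have h3 : U⁻¹ = (star hH.eigenvectorUnitary : Matrix (Fin m) (Fin m) ℝ) :=
      Matrix.inv_eq_left_inv (Unitary.star_mul_self_of_mem hH.eigenvectorUnitary.2)
    rw [h3]
    exact conjTranspose_eq_transpose_of_trivial _
  have h1 : P = U * diagonal hH.eigenvalues * U⁻¹ := by
    have h4 := hH.spectral_theorem
    rw [Unitary.conjStarAlgAut_apply] at h4
    have h3 : U⁻¹ = (star hH.eigenvectorUnitary : Matrix (Fin m) (Fin m) ℝ) :=
      Matrix.inv_eq_left_inv (Unitary.star_mul_self_of_mem hH.eigenvectorUnitary.2)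
    rw [h3]
    exact h4
  refine ⟨U * diagonal (fun i => Real.log (hH.eigenvalues i)) * U⁻¹, ?_, ?_⟩
  · rw [h2, transpose_mul, transpose_mul, transpose_transpose, diagonal_transpose, mul_assoc]
  · rw [Matrix.exp_conj _ _ hU, Matrix.exp_diagonal]
    conv_rhs => rw [h1]
    congr 3
    funext i
    rw [Pi.coe_exp, ← Real.exp_eq_exp_ℝ, Real.exp_log (hd i)]

/-- `g gᵀ` has a symmetric logarithm -/
theorem exists_log_mul {m : ℕ} (g : GL (Fin m) ℝ) :
    ∃ X : Matrix (Fin m) (Fin m) ℝ, Xᵀ = X ∧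
      exp X = (g : Matrix (Fin m) (Fin m) ℝ) * (g : Matrix (Fin m) (Fin m) ℝ)ᵀ := by
  apply exists_log
  · rw [transpose_mul, transpose_transpose]
  · intro v hv
    have h1 : qf ((g : Matrix (Fin m) (Fin m) ℝ) * (g : Matrix (Fin m) (Fin m) ℝ)ᵀ) v =
        ((g : Matrix (Fin m) (Fin m) ℝ)ᵀ *ᵥ v) ⬝ᵥ ((g : Matrix (Fin m) (Fin m) ℝ)ᵀ *ᵥ v) := by
      have h := qf_transpose_mul_self (g : Matrix (Fin m) (Fin m) ℝ)ᵀ v
      rwa [transpose_transpose] at h
    rw [h1]
    apply dot_self_pos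
    intro h0
    apply hv
    have h2 : ((g⁻¹ : GL (Fin m) ℝ) : Matrix (Fin m) (Fin m) ℝ)ᵀ *ᵥ
        ((g : Matrix (Fin m) (Fin m) ℝ)ᵀ *ᵥ v) = v := by
      rw [mulVec_mulVec, ← transpose_mul, ← Units.val_mul, mul_inv_cancel, Units.val_one,
        transpose_one, one_mulVec]
    rw [← h2, h0, mulVec_zero]

theorem coe_expGL {m : ℕ} (X : Matrix (Fin m) (Fin m) ℝ) :
    ((expGL X : GL (Fin m) ℝ) : Matrix (Fin m) (Fin m) ℝ) = exp X := rfl

/-! ### closed subgroups of `GL(m, ℝ)` -/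

theorem isCompact_fn_le (m : ℕ) (c : ℝ) :
    IsCompact {A : Matrix (Fin m) (Fin m) ℝ | fn A ≤ c} := by
  have h1 : IsCompact (Set.pi Set.univ fun _ : Fin m => Set.pi Set.univ fun _ : Fin m =>
      Set.Icc (-Real.sqrt c) (Real.sqrt c)) :=
    isCompact_univ_pi fun _ => isCompact_univ_pi fun _ => isCompact_Icc
  refine IsCompact.of_isClosed_subset h1 (isClosed_le continuous_fn continuous_const) ?_
  intro A hA i _ j _
  have h2 : A i j ^ 2 ≤ c := by
    refine le_trans ?_ hA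
    calc A i j ^ 2 ≤ ∑ j, A i j ^ 2 :=
          Finset.single_le_sum (f := fun j => A i j ^ 2) (fun _ _ => sq_nonneg _)
            (Finset.mem_univ j)
      _ ≤ ∑ i, ∑ j, A i j ^ 2 :=
          Finset.single_le_sum (f := fun i => ∑ j, A i j ^ 2)
            (fun _ _ => Finset.sum_nonneg fun _ _ => sq_nonneg _) (Finset.mem_univ i)
  exact abs_le.mp (Real.abs_le_sqrt h2)

theorem isCompact_gl (m : ℕ) (c : ℝ) :
    IsCompact {g : GL (Fin m) ℝ | fn (g : Matrix (Fin m) (Fin m) ℝ) +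
      fn ((g⁻¹ : GL (Fin m) ℝ) : Matrix (Fin m) (Fin m) ℝ) ≤ c} := by
  have h1 := (isCompact_fn_le m c).prod ((isCompact_fn_le m c).image MulOpposite.continuous_op)
  have h2 := Units.isClosedEmbedding_embedProduct.isCompact_preimage h1
  refine h2.of_isClosed_subset ?_ ?_
  · refine isClosed_le ?_ continuous_const
    exact (continuous_fn.comp Units.continuous_val).add
      (continuous_fn.comp Units.continuous_coe_inv)
  · intro g hg
    have h3 := fn_nn (g : Matrix (Fin m) (Fin m) ℝ)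
    have h4 := fn_nn ((g⁻¹ : GL (Fin m) ℝ) : Matrix (Fin m) (Fin m) ℝ)
    have h5 : fn (g : Matrix (Fin m) (Fin m) ℝ) +
      fn ((g⁻¹ : GL (Fin m) ℝ) : Matrix (Fin m) (Fin m) ℝ) ≤ c := hg
    refine ⟨?_, _, ?_, rfl⟩
    · show fn (g : Matrix (Fin m) (Fin m) ℝ) ≤ c
      linarith
    · show fn ((g⁻¹ : GL (Fin m) ℝ) : Matrix (Fin m) (Fin m) ℝ) ≤ c
      linarith

/-- a closed subgroup of `GL(m, ℝ)` as a group of matrices -/
noncomputable def glM {m : ℕ} {G : Subgroup (GL (Fin m) ℝ)}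
    (hG : IsClosed (G : Set (GL (Fin m) ℝ))) : MatGroup G m where
  ι := (Units.coeHom (Matrix (Fin m) (Fin m) ℝ)).comp G.subtype
  inj := fun a b h => Subtype.ext (Units.ext h)
  cont := Units.continuous_val.comp continuous_subtype_val
  compact := fun c => by
    have h1 := hG.isClosedEmbedding_subtypeVal.isCompact_preimage (isCompact_gl m c)
    exact h1

theorem glM_apply {m : ℕ} {G : Subgroup (GL (Fin m) ℝ)}
    (hG : IsClosed (G : Set (GL (Fin m) ℝ))) (g : G) :
    (glM hG).ι g = ((g : GL (Fin m) ℝ) : Matrix (Fin m) (Fin m) ℝ) := rfl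

/-! ### a criterion -/

variable {G : Type} [Group G] [TopologicalSpace G] {n : ℕ}

theorem cartan_of {M : MatGroup G n} {H : Subgroup G}
    {q : Submodule ℝ (Matrix (Fin n) (Fin n) ℝ)} (hcl : IsClosed (H : Set G))
    (hs : ∀ X ∈ q, Xᵀ = X) (he : ∀ X ∈ q, ∃ h ∈ H, M.ι h = exp X)
    (hlog : ∀ h ∈ H, ∃ X ∈ q, M.ι h * (M.ι h)ᵀ = exp ((2 : ℝ) • X)) : Cartan M H q where
  closed := hcl
  symm := hs
  exp_mem := he
  polar := by
    intro h hh
    obtain ⟨X, hX, e⟩ := hlog h hh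
    obtain ⟨g, hg, eg⟩ := he X hX
    have h1 : M.ι g⁻¹ = exp (-X) := by
      have h2 : M.ι g⁻¹ * exp X = 1 := by rw [← eg, ← map_mul, inv_mul_cancel, map_one]
      calc M.ι g⁻¹ = M.ι g⁻¹ * (exp X * exp (-X)) := by rw [exp_mul_neg, mul_one]
        _ = exp (-X) := by rw [← mul_assoc, h2, one_mul]
    refine ⟨X, hX, g⁻¹ * h, H.mul_mem (H.inv_mem hg) hh, ?_, ?_⟩
    · have h3 : (-X)ᵀ = -X := by rw [transpose_neg, hs X hX]
      rw [map_mul, h1, transpose_mul, exp_tr h3, mul_assoc, ← mul_assoc (M.ι h), e, two_smul ℝ,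
        Matrix.exp_add_of_commute _ _ (Commute.refl _), mul_assoc, exp_mul_neg, mul_one,
        exp_neg_mul]
    · rw [map_mul, ← mul_assoc, ← eg, ← map_mul, mul_inv_cancel, map_one, one_mul]

/-- the exponentials of the span of a set of one-parameter groups -/
theorem exp_span_mem [IsTopologicalGroup G] {M : MatGroup G n} {H : Subgroup G}
    (hcl : IsClosed (H : Set G)) {T : Set (Matrix (Fin n) (Fin n) ℝ)}
    (hT : ∀ X ∈ T, ∀ t : ℝ, ∃ h ∈ H, M.ι h = exp (t • X)) {X : Matrix (Fin n) (Fin n) ℝ}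
    (hX : X ∈ Submodule.span ℝ T) : ∃ h ∈ H, M.ι h = exp X := by
  have h1 : Submodule.span ℝ T ≤ Pool.Agent.Helper29.CKP.lie M H hcl :=
    Submodule.span_le.mpr fun Y hY => hT Y hY
  obtain ⟨h, hh, e⟩ := (Pool.Agent.Helper29.CKP.mem_lie.1 (h1 hX)) 1
  exact ⟨h, hh, by rw [e, one_smul]⟩

theorem symm_span {m : ℕ} {T : Set (Matrix (Fin m) (Fin m) ℝ)} (hT : ∀ X ∈ T, Xᵀ = X)
    {X : Matrix (Fin m) (Fin m) ℝ} (hX : X ∈ Submodule.span ℝ T) : Xᵀ = X := by
  induction hX using Submodule.span_induction with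
  | mem x hx => exact hT x hx
  | zero => exact transpose_zero
  | add x y _ _ hx hy => rw [transpose_add, hx, hy]
  | smul a x _ hx => rw [transpose_smul, hx]

/-! ### one group -/

/-- the Cartan decomposition of a reductive group -/
theorem cartan_single {m : ℕ} {G : Subgroup (GL (Fin m) ℝ)} (hG : IsReductive G) :
    Cartan (glM hG.closed) ⊤ (pSpace G) := by
  refine cartan_of isClosed_univ (fun X hX => symm_span (fun X hX => hX.1) hX) ?_ ?_
  · intro X hX
    refine exp_span_mem isClosed_univ (T := {X | Xᵀ = X ∧ expGL X ∈ G}) ?_ hX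
    rintro Y ⟨hY, hYG⟩ t
    exact ⟨⟨expGL (t • Y), hG.power Y hY hYG t⟩, Subgroup.mem_top _, rfl⟩
  · rintro ⟨g, hg⟩ -
    obtain ⟨X, hX, e⟩ := exists_log_mul g
    obtain ⟨g', hg', eg'⟩ := hG.transpose g hg
    have h1 : expGL X = g * g' := by
      apply Units.ext
      rw [coe_expGL, e, Units.val_mul, eg']
    have h2 : expGL X ∈ G := by
      rw [h1]
      exact G.mul_mem hg hg'
    refine ⟨(1 / 2 : ℝ) • X, (pSpace G).smul_mem _ (Submodule.subset_span ⟨hX, h2⟩), ?_⟩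
    rw [glM_apply, smul_smul]
    norm_num
    exact e.symm

theorem mem_pSpace {m : ℕ} {G : Subgroup (GL (Fin m) ℝ)} (hG : IsReductive G)
    {X : Matrix (Fin m) (Fin m) ℝ} : X ∈ pSpace G ↔ Xᵀ = X ∧ expGL X ∈ G := by
  constructor
  · intro hX
    refine ⟨(cartan_single hG).symm X hX, ?_⟩
    obtain ⟨g, -, e⟩ := (cartan_single hG).exp_mem X hX
    have h1 : expGL X = g := by
      apply Units.ext
      rw [coe_expGL, ← e]
      rfl
    rw [h1]
    exact g.2
  · exact fun h => Submodule.subset_span h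

end Pool.Agent.Helper17.CKF
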