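import Mathlib

/-! # CKF-RC1: logarithms of nowhere zero functions on a punctured space -/

set_option autoImplicit false

namespace Pool.Agent.Helper17.CKF

open Topology Filter Module

/-- A nowhere zero continuous function on an open star shaped set has a continuous logarithm. -/
theorem exists_log_star {V : Type} [NormedAddCommGroup V] [NormedSpace ℝ V] {W : Set V}
    (hW : IsOpen W) {a : V} (ha : a ∈ W) (hs : StarConvex ℝ a W) (f : V → ℂ)
    (hf : ContinuousOn f W) (h0 : ∀ x ∈ W, f x ≠ 0) :
    ∃ ζ : V → ℂ, ContinuousOn ζ W ∧ ∀ x ∈ W, Complex.exp (ζ x) = f x := by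
  classical
  have h1 : ContractibleSpace W := hs.contractibleSpace ⟨a, ha⟩
  have h2 : LocallyPathConnectedSpace W := hW.locallyPathConnectedSpace
  have hf' : Continuous fun x : W => f x := hf.comp_continuous continuous_subtype_val fun x => x.2
  obtain ⟨F, ⟨-, hF⟩, -⟩ := Complex.isCoveringMapOn_exp.existsUnique_continuousMap_lifts
    (⟨fun x : W => f x, hf'⟩ : C(W, ℂ)) (a₀ := ⟨a, ha⟩) (e₀ := Complex.log (f a))
    (Complex.exp_log (h0 a ha)) (fun x => h0 x x.2)
  refine ⟨fun x => if h : x ∈ W then F ⟨x, h⟩ else 0, ?_, ?_⟩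
  · rw [continuousOn_iff_continuous_domRestrict]
    have e : W.domRestrict (fun x => if h : x ∈ W then F ⟨x, h⟩ else 0) = F := by
      funext x
      exact dif_pos x.2
    rw [e]
    exact F.continuous
  · intro x hx
    have h3 : Complex.exp (F ⟨x, hx⟩) = f x := congrFun hF ⟨x, hx⟩
    simp only [dif_pos hx, h3]

section Rays

variable {V : Type} [NormedAddCommGroup V] [NormedSpace ℝ V]

/-- the complement of the closed ray opposite to `a` -/
def cray (a : V) : Set V := {x | ∀ s : ℝ, 0 ≤ s → x ≠ -(s • a)}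

theorem isOpen_cray {a : V} : IsOpen (cray a) := by
  have h1 : IsClosed ((fun s : ℝ => s • (-a)) '' Set.Ici 0) :=
    (isClosedMap_smul_left (-a)) _ isClosed_Ici
  have h2 : cray a = ((fun s : ℝ => s • (-a)) '' Set.Ici 0)ᶜ := by
    ext x
    simp only [cray, Set.mem_ofPred_eq, Set.mem_compl_iff, Set.mem_image, Set.mem_Ici, not_exists,
      not_and]
    constructor
    · intro h s hs e
      exact h s hs (by rw [← e, smul_neg])
    · intro h s hs e
      exact h s hs (by rw [e, smul_neg])
  rw [h2]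
  exact h1.isOpen_compl

theorem mem_cray {a : V} (ha : a ≠ 0) : a ∈ cray a := by
  intro s hs e
  have h1 : (1 + s) • a = 0 := by
    rw [add_smul, one_smul]
    nth_rewrite 1 [e]
    exact neg_add_cancel _
  rcases smul_eq_zero.1 h1 with h | h
  · linarith
  · exact ha h

theorem starConvex_cray {a : V} (ha : a ≠ 0) : StarConvex ℝ a (cray a) := by
  intro y hy α β hα hβ hαβ s hs e
  have h1 : β • y = -((s + α) • a) := by
    have h2 : β • y = (α • a + β • y) - α • a := by abel
    rw [h2, e, add_smul]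
    abel
  rcases eq_or_lt_of_le hβ with h | h
  · rw [← h, zero_smul] at h1
    have h3 : (s + α) • a = 0 := neg_eq_zero.1 h1.symm
    rcases smul_eq_zero.1 h3 with h4 | h4
    · linarith
    · exact ha h4
  · refine hy ((s + α) / β) (by positivity) ?_
    have h3 : y = β⁻¹ • (β • y) := by rw [smul_smul, inv_mul_cancel₀ h.ne', one_smul]
    rw [h3, h1, smul_neg, smul_smul]
    congr 2
    field_simp

/-- A nowhere zero continuous function on a punctured space of dimension at least three has a
continuous logarithm. -/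
theorem exists_log_compl [FiniteDimensional ℝ V] (hV : 3 ≤ finrank ℝ V) (f : V → ℂ)
    (hf : ContinuousOn f {0}ᶜ) (h0 : ∀ x, x ≠ 0 → f x ≠ 0) :
    ∃ ζ : V → ℂ, ContinuousOn ζ {0}ᶜ ∧ ∀ x, x ≠ 0 → Complex.exp (ζ x) = f x := by
  classical
  have : Nontrivial V := Module.nontrivial_of_finrank_pos (R := ℝ) (by omega)
  obtain ⟨a, ha⟩ := exists_ne (0 : V)
  have hne : ∀ {b x : V}, x ∈ cray b → x ≠ 0 := by
    intro b x hx h
    exact hx 0 le_rfl (by rw [h, zero_smul, neg_zero])
  obtain ⟨ζ₁, hc₁, he₁⟩ := exists_log_star isOpen_cray (mem_cray ha) (starConvex_cray ha) f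
    (hf.mono fun x hx => hne hx) fun x hx => h0 x (hne hx)
  have ha' : -a ≠ 0 := neg_ne_zero.2 ha
  obtain ⟨ζ₂, hc₂, he₂⟩ := exists_log_star isOpen_cray (mem_cray ha') (starConvex_cray ha') f
    (hf.mono fun x hx => hne hx) fun x hx => h0 x (hne hx)
  -- the intersection is connected
  set L : Submodule ℝ V := Submodule.span ℝ {a} with hL
  have hS : IsPreconnected ((L : Set V)ᶜ) := by
    refine (isPathConnected_compl_of_one_lt_codim ?_).isConnected.isPreconnected
    have h1 := Submodule.finrank_quotient_add_finrank L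
    rw [hL, finrank_span_singleton ha] at h1
    have h2 : 1 < finrank ℝ (V ⧸ L) := by
      rw [hL]
      omega
    rw [← finrank_eq_rank]
    exact_mod_cast h2
  have hSS : ∀ x, x ∈ ((L : Set V)ᶜ) ↔ x ∈ cray a ∧ x ∈ cray (-a) := by
    intro x
    constructor
    · intro hx
      refine ⟨fun s _ e => hx ?_, fun s _ e => hx ?_⟩
      · rw [e]
        exact L.neg_mem (L.smul_mem _ (Submodule.mem_span_singleton_self a))
      · rw [e, smul_neg, neg_neg]
        exact L.smul_mem _ (Submodule.mem_span_singleton_self a)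
    · rintro ⟨h1, h2⟩ hx
      obtain ⟨c, rfl⟩ := Submodule.mem_span_singleton.1 hx
      rcases le_total 0 c with hc | hc
      · exact h2 c hc (by rw [smul_neg, neg_neg])
      · exact h1 (-c) (by linarith) (by rw [neg_smul, neg_neg])
  have hd : ∀ x ∈ ((L : Set V)ᶜ), ζ₁ x - ζ₂ x ∈
      (AddSubgroup.zmultiples (2 * Real.pi * Complex.I) : Set ℂ) := by
    intro x hx
    obtain ⟨h1, h2⟩ := (hSS x).1 hx
    have h3 : Complex.exp (ζ₁ x) = Complex.exp (ζ₂ x) := by rw [he₁ x h1, he₂ x h2]
    obtain ⟨k, hk⟩ := Complex.exp_eq_exp_iff_exists_int.1 h3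
    rw [SetLike.mem_coe, AddSubgroup.mem_zmultiples_iff]
    exact ⟨k, by rw [hk, zsmul_eq_mul]; ring⟩
  have hdc : ContinuousOn (fun x => ζ₁ x - ζ₂ x) ((L : Set V)ᶜ) :=
    (hc₁.mono fun x hx => ((hSS x).1 hx).1).sub (hc₂.mono fun x hx => ((hSS x).1 hx).2)
  have hdisc : IsDiscrete (AddSubgroup.zmultiples (2 * Real.pi * Complex.I) : Set ℂ) :=
    ⟨NormedSpace.discreteTopology_zmultiples (2 * Real.pi * Complex.I)⟩
  obtain ⟨b, hb⟩ : ((L : Set V)ᶜ).Nonempty := by
    by_contra hcon
    rw [Set.not_nonempty_iff_eq_empty, Set.compl_empty_iff] at hcon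
    have h1 : L = ⊤ := SetLike.coe_injective (by rw [hcon]; rfl)
    have h2 := finrank_span_singleton (K := ℝ) ha
    rw [← hL, h1, finrank_top] at h2
    omega
  have hconst : ∀ x ∈ ((L : Set V)ᶜ), ζ₁ x - ζ₂ x = ζ₁ b - ζ₂ b := fun x hx =>
    hS.constant_of_mapsTo hdisc hdc hd hx hb
  -- glue
  refine ⟨fun x => if x ∈ cray a then ζ₁ x else ζ₂ x + (ζ₁ b - ζ₂ b), ?_, ?_⟩
  · intro x hx
    by_cases h1 : x ∈ cray a
    · have h2 : ContinuousAt ζ₁ x := hc₁.continuousAt (isOpen_cray.mem_nhds h1)
      refine (h2.congr ?_).continuousWithinAt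
      filter_upwards [isOpen_cray.mem_nhds h1] with y hy
      rw [if_pos hy]
    · have h2 : x ∈ cray (-a) := by
        by_contra h3
        simp only [cray, Set.mem_ofPred_eq, not_forall, not_not] at h1 h3
        obtain ⟨s, hs, e⟩ := h1
        obtain ⟨s', hs', e'⟩ := h3
        rw [smul_neg, neg_neg] at e'
        have h4 : (s + s') • a = 0 := by
          rw [add_smul, ← e', e]
          abel
        rcases smul_eq_zero.1 h4 with h5 | h5
        · have h6 : s = 0 := by linarith
          rw [h6, zero_smul, neg_zero] at e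
          exact hx e
        · exact ha h5
      have h3 : ContinuousAt (fun x => ζ₂ x + (ζ₁ b - ζ₂ b)) x :=
        (hc₂.continuousAt (isOpen_cray.mem_nhds h2)).add continuousAt_const
      refine (h3.congr ?_).continuousWithinAt
      filter_upwards [isOpen_cray.mem_nhds h2] with y hy
      by_cases h4 : y ∈ cray a
      · rw [if_pos h4, ← hconst y ((hSS y).2 ⟨h4, hy⟩)]
        ring
      · rw [if_neg h4]
  · intro x hx
    by_cases h1 : x ∈ cray a
    · simp only [if_pos h1]
      exact he₁ x h1
    · simp only [if_neg h1]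
      have h2 : x ∈ cray (-a) := by
        by_contra h3
        simp only [cray, Set.mem_ofPred_eq, not_forall, not_not] at h1 h3
        obtain ⟨s, hs, e⟩ := h1
        obtain ⟨s', hs', e'⟩ := h3
        rw [smul_neg, neg_neg] at e'
        have h4 : (s + s') • a = 0 := by
          rw [add_smul, ← e', e]
          abel
        rcases smul_eq_zero.1 h4 with h5 | h5
        · have h6 : s = 0 := by linarith
          rw [h6, zero_smul, neg_zero] at e
          exact hx e
        · exact ha h5
      obtain ⟨k, hk⟩ := AddSubgroup.mem_zmultiples_iff.1 (hd b hb)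
      rw [Complex.exp_add, he₂ x h2, ← hk, zsmul_eq_mul, Complex.exp_int_mul_two_pi_mul_I, mul_one]

end Rays

end Pool.Agent.Helper17.CKF
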