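import Pool.Agent.Helper17.CKF.RC1
import Pool.Agent.Helper29.CKP.Coind

/-! # CKF-RC2: sections of line bundles over a ball, a Borsuk-Ulam theorem for balls -/

set_option autoImplicit false

namespace Pool.Agent.Helper17.CKF

open Topology Filter Module Matrix

theorem near_ne_zero {P Q : Matrix (Fin 2) (Fin 2) ℂ} {v : Fin 2 → ℂ} (hv : v ≠ 0)
    (hP : P *ᵥ v = v) (hPQ : ∀ i j, ‖P i j - Q i j‖ < 1 / 4) : Q *ᵥ v ≠ 0 := by
  intro h
  have hM : 0 < ‖v‖ := norm_pos_iff.2 hv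
  have h1 : ∀ i, ‖v i‖ ≤ ‖v‖ / 2 := by
    intro i
    have h2 : v i = ∑ j, (P i j - Q i j) * v j := by
      have h3 : (P *ᵥ v) i - (Q *ᵥ v) i = v i := by rw [hP, h, Pi.zero_apply, sub_zero]
      rw [← h3]
      simp only [mulVec, dotProduct, sub_mul, Finset.sum_sub_distrib]
    rw [h2]
    calc ‖∑ j, (P i j - Q i j) * v j‖ ≤ ∑ j, ‖(P i j - Q i j) * v j‖ := norm_sum_le _ _
      _ ≤ ∑ _j : Fin 2, 1 / 4 * ‖v‖ := by
          refine Finset.sum_le_sum fun j _ => ?_
          rw [norm_mul]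
          exact mul_le_mul (hPQ i j).le (norm_le_pi_norm v j) (norm_nonneg _) (by norm_num)
      _ = ‖v‖ / 2 := by
          simp only [Finset.sum_const, Finset.card_univ, Fintype.card_fin, nsmul_eq_mul]
          push_cast
          ring
  have h2 : ‖v‖ ≤ ‖v‖ / 2 := (pi_norm_le_iff_of_nonneg (by positivity)).2 h1
  linarith

/-- A line bundle over a ball has a nowhere zero section. -/
theorem exists_section {V : Type} [NormedAddCommGroup V] [NormedSpace ℝ V] [FiniteDimensional ℝ V]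
    (P : V → Matrix (Fin 2) (Fin 2) ℂ) (hPc : ContinuousOn P (Metric.closedBall 0 1))
    (hP : ∀ y ∈ Metric.closedBall (0 : V) 1, P y * P y = P y) (h0 : P 0 ≠ 0) :
    ∃ e : V → Fin 2 → ℂ, ContinuousOn e (Metric.closedBall 0 1) ∧
      ∀ y ∈ Metric.closedBall (0 : V) 1, e y ≠ 0 ∧ P y *ᵥ e y = e y := by
  have : ProperSpace V := FiniteDimensional.proper ℝ V
  set D := Metric.closedBall (0 : V) 1 with hD
  have hDc : IsCompact D := isCompact_closedBall 0 1
  have h0D : (0 : V) ∈ D := Metric.mem_closedBall_self zero_le_one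
  have hsmul : ∀ (t : ℝ), 0 ≤ t → t ≤ 1 → ∀ y ∈ D, t • y ∈ D := by
    intro t h0 h1 y hy
    rw [hD, mem_closedBall_zero_iff] at hy ⊢
    rw [norm_smul, Real.norm_of_nonneg h0]
    nlinarith [norm_nonneg y]
  -- uniform continuity
  let P' : V → Fin 2 → Fin 2 → ℂ := fun y i j => P y i j
  have hP'c : ContinuousOn P' D := hPc
  have huc := hDc.uniformContinuousOn_of_continuous hP'c
  obtain ⟨δ, hδ, hun⟩ := Metric.uniformContinuousOn_iff.1 huc (1 / 4) (by norm_num)
  have hent : ∀ y ∈ D, ∀ y' ∈ D, dist y y' < δ → ∀ i j, ‖P y i j - P y' i j‖ < 1 / 4 := by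
    intro y hy y' hy' hd i j
    have h1 := hun y hy y' hy' hd
    have h2 : dist (P' y i j) (P' y' i j) ≤ dist (P' y) (P' y') :=
      (dist_le_pi_dist (P' y i) (P' y' i) j).trans (dist_le_pi_dist (P' y) (P' y') i)
    rw [dist_eq_norm] at h2
    exact lt_of_le_of_lt h2 h1
  obtain ⟨N, hN⟩ := exists_nat_one_div_lt hδ
  have hN0 : (0 : ℝ) < (N : ℝ) + 1 := by positivity
  -- the initial vector
  obtain ⟨e₀, he₀, he₀'⟩ : ∃ e₀ : Fin 2 → ℂ, e₀ ≠ 0 ∧ P 0 *ᵥ e₀ = e₀ := by
    obtain ⟨v, hv⟩ : ∃ v, P 0 *ᵥ v ≠ 0 := by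
      by_contra hcon
      push Not at hcon
      apply h0
      ext i j
      have h1 := congrFun (hcon (Pi.single j 1)) i
      rw [mulVec_single_one] at h1
      exact h1
    exact ⟨P 0 *ᵥ v, hv, by rw [mulVec_mulVec, hP 0 h0D]⟩
  let E : ℕ → V → Fin 2 → ℂ := fun j => Nat.rec (fun _ => e₀)
    (fun j F y => P ((((j : ℝ) + 1) / ((N : ℝ) + 1)) • y) *ᵥ F y) j
  have hE0 : ∀ y, E 0 y = e₀ := fun y => rfl
  have hE1 : ∀ j y, E (j + 1) y = P ((((j : ℝ) + 1) / ((N : ℝ) + 1)) • y) *ᵥ E j y :=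
    fun j y => rfl
  have key : ∀ j : ℕ, j ≤ N + 1 → ContinuousOn (E j) D ∧ ∀ y ∈ D, E j y ≠ 0 ∧
      P (((j : ℝ) / ((N : ℝ) + 1)) • y) *ᵥ E j y = E j y := by
    intro j
    induction j with
    | zero =>
      intro _
      refine ⟨continuousOn_const, fun y _ => ⟨he₀, ?_⟩⟩
      rw [hE0, Nat.cast_zero, zero_div, zero_smul]
      exact he₀'
    | succ j ih =>
      intro hj
      obtain ⟨hc, hy⟩ := ih (by omega)
      have hj1 : (j : ℝ) + 1 ≤ (N : ℝ) + 1 := by exact_mod_cast hj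
      have hj0 : (0 : ℝ) ≤ (j : ℝ) := Nat.cast_nonneg j
      have ht0 : 0 ≤ ((j : ℝ) + 1) / ((N : ℝ) + 1) := by positivity
      have ht1 : ((j : ℝ) + 1) / ((N : ℝ) + 1) ≤ 1 := (div_le_one hN0).2 hj1
      have hs0 : 0 ≤ (j : ℝ) / ((N : ℝ) + 1) := by positivity
      have hs1 : (j : ℝ) / ((N : ℝ) + 1) ≤ 1 := (div_le_one hN0).2 (by linarith)
      refine ⟨?_, fun y hyD => ⟨?_, ?_⟩⟩
      · have h1 : ContinuousOn (fun y => P ((((j : ℝ) + 1) / ((N : ℝ) + 1)) • y)) D :=
          hPc.comp (continuous_const_smul _).continuousOn fun y hy => hsmul _ ht0 ht1 y hy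
        have h2 : ContinuousOn (fun y => P ((((j : ℝ) + 1) / ((N : ℝ) + 1)) • y) *ᵥ E j y) D := by
          rw [continuousOn_pi]
          intro i
          simp only [mulVec, dotProduct]
          refine continuousOn_finsetSum _ fun k _ => ContinuousOn.mul ?_ ?_
          · exact (continuous_id.matrix_elem i k).comp_continuousOn h1
          · exact (continuous_apply k).comp_continuousOn hc
        exact h2
      · rw [hE1]
        refine near_ne_zero (hy y hyD).1 (hy y hyD).2 (hent _ (hsmul _ hs0 hs1 y hyD) _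
          (hsmul _ ht0 ht1 y hyD) ?_)
        rw [dist_eq_norm, ← sub_smul, norm_smul]
        have h1 : (j : ℝ) / ((N : ℝ) + 1) - ((j : ℝ) + 1) / ((N : ℝ) + 1) =
            -(1 / ((N : ℝ) + 1)) := by
          rw [← sub_div]
          ring
        rw [h1, norm_neg, Real.norm_of_nonneg (by positivity)]
        rw [hD, mem_closedBall_zero_iff] at hyD
        calc 1 / ((N : ℝ) + 1) * ‖y‖ ≤ 1 / ((N : ℝ) + 1) * 1 :=
              mul_le_mul_of_nonneg_left hyD (by positivity)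
          _ < δ := by rw [mul_one]; exact hN
      · have h1 : (((j + 1 : ℕ) : ℝ) / ((N : ℝ) + 1)) = ((j : ℝ) + 1) / ((N : ℝ) + 1) := by
          push_cast
          rfl
        rw [h1, hE1, mulVec_mulVec, hP _ (hsmul _ ht0 ht1 y hyD)]
  obtain ⟨hc, hy⟩ := key (N + 1) le_rfl
  refine ⟨E (N + 1), hc, fun y hyD => ⟨(hy y hyD).1, ?_⟩⟩
  have h1 := (hy y hyD).2
  have h2 : (((N + 1 : ℕ) : ℝ) / ((N : ℝ) + 1)) = 1 := by
    push_cast
    exact div_self hN0.ne'
  rwa [h2, one_smul] at h1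

/-- The theorem of Borsuk and Ulam for balls: a continuous map on a ball which is odd on the
boundary has a zero, if the target has at most the dimension of the ball. -/
theorem bu_ball {V W : Type} [NormedAddCommGroup V] [NormedSpace ℝ V] [FiniteDimensional ℝ V]
    [AddCommGroup W] [Module ℝ W] [TopologicalSpace W] [IsTopologicalAddGroup W]
    [ContinuousSMul ℝ W] [T2Space W] [FiniteDimensional ℝ W] (g : V → W)
    (hg : ContinuousOn g (Metric.closedBall 0 1)) (h0 : ∀ y ∈ Metric.closedBall (0 : V) 1, g y ≠ 0)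
    (hodd : ∀ y : V, ‖y‖ = 1 → g (-y) = -g y) : finrank ℝ V + 1 ≤ finrank ℝ W := by
  let s : V × ℝ → V := fun z => (‖z.1‖ + |z.2|)⁻¹ • z.1
  have hpos : ∀ z : V × ℝ, z ≠ 0 → 0 < ‖z.1‖ + |z.2| := by
    intro z hz
    rcases (add_nonneg (norm_nonneg z.1) (abs_nonneg z.2)).eq_or_lt with h | h
    · exfalso
      apply hz
      have h1 : ‖z.1‖ = 0 := le_antisymm (by linarith [abs_nonneg z.2]) (norm_nonneg _)
      have h2 : |z.2| = 0 := le_antisymm (by linarith [norm_nonneg z.1]) (abs_nonneg _)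
      exact Prod.ext (norm_eq_zero.1 h1) (abs_eq_zero.1 h2)
    · exact h
  have hsD : ∀ z : V × ℝ, z ≠ 0 → s z ∈ Metric.closedBall (0 : V) 1 := by
    intro z hz
    have h1 := hpos z hz
    rw [mem_closedBall_zero_iff, norm_smul, norm_inv, Real.norm_of_nonneg h1.le,
      inv_mul_le_iff₀ h1, mul_one]
    linarith [abs_nonneg z.2]
  have hsc : ContinuousOn s {0}ᶜ := by
    refine ContinuousOn.smul (ContinuousOn.inv₀ ?_ fun z hz => (hpos z hz).ne')
      continuous_fst.continuousOn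
    exact (continuous_fst.norm.add continuous_snd.abs).continuousOn
  have hneg : ∀ z : V × ℝ, s (-z) = -s z := by
    intro z
    show (‖-z.1‖ + |-z.2|)⁻¹ • -z.1 = -((‖z.1‖ + |z.2|)⁻¹ • z.1)
    rw [norm_neg, abs_neg, smul_neg]
  have hs1 : ∀ z : V × ℝ, z ≠ 0 → z.2 = 0 → ‖s z‖ = 1 := by
    intro z hz h2
    have h1 := hpos z hz
    show ‖(‖z.1‖ + |z.2|)⁻¹ • z.1‖ = 1
    rw [h2, abs_zero, add_zero] at h1 ⊢
    rw [norm_smul, norm_inv, norm_norm, inv_mul_cancel₀ h1.ne']
  have hnD : ∀ z : V × ℝ, z ≠ 0 → -s z ∈ Metric.closedBall (0 : V) 1 := by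
    intro z hz
    rw [← hneg]
    exact hsD _ (neg_ne_zero.2 hz)
  let G : V × ℝ → W := fun z => if 0 ≤ z.2 then g (s z) else -g (-s z)
  have hG0 : ∀ z, z ≠ 0 → G z ≠ 0 := by
    intro z hz
    by_cases h : 0 ≤ z.2
    · simp only [G, if_pos h]
      exact h0 _ (hsD z hz)
    · simp only [G, if_neg h]
      exact neg_ne_zero.2 (h0 _ (hnD z hz))
  have hGodd : ∀ z, z ≠ 0 → G (-z) = -G z := by
    intro z hz
    rcases lt_trichotomy z.2 0 with h | h | h
    · have h1 : 0 ≤ (-z).2 := by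
        show 0 ≤ -z.2
        linarith
      simp only [G, if_pos h1, if_neg (not_le.2 h), hneg, neg_neg]
    · have h1 : 0 ≤ (-z).2 := by
        show 0 ≤ -z.2
        rw [h, neg_zero]
      simp only [G, if_pos h1, if_pos h.ge, hneg]
      exact hodd _ (hs1 z hz h)
    · have h1 : ¬ 0 ≤ (-z).2 := by
        show ¬ 0 ≤ -z.2
        linarith
      simp only [G, if_neg h1, if_pos h.le, hneg, neg_neg]
  have hGc : ContinuousOn G {0}ᶜ := by
    rw [continuousOn_iff_continuous_domRestrict]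
    have hc : ∀ z : (({0}ᶜ : Set (V × ℝ))), (z : V × ℝ) ≠ 0 := fun z => z.2
    have h1 : Continuous fun z : (({0}ᶜ : Set (V × ℝ))) => s z :=
      hsc.comp_continuous continuous_subtype_val fun z => z.2
    have h2 : Continuous fun z : (({0}ᶜ : Set (V × ℝ))) => g (s z) :=
      hg.comp_continuous h1 fun z => hsD z (hc z)
    have h3 : Continuous fun z : (({0}ᶜ : Set (V × ℝ))) => -g (-s z) :=
      (hg.comp_continuous h1.neg fun z => hnD z (hc z)).neg
    have h4 : Continuous fun z : (({0}ᶜ : Set (V × ℝ))) =>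
        if 0 ≤ (z : V × ℝ).2 then g (s z) else -g (-s z) := by
      refine Continuous.if_le h2 h3 continuous_const
        (continuous_snd.comp continuous_subtype_val) ?_
      intro z hz
      rw [hodd _ (hs1 z (hc z) hz.symm), neg_neg]
    exact h4
  have h5 := Pool.Agent.Helper29.CKP.bu G hGc hGodd hG0
  rw [Module.finrank_prod, Module.finrank_self] at h5
  exact h5

end Pool.Agent.Helper17.CKF
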