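import Pool.Agent.Helper17.CKF.RC2

/-! # CKF-RC3: even line bundles over a sphere -/

set_option autoImplicit false

namespace Pool.Agent.Helper17.CKF

open Topology Filter Module Matrix ComplexConjugate

theorem normsum_ne {e : Fin 2 → ℂ} (he : e ≠ 0) :
    conj (e 0) * e 0 + conj (e 1) * e 1 ≠ 0 := by
  rw [← Complex.normSq_eq_conj_mul_self, ← Complex.normSq_eq_conj_mul_self, ← Complex.ofReal_add]
  intro h0
  have h1 : Complex.normSq (e 0) + Complex.normSq (e 1) = 0 := by exact_mod_cast h0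
  have h2 := Complex.normSq_nonneg (e 0)
  have h3 := Complex.normSq_nonneg (e 1)
  apply he
  have h4 : e 0 = 0 := Complex.normSq_eq_zero.1 (by linarith)
  have h5 : e 1 = 0 := Complex.normSq_eq_zero.1 (by linarith)
  exact funext (Fin.forall_fin_two.2 ⟨h4, h5⟩)

/-- two vectors in the range of a projection of rank one -/
theorem prop_of_cross {e f : Fin 2 → ℂ} (he : e ≠ 0) (h : e 0 * f 1 = e 1 * f 0) :
    f = ((conj (e 0) * f 0 + conj (e 1) * f 1) / (conj (e 0) * e 0 + conj (e 1) * e 1)) • e := by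
  have hne := normsum_ne he
  funext i
  rw [Pi.smul_apply, smul_eq_mul, div_mul_eq_mul_div, eq_div_iff hne]
  fin_cases i
  · show f 0 * _ = _ * e 0
    linear_combination (conj (e 1)) * (-h)
  · show f 1 * _ = _ * e 1
    linear_combination (conj (e 0)) * h

/-- An even line bundle on the sphere: sections on a hemisphere which are even or odd on the
equator. -/
theorem exists_section_parity {V : Type} [NormedAddCommGroup V] [NormedSpace ℝ V]
    [FiniteDimensional ℝ V] (hV : 3 ≤ finrank ℝ V) (P : V × ℝ → Matrix (Fin 2) (Fin 2) ℂ)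
    (hPc : ContinuousOn P {0}ᶜ) (hP : ∀ z, z ≠ 0 → P z * P z = P z) (hP0 : ∀ z, z ≠ 0 → P z ≠ 0)
    (hcross : ∀ z, z ≠ 0 → ∀ e f : Fin 2 → ℂ, P z *ᵥ e = e → P z *ᵥ f = f →
      e 0 * f 1 = e 1 * f 0) (heven : ∀ z, z ≠ 0 → P (-z) = P z) :
    ∃ e : V → Fin 2 → ℂ, ContinuousOn e (Metric.closedBall 0 1) ∧
      (∀ y ∈ Metric.closedBall (0 : V) 1, e y ≠ 0 ∧ P (y, 1 - ‖y‖) *ᵥ e y = e y) ∧
      ((∀ y : V, ‖y‖ = 1 → e (-y) = e y) ∨ ∀ y : V, ‖y‖ = 1 → e (-y) = -e y) := by
  have hh0 : ∀ y : V, ((y, 1 - ‖y‖) : V × ℝ) ≠ 0 := by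
    intro y h
    have h1 : y = 0 := congrArg Prod.fst h
    have h2 : 1 - ‖y‖ = 0 := congrArg Prod.snd h
    rw [h1, norm_zero, sub_zero] at h2
    exact one_ne_zero h2
  have hhc : Continuous fun y : V => ((y, 1 - ‖y‖) : V × ℝ) :=
    continuous_id.prodMk (continuous_const.sub continuous_norm)
  obtain ⟨e, hec, he⟩ := exists_section (fun y : V => P (y, 1 - ‖y‖))
    ((hPc.comp_continuous hhc fun y => hh0 y).continuousOn) (fun y _ => hP _ (hh0 y))
    (hP0 _ (hh0 0))
  set D := Metric.closedBall (0 : V) 1 with hD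
  have hmem1 : ∀ y : V, ‖y‖ = 1 → y ∈ D := fun y hy => by
    rw [hD, mem_closedBall_zero_iff, hy]
  -- the transition function on the equator
  let lam : V → ℂ := fun y => (conj (e y 0) * e (-y) 0 + conj (e y 1) * e (-y) 1) /
    (conj (e y 0) * e y 0 + conj (e y 1) * e y 1)
  have hlam : ∀ y : V, ‖y‖ = 1 → e (-y) = lam y • e y := by
    intro y hy
    have h1 := he y (hmem1 y hy)
    have h2 := he (-y) (hmem1 _ (by rw [norm_neg, hy]))
    refine prop_of_cross h1.1 (hcross _ (hh0 y) _ _ h1.2 ?_)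
    have h3 := h2.2
    have h4 : ((-y, 1 - ‖-y‖) : V × ℝ) = -(y, 1 - ‖y‖) := by
      rw [norm_neg, hy, sub_self]
      exact Prod.ext rfl neg_zero.symm
    rw [h4, heven _ (hh0 y)] at h3
    exact h3
  have hlam0 : ∀ y : V, ‖y‖ = 1 → lam y ≠ 0 := by
    intro y hy h
    have h1 := hlam y hy
    rw [h, zero_smul] at h1
    exact (he (-y) (hmem1 _ (by rw [norm_neg, hy]))).1 h1
  have hlam2 : ∀ y : V, ‖y‖ = 1 → lam (-y) * lam y = 1 := by
    intro y hy
    have h1 := hlam y hy
    have h2 := hlam (-y) (by rw [norm_neg, hy])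
    rw [neg_neg, h1, smul_smul] at h2
    have h3 : (lam (-y) * lam y - 1) • e y = 0 := by
      rw [sub_smul, one_smul, ← h2, sub_self]
    rcases smul_eq_zero.1 h3 with h4 | h4
    · exact sub_eq_zero.1 h4
    · exact absurd h4 (he y (hmem1 y hy)).1
  let u : V → V := fun y => ‖y‖⁻¹ • y
  have hu1 : ∀ y : V, y ≠ 0 → ‖u y‖ = 1 := by
    intro y hy
    show ‖‖y‖⁻¹ • y‖ = 1
    rw [norm_smul, norm_inv, norm_norm, inv_mul_cancel₀ (norm_ne_zero_iff.2 hy)]
  have huneg : ∀ y : V, u (-y) = -u y := by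
    intro y
    show ‖-y‖⁻¹ • -y = -(‖y‖⁻¹ • y)
    rw [norm_neg, smul_neg]
  have huc : ContinuousOn u {0}ᶜ :=
    (continuous_norm.continuousOn.inv₀ fun y hy => norm_ne_zero_iff.2 hy).smul continuousOn_id
  have hlamc : ContinuousOn (fun y => lam (u y)) {0}ᶜ := by
    have h1 : ContinuousOn (fun y => e (u y)) {0}ᶜ :=
      hec.comp huc fun y hy => hmem1 _ (hu1 y hy)
    have h2 : ContinuousOn (fun y => e (-u y)) {0}ᶜ :=
      hec.comp huc.neg fun y hy => hmem1 _ (by rw [norm_neg, hu1 y hy])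
    have h3 : ∀ i, ContinuousOn (fun y => e (u y) i) {0}ᶜ := fun i =>
      (continuous_apply i).comp_continuousOn h1
    have h4 : ∀ i, ContinuousOn (fun y => e (-u y) i) {0}ᶜ := fun i =>
      (continuous_apply i).comp_continuousOn h2
    have h5 : ∀ i, ContinuousOn (fun y => conj (e (u y) i)) {0}ᶜ := fun i =>
      Complex.continuous_conj.comp_continuousOn (h3 i)
    refine ContinuousOn.div (((h5 0).mul (h4 0)).add ((h5 1).mul (h4 1)))
      (((h5 0).mul (h3 0)).add ((h5 1).mul (h3 1))) ?_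
    intro y hy
    exact normsum_ne (he (u y) (hmem1 _ (hu1 y hy))).1
  obtain ⟨ζ, hζc, hζ⟩ := exists_log_compl hV (fun y => lam (u y)) hlamc
    fun y hy => hlam0 _ (hu1 y hy)
  -- `ζ y + ζ (-y)` is constant
  have hcomp : IsPreconnected ({0}ᶜ : Set V) :=
    (isConnected_compl_singleton_of_one_lt_rank (by
      rw [← finrank_eq_rank]
      exact_mod_cast (by omega : 1 < finrank ℝ V)) 0).isPreconnected
  have hdisc : IsDiscrete (AddSubgroup.zmultiples (2 * Real.pi * Complex.I) : Set ℂ) :=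
    ⟨NormedSpace.discreteTopology_zmultiples (2 * Real.pi * Complex.I)⟩
  have hsum : ∀ y : V, y ≠ 0 → Complex.exp (ζ y + ζ (-y)) = 1 := by
    intro y hy
    rw [Complex.exp_add, hζ y hy, hζ (-y) (neg_ne_zero.2 hy), huneg, mul_comm]
    exact hlam2 _ (hu1 y hy)
  have : Nontrivial V := Module.nontrivial_of_finrank_pos (R := ℝ) (by omega)
  obtain ⟨b, hb⟩ := exists_ne (0 : V)
  have hconst : ∀ y : V, y ≠ 0 → ζ y + ζ (-y) = ζ b + ζ (-b) := by
    intro y hy
    refine hcomp.constant_of_mapsTo (f := fun y => ζ y + ζ (-y)) hdisc ?_ ?_ hy hb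
    · exact hζc.add (hζc.comp continuous_neg.continuousOn fun y hy => neg_ne_zero.2 hy)
    · intro y hy
      obtain ⟨k, hk⟩ := Complex.exp_eq_one_iff.1 (hsum y hy)
      rw [SetLike.mem_coe, AddSubgroup.mem_zmultiples_iff]
      exact ⟨k, by rw [zsmul_eq_mul]; exact hk.symm⟩
  set κ := ζ b + ζ (-b) with hκ
  have hκ1 : Complex.exp (κ / 2) * Complex.exp (κ / 2) = 1 := by
    rw [← Complex.exp_add, add_halves]
    exact hsum b hb
  -- the cutoff
  let χ : V → ℂ := fun y => ((max 0 (2 * ‖y‖ - 1) : ℝ) : ℂ)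
  have hχc : Continuous χ := Complex.continuous_ofReal.comp
    (continuous_const.max ((continuous_const.mul continuous_norm).sub continuous_const))
  have hχ1 : ∀ y : V, ‖y‖ = 1 → χ y = 1 := by
    intro y hy
    show ((max 0 (2 * ‖y‖ - 1) : ℝ) : ℂ) = 1
    rw [hy]
    norm_num
  have hmc : Continuous fun y => χ y * ζ y := by
    rw [continuous_iff_continuousAt]
    intro y
    by_cases hy : y = 0
    · subst hy
      have h1 : (fun y => χ y * ζ y) =ᶠ[𝓝 (0 : V)] fun _ => 0 := by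
        filter_upwards [Metric.ball_mem_nhds (0 : V) (by norm_num : (0 : ℝ) < 1 / 2)] with y hy
        rw [mem_ball_zero_iff] at hy
        show ((max 0 (2 * ‖y‖ - 1) : ℝ) : ℂ) * ζ y = 0
        rw [max_eq_left (by linarith), Complex.ofReal_zero, zero_mul]
      exact (continuousAt_const.congr h1.symm)
    · exact hχc.continuousAt.mul (hζc.continuousAt (isOpen_compl_singleton.mem_nhds hy))
  refine ⟨fun y => Complex.exp (χ y * ζ y / 2) • e y, ?_, ?_, ?_⟩
  · exact (Complex.continuous_exp.comp (hmc.div_const 2)).continuousOn.smul hec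
  · intro y hy
    refine ⟨smul_ne_zero (Complex.exp_ne_zero _) (he y hy).1, ?_⟩
    rw [mulVec_smul, (he y hy).2]
  · have hkey : ∀ y : V, ‖y‖ = 1 → Complex.exp (χ (-y) * ζ (-y) / 2) • e (-y) =
        Complex.exp (κ / 2) • (Complex.exp (χ y * ζ y / 2) • e y) := by
      intro y hy
      have hy0 : y ≠ 0 := by
        intro h
        rw [h, norm_zero] at hy
        exact zero_ne_one hy
      have huy : u y = y := by
        show ‖y‖⁻¹ • y = y
        rw [hy, inv_one, one_smul]
      rw [hχ1 y hy, hχ1 (-y) (by rw [norm_neg, hy]), one_mul, one_mul, hlam y hy, smul_smul,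
        smul_smul]
      congr 1
      have h1 := hζ y hy0
      rw [huy] at h1
      rw [← h1, ← Complex.exp_add, ← Complex.exp_add, ← hconst y hy0]
      congr 1
      ring
    have h1 : Complex.exp (κ / 2) = 1 ∨ Complex.exp (κ / 2) = -1 := mul_self_eq_one_iff.1 hκ1
    rcases h1 with h1 | h1
    · left
      intro y hy
      show Complex.exp (χ (-y) * ζ (-y) / 2) • e (-y) = Complex.exp (χ y * ζ y / 2) • e y
      rw [hkey y hy, h1, one_smul]
    · right
      intro y hy
      show Complex.exp (χ (-y) * ζ (-y) / 2) • e (-y) = -(Complex.exp (χ y * ζ y / 2) • e y)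
      rw [hkey y hy, h1, neg_smul, one_smul]

end Pool.Agent.Helper17.CKF
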