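import Pool.Agent.Helper17.CKF.RC3

/-! # CKF-RC4: odd maps to `2 × n` complex matrices take all ratios of singular values -/

set_option autoImplicit false

namespace Pool.Agent.Helper17.CKF

open Topology Filter Module Matrix ComplexConjugate

variable {n : ℕ}

/-- squared norm of a row -/
noncomputable def rn (B : Matrix (Fin 2) (Fin n) ℂ) (i : Fin 2) : ℝ :=
  ∑ j, Complex.normSq (B i j)

/-- Hermitian product of the rows -/
noncomputable def rc (B : Matrix (Fin 2) (Fin n) ℂ) : ℂ := ∑ j, B 0 j * conj (B 1 j)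

theorem rn_nonneg (B : Matrix (Fin 2) (Fin n) ℂ) (i : Fin 2) : 0 ≤ rn B i :=
  Finset.sum_nonneg fun _ _ => Complex.normSq_nonneg _

theorem mul_conj_00 (B : Matrix (Fin 2) (Fin n) ℂ) (i : Fin 2) :
    (B * Bᴴ) i i = ((rn B i : ℝ) : ℂ) := by
  rw [Matrix.mul_apply, rn, Complex.ofReal_sum]
  refine Finset.sum_congr rfl fun j _ => ?_
  rw [conjTranspose_apply, Complex.star_def, Complex.mul_conj]

theorem mul_conj_01 (B : Matrix (Fin 2) (Fin n) ℂ) : (B * Bᴴ) 0 1 = rc B := by
  rw [Matrix.mul_apply, rc]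
  rfl

theorem mul_conj_10 (B : Matrix (Fin 2) (Fin n) ℂ) : (B * Bᴴ) 1 0 = conj (rc B) := by
  rw [Matrix.mul_apply, rc, map_sum]
  refine Finset.sum_congr rfl fun j _ => ?_
  rw [conjTranspose_apply, Complex.star_def, map_mul, Complex.conj_conj, mul_comm]

theorem det_eq (B : Matrix (Fin 2) (Fin n) ℂ) :
    (B * Bᴴ).det.re = rn B 0 * rn B 1 - Complex.normSq (rc B) := by
  rw [det_fin_two, mul_conj_00, mul_conj_00, mul_conj_01, mul_conj_10, Complex.mul_conj,
    ← Complex.ofReal_mul, ← Complex.ofReal_sub, Complex.ofReal_re]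

theorem trace_eq (B : Matrix (Fin 2) (Fin n) ℂ) : (B * Bᴴ).trace.re = rn B 0 + rn B 1 := by
  rw [trace_fin_two, mul_conj_00, mul_conj_00, ← Complex.ofReal_add, Complex.ofReal_re]

theorem rn_neg (B : Matrix (Fin 2) (Fin n) ℂ) (i : Fin 2) : rn (-B) i = rn B i := by
  simp only [rn, Matrix.neg_apply, Complex.normSq_neg]

theorem rc_neg (B : Matrix (Fin 2) (Fin n) ℂ) : rc (-B) = rc B := by
  simp only [rc, Matrix.neg_apply, map_neg, neg_mul_neg]

theorem continuous_rn (i : Fin 2) :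
    Continuous fun B : Matrix (Fin 2) (Fin n) ℂ => rn B i := by
  unfold rn
  exact continuous_finsetSum _ fun j _ =>
    Complex.continuous_normSq.comp (continuous_id.matrix_elem i j)

theorem continuous_rc : Continuous fun B : Matrix (Fin 2) (Fin n) ℂ => rc B := by
  unfold rc
  exact continuous_finsetSum _ fun j _ => (continuous_id.matrix_elem 0 j).mul
    (Complex.continuous_conj.comp (continuous_id.matrix_elem 1 j))

theorem rn_eq_zero {B : Matrix (Fin 2) (Fin n) ℂ} {i : Fin 2} (h : rn B i = 0) : B i = 0 := by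
  funext j
  have h1 := (Finset.sum_eq_zero_iff_of_nonneg
    (fun j _ => Complex.normSq_nonneg (B i j))).1 h j (Finset.mem_univ j)
  exact Complex.normSq_eq_zero.1 h1

/-- difference of the eigenvalues of `B Bᴴ` -/
noncomputable def gap (B : Matrix (Fin 2) (Fin n) ℂ) : ℝ :=
  Real.sqrt ((rn B 0 - rn B 1) ^ 2 + 4 * Complex.normSq (rc B))

/-- projection to the top eigenspace -/
noncomputable def topP (B : Matrix (Fin 2) (Fin n) ℂ) : Matrix (Fin 2) (Fin 2) ℂ :=
  !![(((rn B 0 - rn B 1 + gap B) / (2 * gap B) : ℝ) : ℂ), rc B / ((gap B : ℝ) : ℂ);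
    conj (rc B) / ((gap B : ℝ) : ℂ), (((rn B 1 - rn B 0 + gap B) / (2 * gap B) : ℝ) : ℂ)]

theorem gap_sq (B : Matrix (Fin 2) (Fin n) ℂ) :
    gap B ^ 2 = (rn B 0 - rn B 1) ^ 2 + 4 * Complex.normSq (rc B) := by
  have := Complex.normSq_nonneg (rc B)
  exact Real.sq_sqrt (by positivity)

theorem gap_sqC (B : Matrix (Fin 2) (Fin n) ℂ) :
    ((gap B : ℝ) : ℂ) ^ 2 = ((rn B 0 : ℝ) - (rn B 1 : ℝ) : ℂ) ^ 2 + 4 * (rc B * conj (rc B)) := by
  rw [Complex.mul_conj]
  exact_mod_cast congrArg (fun x : ℝ => (x : ℂ)) (gap_sq B)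

theorem continuous_gap : Continuous fun B : Matrix (Fin 2) (Fin n) ℂ => gap B := by
  unfold gap
  exact ((((continuous_rn 0).sub (continuous_rn 1)).pow 2).add
    (continuous_const.mul (Complex.continuous_normSq.comp continuous_rc))).sqrt

theorem topP_mul {B : Matrix (Fin 2) (Fin n) ℂ} (hg : gap B ≠ 0) : topP B * topP B = topP B := by
  have h1 := gap_sqC B
  have hg' : ((gap B : ℝ) : ℂ) ≠ 0 := Complex.ofReal_ne_zero.2 hg
  ext i j
  fin_cases i <;> fin_cases j
  all_goals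
    simp only [topP, Matrix.mul_apply, Fin.sum_univ_two]
    simp
    field_simp
  · linear_combination (-1 : ℂ) * h1
  · ring
  · ring
  · linear_combination (-1 : ℂ) * h1

theorem topP_vec {B : Matrix (Fin 2) (Fin n) ℂ} (hg : gap B ≠ 0) {e : Fin 2 → ℂ}
    (he : topP B *ᵥ e = e) :
    2 * rc B * e 1 = ((gap B : ℝ) - (rn B 0 : ℝ) + (rn B 1 : ℝ) : ℂ) * e 0 ∧
    2 * conj (rc B) * e 0 = ((gap B : ℝ) + (rn B 0 : ℝ) - (rn B 1 : ℝ) : ℂ) * e 1 := by
  have hg' : ((gap B : ℝ) : ℂ) ≠ 0 := Complex.ofReal_ne_zero.2 hg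
  have h0 := congrFun he 0
  have h1 := congrFun he 1
  simp only [topP, mulVec, dotProduct, Fin.sum_univ_two] at h0 h1
  simp at h0 h1
  field_simp at h0 h1
  constructor
  · linear_combination h0
  · linear_combination h1

theorem topP_ne {B : Matrix (Fin 2) (Fin n) ℂ} (hg : gap B ≠ 0) : topP B ≠ 0 := by
  intro h
  have h1 := congrFun (congrFun h 0) 0
  have h2 := congrFun (congrFun h 1) 1
  simp only [topP, Matrix.zero_apply] at h1 h2
  simp at h1 h2
  have hg' : ((gap B : ℝ) : ℂ) ≠ 0 := Complex.ofReal_ne_zero.2 hg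
  have h3 : (rn B 0 - rn B 1 + gap B : ℂ) = 0 := h1.resolve_right hg
  have h4 : (rn B 1 - rn B 0 + gap B : ℂ) = 0 := h2.resolve_right hg
  apply hg'
  linear_combination (1 / 2 : ℂ) * h3 + (1 / 2 : ℂ) * h4

theorem topP_neg (B : Matrix (Fin 2) (Fin n) ℂ) : topP (-B) = topP B := by
  simp only [topP, gap, rn_neg, rc_neg]

/-- two vectors in the top eigenspace are proportional -/
theorem topP_cross {B : Matrix (Fin 2) (Fin n) ℂ} (hg : gap B ≠ 0) {e f : Fin 2 → ℂ}
    (he : topP B *ᵥ e = e) (hf : topP B *ᵥ f = f) : e 0 * f 1 = e 1 * f 0 := by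
  obtain ⟨h1, h2⟩ := topP_vec hg he
  obtain ⟨h3, h4⟩ := topP_vec hg hf
  have hg' : ((gap B : ℝ) : ℂ) ≠ 0 := Complex.ofReal_ne_zero.2 hg
  have h5 : ((gap B : ℝ) : ℂ) * (e 0 * f 1 - e 1 * f 0) = 0 := by
    linear_combination (1 / 2 : ℂ) * (-(f 1) * h1 + e 1 * h3 - e 0 * h4 + f 0 * h2)
  rcases mul_eq_zero.1 h5 with h6 | h6
  · exact absurd h6 hg'
  · exact sub_eq_zero.1 h6

/-- a nonzero vector in the top eigenspace is not orthogonal to the rows -/
theorem top_ne_zero {B : Matrix (Fin 2) (Fin n) ℂ} (hg : 0 < gap B) {e : Fin 2 → ℂ}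
    (he0 : e ≠ 0) (he : topP B *ᵥ e = e) :
    (fun j => conj (e 0) * B 0 j + conj (e 1) * B 1 j) ≠ 0 := by
  intro h
  obtain ⟨h1, h2⟩ := topP_vec hg.ne' he
  have hj : ∀ j, conj (e 0) * B 0 j + conj (e 1) * B 1 j = 0 := fun j => congrFun h j
  have h3 : conj (e 0) * ((rn B 0 : ℝ) : ℂ) + conj (e 1) * conj (rc B) = 0 := by
    rw [← mul_conj_00, ← mul_conj_10, Matrix.mul_apply, Matrix.mul_apply, Finset.mul_sum,
      Finset.mul_sum, ← Finset.sum_add_distrib]
    refine Finset.sum_eq_zero fun j _ => ?_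
    rw [← mul_assoc, ← mul_assoc, ← add_mul, hj, zero_mul]
  have h4 : conj (e 0) * rc B + conj (e 1) * ((rn B 1 : ℝ) : ℂ) = 0 := by
    rw [← mul_conj_00, ← mul_conj_01, Matrix.mul_apply, Matrix.mul_apply, Finset.mul_sum,
      Finset.mul_sum, ← Finset.sum_add_distrib]
    refine Finset.sum_eq_zero fun j _ => ?_
    rw [← mul_assoc, ← mul_assoc, ← add_mul, hj, zero_mul]
  have h5 : e 0 * ((rn B 0 : ℝ) : ℂ) + e 1 * rc B = 0 := by
    have := congrArg conj h3
    simpa [Complex.conj_ofReal] using this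
  have h6 : e 0 * conj (rc B) + e 1 * ((rn B 1 : ℝ) : ℂ) = 0 := by
    have := congrArg conj h4
    simpa [Complex.conj_ofReal] using this
  have hpos : (0 : ℝ) < gap B + rn B 0 + rn B 1 := by
    have := rn_nonneg B 0
    have := rn_nonneg B 1
    linarith
  have hpos' : ((gap B : ℝ) + (rn B 0 : ℝ) + (rn B 1 : ℝ) : ℂ) ≠ 0 := by
    have : ((gap B + rn B 0 + rn B 1 : ℝ) : ℂ) ≠ 0 := Complex.ofReal_ne_zero.2 hpos.ne'
    push_cast at this
    exact this
  have h7 : ((gap B : ℝ) + (rn B 0 : ℝ) + (rn B 1 : ℝ) : ℂ) * e 0 = 0 := by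
    linear_combination (2 : ℂ) * h5 - h1
  have h8 : ((gap B : ℝ) + (rn B 0 : ℝ) + (rn B 1 : ℝ) : ℂ) * e 1 = 0 := by
    linear_combination (2 : ℂ) * h6 - h2
  apply he0
  exact funext (Fin.forall_fin_two.2
    ⟨(mul_eq_zero.1 h7).resolve_left hpos', (mul_eq_zero.1 h8).resolve_left hpos'⟩)

theorem finrank_rows (n : ℕ) : finrank ℝ (Fin n → ℂ) = 2 * n := by
  rw [Module.finrank_pi_fintype]
  simp [Complex.finrank_real_complex, mul_comm]

/-- first form of the theorem -/
theorem exists_ratio_aux (hn : 2 ≤ n) (B : (Fin (2 * n) → ℝ) × ℝ → Matrix (Fin 2) (Fin n) ℂ)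
    (hB : ContinuousOn B {0}ᶜ) (hodd : ∀ x, x ≠ 0 → B (-x) = -B x) (δ : ℝ) (h0 : 0 ≤ δ)
    (h1 : δ ≤ 1 / 4) : ∃ x, x ≠ 0 ∧
      rn (B x) 0 * rn (B x) 1 - Complex.normSq (rc (B x)) = δ * (rn (B x) 0 + rn (B x) 1) ^ 2 := by
  by_contra hcon
  push Not at hcon
  have hfin : finrank ℝ ((Fin (2 * n) → ℝ) × ℝ) = 2 * n + 1 := by
    rw [Module.finrank_prod, Module.finrank_fin_fun, Module.finrank_self]
  have hcomp : IsPreconnected ({0}ᶜ : Set ((Fin (2 * n) → ℝ) × ℝ)) :=
    (isConnected_compl_singleton_of_one_lt_rank (by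
      rw [← finrank_eq_rank, hfin]
      exact_mod_cast (by omega : 1 < 2 * n + 1)) 0).isPreconnected
  let ψ : (Fin (2 * n) → ℝ) × ℝ → ℝ := fun x =>
    rn (B x) 0 * rn (B x) 1 - Complex.normSq (rc (B x)) - δ * (rn (B x) 0 + rn (B x) 1) ^ 2
  have hr : ∀ i, ContinuousOn (fun x => rn (B x) i) {0}ᶜ := fun i =>
    (continuous_rn i).comp_continuousOn hB
  have hc : ContinuousOn (fun x => rc (B x)) {0}ᶜ := continuous_rc.comp_continuousOn hB
  have hψc : ContinuousOn ψ {0}ᶜ :=
    (((hr 0).mul (hr 1)).sub (Complex.continuous_normSq.comp_continuousOn hc)).sub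
      (continuousOn_const.mul (((hr 0).add (hr 1)).pow 2))
  have hψ0 : ∀ x, x ≠ 0 → ψ x ≠ 0 := fun x hx h => hcon x hx (sub_eq_zero.1 h)
  have hdich : (∀ x, x ≠ 0 → 0 < ψ x) ∨ ∀ x, x ≠ 0 → ψ x < 0 := by
    by_contra hc2
    push Not at hc2
    obtain ⟨⟨x, hx, hx'⟩, ⟨y, hy, hy'⟩⟩ := hc2
    obtain ⟨z, hz, hz'⟩ := hcomp.intermediate_value (Set.mem_compl_singleton_iff.2 hx)
      (Set.mem_compl_singleton_iff.2 hy) hψc ⟨hx', hy'⟩
    exact hψ0 z hz hz'
  rcases hdich with hpos | hneg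
  · -- the first row does not vanish
    have h2 : ∀ x, x ≠ 0 → B x 0 ≠ 0 := by
      intro x hx h
      have h3 : rn (B x) 0 = 0 := by
        rw [rn]
        exact Finset.sum_eq_zero fun j _ => by rw [h, Pi.zero_apply, Complex.normSq_zero]
      have h4 := hpos x hx
      have h5 := Complex.normSq_nonneg (rc (B x))
      have h6 : 0 ≤ δ * (rn (B x) 0 + rn (B x) 1) ^ 2 := by positivity
      simp only [ψ, h3, zero_mul, zero_add] at h4 h6
      linarith
    have h3 : ContinuousOn (fun x => B x 0) {0}ᶜ :=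
      (continuous_apply (0 : Fin 2)).comp_continuousOn
        (f := fun x => (B x : Fin 2 → Fin n → ℂ)) hB
    have h4 := Pool.Agent.Helper29.CKP.bu (fun x => B x 0) h3
      (fun x hx => by rw [hodd x hx]; rfl) h2
    rw [hfin, finrank_rows] at h4
    omega
  · -- the top eigenline
    have hgap : ∀ x, x ≠ 0 → 0 < gap (B x) := by
      intro x hx
      have h2 := hneg x hx
      have h3 : δ * (rn (B x) 0 + rn (B x) 1) ^ 2 ≤ 1 / 4 * (rn (B x) 0 + rn (B x) 1) ^ 2 :=
        mul_le_mul_of_nonneg_right h1 (sq_nonneg _)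
      apply Real.sqrt_pos.2
      simp only [ψ] at h2
      nlinarith
    have hgc : ContinuousOn (fun x => ((gap (B x) : ℝ) : ℂ)) {0}ᶜ :=
      Complex.continuous_ofReal.comp_continuousOn (continuous_gap.comp_continuousOn hB)
    have hgR : ContinuousOn (fun x => gap (B x)) {0}ᶜ := continuous_gap.comp_continuousOn hB
    have hPc : ContinuousOn (fun x => topP (B x)) {0}ᶜ := by
      have e00 : ContinuousOn (fun x =>
          (((rn (B x) 0 - rn (B x) 1 + gap (B x)) / (2 * gap (B x)) : ℝ) : ℂ)) {0}ᶜ :=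
        Complex.continuous_ofReal.comp_continuousOn ((((hr 0).sub (hr 1)).add hgR).div
          (continuousOn_const.mul hgR) fun x hx => by
            have := hgap x hx
            positivity)
      have e11 : ContinuousOn (fun x =>
          (((rn (B x) 1 - rn (B x) 0 + gap (B x)) / (2 * gap (B x)) : ℝ) : ℂ)) {0}ᶜ :=
        Complex.continuous_ofReal.comp_continuousOn ((((hr 1).sub (hr 0)).add hgR).div
          (continuousOn_const.mul hgR) fun x hx => by
            have := hgap x hx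
            positivity)
      have e01 : ContinuousOn (fun x => rc (B x) / ((gap (B x) : ℝ) : ℂ)) {0}ᶜ :=
        hc.div hgc fun x hx => Complex.ofReal_ne_zero.2 (hgap x hx).ne'
      have e10 : ContinuousOn (fun x => conj (rc (B x)) / ((gap (B x) : ℝ) : ℂ)) {0}ᶜ :=
        (Complex.continuous_conj.comp_continuousOn hc).div hgc
          fun x hx => Complex.ofReal_ne_zero.2 (hgap x hx).ne'
      refine continuousOn_pi.2 fun i => continuousOn_pi.2 fun j => ?_
      fin_cases i <;> fin_cases j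
      · exact e00
      · exact e01
      · exact e10
      · exact e11
    obtain ⟨e, hec, he, hpar⟩ := exists_section_parity (V := Fin (2 * n) → ℝ)
      (by rw [Module.finrank_fin_fun]; omega) (fun x => topP (B x)) hPc
      (fun x hx => topP_mul (hgap x hx).ne') (fun x hx => topP_ne (hgap x hx).ne')
      (fun x hx e f h h' => topP_cross (hgap x hx).ne' h h')
      (fun x hx => by show topP (B (-x)) = topP (B x); rw [hodd x hx, topP_neg])
    have hh0 : ∀ y : Fin (2 * n) → ℝ, ((y, 1 - ‖y‖) : (Fin (2 * n) → ℝ) × ℝ) ≠ 0 := by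
      intro y h
      have h1 : y = 0 := congrArg Prod.fst h
      have h2 : 1 - ‖y‖ = 0 := congrArg Prod.snd h
      rw [h1, norm_zero, sub_zero] at h2
      exact one_ne_zero h2
    rcases hpar with hpar | hpar
    · -- even: the row `e* B`
      have hBc : Continuous fun y : Fin (2 * n) → ℝ => B (y, 1 - ‖y‖) :=
        hB.comp_continuous (continuous_id.prodMk (continuous_const.sub continuous_norm))
          fun y => hh0 y
      let g : (Fin (2 * n) → ℝ) → Fin n → ℂ := fun y j =>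
        conj (e y 0) * B (y, 1 - ‖y‖) 0 j + conj (e y 1) * B (y, 1 - ‖y‖) 1 j
      have hgc2 : ContinuousOn g (Metric.closedBall 0 1) := by
        refine continuousOn_pi.2 fun j => ?_
        have h2 : ∀ i : Fin 2, ContinuousOn (fun y => conj (e y i)) (Metric.closedBall 0 1) :=
          fun i => Complex.continuous_conj.comp_continuousOn
            ((continuous_apply i).comp_continuousOn hec)
        have h3 : ∀ i : Fin 2, Continuous fun y : Fin (2 * n) → ℝ => B (y, 1 - ‖y‖) i j :=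
          fun i => hBc.matrix_elem i j
        exact ((h2 0).mul (h3 0).continuousOn).add ((h2 1).mul (h3 1).continuousOn)
      have h2 := bu_ball g hgc2 (fun y hy => top_ne_zero (hgap _ (hh0 y)) (he y hy).1 (he y hy).2)
        (by
          intro y hy
          have h3 : ((-y, 1 - ‖-y‖) : (Fin (2 * n) → ℝ) × ℝ) = -(y, 1 - ‖y‖) := by
            rw [norm_neg, hy, sub_self]
            exact Prod.ext rfl neg_zero.symm
          funext j
          show conj (e (-y) 0) * B (-y, 1 - ‖-y‖) 0 j + conj (e (-y) 1) * B (-y, 1 - ‖-y‖) 1 j =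
            -(conj (e y 0) * B (y, 1 - ‖y‖) 0 j + conj (e y 1) * B (y, 1 - ‖y‖) 1 j)
          rw [h3, hodd _ (hh0 y), hpar y hy, Matrix.neg_apply, Matrix.neg_apply]
          ring)
      rw [Module.finrank_fin_fun, finrank_rows] at h2
      omega
    · -- odd: the section itself
      have h2 := bu_ball e hec (fun y hy => (he y hy).1) hpar
      rw [Module.finrank_fin_fun, finrank_rows] at h2
      omega

/-- An odd continuous map from the sphere of dimension `2 n` to the complex `2 × n` matrices takes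
every ratio of the singular values. -/
theorem exists_ratio_C (hn : 2 ≤ n) {E : Type} [AddCommGroup E] [Module ℝ E] [TopologicalSpace E]
    [IsTopologicalAddGroup E] [ContinuousSMul ℝ E] [T2Space E] [FiniteDimensional ℝ E]
    (hE : finrank ℝ E = 2 * n + 1) (B : E → Matrix (Fin 2) (Fin n) ℂ)
    (hB : ContinuousOn B {0}ᶜ) (hodd : ∀ x, x ≠ 0 → B (-x) = -B x) (δ : ℝ) (h0 : 0 ≤ δ)
    (h1 : δ ≤ 1 / 4) : ∃ x, x ≠ 0 ∧ (B x * (B x)ᴴ).det.re = δ * (B x * (B x)ᴴ).trace.re ^ 2 := by
  have hfin : finrank ℝ ((Fin (2 * n) → ℝ) × ℝ) = finrank ℝ E := by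
    rw [hE, Module.finrank_prod, Module.finrank_fin_fun, Module.finrank_self]
  let L : ((Fin (2 * n) → ℝ) × ℝ) ≃L[ℝ] E := ContinuousLinearEquiv.ofFinrankEq hfin
  have hL0 : ∀ x, x ≠ 0 → L x ≠ 0 := fun x hx h => hx (L.map_eq_zero_iff.1 h)
  obtain ⟨x, hx, h⟩ := exists_ratio_aux hn (fun x => B (L x))
    (hB.comp L.continuous.continuousOn fun x hx => hL0 x hx)
    (fun x hx => by rw [map_neg, hodd _ (hL0 x hx)]) δ h0 h1
  refine ⟨L x, hL0 x hx, ?_⟩
  rw [det_eq, trace_eq]
  exact h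

end Pool.Agent.Helper17.CKF
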