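import Mathlib

/-! # CKF-RO1: orthogonal families of isometries closed under triple products -/

set_option autoImplicit false

namespace Pool.Agent.Helper17.CKF

open Matrix Module

/-- fewer than `N` linear conditions have a nonzero solution in `ℝ ^ N` -/
theorem exists_orth {κ : Type} [Fintype κ] {N : ℕ} (h : Fintype.card κ < N)
    (v : κ → Fin N → ℝ) : ∃ y : Fin N → ℝ, y ≠ 0 ∧ ∀ i, v i ⬝ᵥ y = 0 := by
  have h1 : LinearMap.ker (Matrix.mulVecLin (Matrix.of v)) ≠ ⊥ := by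
    apply LinearMap.ker_ne_bot_of_finrank_lt
    rw [Module.finrank_fintype_fun_eq_card, Module.finrank_fin_fun]
    exact h
  obtain ⟨y, hy, hy0⟩ := Submodule.exists_mem_ne_zero_of_ne_bot h1
  refine ⟨y, hy0, fun i => ?_⟩
  exact congrFun (LinearMap.mem_ker.1 hy) i

section Dot
variable {a b c : ℕ}

theorem dot_mv (M : Matrix (Fin a) (Fin b) ℝ) (x : Fin a → ℝ) (y : Fin b → ℝ) :
    x ⬝ᵥ (M *ᵥ y) = (Mᵀ *ᵥ x) ⬝ᵥ y := by
  rw [Matrix.dotProduct_mulVec, Matrix.mulVec_transpose]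

theorem mv_dot_mv (M : Matrix (Fin a) (Fin b) ℝ) (M' : Matrix (Fin a) (Fin c) ℝ)
    (x : Fin b → ℝ) (y : Fin c → ℝ) :
    (M *ᵥ x) ⬝ᵥ (M' *ᵥ y) = x ⬝ᵥ ((Mᵀ * M') *ᵥ y) := by
  rw [← Matrix.mulVec_mulVec, dot_mv Mᵀ, transpose_transpose]

theorem dot_self_eq_zero {x : Fin a → ℝ} (h : x ⬝ᵥ x = 0) : x = 0 := dotProduct_self_eq_zero.1 h

theorem dot_self_pos {x : Fin a → ℝ} (h : x ≠ 0) : 0 < x ⬝ᵥ x := by
  have h1 : 0 ≤ x ⬝ᵥ x := Finset.sum_nonneg fun i _ => mul_self_nonneg _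
  exact lt_of_le_of_ne h1 fun e => h (dot_self_eq_zero e.symm)

theorem eq_of_dot {x y : Fin a → ℝ} (h : ∀ z, z ⬝ᵥ x = z ⬝ᵥ y) : x = y := by
  have h1 : (x - y) ⬝ᵥ (x - y) = 0 := by rw [dotProduct_sub, h, sub_self]
  exact sub_eq_zero.1 (dot_self_eq_zero h1)

end Dot

section Iso
variable {ι : Type} [Fintype ι] [DecidableEq ι] {n N : ℕ}

theorem iso_dot_self {A : ι → Matrix (Fin n) (Fin N) ℝ} (hiso : ∀ k, (A k)ᵀ * A k = 1) (k : ι)
    (x y : Fin N → ℝ) : (A k *ᵥ x) ⬝ᵥ (A k *ᵥ y) = x ⬝ᵥ y := by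
  rw [mv_dot_mv, hiso, one_mulVec]

theorem iso_dot_skew {A : ι → Matrix (Fin n) (Fin N) ℝ}
    (hsk : ∀ j k, j ≠ k → (A j)ᵀ * A k = -((A k)ᵀ * A j)) {j k : ι} (h : j ≠ k)
    (x y : Fin N → ℝ) : (A j *ᵥ x) ⬝ᵥ (A k *ᵥ y) = -((A k *ᵥ x) ⬝ᵥ (A j *ᵥ y)) := by
  rw [mv_dot_mv, hsk j k h, neg_mulVec, dotProduct_neg, ← mv_dot_mv]

theorem iso_dot_ne {A : ι → Matrix (Fin n) (Fin N) ℝ}
    (hsk : ∀ j k, j ≠ k → (A j)ᵀ * A k = -((A k)ᵀ * A j)) {j k : ι} (h : j ≠ k)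
    (x : Fin N → ℝ) : (A j *ᵥ x) ⬝ᵥ (A k *ᵥ x) = 0 := by
  have h1 := iso_dot_skew hsk h x x
  rw [dotProduct_comm (A k *ᵥ x)] at h1
  linarith

/-- a combination of the isometries is a multiple of an isometry -/
theorem comb_dot {A : ι → Matrix (Fin n) (Fin N) ℝ} (hiso : ∀ k, (A k)ᵀ * A k = 1)
    (hsk : ∀ j k, j ≠ k → (A j)ᵀ * A k = -((A k)ᵀ * A j)) (c : ι → ℝ) (x : Fin N → ℝ) :
    (∑ j, c j • (A j *ᵥ x)) ⬝ᵥ (∑ j, c j • (A j *ᵥ x)) = (∑ j, c j ^ 2) * (x ⬝ᵥ x) := by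
  rw [sum_dotProduct, Finset.sum_mul]
  refine Finset.sum_congr rfl fun j _ => ?_
  rw [dotProduct_sum, Finset.sum_eq_single j]
  · rw [smul_dotProduct, dotProduct_smul, iso_dot_self hiso, smul_eq_mul, smul_eq_mul]
    ring
  · intro k _ hk
    rw [smul_dotProduct, dotProduct_smul, iso_dot_ne hsk (Ne.symm hk), smul_zero, smul_zero]
  · intro h
    exact absurd (Finset.mem_univ j) h

/-- All the isometries have the same image. -/
theorem same_image {A : ι → Matrix (Fin n) (Fin N) ℝ} (hiso : ∀ k, (A k)ᵀ * A k = 1)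
    (hsk : ∀ j k, j ≠ k → (A j)ᵀ * A k = -((A k)ᵀ * A j))
    (hT : ∀ x y : Fin N → ℝ, ∃ z, ∀ k, A k *ᵥ z =
      ∑ j, if j = k then 0 else ((A j *ᵥ y) ⬝ᵥ (A k *ᵥ x)) • (A j *ᵥ x))
    (hn : n + 1 ≤ N + Fintype.card ι) (hN : 2 * Fintype.card ι < N + 2) (o : ι)
    {e : Fin n → ℝ} (he : (A o)ᵀ *ᵥ e = 0) (j : ι) : (A j)ᵀ *ᵥ e = 0 := by
  by_contra hj
  -- the coefficients
  have hco : ∀ x, e ⬝ᵥ (A o *ᵥ x) = 0 := fun x => by rw [dot_mv, he, zero_dotProduct]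
  have hstar : ∀ x, (A o)ᵀ *ᵥ (∑ j, (e ⬝ᵥ (A j *ᵥ x)) • (A j *ᵥ x)) = 0 := by
    intro x
    apply eq_of_dot
    intro y
    obtain ⟨z, hz⟩ := hT x y
    have h1 := congrArg (fun v => e ⬝ᵥ v) (hz o)
    rw [hco, dotProduct_sum] at h1
    rw [dotProduct_zero, dot_mv, transpose_transpose, dotProduct_sum, ← neg_eq_zero,
      ← Finset.sum_neg_distrib, ← h1.symm]
    refine (Finset.sum_congr rfl fun j _ => ?_)
    split_ifs with hjo
    · rw [hjo, hco, dotProduct_zero, zero_smul, dotProduct_zero, neg_zero]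
    · rw [dotProduct_smul, dotProduct_smul, smul_eq_mul, smul_eq_mul,
        iso_dot_skew hsk hjo]
      ring
  obtain ⟨x0, hx0⟩ : ∃ x0, e ⬝ᵥ (A j *ᵥ x0) ≠ 0 := by
    by_contra hcon
    push Not at hcon
    apply hj
    apply eq_of_dot
    intro z
    rw [dotProduct_zero, dotProduct_comm, ← dot_mv]
    exact hcon z
  set c0 : ι → ℝ := fun j => e ⬝ᵥ (A j *ᵥ x0) with hc0
  -- the complement
  set K := LinearMap.ker (Matrix.mulVecLin (A o)ᵀ) with hK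
  have hKr : N + finrank ℝ K = n := by
    have h1 := LinearMap.finrank_range_add_finrank_ker (Matrix.mulVecLin (A o)ᵀ)
    have h2 : LinearMap.range (Matrix.mulVecLin (A o)ᵀ) = ⊤ := by
      rw [LinearMap.range_eq_top]
      intro y
      refine ⟨A o *ᵥ y, ?_⟩
      rw [Matrix.mulVecLin_apply, mulVec_mulVec, hiso, one_mulVec]
    rw [h2, finrank_top, Module.finrank_fin_fun, Module.finrank_fin_fun] at h1
    exact h1
  let Ψ : (Fin N → ℝ) →ₗ[ℝ] (Fin n → ℝ) := ∑ j, c0 j • Matrix.mulVecLin (A j)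
  have hΨ : ∀ x, Ψ x = ∑ j, c0 j • (A j *ᵥ x) := by
    intro x
    simp [Ψ, LinearMap.sum_apply]
  let pr : (Fin n → ℝ) →ₗ[ℝ] K := LinearMap.codRestrict K
    (LinearMap.id - Matrix.mulVecLin (A o * (A o)ᵀ)) (by
      intro v
      rw [hK, LinearMap.mem_ker, Matrix.mulVecLin_apply, LinearMap.sub_apply, LinearMap.id_apply,
        Matrix.mulVecLin_apply, mulVec_sub, mulVec_mulVec, ← Matrix.mul_assoc, hiso,
        Matrix.one_mul, sub_self])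
  let cm : (Fin N → ℝ) →ₗ[ℝ] ({j : ι // j ≠ o} → ℝ) :=
    Matrix.mulVecLin (Matrix.of fun j : {j : ι // j ≠ o} => (A j)ᵀ *ᵥ e)
  have hker : LinearMap.ker (cm.prod (pr ∘ₗ Ψ)) ≠ ⊥ := by
    apply LinearMap.ker_ne_bot_of_finrank_lt
    rw [Module.finrank_prod, Module.finrank_fintype_fun_eq_card, Module.finrank_fin_fun,
      Fintype.card_subtype_compl, Fintype.card_subtype_eq]
    have h3 : 1 ≤ Fintype.card ι := Fintype.card_pos_iff.2 ⟨o⟩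
    omega
  obtain ⟨x, hx, hx0'⟩ := Submodule.exists_mem_ne_zero_of_ne_bot hker
  have hx1 : cm x = 0 := congrArg Prod.fst (LinearMap.mem_ker.1 hx)
  have hx2 : (pr ∘ₗ Ψ) x = 0 := congrArg Prod.snd (LinearMap.mem_ker.1 hx)
  have hcx : ∀ j, e ⬝ᵥ (A j *ᵥ x) = 0 := by
    intro j
    by_cases hjo : j = o
    · rw [hjo]
      exact hco x
    · have h4 := congrFun hx1 ⟨j, hjo⟩
      rw [dot_mv]
      exact h4
  have h5 : (A o)ᵀ *ᵥ (Ψ x) = 0 := by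
    have h6 := hstar (x + x0)
    have h7 := hstar x0
    have h8 : (∑ j, (e ⬝ᵥ (A j *ᵥ (x + x0))) • (A j *ᵥ (x + x0))) =
        Ψ x + ∑ j, (e ⬝ᵥ (A j *ᵥ x0)) • (A j *ᵥ x0) := by
      rw [hΨ, ← Finset.sum_add_distrib]
      refine Finset.sum_congr rfl fun j _ => ?_
      rw [mulVec_add, dotProduct_add, hcx, zero_add, smul_add]
    rw [h8, mulVec_add, h7, add_zero] at h6
    exact h6
  have h9 : Ψ x = 0 := by
    have h10 := congrArg Subtype.val hx2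
    have h11 : Ψ x - (A o * (A o)ᵀ) *ᵥ (Ψ x) = 0 := h10
    rw [← mulVec_mulVec, h5, mulVec_zero, sub_zero] at h11
    exact h11
  have h12 := comb_dot hiso hsk c0 x
  rw [← hΨ, h9, dotProduct_zero] at h12
  rcases mul_eq_zero.1 h12.symm with h13 | h13
  · have h14 : c0 j ^ 2 ≤ ∑ j, c0 j ^ 2 :=
      Finset.single_le_sum (f := fun j => c0 j ^ 2) (fun _ _ => sq_nonneg _) (Finset.mem_univ j)
    have h15 : 0 < c0 j ^ 2 := by positivity
    linarith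
  · exact hx0' (dot_self_eq_zero h13)

theorem factor_image {A : ι → Matrix (Fin n) (Fin N) ℝ} (hiso : ∀ k, (A k)ᵀ * A k = 1)
    (hsk : ∀ j k, j ≠ k → (A j)ᵀ * A k = -((A k)ᵀ * A j))
    (hT : ∀ x y : Fin N → ℝ, ∃ z, ∀ k, A k *ᵥ z =
      ∑ j, if j = k then 0 else ((A j *ᵥ y) ⬝ᵥ (A k *ᵥ x)) • (A j *ᵥ x))
    (hn : n + 1 ≤ N + Fintype.card ι) (hN : 2 * Fintype.card ι < N + 2) (o j : ι) :
    A o * ((A o)ᵀ * A j) = A j := by
  have h1 : ∀ x, (A o * ((A o)ᵀ * A j)) *ᵥ x = A j *ᵥ x := by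
    intro x
    set e := A j *ᵥ x - (A o * ((A o)ᵀ * A j)) *ᵥ x with he
    have h2 : (A o)ᵀ *ᵥ e = 0 := by
      rw [he, mulVec_sub, mulVec_mulVec, mulVec_mulVec, ← Matrix.mul_assoc, hiso, Matrix.one_mul,
        sub_self]
    have h3 := same_image hiso hsk hT hn hN o h2 j
    have h4 : e ⬝ᵥ e = 0 := by
      nth_rewrite 2 [he]
      rw [dotProduct_sub, dot_mv, h3, zero_dotProduct, ← mulVec_mulVec, dot_mv, h2,
        zero_dotProduct, sub_zero]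
    have h5 := dot_self_eq_zero h4
    exact (sub_eq_zero.1 h5).symm
  exact Matrix.ext_of_mulVec_single fun i => h1 _

end Iso

end Pool.Agent.Helper17.CKF
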