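import Pool.Agent.Helper17.CKF.RO1

/-! # CKF-RO2: anticommuting complex structures closed under triple products -/

set_option autoImplicit false

namespace Pool.Agent.Helper17.CKF

open Matrix Module

section Cliff
variable {ι : Type} [Fintype ι] [DecidableEq ι] {N : ℕ}

/-- Anticommuting complex structures `J k`, `k ≠ o`, closed under triple products. -/
structure Cliff (o : ι) (J : ι → Matrix (Fin N) (Fin N) ℝ) : Prop where
  one : J o = 1
  skew : ∀ k, k ≠ o → (J k)ᵀ = -J k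
  sq : ∀ k, k ≠ o → J k * J k = -1
  anti : ∀ j k, j ≠ o → k ≠ o → j ≠ k → J j * J k = -(J k * J j)
  triple : ∀ k l, k ≠ o → l ≠ o → k ≠ l → ∀ x : Fin N → ℝ, (x ⬝ᵥ x) • ((J k * J l) *ᵥ x) =
    ∑ j, (if j = o ∨ j = k ∨ j = l then 0 else ((J k * J l) *ᵥ x) ⬝ᵥ (J j *ᵥ x)) • (J j *ᵥ x)

theorem cliff_of {n : ℕ} {A : ι → Matrix (Fin n) (Fin N) ℝ} (hiso : ∀ k, (A k)ᵀ * A k = 1)
    (hsk : ∀ j k, j ≠ k → (A j)ᵀ * A k = -((A k)ᵀ * A j))
    (hT : ∀ x y : Fin N → ℝ, ∃ z, ∀ k, A k *ᵥ z =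
      ∑ j, if j = k then 0 else ((A j *ᵥ y) ⬝ᵥ (A k *ᵥ x)) • (A j *ᵥ x))
    (o : ι) (hf : ∀ j, A o * ((A o)ᵀ * A j) = A j) : Cliff o fun j => (A o)ᵀ * A j := by
  set J : ι → Matrix (Fin N) (Fin N) ℝ := fun j => (A o)ᵀ * A j with hJ
  have hAJ : ∀ j, A o * J j = A j := hf
  have hone : J o = 1 := hiso o
  have hskew : ∀ k, k ≠ o → (J k)ᵀ = -J k := by
    intro k hk
    show ((A o)ᵀ * A k)ᵀ = -((A o)ᵀ * A k)
    rw [transpose_mul, transpose_transpose, hsk k o hk]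
  have hgram : ∀ j k, (J j)ᵀ * J k = (A j)ᵀ * A k := by
    intro j k
    show ((A o)ᵀ * A j)ᵀ * ((A o)ᵀ * A k) = _
    rw [transpose_mul, transpose_transpose, Matrix.mul_assoc, hf]
  have hsq : ∀ k, k ≠ o → J k * J k = -1 := by
    intro k hk
    have h1 := hgram k k
    rw [hskew k hk, hiso, Matrix.neg_mul] at h1
    rw [← h1, neg_neg]
  have hanti : ∀ j k, j ≠ o → k ≠ o → j ≠ k → J j * J k = -(J k * J j) := by
    intro j k hj hk hjk
    have h1 := hgram j k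
    have h2 := hgram k j
    rw [hskew j hj, Matrix.neg_mul] at h1
    rw [hskew k hk, Matrix.neg_mul] at h2
    rw [h2, ← neg_neg (J j * J k), h1, hsk j k hjk, neg_neg]
  refine ⟨hone, hskew, hsq, hanti, ?_⟩
  intro k l hk hl hkl x
  have hdot : ∀ (j m : ι) (u v : Fin N → ℝ), (A j *ᵥ u) ⬝ᵥ (A m *ᵥ v) =
      (J j *ᵥ u) ⬝ᵥ (J m *ᵥ v) := by
    intro j m u v
    rw [mv_dot_mv, mv_dot_mv, hgram]
  have hone' : ∀ u, J o *ᵥ u = u := fun u => by rw [hone, one_mulVec]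
  have hneg : ∀ (j : ι), j ≠ o → ∀ (u v : Fin N → ℝ), (J j *ᵥ u) ⬝ᵥ v = -(u ⬝ᵥ (J j *ᵥ v)) := by
    intro j hj u v
    rw [dot_mv (J j) u v, hskew j hj, neg_mulVec, neg_dotProduct, neg_neg]
  have hsq' : ∀ j, j ≠ o → ∀ u, J j *ᵥ (J j *ᵥ u) = -u := by
    intro j hj u
    rw [mulVec_mulVec, hsq j hj, neg_mulVec, one_mulVec]
  have horth : ∀ j m, j ≠ m → (J j *ᵥ x) ⬝ᵥ (J m *ᵥ x) = 0 := by
    intro j m hjm
    rw [← hdot]
    exact iso_dot_ne hsk hjm x
  have hTJ : ∃ z, ∀ m, J m *ᵥ z =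
      ∑ j, if j = m then 0 else ((J j *ᵥ (J l *ᵥ x)) ⬝ᵥ (J m *ᵥ x)) • (J j *ᵥ x) := by
    obtain ⟨z, hz⟩ := hT x (J l *ᵥ x)
    refine ⟨z, fun m => ?_⟩
    have h1 : J m *ᵥ z = (A o)ᵀ *ᵥ (A m *ᵥ z) := by
      rw [mulVec_mulVec]
    rw [h1, hz m, Matrix.mulVec_sum]
    refine Finset.sum_congr rfl fun j _ => ?_
    split_ifs with hj
    · rw [mulVec_zero]
    · have h2 : (A o)ᵀ *ᵥ (A j *ᵥ x) = J j *ᵥ x := by rw [mulVec_mulVec]
      rw [mulVec_smul, hdot, h2]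
  clear_value J
  obtain ⟨z, hz⟩ := hTJ
  have hz1 : z = -((x ⬝ᵥ x) • (J l *ᵥ x)) := by
    have h1 := hz o
    rw [hone'] at h1
    rw [h1, Finset.sum_eq_single l]
    · rw [if_neg hl, hsq' l hl, hone', neg_dotProduct, neg_smul]
    · intro j _ hj
      split_ifs with hjo
      · rfl
      · rw [hone', hneg j hjo, horth l j (Ne.symm hj), neg_zero, zero_smul]
    · intro h
      exact absurd (Finset.mem_univ l) h
  have h2 : (x ⬝ᵥ x) • ((J k * J l) *ᵥ x) = -(J k *ᵥ z) := by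
    rw [hz1, mulVec_neg, neg_neg, mulVec_smul, mulVec_mulVec]
  rw [h2, hz k, ← Finset.sum_neg_distrib]
  refine Finset.sum_congr rfl fun j _ => ?_
  by_cases hjk : j = k
  · rw [if_pos hjk, if_pos (Or.inr (Or.inl hjk)), zero_smul, neg_zero]
  rw [if_neg hjk]
  by_cases hjo : j = o
  · rw [if_pos (Or.inl hjo), hjo, hone', horth l k (Ne.symm hkl), zero_smul, neg_zero]
  by_cases hjl : j = l
  · rw [if_pos (Or.inr (Or.inr hjl)), hjl, hsq' l hl, neg_dotProduct]
    have h3 : x ⬝ᵥ (J k *ᵥ x) = 0 := by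
      have h4 := horth o k (Ne.symm hk)
      rwa [hone'] at h4
    rw [h3, neg_zero, zero_smul, neg_zero]
  · rw [if_neg (by tauto), ← neg_smul]
    congr 1
    rw [hneg j hjo, neg_neg, mulVec_mulVec, hanti j k hjo hk hjk, neg_mulVec, dotProduct_neg,
      ← mulVec_mulVec, ← hneg k hk, mulVec_mulVec]

variable {o : ι} {J : ι → Matrix (Fin N) (Fin N) ℝ}

theorem Cliff.not_three (h : Cliff o J) {k l : ι} (hk : k ≠ o) (hl : l ≠ o) (hkl : k ≠ l)
    (hall : ∀ j, j = o ∨ j = k ∨ j = l) (hN : 0 < N) : False := by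
  obtain ⟨x, hx, -⟩ := exists_orth (κ := Empty) (N := N) (by simpa using hN) (fun i => i.elim)
  have h1 := h.triple k l hk hl hkl x
  rw [Finset.sum_eq_zero fun j _ => by rw [if_pos (hall j), zero_smul]] at h1
  have h2 : (J k * J l) *ᵥ x = 0 := by
    rcases smul_eq_zero.1 h1 with h3 | h3
    · exact absurd h3 (dot_self_pos hx).ne'
    · exact h3
  have h4 : (J l * J k * (J k * J l)) *ᵥ x = 0 := by
    rw [← mulVec_mulVec, h2, mulVec_zero]
  have h5 : J l * J k * (J k * J l) = 1 := by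
    calc J l * J k * (J k * J l) = J l * (J k * J k) * J l := by simp only [Matrix.mul_assoc]
      _ = 1 := by
        rw [h.sq k hk, Matrix.mul_neg, Matrix.mul_one, Matrix.neg_mul, h.sq l hl, neg_neg]
  rw [h5, one_mulVec] at h4
  exact hx h4

/-- linear combinations -/
noncomputable def comb (J : ι → Matrix (Fin N) (Fin N) ℝ) (c : ι → ℝ) :
    Matrix (Fin N) (Fin N) ℝ := ∑ j, c j • J j

theorem comb_mulVec (c : ι → ℝ) (x : Fin N → ℝ) : comb J c *ᵥ x = ∑ j, c j • (J j *ᵥ x) := by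
  rw [comb, Matrix.sum_mulVec]
  refine Finset.sum_congr rfl fun j _ => ?_
  rw [smul_mulVec]

theorem Cliff.comb_transpose (h : Cliff o J) {c : ι → ℝ} (hc : c o = 0) :
    (comb J c)ᵀ = -comb J c := by
  rw [comb, Matrix.transpose_sum, ← Finset.sum_neg_distrib]
  refine Finset.sum_congr rfl fun j _ => ?_
  by_cases hj : j = o
  · rw [hj, hc, zero_smul, transpose_zero, neg_zero]
  · rw [transpose_smul, h.skew j hj, smul_neg]

theorem Cliff.comb_anti (h : Cliff o J) {c c' : ι → ℝ} (hc : c o = 0) (hc' : c' o = 0) :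
    comb J c * comb J c' + comb J c' * comb J c = (-2 * ∑ j, c j * c' j) • 1 := by
  have h1 : comb J c * comb J c' + comb J c' * comb J c =
      ∑ j, ∑ k, (c j * c' k) • (J j * J k + J k * J j) := by
    rw [comb, comb, Finset.sum_mul_sum, Finset.sum_mul_sum, Finset.sum_comm (s := Finset.univ)
      (f := fun i j => c' i • J i * c j • J j), ← Finset.sum_add_distrib]
    refine Finset.sum_congr rfl fun j _ => ?_
    rw [← Finset.sum_add_distrib]
    refine Finset.sum_congr rfl fun k _ => ?_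
    rw [smul_mul_smul_comm, smul_mul_smul_comm, smul_add, mul_comm (c' k)]
  rw [h1, Finset.mul_sum, Finset.sum_smul]
  refine Finset.sum_congr rfl fun j _ => ?_
  by_cases hj : j = o
  · rw [hj, hc]
    simp
  rw [Finset.sum_eq_single j]
  · rw [h.sq j hj]
    have h2 : (-1 + -1 : Matrix (Fin N) (Fin N) ℝ) = (-2 : ℝ) • 1 := by
      rw [← neg_add, ← two_smul ℝ (1 : Matrix (Fin N) (Fin N) ℝ), neg_smul]
    rw [h2, smul_smul]
    congr 1
    ring
  · intro k _ hk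
    by_cases hko : k = o
    · rw [hko, hc', mul_zero, zero_smul]
    · rw [h.anti j k hj hko (Ne.symm hk), neg_add_cancel, smul_zero]
  · intro h
    exact absurd (Finset.mem_univ j) h

theorem Cliff.comb_sq (h : Cliff o J) {c : ι → ℝ} (hc : c o = 0) :
    comb J c * comb J c = -(∑ j, c j ^ 2) • (1 : Matrix (Fin N) (Fin N) ℝ) := by
  have h1 := h.comb_anti hc hc
  have h2 : (2 : ℝ) • (comb J c * comb J c) =
      (2 : ℝ) • (-(∑ j, c j ^ 2) • (1 : Matrix (Fin N) (Fin N) ℝ)) := by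
    have h3 : -2 * ∑ j, c j * c j = 2 * -(∑ j, c j ^ 2) := by
      simp only [pow_two]
      ring
    rw [two_smul, h1, smul_smul, h3]
  exact smul_right_injective _ (two_ne_zero' ℝ) h2

theorem Cliff.comb_dot (h : Cliff o J) {c : ι → ℝ} (hc : c o = 0) (x : Fin N → ℝ) :
    (comb J c *ᵥ x) ⬝ᵥ (comb J c *ᵥ x) = (∑ j, c j ^ 2) * (x ⬝ᵥ x) := by
  rw [mv_dot_mv, h.comb_transpose hc, Matrix.neg_mul, h.comb_sq hc, neg_smul, neg_neg,
    smul_mulVec, one_mulVec, dotProduct_smul, smul_eq_mul]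

/-- `J k * J l` is orthogonal -/
theorem Cliff.mul_dot (h : Cliff o J) {k l : ι} (hk : k ≠ o) (hl : l ≠ o) (x y : Fin N → ℝ) :
    ((J k * J l) *ᵥ x) ⬝ᵥ ((J k * J l) *ᵥ y) = x ⬝ᵥ y := by
  rw [mv_dot_mv, transpose_mul, h.skew k hk, h.skew l hl]
  have h5 : -J l * -J k * (J k * J l) = 1 := by
    calc -J l * -J k * (J k * J l) = J l * (J k * J k) * J l := by
          rw [Matrix.neg_mul, Matrix.mul_neg, neg_neg]
          simp only [Matrix.mul_assoc]
      _ = 1 := by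
        rw [h.sq k hk, Matrix.mul_neg, Matrix.mul_one, Matrix.neg_mul, h.sq l hl, neg_neg]
  rw [h5, one_mulVec]

theorem Cliff.mul_skew (h : Cliff o J) {k l : ι} (hk : k ≠ o) (hl : l ≠ o) (hkl : k ≠ l) :
    (J k * J l)ᵀ = -(J k * J l) := by
  rw [transpose_mul, h.skew k hk, h.skew l hl, Matrix.neg_mul, Matrix.mul_neg, neg_neg,
    h.anti k l hk hl hkl, neg_neg]

theorem Cliff.mul_comm (h : Cliff o J) {j k l : ι} (hj : j ≠ o) (hk : k ≠ o) (hl : l ≠ o)
    (hjk : j ≠ k) (hjl : j ≠ l) : J k * J l * J j = J j * (J k * J l) := by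
  rw [Matrix.mul_assoc, h.anti l j hl hj (Ne.symm hjl), Matrix.mul_neg, ← Matrix.mul_assoc,
    h.anti k j hk hj (Ne.symm hjk), Matrix.neg_mul, neg_neg, Matrix.mul_assoc]

theorem Cliff.mul_comm_comb (h : Cliff o J) {k l : ι} (hk : k ≠ o) (hl : l ≠ o) {c : ι → ℝ}
    (hc : ∀ j, j = o ∨ j = k ∨ j = l → c j = 0) :
    J k * J l * comb J c = comb J c * (J k * J l) := by
  rw [comb, Finset.mul_sum, Finset.sum_mul]
  refine Finset.sum_congr rfl fun j _ => ?_
  by_cases hj : j = o ∨ j = k ∨ j = l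
  · rw [hc j hj]
    simp
  · push Not at hj
    rw [mul_smul_comm, smul_mul_assoc, h.mul_comm hj.1 hk hl hj.2.1 hj.2.2]

/-- the coefficients of `J k * J l` at `x` -/
noncomputable def qc (J : ι → Matrix (Fin N) (Fin N) ℝ) (o k l : ι) (x : Fin N → ℝ) (j : ι) : ℝ :=
  if j = o ∨ j = k ∨ j = l then 0 else ((J k * J l) *ᵥ x) ⬝ᵥ (J j *ᵥ x)

theorem qc_zero {k l : ι} (x : Fin N → ℝ) {j : ι} (hj : j = o ∨ j = k ∨ j = l) :
    qc J o k l x j = 0 := if_pos hj

theorem Cliff.triple' (h : Cliff o J) {k l : ι} (hk : k ≠ o) (hl : l ≠ o) (hkl : k ≠ l)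
    (x : Fin N → ℝ) : (x ⬝ᵥ x) • ((J k * J l) *ᵥ x) = comb J (qc J o k l x) *ᵥ x := by
  rw [h.triple k l hk hl hkl, comb_mulVec]
  rfl

theorem Cliff.sum_qc (h : Cliff o J) {k l : ι} (hk : k ≠ o) (hl : l ≠ o) (hkl : k ≠ l)
    (x : Fin N → ℝ) : ∑ j, qc J o k l x j ^ 2 = (x ⬝ᵥ x) ^ 2 := by
  have h1 := congrArg (fun v => ((J k * J l) *ᵥ x) ⬝ᵥ v) (h.triple' hk hl hkl x)
  rw [dotProduct_smul, h.mul_dot hk hl, comb_mulVec, dotProduct_sum, smul_eq_mul] at h1
  rw [pow_two (x ⬝ᵥ x), h1]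
  refine Finset.sum_congr rfl fun j _ => ?_
  rw [dotProduct_smul, smul_eq_mul, pow_two]
  by_cases hj : j = o ∨ j = k ∨ j = l
  · rw [qc_zero x hj, zero_mul, zero_mul]
  · congr 1
    exact if_neg hj

/-- The coefficients are constant on a large subspace. -/
theorem Cliff.large (h : Cliff o J) {k l : ι} (hk : k ≠ o) (hl : l ≠ o) (hkl : k ≠ l)
    {x0 : Fin N → ℝ} (hx0 : x0 ⬝ᵥ x0 = 1) {y : Fin N → ℝ}
    (hy : ∀ j, ¬(j = o ∨ j = k ∨ j = l) →
      (J j *ᵥ (comb J (qc J o k l x0) *ᵥ x0)) ⬝ᵥ y = 0) :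
    (J k * J l) *ᵥ y = comb J (qc J o k l x0) *ᵥ y := by
  set c := qc J o k l x0 with hc
  set X := J k * J l with hX
  have hco : c o = 0 := qc_zero x0 (Or.inl rfl)
  have h1 : X *ᵥ x0 = comb J c *ᵥ x0 := by
    have := h.triple' hk hl hkl x0
    rwa [hx0, one_smul] at this
  have h2 : ∑ j, c j ^ 2 = 1 := by
    rw [hc, h.sum_qc hk hl hkl, hx0, one_pow]
  have h3 : x0 ⬝ᵥ y = 0 := by
    have h4 : comb J c *ᵥ (comb J c *ᵥ x0) = -x0 := by
      rw [mulVec_mulVec, h.comb_sq hco, h2, neg_smul, one_smul, neg_mulVec, one_mulVec]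
    have h5 : (comb J c *ᵥ (comb J c *ᵥ x0)) ⬝ᵥ y = 0 := by
      rw [comb_mulVec c (comb J c *ᵥ x0), sum_dotProduct]
      refine Finset.sum_eq_zero fun j _ => ?_
      rw [smul_dotProduct]
      by_cases hj : j = o ∨ j = k ∨ j = l
      · rw [hc, qc_zero x0 hj, zero_smul]
      · rw [hy j hj, smul_zero]
    rw [h4, neg_dotProduct] at h5
    linarith
  have h6 : ∀ j, qc J o k l (x0 + y) j = c j + qc J o k l y j := by
    intro j
    by_cases hj : j = o ∨ j = k ∨ j = l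
    · rw [qc_zero _ hj, hc, qc_zero _ hj, qc_zero _ hj, add_zero]
    · have h7 : ((X *ᵥ x0) ⬝ᵥ (J j *ᵥ y)) = 0 := by
        push Not at hj
        rw [h1, dot_mv, h.skew j hj.1, neg_mulVec, neg_dotProduct, hy j (by tauto), neg_zero]
      have h8 : ((X *ᵥ y) ⬝ᵥ (J j *ᵥ x0)) = 0 := by
        have hj' := hj
        push Not at hj'
        rw [dotProduct_comm, dot_mv, hX, h.mul_skew hk hl hkl, neg_mulVec, neg_dotProduct,
          mulVec_mulVec, h.mul_comm hj'.1 hk hl hj'.2.1 hj'.2.2, ← mulVec_mulVec, ← hX, h1,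
          hy j hj, neg_zero]
      rw [hc]
      unfold qc
      rw [if_neg hj, if_neg hj, if_neg hj, mulVec_add, mulVec_add, add_dotProduct,
        dotProduct_add, dotProduct_add, ← hX, h7, h8]
      ring
  have h9 : ∑ j, c j * qc J o k l y j = y ⬝ᵥ y := by
    have h10 := h.sum_qc hk hl hkl (x0 + y)
    have h11 : (x0 + y) ⬝ᵥ (x0 + y) = 1 + y ⬝ᵥ y := by
      rw [add_dotProduct, dotProduct_add, dotProduct_add, hx0, h3, dotProduct_comm y x0, h3]
      ring
    have h12 : ∑ j, qc J o k l (x0 + y) j ^ 2 =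
        ∑ j, c j ^ 2 + 2 * ∑ j, c j * qc J o k l y j + ∑ j, qc J o k l y j ^ 2 := by
      rw [Finset.mul_sum, ← Finset.sum_add_distrib, ← Finset.sum_add_distrib]
      refine Finset.sum_congr rfl fun j _ => ?_
      rw [h6]
      ring
    rw [h12, h11, h2, h.sum_qc hk hl hkl] at h10
    linarith
  have h13 : (X *ᵥ y) ⬝ᵥ (comb J c *ᵥ y) = y ⬝ᵥ y := by
    rw [← h9, comb_mulVec, dotProduct_sum]
    refine Finset.sum_congr rfl fun j _ => ?_
    rw [dotProduct_smul, smul_eq_mul]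
    by_cases hj : j = o ∨ j = k ∨ j = l
    · rw [hc, qc_zero _ hj, zero_mul, zero_mul]
    · congr 1
      exact (if_neg hj).symm
  have h14 : (X *ᵥ y - comb J c *ᵥ y) ⬝ᵥ (X *ᵥ y - comb J c *ᵥ y) = 0 := by
    rw [sub_dotProduct, dotProduct_sub, dotProduct_sub, h13,
      dotProduct_comm (comb J c *ᵥ y) (X *ᵥ y), h13, h.comb_dot hco, h2, hX, h.mul_dot hk hl]
    ring
  exact sub_eq_zero.1 (dot_self_eq_zero h14)

theorem exists_unit (hN : 0 < N) : ∃ x : Fin N → ℝ, x ⬝ᵥ x = 1 :=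
  ⟨Pi.single ⟨0, hN⟩ 1, by rw [single_dotProduct, Pi.single_eq_same, mul_one]⟩

/-- four isometries -/
theorem Cliff.four (h : Cliff o J) {k l m : ι} (hk : k ≠ o) (hl : l ≠ o) (hkl : k ≠ l)
    (hm : ¬(m = o ∨ m = k ∨ m = l)) (hall : ∀ j, j = o ∨ j = k ∨ j = l ∨ j = m) (hN : 0 < N) :
    ∃ c : ℝ, c ^ 2 = 1 ∧ J k * J l = c • J m := by
  obtain ⟨x0, hx0⟩ := exists_unit hN
  set c := qc J o k l x0 with hc
  have hcomb : comb J c = c m • J m := by
    rw [comb, Finset.sum_eq_single m]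
    · intro j _ hj
      rw [hc, qc_zero, zero_smul]
      have := hall j
      tauto
    · intro h
      exact absurd (Finset.mem_univ m) h
  have hm' := hm
  push Not at hm'
  refine ⟨c m, ?_, ?_⟩
  · have h1 := h.sum_qc hk hl hkl x0
    rw [← hc, hx0, one_pow, Finset.sum_eq_single m] at h1
    · exact h1
    · intro j _ hj
      rw [hc, qc_zero, zero_pow two_ne_zero]
      have := hall j
      tauto
    · intro h
      exact absurd (Finset.mem_univ m) h
  · rw [← hcomb]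
    have h1 : (J k * J l) *ᵥ x0 = comb J c *ᵥ x0 := by
      have := h.triple' hk hl hkl x0
      rwa [hx0, one_smul] at this
    have h2 : ∀ x, (J k * J l) *ᵥ x = comb J c *ᵥ x := by
      intro x
      have h3 : (J k * J l) *ᵥ (x - (x0 ⬝ᵥ x) • x0) = comb J c *ᵥ (x - (x0 ⬝ᵥ x) • x0) := by
        refine h.large hk hl hkl hx0 fun j hj => ?_
        have hjm : j = m := by
          have := hall j
          tauto
        rw [← hc, hjm, hcomb, smul_mulVec, mulVec_smul, mulVec_mulVec, h.sq m hm'.1, neg_mulVec,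
          one_mulVec, smul_dotProduct, neg_dotProduct, dotProduct_sub, dotProduct_smul, hx0]
        simp only [smul_eq_mul, mul_one, sub_self, neg_zero, mul_zero]
      rw [mulVec_sub, mulVec_sub, mulVec_smul, mulVec_smul, h1] at h3
      exact sub_left_injective h3
    exact Matrix.ext_of_mulVec_single fun i => h2 _

theorem exists_orth' {κ ν : Type} [Fintype κ] [Fintype ν] (h : Fintype.card κ < Fintype.card ν)
    (v : κ → ν → ℝ) : ∃ y : ν → ℝ, y ≠ 0 ∧ ∀ i, v i ⬝ᵥ y = 0 := by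
  have h1 : LinearMap.ker (Matrix.mulVecLin (Matrix.of v)) ≠ ⊥ := by
    apply LinearMap.ker_ne_bot_of_finrank_lt
    rw [Module.finrank_fintype_fun_eq_card, Module.finrank_fintype_fun_eq_card]
    exact h
  obtain ⟨y, hy, hy0⟩ := Submodule.exists_mem_ne_zero_of_ne_bot h1
  refine ⟨y, hy0, fun i => ?_⟩
  exact congrFun (LinearMap.mem_ker.1 hy) i

/-- five or more isometries are impossible in large dimension -/
theorem Cliff.not_five (h : Cliff o J) {k l : ι} (hk : k ≠ o) (hl : l ≠ o) (hkl : k ≠ l)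
    (hcard : 5 ≤ Fintype.card ι) (hN : 2 * (Fintype.card ι - 3) < N) : False := by
  obtain ⟨x0, hx0⟩ := exists_unit (N := N) (by omega)
  set c := qc J o k l x0 with hc
  have hco : c o = 0 := qc_zero x0 (Or.inl rfl)
  let κ := {j : ι // j ∉ ({o, k, l} : Finset ι)}
  have hκ : Fintype.card κ = Fintype.card ι - 3 := by
    rw [Fintype.card_subtype_compl, Fintype.card_coe]
    congr 1
    exact Finset.card_eq_three.2 ⟨o, k, l, Ne.symm hk, Ne.symm hl, hkl, rfl⟩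
  have hmem : ∀ j : ι, ¬(j = o ∨ j = k ∨ j = l) → j ∉ ({o, k, l} : Finset ι) := by
    intro j
    simp
  -- a combination orthogonal to c
  obtain ⟨c', hc'0, hc'⟩ := exists_orth' (κ := Fin 4) (ν := ι) (by
    rw [Fintype.card_fin]
    omega) ![Pi.single o 1, Pi.single k 1, Pi.single l 1, c]
  have h0 := hc' 0
  have h1 := hc' 1
  have h2 := hc' 2
  have h3 : c ⬝ᵥ c' = 0 := hc' 3
  have hco' : c' o = 0 := by
    simpa using h0
  have hck' : c' k = 0 := by
    simpa using h1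
  have hcl' : c' l = 0 := by
    simpa using h2
  have hcz' : ∀ j, j = o ∨ j = k ∨ j = l → c' j = 0 := by
    rintro j (rfl | rfl | rfl)
    · exact hco'
    · exact hck'
    · exact hcl'
  have hanti : comb J c * comb J c' = -(comb J c' * comb J c) := by
    have h4 := h.comb_anti hco hco'
    have h5 : ∑ j, c j * c' j = 0 := h3
    rw [h5, mul_zero, zero_smul] at h4
    exact eq_neg_of_add_eq_zero_left h4
  have hcomm := h.mul_comm_comb hk hl hcz'
  -- the vector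
  let w : κ → Fin N → ℝ := fun j => J j *ᵥ (comb J c *ᵥ x0)
  obtain ⟨y, hy0, hy⟩ := exists_orth (κ := κ ⊕ κ) (N := N) (by
    rw [Fintype.card_sum, hκ]
    omega) (Sum.elim w fun j => (comb J c')ᵀ *ᵥ w j)
  have hy1 : (J k * J l) *ᵥ y = comb J c *ᵥ y :=
    h.large hk hl hkl hx0 fun j hj => hy (Sum.inl ⟨j, hmem j hj⟩)
  have hy2 : (J k * J l) *ᵥ (comb J c' *ᵥ y) = comb J c *ᵥ (comb J c' *ᵥ y) := by
    refine h.large hk hl hkl hx0 fun j hj => ?_
    rw [dot_mv]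
    exact hy (Sum.inr ⟨j, hmem j hj⟩)
  have h6 : comb J c *ᵥ (comb J c' *ᵥ y) = 0 := by
    have h7 : (J k * J l) *ᵥ (comb J c' *ᵥ y) = -(comb J c *ᵥ (comb J c' *ᵥ y)) := by
      calc (J k * J l) *ᵥ (comb J c' *ᵥ y) = comb J c' *ᵥ ((J k * J l) *ᵥ y) := by
            rw [mulVec_mulVec, hcomm, mulVec_mulVec]
        _ = -(comb J c *ᵥ (comb J c' *ᵥ y)) := by
            rw [hy1, mulVec_mulVec, mulVec_mulVec, hanti, neg_mulVec, neg_neg]
    rw [hy2] at h7
    funext i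
    have h8 := congrFun h7 i
    rw [Pi.neg_apply] at h8
    rw [Pi.zero_apply]
    linarith
  have h9 := h.comb_dot hco (comb J c' *ᵥ y)
  rw [h6, dotProduct_zero, h.comb_dot hco', hc, h.sum_qc hk hl hkl, hx0] at h9
  have h10 : 0 < ∑ j, c' j ^ 2 := by
    obtain ⟨j, hj⟩ : ∃ j, c' j ≠ 0 := by
      by_contra hcon
      push Not at hcon
      exact hc'0 (funext hcon)
    have h14 : c' j ^ 2 ≤ ∑ j, c' j ^ 2 :=
      Finset.single_le_sum (f := fun j => c' j ^ 2) (fun _ _ => sq_nonneg _) (Finset.mem_univ j)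
    have h15 : 0 < c' j ^ 2 := by positivity
    linarith
  have h11 := dot_self_pos hy0
  have h12 : 0 < (∑ j, c' j ^ 2) * (y ⬝ᵥ y) := mul_pos h10 h11
  linarith

end Cliff

end Pool.Agent.Helper17.CKF
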