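import Pool.Agent.Helper17.CKF.RO2

/-! # CKF-RO3: coordinates of a space of matrices with constant Gram matrix -/

set_option autoImplicit false

namespace Pool.Agent.Helper17.CKF

open Matrix Module

variable {r n : ℕ}

theorem exists_param_aux {ι : Type} [Fintype ι] (Q : Submodule ℝ (EuclideanSpace ℝ ι)) {N : ℕ}
    (hN : finrank ℝ Q = N) :
    ∃ ψ : (Fin N → ℝ) →ₗ[ℝ] EuclideanSpace ℝ ι, LinearMap.range ψ = Q ∧
      ∀ y, ‖ψ y‖ ^ 2 = y ⬝ᵥ y := by
  let b : OrthonormalBasis (Fin N) ℝ Q := (stdOrthonormalBasis ℝ Q).reindex (finCongr hN)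
  let f : (Fin N → ℝ) ≃ₗ[ℝ] Q :=
    (WithLp.linearEquiv 2 ℝ (Fin N → ℝ)).symm.trans b.repr.symm.toLinearEquiv
  refine ⟨Q.subtype ∘ₗ (f : (Fin N → ℝ) →ₗ[ℝ] Q), ?_, ?_⟩
  · rw [LinearMap.range_comp, LinearEquiv.range, Submodule.map_top, Submodule.range_subtype]
  · intro y
    have h1 : ‖f y‖ = ‖(WithLp.linearEquiv 2 ℝ (Fin N → ℝ)).symm y‖ :=
      b.repr.symm.norm_map _
    show ‖f y‖ ^ 2 = y ⬝ᵥ y
    rw [h1, EuclideanSpace.norm_sq_eq]
    refine Finset.sum_congr rfl fun i _ => ?_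
    rw [Real.norm_eq_abs, sq_abs, pow_two]
    rfl

/-- orthonormal coordinates on a space of matrices -/
theorem exists_param (P : Submodule ℝ (Matrix (Fin r) (Fin n) ℝ)) {N : ℕ}
    (hN : finrank ℝ P = N) :
    ∃ φ : (Fin N → ℝ) →ₗ[ℝ] Matrix (Fin r) (Fin n) ℝ, (∀ M, M ∈ P ↔ ∃ y, φ y = M) ∧
      ∀ y, (φ y * (φ y)ᵀ).trace = y ⬝ᵥ y := by
  let e : Matrix (Fin r) (Fin n) ℝ ≃ₗ[ℝ] EuclideanSpace ℝ (Fin r × Fin n) :=
    (LinearEquiv.curry ℝ ℝ (Fin r) (Fin n)).symm.trans (WithLp.linearEquiv 2 ℝ _).symm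
  have he : ∀ (M : Matrix (Fin r) (Fin n) ℝ) (i : Fin r) (j : Fin n), e M (i, j) = M i j :=
    fun M i j => rfl
  clear_value e
  obtain ⟨ψ, h1, h2⟩ := exists_param_aux (P.map e.toLinearMap)
    ((e.finrank_map_eq P).trans hN)
  refine ⟨e.symm.toLinearMap ∘ₗ ψ, ?_, ?_⟩
  · intro M
    have h3 : LinearMap.range (e.symm.toLinearMap ∘ₗ ψ) = P := by
      rw [LinearMap.range_comp, h1, ← Submodule.map_comp]
      have h3 : e.symm.toLinearMap ∘ₗ e.toLinearMap = LinearMap.id := by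
        ext x
        simp
      rw [h3, Submodule.map_id]
    nth_rewrite 1 [← h3]
    rfl
  · intro y
    have h4 : ψ y = e (e.symm (ψ y)) := (e.apply_symm_apply _).symm
    rw [← h2, h4]
    set M : Matrix (Fin r) (Fin n) ℝ := e.symm (ψ y)
    show (M * Mᵀ).trace = ‖e M‖ ^ 2
    rw [EuclideanSpace.norm_sq_eq, Fintype.sum_prod_type, Matrix.trace]
    refine Finset.sum_congr rfl fun i _ => ?_
    rw [Matrix.diag_apply, Matrix.mul_apply]
    refine Finset.sum_congr rfl fun j _ => ?_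
    rw [he, Real.norm_eq_abs, sq_abs, Matrix.transpose_apply, pow_two]

/-- the spectral theorem, nonzero eigenvalues only -/
theorem exists_spectral {D : Matrix (Fin r) (Fin r) ℝ} (hD : D.PosSemidef) :
    ∃ (s : ℕ) (U : Matrix (Fin r) (Fin s) ℝ) (d : Fin s → ℝ), s = D.rank ∧ Uᵀ * U = 1 ∧
      (∀ k, 0 < d k) ∧ D = U * diagonal d * Uᵀ := by
  have hH := hD.isHermitian
  obtain ⟨V, hV⟩ : ∃ V : Matrix (Fin r) (Fin r) ℝ,
    V = (hH.eigenvectorUnitary : Matrix (Fin r) (Fin r) ℝ) := ⟨_, rfl⟩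
  have hVV : Vᵀ * V = 1 := by
    have h1 := Unitary.star_mul_self_of_mem hH.eigenvectorUnitary.2
    rw [star_eq_conjTranspose, conjTranspose_eq_transpose_of_trivial, ← hV] at h1
    exact h1
  have hDV : D = V * diagonal hH.eigenvalues * Vᵀ := by
    have h1 := hH.spectral_theorem
    rw [Unitary.conjStarAlgAut_apply, ← hV] at h1
    exact h1
  let q : Fin (D.rank) ≃ {i // hH.eigenvalues i ≠ 0} :=
    (Fintype.equivFinOfCardEq hH.rank_eq_card_non_zero_eigs.symm).symm
  refine ⟨D.rank, V.submatrix id fun k => (q k : Fin r), fun k => hH.eigenvalues (q k), rfl,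
    ?_, ?_, ?_⟩
  · ext k l
    have h1 := congrFun (congrFun hVV (q k)) (q l)
    rw [Matrix.mul_apply] at h1 ⊢
    simp only [Matrix.transpose_apply, Matrix.submatrix_apply, id] at h1 ⊢
    rw [h1, Matrix.one_apply, Matrix.one_apply]
    by_cases hkl : k = l
    · rw [if_pos hkl, if_pos (by rw [hkl])]
    · rw [if_neg hkl, if_neg fun h => hkl (q.injective (Subtype.ext h))]
  · intro k
    exact lt_of_le_of_ne (hD.eigenvalues_nonneg _) (Ne.symm (q k).2)
  · have h2 : ∀ i j, (V * diagonal hH.eigenvalues * Vᵀ) i j =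
        ((V.submatrix id fun k => (q k : Fin r)) * diagonal (fun k => hH.eigenvalues (q k)) *
          (V.submatrix id fun k => (q k : Fin r))ᵀ) i j := by
      intro i j
      rw [Matrix.mul_apply, Matrix.mul_apply]
      simp only [Matrix.mul_diagonal, Matrix.transpose_apply, Matrix.submatrix_apply, id]
      rw [Equiv.sum_comp q (fun x : {i // hH.eigenvalues i ≠ 0} =>
        V i x * hH.eigenvalues x * V j x)]
      rw [← Finset.sum_subtype (Finset.univ.filter fun k => hH.eigenvalues k ≠ 0)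
        (fun x => by simp) (fun x => V i x * hH.eigenvalues x * V j x)]
      symm
      apply Finset.sum_subset (Finset.subset_univ _)
      intro x _ hx
      have h3 : hH.eigenvalues x = 0 := by
        by_contra h
        exact hx (by simp [h])
      rw [h3, mul_zero, zero_mul]
    nth_rewrite 1 [hDV]
    ext i j
    exact h2 i j

end Pool.Agent.Helper17.CKF
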