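import Pool.Agent.Helper17.CKF.RO3

/-! # CKF-RO4: rows of a space of matrices with constant Gram matrix -/

set_option autoImplicit false

namespace Pool.Agent.Helper17.CKF

open Matrix Module

variable {r n : ℕ}

theorem mat_ext_dot {a b : ℕ} {M M' : Matrix (Fin a) (Fin b) ℝ}
    (h : ∀ x y, x ⬝ᵥ (M *ᵥ y) = x ⬝ᵥ (M' *ᵥ y)) : M = M' :=
  Matrix.ext_of_mulVec_single fun i => eq_of_dot fun x => h x _

/-- the Gram matrix is positive semidefinite -/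
theorem gram_psd' {P : Submodule ℝ (Matrix (Fin r) (Fin n) ℝ)} {D : Matrix (Fin r) (Fin r) ℝ}
    (hD : ∀ B ∈ P, B * Bᵀ = (B * Bᵀ).trace • D) (h0 : P ≠ ⊥) : D.PosSemidef := by
  obtain ⟨B, hB, hB0⟩ := Submodule.exists_mem_ne_zero_of_ne_bot h0
  have h1 : 0 < (B * Bᵀ).trace := by
    have h2 : (B * Bᵀ).PosSemidef := by
      have h1 := Matrix.posSemidef_self_mul_conjTranspose B
      rwa [conjTranspose_eq_transpose_of_trivial] at h1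
    refine lt_of_le_of_ne h2.trace_nonneg fun h3 => hB0 ?_
    have h1 := Matrix.trace_mul_conjTranspose_self_eq_zero_iff (A := B)
    rw [conjTranspose_eq_transpose_of_trivial] at h1
    exact h1.1 h3.symm
  have h2 : D = ((B * Bᵀ).trace)⁻¹ • (B * Bᵀ) := by
    rw [eq_inv_smul_iff₀ h1.ne']
    exact (hD B hB).symm
  rw [h2]
  have h3 := Matrix.posSemidef_self_mul_conjTranspose B
  rw [conjTranspose_eq_transpose_of_trivial] at h3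
  exact h3.smul (inv_nonneg.2 h1.le)

theorem row_mul {a b c : ℕ} (M : Matrix (Fin a) (Fin b) ℝ) (M' : Matrix (Fin b) (Fin c) ℝ)
    (k : Fin a) : (M * M') k = ∑ j, M k j • M' j := by
  funext i
  rw [Matrix.mul_apply, Finset.sum_apply]
  rfl

/-- the rows, in coordinates -/
theorem exists_rows {P : Submodule ℝ (Matrix (Fin r) (Fin n) ℝ)} {D : Matrix (Fin r) (Fin r) ℝ}
    (hD : ∀ B ∈ P, B * Bᵀ = (B * Bᵀ).trace • D)
    (htr : ∀ B ∈ P, ∀ C ∈ P, (2 : ℝ) • (B * Cᵀ * B) - C * Bᵀ * B - B * Bᵀ * C ∈ P)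
    (h0 : P ≠ ⊥) {N : ℕ} (hN : finrank ℝ P = N) :
    ∃ (s : ℕ) (U : Matrix (Fin r) (Fin s) ℝ) (d : Fin s → ℝ)
      (B : Fin s → Matrix (Fin n) (Fin N) ℝ), s = D.rank ∧ Uᵀ * U = 1 ∧
      (∀ k, 0 < d k) ∧ (∀ k, (B k)ᵀ * B k = d k • (1 : Matrix _ _ ℝ)) ∧
      (∀ j k, j ≠ k → (B j)ᵀ * B k = -((B k)ᵀ * B j)) ∧
      (∀ M, M ∈ P ↔ ∃ y, M = U * Matrix.of fun k => B k *ᵥ y) ∧
      ∀ x y, ∃ z, ∀ k, B k *ᵥ z =
        ∑ j, (if j = k then 0 else 3 * ((B j *ᵥ y) ⬝ᵥ (B k *ᵥ x))) • (B j *ᵥ x) +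
        d k • ((x ⬝ᵥ y) • (B k *ᵥ x) - (x ⬝ᵥ x) • (B k *ᵥ y)) := by
  obtain ⟨s, U, d, hs, hU, hd, hDU⟩ := exists_spectral (gram_psd' hD h0)
  obtain ⟨φ, hφ, hφt⟩ := exists_param P hN
  have hφP : ∀ y, φ y ∈ P := fun y => (hφ _).2 ⟨y, rfl⟩
  have hgr : ∀ y, φ y * (φ y)ᵀ = (y ⬝ᵥ y) • D := by
    intro y
    rw [← hφt]
    exact hD _ (hφP y)
  have hφU : ∀ y, φ y = U * (Uᵀ * φ y) := by
    intro y
    have h1 : (1 - U * Uᵀ) * U = 0 := by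
      rw [Matrix.sub_mul, Matrix.mul_assoc, hU, Matrix.one_mul, Matrix.mul_one, sub_self]
    have h2 : ((1 - U * Uᵀ) * φ y) * ((1 - U * Uᵀ) * φ y)ᴴ = 0 := by
      rw [conjTranspose_eq_transpose_of_trivial, transpose_mul]
      calc (1 - U * Uᵀ) * φ y * ((φ y)ᵀ * (1 - U * Uᵀ)ᵀ) =
            (1 - U * Uᵀ) * (φ y * (φ y)ᵀ) * (1 - U * Uᵀ)ᵀ := by simp only [Matrix.mul_assoc]
        _ = (y ⬝ᵥ y) • (((1 - U * Uᵀ) * U) * diagonal d * Uᵀ * (1 - U * Uᵀ)ᵀ) := by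
            rw [hgr, Matrix.mul_smul, Matrix.smul_mul, hDU]
            simp only [Matrix.mul_assoc]
        _ = 0 := by
            rw [h1, Matrix.zero_mul, Matrix.zero_mul, Matrix.zero_mul, smul_zero]
    have h3 := Matrix.self_mul_conjTranspose_eq_zero.1 h2
    rw [Matrix.sub_mul, Matrix.one_mul, Matrix.mul_assoc] at h3
    exact sub_eq_zero.1 h3
  have hR : ∀ y, (Uᵀ * φ y) * (Uᵀ * φ y)ᵀ = (y ⬝ᵥ y) • diagonal d := by
    intro y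
    rw [transpose_mul, transpose_transpose]
    calc Uᵀ * φ y * ((φ y)ᵀ * U) = Uᵀ * (φ y * (φ y)ᵀ) * U := by simp only [Matrix.mul_assoc]
      _ = (y ⬝ᵥ y) • ((Uᵀ * U) * diagonal d * (Uᵀ * U)) := by
          rw [hgr, Matrix.mul_smul, Matrix.smul_mul, hDU]
          simp only [Matrix.mul_assoc]
      _ = _ := by rw [hU, Matrix.one_mul, Matrix.mul_one]
  have hpol : ∀ x y, (Uᵀ * φ x) * (Uᵀ * φ y)ᵀ + (Uᵀ * φ y) * (Uᵀ * φ x)ᵀ =
      (2 * (x ⬝ᵥ y)) • diagonal d := by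
    intro x y
    have h1 := hR (x + y)
    have h2 := hR x
    have h3 := hR y
    rw [map_add, Matrix.mul_add, transpose_add, Matrix.add_mul, Matrix.mul_add, Matrix.mul_add,
      h2, h3, add_dotProduct, dotProduct_add, dotProduct_add, dotProduct_comm y x] at h1
    have h4 : (x ⬝ᵥ x + x ⬝ᵥ y + (x ⬝ᵥ y + y ⬝ᵥ y)) • diagonal d =
        (x ⬝ᵥ x) • diagonal d + (2 * (x ⬝ᵥ y)) • diagonal d + (y ⬝ᵥ y) • diagonal d := by
      rw [← add_smul, ← add_smul]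
      congr 1
      ring
    rw [h4] at h1
    have h5 : Uᵀ * φ x * (Uᵀ * φ y)ᵀ + Uᵀ * φ y * (Uᵀ * φ x)ᵀ =
        (x ⬝ᵥ x) • diagonal d + Uᵀ * φ x * (Uᵀ * φ y)ᵀ +
        (Uᵀ * φ y * (Uᵀ * φ x)ᵀ + (y ⬝ᵥ y) • diagonal d) - (x ⬝ᵥ x) • diagonal d -
        (y ⬝ᵥ y) • diagonal d := by abel
    rw [h5, h1]
    abel
  let L : Fin s → (Fin N → ℝ) →ₗ[ℝ] (Fin n → ℝ) := fun k =>
    { toFun := fun y => (Uᵀ * φ y) k
      map_add' := fun x y => by rw [map_add, Matrix.mul_add]; rfl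
      map_smul' := fun c y => by rw [map_smul, Matrix.mul_smul]; rfl }
  obtain ⟨B, hB⟩ : ∃ B : Fin s → Matrix (Fin n) (Fin N) ℝ,
      ∀ k y, B k *ᵥ y = (Uᵀ * φ y) k :=
    ⟨fun k => LinearMap.toMatrix' (L k), fun k y => LinearMap.toMatrix'_mulVec (L k) y⟩
  have hof : ∀ y, (Matrix.of fun k => B k *ᵥ y) = Uᵀ * φ y := by
    intro y
    ext k i
    rw [Matrix.of_apply, hB]
  have hdot : ∀ x y j k, ((Uᵀ * φ x) * (Uᵀ * φ y)ᵀ) j k = (B j *ᵥ x) ⬝ᵥ (B k *ᵥ y) := by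
    intro x y j k
    rw [hB, hB, Matrix.mul_apply]
    rfl
  have hpol' : ∀ x y j k, (B j *ᵥ x) ⬝ᵥ (B k *ᵥ y) + (B j *ᵥ y) ⬝ᵥ (B k *ᵥ x) =
      2 * (x ⬝ᵥ y) * diagonal d j k := by
    intro x y j k
    rw [← hdot, ← hdot, ← Matrix.add_apply, hpol, Matrix.smul_apply, smul_eq_mul]
  have hpol1 : ∀ x y k, (B k *ᵥ x) ⬝ᵥ (B k *ᵥ y) = (x ⬝ᵥ y) * d k := by
    intro x y k
    have h1 := hpol' x y k k
    rw [dotProduct_comm (B k *ᵥ y), diagonal_apply_eq] at h1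
    linarith
  have hpol2 : ∀ x y j k, j ≠ k → (B j *ᵥ x) ⬝ᵥ (B k *ᵥ y) = -((B j *ᵥ y) ⬝ᵥ (B k *ᵥ x)) := by
    intro x y j k hjk
    have h1 := hpol' x y j k
    rw [diagonal_apply_ne _ hjk, mul_zero] at h1
    linarith
  refine ⟨s, U, d, B, hs, hU, hd, ?_, ?_, ?_, ?_⟩
  · intro k
    apply mat_ext_dot
    intro x y
    rw [← mv_dot_mv, hpol1, smul_mulVec, one_mulVec, dotProduct_smul, smul_eq_mul, mul_comm]
  · intro j k hjk
    apply mat_ext_dot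
    intro x y
    rw [neg_mulVec, dotProduct_neg, ← mv_dot_mv, ← mv_dot_mv, hpol2 x y j k hjk,
      dotProduct_comm (B k *ᵥ x)]
  · intro M
    constructor
    · intro hM
      obtain ⟨y, rfl⟩ := (hφ M).1 hM
      exact ⟨y, by rw [hof]; exact hφU y⟩
    · rintro ⟨y, rfl⟩
      rw [hof, ← hφU]
      exact hφP y
  · intro x y
    obtain ⟨z, hz⟩ := (hφ _).1 (htr _ (hφP x) _ (hφP y))
    refine ⟨z, fun k => ?_⟩
    have h2 : Uᵀ * φ z = (2 : ℝ) • ((Uᵀ * φ x) * (Uᵀ * φ y)ᵀ * (Uᵀ * φ x)) -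
        (Uᵀ * φ y) * (Uᵀ * φ x)ᵀ * (Uᵀ * φ x) - (x ⬝ᵥ x) • (diagonal d * (Uᵀ * φ y)) := by
      have h3 : ∀ a b c, Uᵀ * (φ a * (φ b)ᵀ * φ c) =
          (Uᵀ * φ a) * (Uᵀ * φ b)ᵀ * (Uᵀ * φ c) := by
        intro a b c
        have h4 : (φ b)ᵀ = (Uᵀ * φ b)ᵀ * Uᵀ := by
          nth_rewrite 1 [hφU b]
          rw [transpose_mul]
        nth_rewrite 1 [h4]
        simp only [Matrix.mul_assoc]
      rw [hz, Matrix.mul_sub, Matrix.mul_sub, Matrix.mul_smul, h3, h3, h3, hR x,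
        Matrix.smul_mul]
    have h3 : B k *ᵥ z = (2 : ℝ) • (∑ j, ((B k *ᵥ x) ⬝ᵥ (B j *ᵥ y)) • (B j *ᵥ x)) -
        (∑ j, ((B k *ᵥ y) ⬝ᵥ (B j *ᵥ x)) • (B j *ᵥ x)) - (x ⬝ᵥ x) • (d k • (B k *ᵥ y)) := by
      rw [hB k z, h2]
      have h5 : ∀ a b c, ((Uᵀ * φ a) * (Uᵀ * φ b)ᵀ * (Uᵀ * φ c)) k =
          ∑ j, ((B k *ᵥ a) ⬝ᵥ (B j *ᵥ b)) • (B j *ᵥ c) := by
        intro a b c
        rw [row_mul]
        refine Finset.sum_congr rfl fun j _ => ?_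
        rw [hdot, hB j c]
      have h6 : (diagonal d * (Uᵀ * φ y)) k = d k • (B k *ᵥ y) := by
        funext i
        rw [diagonal_mul, hB]
        rfl
      rw [← h5, ← h5, ← h6]
      rfl
    rw [h3]
    have h7 : ∀ j, (2 : ℝ) • (((B k *ᵥ x) ⬝ᵥ (B j *ᵥ y)) • (B j *ᵥ x)) -
        ((B k *ᵥ y) ⬝ᵥ (B j *ᵥ x)) • (B j *ᵥ x) =
        (if j = k then 0 else 3 * ((B j *ᵥ y) ⬝ᵥ (B k *ᵥ x))) • (B j *ᵥ x) +
        if j = k then (d k * (x ⬝ᵥ y)) • (B k *ᵥ x) else 0 := by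
      intro j
      by_cases hj : j = k
      · rw [if_pos hj, if_pos hj, hj, hpol1, hpol1, smul_smul, ← sub_smul, dotProduct_comm y x,
          zero_smul, zero_add]
        congr 1
        ring
      · rw [if_neg hj, if_neg hj, add_zero, hpol2 y x k j (Ne.symm hj), smul_smul, ← sub_smul,
          dotProduct_comm (B j *ᵥ y)]
        congr 1
        ring
    rw [Finset.smul_sum, ← Finset.sum_sub_distrib, Finset.sum_congr rfl fun j _ => h7 j,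
      Finset.sum_add_distrib, Finset.sum_ite_eq' Finset.univ k, if_pos (Finset.mem_univ k),
      add_sub_assoc, smul_sub, smul_smul, smul_smul, smul_smul, mul_comm (x ⬝ᵥ x)]

end Pool.Agent.Helper17.CKF
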