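import Pool.Agent.Helper17.CKF.RO4

/-! # CKF-RO5: spaces of matrices with constant Gram matrix, stable under triple products -/

set_option autoImplicit false

namespace Pool.Agent.Helper17.CKF

open Matrix Module

variable {r n : ℕ}

/-- All singular values are equal. -/
theorem equal_d {s N : ℕ} {d : Fin s → ℝ} {B : Fin s → Matrix (Fin n) (Fin N) ℝ}
    (hd : ∀ k, 0 < d k) (hiso : ∀ k, (B k)ᵀ * B k = d k • (1 : Matrix _ _ ℝ))
    (hsk : ∀ j k, j ≠ k → (B j)ᵀ * B k = -((B k)ᵀ * B j))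
    (hT : ∀ x y, ∃ z, ∀ k, B k *ᵥ z =
      ∑ j, (if j = k then 0 else 3 * ((B j *ᵥ y) ⬝ᵥ (B k *ᵥ x))) • (B j *ᵥ x) +
        d k • ((x ⬝ᵥ y) • (B k *ᵥ x) - (x ⬝ᵥ x) • (B k *ᵥ y)))
    (hN : 2 * s < N + 2) (k l : Fin s) : d k = d l := by
  by_cases hkl : k = l
  · rw [hkl]
  have hs : 2 ≤ s := by
    by_contra h
    apply hkl
    apply Fin.ext
    have h1 := k.2
    have h2 := l.2
    omega
  have hdot : ∀ (k : Fin s) (x y : Fin N → ℝ), (B k *ᵥ x) ⬝ᵥ (B k *ᵥ y) = d k * (x ⬝ᵥ y) := by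
    intro k x y
    rw [mv_dot_mv, hiso, smul_mulVec, one_mulVec, dotProduct_smul, smul_eq_mul]
  obtain ⟨x, hx⟩ := exists_unit (N := N) (by omega)
  let κ := {j : Fin s // j ∉ ({k, l} : Finset (Fin s))}
  have hκ : Fintype.card κ = s - 2 := by
    rw [Fintype.card_subtype_compl, Fintype.card_coe, Finset.card_pair hkl, Fintype.card_fin]
  obtain ⟨y, hy0, hy⟩ := exists_orth (κ := Fin s ⊕ κ) (N := N) (by
    rw [Fintype.card_sum, hκ, Fintype.card_fin]
    omega) (Sum.elim (fun j => (B j)ᵀ *ᵥ (B k *ᵥ x)) fun j => (B j)ᵀ *ᵥ (B l *ᵥ x))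
  have ha : ∀ j, (B j *ᵥ y) ⬝ᵥ (B k *ᵥ x) = 0 := by
    intro j
    rw [dotProduct_comm, dot_mv]
    exact hy (Sum.inl j)
  have hxy : x ⬝ᵥ y = 0 := by
    have h1 := ha k
    rw [hdot, dotProduct_comm] at h1
    rcases mul_eq_zero.1 h1 with h2 | h2
    · exact absurd h2 (hd k).ne'
    · exact h2
  have hb : ∀ j, (B j *ᵥ y) ⬝ᵥ (B l *ᵥ x) = 0 := by
    intro j
    by_cases hj : j = l
    · rw [hj, hdot, dotProduct_comm, hxy, mul_zero]
    by_cases hj' : j = k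
    · rw [hj', iso_dot_skew hsk hkl, ha, neg_zero]
    · rw [dotProduct_comm, dot_mv]
      exact hy (Sum.inr ⟨j, by simp [hj, hj']⟩)
  obtain ⟨z, hz⟩ := hT x y
  have key : ∀ m : Fin s, (∀ j, (B j *ᵥ y) ⬝ᵥ (B m *ᵥ x) = 0) →
      z ⬝ᵥ z = d m ^ 2 * (y ⬝ᵥ y) := by
    intro m hm
    have h1 : B m *ᵥ z = -(d m • (B m *ᵥ y)) := by
      rw [hz m, Finset.sum_eq_zero, hxy, hx, zero_smul, one_smul, zero_sub, smul_neg, zero_add]
      intro j _
      rw [hm, mul_zero, ite_self, zero_smul]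
    have h2 := hdot m z z
    rw [h1, neg_dotProduct, dotProduct_neg, neg_neg, smul_dotProduct, dotProduct_smul, hdot,
      smul_eq_mul, smul_eq_mul] at h2
    have h3 := (hd m).ne'
    have h4 : d m * (z ⬝ᵥ z) = d m * (d m ^ 2 * (y ⬝ᵥ y)) := by
      rw [← h2]
      ring
    exact mul_left_cancel₀ h3 h4
  have h1 := key k ha
  have h2 := key l hb
  rw [h1] at h2
  have h3 := mul_right_cancel₀ (dot_self_pos hy0).ne' h2
  exact (pow_left_inj₀ (hd k).le (hd l).le two_ne_zero).1 h3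

/-- at least two rows: Clifford structure -/
theorem core_cliff {P : Submodule ℝ (Matrix (Fin r) (Fin n) ℝ)} {s N : ℕ}
    {U : Matrix (Fin r) (Fin s) ℝ} {d : Fin s → ℝ} {B : Fin s → Matrix (Fin n) (Fin N) ℝ}
    (hd : ∀ k, 0 < d k) (hiso : ∀ k, (B k)ᵀ * B k = d k • (1 : Matrix _ _ ℝ))
    (hsk : ∀ j k, j ≠ k → (B j)ᵀ * B k = -((B k)ᵀ * B j))
    (hT : ∀ x y, ∃ z, ∀ k, B k *ᵥ z =
      ∑ j, (if j = k then 0 else 3 * ((B j *ᵥ y) ⬝ᵥ (B k *ᵥ x))) • (B j *ᵥ x) +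
        d k • ((x ⬝ᵥ y) • (B k *ᵥ x) - (x ⬝ᵥ x) • (B k *ᵥ y)))
    (hP : ∀ M, M ∈ P ↔ ∃ y, M = U * Matrix.of fun k => B k *ᵥ y)
    (hN : 2 * s < N + 2) (hn : n + 1 ≤ N + s) (o : Fin s) :
    ∃ (A : Matrix (Fin n) (Fin N) ℝ) (J : Fin s → Matrix (Fin N) (Fin N) ℝ), Aᵀ * A = 1 ∧
      Cliff o J ∧ ∀ M, M ∈ P ↔ ∃ y, M = U * Matrix.of fun k => A *ᵥ (J k *ᵥ y) := by
  set δ := d o with hδ
  have hdk : ∀ k, d k = δ := fun k => equal_d hd hiso hsk hT hN k o
  have hδ0 : 0 < δ := hd o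
  have hq0 : 0 < Real.sqrt δ := Real.sqrt_pos.2 hδ0
  have hqq : Real.sqrt δ * Real.sqrt δ = δ := Real.mul_self_sqrt hδ0.le
  set q := Real.sqrt δ with hq
  obtain ⟨A, hAB⟩ : ∃ A : Fin s → Matrix (Fin n) (Fin N) ℝ, ∀ k, A k = q⁻¹ • B k :=
    ⟨fun k => q⁻¹ • B k, fun _ => rfl⟩
  have hBA : ∀ k, B k = q • A k := by
    intro k
    rw [hAB, smul_smul, mul_inv_cancel₀ hq0.ne', one_smul]
  have hAi : ∀ k, (A k)ᵀ * A k = 1 := by
    intro k
    rw [hAB, transpose_smul, Matrix.smul_mul, Matrix.mul_smul, hiso, hdk, smul_smul, smul_smul,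
      ← hqq]
    have h1 : q⁻¹ * q⁻¹ * (q * q) = 1 := by
      field_simp
    rw [h1, one_smul]
  have hAs : ∀ j k, j ≠ k → (A j)ᵀ * A k = -((A k)ᵀ * A j) := by
    intro j k hjk
    rw [hAB, hAB, transpose_smul, transpose_smul, Matrix.smul_mul, Matrix.mul_smul, Matrix.smul_mul,
      Matrix.mul_smul, hsk j k hjk, smul_neg, smul_neg]
  have hAT : ∀ x y : Fin N → ℝ, ∃ z, ∀ k, A k *ᵥ z =
      ∑ j, if j = k then 0 else ((A j *ᵥ y) ⬝ᵥ (A k *ᵥ x)) • (A j *ᵥ x) := by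
    intro x y
    obtain ⟨z, hz⟩ := hT x y
    refine ⟨(3 * δ)⁻¹ • (z - δ • ((x ⬝ᵥ y) • x - (x ⬝ᵥ x) • y)), fun k => ?_⟩
    have h1 := hz k
    rw [hdk] at h1
    have h2 : B k *ᵥ (z - δ • ((x ⬝ᵥ y) • x - (x ⬝ᵥ x) • y)) =
        ∑ j, (if j = k then 0 else 3 * ((B j *ᵥ y) ⬝ᵥ (B k *ᵥ x))) • (B j *ᵥ x) := by
      rw [mulVec_sub, h1, mulVec_smul, mulVec_sub, mulVec_smul, mulVec_smul, add_sub_cancel_right]
    have h3 : A k *ᵥ (z - δ • ((x ⬝ᵥ y) • x - (x ⬝ᵥ x) • y)) =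
        ∑ j, (if j = k then 0 else 3 * δ * ((A j *ᵥ y) ⬝ᵥ (A k *ᵥ x))) • (A j *ᵥ x) := by
      have h4 : A k *ᵥ (z - δ • ((x ⬝ᵥ y) • x - (x ⬝ᵥ x) • y)) =
          q⁻¹ • (B k *ᵥ (z - δ • ((x ⬝ᵥ y) • x - (x ⬝ᵥ x) • y))) := by
        rw [hAB, smul_mulVec]
      rw [h4, h2, Finset.smul_sum]
      refine Finset.sum_congr rfl fun j _ => ?_
      split_ifs with hj
      · rw [zero_smul, smul_zero, zero_smul]
      · rw [hBA j, hBA k, smul_mulVec, smul_mulVec, smul_mulVec, smul_dotProduct,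
          dotProduct_smul, smul_smul, smul_smul, smul_eq_mul, smul_eq_mul]
        congr 1
        rw [← hqq]
        field_simp
    rw [mulVec_smul, h3, Finset.smul_sum]
    refine Finset.sum_congr rfl fun j _ => ?_
    split_ifs with hj
    · rw [zero_smul, smul_zero]
    · rw [smul_smul]
      congr 1
      field_simp
  have hcard : Fintype.card (Fin s) = s := Fintype.card_fin s
  have hf := fun j => factor_image hAi hAs hAT (by rw [hcard]; exact hn)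
    (by rw [hcard]; exact hN) o j
  refine ⟨A o, fun j => (A o)ᵀ * A j, hAi o, cliff_of hAi hAs hAT o hf, fun M => ?_⟩
  have h1 : ∀ y, (Matrix.of fun k => A o *ᵥ (((A o)ᵀ * A k) *ᵥ y)) =
      Matrix.of fun k => A k *ᵥ y := by
    intro y
    ext k i
    rw [Matrix.of_apply, Matrix.of_apply, mulVec_mulVec, hf]
  have h2 : ∀ (c : ℝ) (y : Fin N → ℝ), (Matrix.of fun k => (c • A k) *ᵥ y) =
      Matrix.of fun k => A k *ᵥ (c • y) := by
    intro c y
    ext k i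
    rw [Matrix.of_apply, Matrix.of_apply, smul_mulVec, mulVec_smul]
  rw [hP]
  simp only [h1]
  constructor
  · rintro ⟨y, rfl⟩
    refine ⟨q • y, ?_⟩
    rw [← h2]
    congr 2
    funext k
    rw [hBA]
  · rintro ⟨y, rfl⟩
    refine ⟨q⁻¹ • y, ?_⟩
    congr 2
    funext k
    rw [hBA, smul_mulVec, mulVec_smul, smul_smul, mul_inv_cancel₀ hq0.ne', one_smul]

/-- The list of the spaces of matrices with constant Gram matrix, stable under triple products. -/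
theorem rank_one_list (P : Submodule ℝ (Matrix (Fin r) (Fin n) ℝ)) (D : Matrix (Fin r) (Fin r) ℝ)
    (hD : ∀ B ∈ P, B * Bᵀ = (B * Bᵀ).trace • D)
    (htr : ∀ B ∈ P, ∀ C ∈ P, (2 : ℝ) • (B * Cᵀ * B) - C * Bᵀ * B - B * Bᵀ * C ∈ P)
    (h0 : P ≠ ⊥) (hdim : n + 1 ≤ finrank ℝ P + D.rank) (hn : r * (r + 2) ≤ n + 4) :
    (∃ u : Fin r → ℝ, u ≠ 0 ∧ ∀ B, B ∈ P ↔ ∃ x : Fin n → ℝ, B = vecMulVec u x) ∨
    (∃ (N : ℕ) (U : Matrix (Fin r) (Fin 2) ℝ) (A : Matrix (Fin n) (Fin N) ℝ)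
      (J : Matrix (Fin N) (Fin N) ℝ), Uᵀ * U = 1 ∧ Aᵀ * A = 1 ∧ Jᵀ = -J ∧ J * J = -1 ∧
      n ≤ N + 1 ∧ ∀ B, B ∈ P ↔ ∃ y : Fin N → ℝ,
        B = U * Matrix.of ![A *ᵥ y, A *ᵥ (J *ᵥ y)]) ∨
    (∃ (N : ℕ) (U : Matrix (Fin r) (Fin 4) ℝ) (A : Matrix (Fin n) (Fin N) ℝ)
      (I J : Matrix (Fin N) (Fin N) ℝ), Uᵀ * U = 1 ∧ Aᵀ * A = 1 ∧ Iᵀ = -I ∧ Jᵀ = -J ∧
      I * I = -1 ∧ J * J = -1 ∧ I * J = -(J * I) ∧ n ≤ N + 3 ∧
      ∀ B, B ∈ P ↔ ∃ y : Fin N → ℝ, B = U * Matrix.of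
        ![A *ᵥ y, A *ᵥ (I *ᵥ y), A *ᵥ (J *ᵥ y), A *ᵥ ((I * J) *ᵥ y)]) := by
  obtain ⟨N, hNdef⟩ : ∃ N, finrank ℝ P = N := ⟨_, rfl⟩
  obtain ⟨s, U, d, B, hs, hU, hd, hiso, hsk, hP, hT⟩ := exists_rows hD htr h0 hNdef
  rw [hNdef] at hdim
  have hsr : s ≤ r := by
    rw [hs]
    exact Matrix.rank_le_width D
  rw [← hs] at hdim
  have hss : s * (s + 2) ≤ n + 4 := le_trans (Nat.mul_le_mul hsr (by omega)) hn
  clear hs
  have hbig : 2 ≤ s → 2 * s < N + 2 := by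
    intro h2
    have h3 : 2 * s ≤ s * s := Nat.mul_le_mul h2 le_rfl
    have h4 : s * (s + 2) = s * s + 2 * s := by ring
    omega
  have hcases : s = 0 ∨ s = 1 ∨ s = 2 ∨ s = 3 ∨ s = 4 ∨ 5 ≤ s := by omega
  rcases hcases with rfl | rfl | rfl | rfl | rfl | h5
  · exfalso
    apply h0
    rw [Submodule.eq_bot_iff]
    intro M hM
    obtain ⟨y, rfl⟩ := (hP M).1 hM
    ext i j
    rw [Matrix.mul_apply]
    simp
  · left
    have hinj : Function.Injective (Matrix.mulVecLin (B 0)) := by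
      intro x y hxy
      have h1 : B 0 *ᵥ x = B 0 *ᵥ y := hxy
      have h2 := congrArg (fun v => (B 0)ᵀ *ᵥ v) h1
      simp only [mulVec_mulVec, hiso, smul_mulVec, one_mulVec] at h2
      exact smul_right_injective _ (hd 0).ne' h2
    have hNn : finrank ℝ (LinearMap.range (Matrix.mulVecLin (B 0))) = N := by
      rw [LinearMap.finrank_range_of_inj hinj, Module.finrank_fin_fun]
    have hsur : LinearMap.range (Matrix.mulVecLin (B 0)) = ⊤ := by
      apply Submodule.eq_top_of_finrank_eq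
      rw [hNn, Module.finrank_fin_fun]
      have h1 := Submodule.finrank_le (LinearMap.range (Matrix.mulVecLin (B 0)))
      rw [hNn, Module.finrank_fin_fun] at h1
      omega
    refine ⟨fun i => U i 0, ?_, fun M => ?_⟩
    · intro h
      have h1 := congrFun (congrFun hU 0) 0
      rw [Matrix.mul_apply, Matrix.one_apply_eq] at h1
      have h2 : ∀ i, U i 0 = 0 := fun i => congrFun h i
      simp [h2] at h1
    · have h1 : ∀ y, (U * Matrix.of fun k => B k *ᵥ y) = vecMulVec (fun i => U i 0) (B 0 *ᵥ y) := by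
        intro y
        ext i j
        rw [Matrix.mul_apply, Fin.sum_univ_one, vecMulVec_apply]
        rfl
      rw [hP]
      constructor
      · rintro ⟨y, rfl⟩
        exact ⟨_, h1 y⟩
      · rintro ⟨x, rfl⟩
        have h2 : x ∈ LinearMap.range (Matrix.mulVecLin (B 0)) := by
          rw [hsur]
          exact Submodule.mem_top
        obtain ⟨y, rfl⟩ := h2
        exact ⟨y, (h1 y).symm⟩
  · right; left
    obtain ⟨A, J, hA, hJ, hPJ⟩ := core_cliff hd hiso hsk hT hP (hbig (by omega)) hdim 0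
    refine ⟨N, U, A, J 1, hU, hA, hJ.skew 1 (by decide), hJ.sq 1 (by decide), by omega, ?_⟩
    intro M
    rw [hPJ]
    refine exists_congr fun y => ?_
    have h1 : (Matrix.of fun k => A *ᵥ (J k *ᵥ y)) = Matrix.of ![A *ᵥ y, A *ᵥ (J 1 *ᵥ y)] := by
      ext k i
      fin_cases k
      · show (A *ᵥ (J 0 *ᵥ y)) i = (A *ᵥ y) i
        rw [hJ.one, one_mulVec]
      · rfl
    rw [h1]
  · exfalso
    obtain ⟨A, J, hA, hJ, hPJ⟩ := core_cliff hd hiso hsk hT hP (hbig (by omega)) hdim 0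
    exact hJ.not_three (k := 1) (l := 2) (by decide) (by decide) (by decide)
      (by decide) (by omega)
  · right; right
    obtain ⟨A, J, hA, hJ, hPJ⟩ := core_cliff hd hiso hsk hT hP (hbig (by omega)) hdim 0
    obtain ⟨c, hc, hc3⟩ := hJ.four (k := 1) (l := 2) (m := 3) (by decide) (by decide) (by decide)
      (by decide) (by decide) (by omega)
    have hJ3 : J 3 = c • (J 1 * J 2) := by
      rw [hc3, smul_smul, ← pow_two, hc, one_smul]
    refine ⟨N, U * diagonal ![1, 1, 1, c], A, J 1, J 2, ?_, hA, hJ.skew 1 (by decide),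
      hJ.skew 2 (by decide), hJ.sq 1 (by decide), hJ.sq 2 (by decide),
      hJ.anti 1 2 (by decide) (by decide) (by decide), by omega, ?_⟩
    · rw [transpose_mul, diagonal_transpose]
      calc diagonal ![1, 1, 1, c] * Uᵀ * (U * diagonal ![1, 1, 1, c]) =
            diagonal ![1, 1, 1, c] * (Uᵀ * U) * diagonal ![1, 1, 1, c] := by
              simp only [Matrix.mul_assoc]
        _ = 1 := by
              rw [hU, Matrix.mul_one, diagonal_mul_diagonal, ← diagonal_one]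
              congr 1
              funext k
              fin_cases k
              · simp
              · simp
              · simp
              · simp [← pow_two, hc]
    · intro M
      rw [hPJ]
      refine exists_congr fun y => ?_
      have h1 : (Matrix.of fun k => A *ᵥ (J k *ᵥ y)) = diagonal ![1, 1, 1, c] * Matrix.of
          ![A *ᵥ y, A *ᵥ (J 1 *ᵥ y), A *ᵥ (J 2 *ᵥ y), A *ᵥ ((J 1 * J 2) *ᵥ y)] := by
        ext k i
        rw [diagonal_mul]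
        fin_cases k
        · show (A *ᵥ (J 0 *ᵥ y)) i = 1 * (A *ᵥ y) i
          rw [hJ.one, one_mulVec, one_mul]
        · show (A *ᵥ (J 1 *ᵥ y)) i = 1 * (A *ᵥ (J 1 *ᵥ y)) i
          rw [one_mul]
        · show (A *ᵥ (J 2 *ᵥ y)) i = 1 * (A *ᵥ (J 2 *ᵥ y)) i
          rw [one_mul]
        · show (A *ᵥ (J 3 *ᵥ y)) i = c * (A *ᵥ ((J 1 * J 2) *ᵥ y)) i
          rw [hJ3, smul_mulVec, mulVec_smul]
          rfl
      rw [h1, Matrix.mul_assoc]
  · exfalso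
    obtain ⟨A, J, hA, hJ, hPJ⟩ := core_cliff hd hiso hsk hT hP (hbig (by omega)) hdim
      ⟨0, by omega⟩
    refine hJ.not_five (k := ⟨1, by omega⟩) (l := ⟨2, by omega⟩) ?_ ?_ ?_ ?_ ?_
    · intro h
      have := congrArg Fin.val h
      simp at this
    · intro h
      have := congrArg Fin.val h
      simp at this
    · intro h
      have := congrArg Fin.val h
      simp at this
    · rw [Fintype.card_fin]
      exact h5
    · rw [Fintype.card_fin]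
      have := hbig (by omega)
      omega

end Pool.Agent.Helper17.CKF
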