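import Pool.Agent.Helper17.CKF.RO5

/-! # CKF-RO6: the list over `K`, transfer from `ℝ` -/

set_option autoImplicit false

namespace Pool.Agent.Helper17.CKF

open Matrix Module

/-- The list: the matrices `u xᵀ`; or the matrices with two rows `A y`, `A S ȳ` up to a partial
isometry `U`; or, for `K = ℝ`, the matrices with four rows `A y`, `A I y`, `A J y`, `A I J y` up to
a partial isometry `U`. -/
def ROList {K : Type} [RCLike K] {r n : ℕ} (P : Submodule ℝ (Matrix (Fin r) (Fin n) K)) : Prop :=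
  (∃ u : Fin r → K, u ≠ 0 ∧ ∀ B, B ∈ P ↔ ∃ x, B = vecMulVec u x) ∨
  (∃ (N : ℕ) (U : Matrix (Fin r) (Fin 2) K) (A : Matrix (Fin n) (Fin N) K)
    (S : Matrix (Fin N) (Fin N) K), n ≤ N + 1 ∧ Uᴴ * U = 1 ∧ Aᴴ * A = 1 ∧ Sᵀ = -S ∧
    S * Sᴴ = 1 ∧ ∀ B, B ∈ P ↔ ∃ y, B = U * Matrix.of ![A *ᵥ y, A *ᵥ (S *ᵥ star y)]) ∨
  (finrank ℝ K = 1 ∧ ∃ (N : ℕ) (U : Matrix (Fin r) (Fin 4) K) (A : Matrix (Fin n) (Fin N) K)
    (I J : Matrix (Fin N) (Fin N) K), n ≤ N + 3 ∧ Uᴴ * U = 1 ∧ Aᴴ * A = 1 ∧ Iᵀ = -I ∧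
    Jᵀ = -J ∧ I * I = -1 ∧ J * J = -1 ∧ I * J = -(J * I) ∧
    ∀ B, B ∈ P ↔ ∃ y, B = U * Matrix.of
      ![A *ᵥ y, A *ᵥ (I *ᵥ y), A *ᵥ (J *ᵥ y), A *ᵥ ((I * J) *ᵥ y)])

section Transfer
variable {K : Type} [RCLike K] (φ : K ≃+* ℝ)

theorem tr_mul {p q t : ℕ} (A : Matrix (Fin p) (Fin q) K) (B : Matrix (Fin q) (Fin t) K) :
    (A * B).map φ = A.map φ * B.map φ := Matrix.map_mul

theorem tr_mul' {p q t : ℕ} (A : Matrix (Fin p) (Fin q) ℝ) (B : Matrix (Fin q) (Fin t) ℝ) :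
    (A * B).map φ.symm = A.map φ.symm * B.map φ.symm := Matrix.map_mul

theorem tr_inv {p q : ℕ} (A : Matrix (Fin p) (Fin q) K) : (A.map φ).map φ.symm = A := by
  ext i j
  exact φ.symm_apply_apply _

theorem tr_inv' {p q : ℕ} (A : Matrix (Fin p) (Fin q) ℝ) : (A.map φ.symm).map φ = A := by
  ext i j
  exact φ.apply_symm_apply _

theorem tr_inj {p q : ℕ} {A B : Matrix (Fin p) (Fin q) K} (h : A.map φ = B.map φ) : A = B := by
  rw [← tr_inv φ A, h, tr_inv]

theorem tr_one' {p : ℕ} : (1 : Matrix (Fin p) (Fin p) ℝ).map φ.symm = 1 :=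
  Matrix.map_one _ (map_zero _) (map_one _)

theorem tr_one {p : ℕ} : (1 : Matrix (Fin p) (Fin p) K).map φ = 1 :=
  Matrix.map_one _ (map_zero _) (map_one _)

theorem tr_neg' {p q : ℕ} (A : Matrix (Fin p) (Fin q) ℝ) :
    (-A).map φ.symm = -A.map φ.symm := by
  ext i j
  exact map_neg φ.symm _

theorem tr_mulVec' {p q : ℕ} (A : Matrix (Fin p) (Fin q) ℝ) (y : Fin q → ℝ) :
    (fun i => φ.symm ((A *ᵥ y) i)) = A.map φ.symm *ᵥ fun i => φ.symm (y i) := by
  funext i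
  rw [mulVec, mulVec, dotProduct, dotProduct, map_sum]
  refine Finset.sum_congr rfl fun j _ => ?_
  rw [map_mul, Matrix.map_apply]

end Transfer

/-- the list over `K` in the real case -/
theorem real_list_aux {K : Type} [RCLike K] (hI : (RCLike.I : K) = 0) {r n : ℕ}
    (P : Submodule ℝ (Matrix (Fin r) (Fin n) K)) (hP : P ≠ ⊥) {B0 : Matrix (Fin r) (Fin n) K}
    (hB0 : B0 ∈ P)
    (hgram : ∃ D : Matrix (Fin r) (Fin r) ℝ, ∀ B ∈ P,
      (B.map RCLike.re) * (B.map RCLike.re)ᵀ = ((B.map RCLike.re) * (B.map RCLike.re)ᵀ).trace • D)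
    (htri : ∀ B ∈ P, ∀ C ∈ P, (2 : ℝ) • (B * Cᴴ * B) - C * Bᴴ * B - B * Bᴴ * C ∈ P)
    (hdim : n + 1 ≤ finrank ℝ P + B0.rank) (hn : r * (r + 2) ≤ n + 4) : ROList P := by
  obtain ⟨D, hD⟩ := hgram
  obtain ⟨φ, hφ⟩ : ∃ φ : K ≃+* ℝ, φ = RCLike.realRingEquiv hI := ⟨_, rfl⟩
  have hφr : ∀ x, φ x = RCLike.re x := fun x => by
    rw [hφ]
    rfl
  have hφs : ∀ t, φ.symm t = (t : K) := fun t => by
    rw [hφ]
    rfl
  have hfK : finrank ℝ K = 1 := by
    rw [(RCLike.realLinearIsometryEquiv hI).toLinearEquiv.finrank_eq, Module.finrank_self]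
  clear hφ
  have hstar : ∀ x : K, star x = x := by
    intro x
    apply φ.injective
    rw [hφr, hφr, RCLike.star_def, RCLike.conj_re]
  have hct : ∀ {p q : ℕ} (A : Matrix (Fin p) (Fin q) K), Aᴴ = Aᵀ := by
    intro p q A
    ext i j
    rw [conjTranspose_apply, hstar, transpose_apply]
  have hsm : ∀ (t : ℝ) (x : K), φ (t • x) = t * φ x := by
    intro t x
    rw [hφr, hφr, RCLike.smul_re]
  let ψ : K ≃ₗ[ℝ] ℝ :=
    { toFun := φ
      invFun := φ.symm
      map_add' := map_add φ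
      map_smul' := fun t x => by rw [hsm]; rfl
      left_inv := φ.symm_apply_apply
      right_inv := φ.apply_symm_apply }
  let Φ : Matrix (Fin r) (Fin n) K ≃ₗ[ℝ] Matrix (Fin r) (Fin n) ℝ := ψ.mapMatrix
  have hΦ : ∀ B, Φ B = B.map φ := fun B => rfl
  have hre : ∀ B : Matrix (Fin r) (Fin n) K, B.map RCLike.re = B.map φ := by
    intro B
    ext i j
    exact (hφr _).symm
  set P' : Submodule ℝ (Matrix (Fin r) (Fin n) ℝ) := P.map Φ.toLinearMap with hP'
  have hfin : finrank ℝ P' = finrank ℝ P := Φ.finrank_map_eq P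
  have hmem : ∀ B, B ∈ P ↔ B.map φ ∈ P' := by
    intro B
    constructor
    · intro hB
      exact ⟨B, hB, rfl⟩
    · rintro ⟨C, hC, e⟩
      have : C = B := Φ.injective e
      rwa [← this]
  have hmem' : ∀ M, M ∈ P' ↔ M.map φ.symm ∈ P := by
    intro M
    rw [hmem, tr_inv']
  have hP'0 : P' ≠ ⊥ := by
    intro h
    apply hP
    rw [Submodule.eq_bot_iff] at h ⊢
    intro B hB
    have h1 := h _ ((hmem B).1 hB)
    apply tr_inj φ
    rw [h1]
    ext i j
    rw [Matrix.map_apply, Matrix.zero_apply, Matrix.zero_apply, map_zero]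
  have hD' : ∀ M ∈ P', M * Mᵀ = (M * Mᵀ).trace • D := by
    intro M hM
    have h1 := hD _ ((hmem' M).1 hM)
    rwa [hre, tr_inv'] at h1
  have htr' : ∀ M ∈ P', ∀ M' ∈ P', (2 : ℝ) • (M * M'ᵀ * M) - M' * Mᵀ * M - M * Mᵀ * M' ∈ P' := by
    intro M hM M' hM'
    have h1 := htri _ ((hmem' M).1 hM) _ ((hmem' M').1 hM')
    rw [hmem] at h1
    have h2 : ((2 : ℝ) • (M.map φ.symm * (M'.map φ.symm)ᴴ * M.map φ.symm) -
        M'.map φ.symm * (M.map φ.symm)ᴴ * M.map φ.symm -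
        M.map φ.symm * (M.map φ.symm)ᴴ * M'.map φ.symm).map φ =
        (2 : ℝ) • (M * M'ᵀ * M) - M' * Mᵀ * M - M * Mᵀ * M' := by
      have h3 : ∀ X Y Z : Matrix (Fin r) (Fin n) ℝ, (X * Yᵀ * Z).map φ.symm =
          X.map φ.symm * (Y.map φ.symm)ᴴ * Z.map φ.symm := by
        intro X Y Z
        rw [tr_mul', tr_mul', hct, Matrix.transpose_map]
      rw [← h3, ← h3, ← h3]
      ext i j
      rw [Matrix.map_apply, Matrix.sub_apply, Matrix.sub_apply, Matrix.smul_apply, map_sub,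
        map_sub, hsm, Matrix.map_apply, Matrix.map_apply, Matrix.map_apply, φ.apply_symm_apply,
        φ.apply_symm_apply, φ.apply_symm_apply, Matrix.sub_apply, Matrix.sub_apply,
        Matrix.smul_apply, smul_eq_mul]
    rwa [h2] at h1
  have hrank : B0.rank ≤ D.rank := by
    obtain ⟨s, U, d, B, hs, -, -, -, -, hPU, -⟩ := exists_rows hD' htr' hP'0 rfl
    obtain ⟨y, hy⟩ := (hPU _).1 ((hmem B0).1 hB0)
    have h1 : B0 = U.map φ.symm * (Matrix.of fun k => B k *ᵥ y).map φ.symm := by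
      rw [← tr_mul', ← hy, tr_inv]
    rw [h1, ← hs]
    exact (Matrix.rank_mul_le_left _ _).trans (Matrix.rank_le_width _)
  have hlist := rank_one_list P' D hD' htr' hP'0 (by rw [hfin]; omega) hn
  have hu : ∀ {p q : ℕ} (M : Matrix (Fin p) (Fin q) ℝ), Mᵀ * M = 1 →
      (M.map φ.symm)ᴴ * M.map φ.symm = 1 := by
    intro p q M hM
    rw [hct, ← Matrix.transpose_map, ← tr_mul', hM, tr_one']
  have hneg : ∀ {p : ℕ} (M : Matrix (Fin p) (Fin p) ℝ), Mᵀ = -M →
      (M.map φ.symm)ᵀ = -M.map φ.symm := by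
    intro p M hM
    rw [← Matrix.transpose_map, hM, tr_neg']
  have hsq : ∀ {p : ℕ} (M : Matrix (Fin p) (Fin p) ℝ), M * M = -1 →
      M.map φ.symm * M.map φ.symm = -1 := by
    intro p M hM
    rw [← tr_mul', hM, tr_neg', tr_one']
  have hback : ∀ {p : ℕ} (z : Fin p → K), (fun i => φ.symm (φ (z i))) = z := by
    intro p z
    funext i
    exact φ.symm_apply_apply _
  rcases hlist with ⟨u, hu0, h⟩ | ⟨N, U, A, J, hU, hA, hJ, hJJ, hN, h⟩ |
    ⟨N, U, A, I, J, hU, hA, hIt, hJt, hII, hJJ, hIJ, hN, h⟩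
  · refine Or.inl ⟨fun i => φ.symm (u i), ?_, fun B => ?_⟩
    · intro h0
      apply hu0
      funext i
      have h1 := congrFun h0 i
      apply φ.symm.injective
      rw [Pi.zero_apply, map_zero]
      exact h1
    · rw [hmem, h]
      constructor
      · rintro ⟨x, hx⟩
        refine ⟨fun j => φ.symm (x j), ?_⟩
        apply tr_inj φ
        rw [hx]
        ext i j
        rw [Matrix.map_apply, vecMulVec_apply, vecMulVec_apply, map_mul, φ.apply_symm_apply,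
          φ.apply_symm_apply]
      · rintro ⟨x, rfl⟩
        refine ⟨fun j => φ (x j), ?_⟩
        ext i j
        rw [Matrix.map_apply, vecMulVec_apply, vecMulVec_apply, map_mul, φ.apply_symm_apply]
  · refine Or.inr (Or.inl ⟨N, U.map φ.symm, A.map φ.symm, J.map φ.symm, hN, hu U hU, hu A hA,
      hneg J hJ, ?_, fun B => ?_⟩)
    · rw [hct, hneg J hJ, Matrix.mul_neg, hsq J hJJ, neg_neg]
    · have key : ∀ y : Fin N → ℝ, (U * Matrix.of ![A *ᵥ y, A *ᵥ (J *ᵥ y)]).map φ.symm =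
          U.map φ.symm * Matrix.of ![A.map φ.symm *ᵥ (fun i => φ.symm (y i)),
            A.map φ.symm *ᵥ (J.map φ.symm *ᵥ star fun i => φ.symm (y i))] := by
        intro y
        have h1 : (star fun i => φ.symm (y i)) = fun i => φ.symm (y i) := by
          funext i
          exact hstar _
        rw [tr_mul', h1, ← tr_mulVec', ← tr_mulVec', ← tr_mulVec']
        congr 1
        ext i j
        fin_cases i <;> rfl
      rw [hmem, h]
      constructor
      · rintro ⟨y, hy⟩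
        refine ⟨fun i => φ.symm (y i), ?_⟩
        rw [← key, ← hy, tr_inv]
      · rintro ⟨y, hy⟩
        refine ⟨fun i => φ (y i), ?_⟩
        have h1 := key fun i => φ (y i)
        rw [hback] at h1
        rw [hy, ← h1, tr_inv']
  · refine Or.inr (Or.inr ⟨hfK, N, U.map φ.symm, A.map φ.symm, I.map φ.symm, J.map φ.symm, hN,
      hu U hU, hu A hA, hneg I hIt, hneg J hJt, hsq I hII, hsq J hJJ, ?_, fun B => ?_⟩)
    · rw [← tr_mul', hIJ, tr_neg', tr_mul']
    · have key : ∀ y : Fin N → ℝ, (U * Matrix.of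
          ![A *ᵥ y, A *ᵥ (I *ᵥ y), A *ᵥ (J *ᵥ y), A *ᵥ ((I * J) *ᵥ y)]).map φ.symm =
          U.map φ.symm * Matrix.of ![A.map φ.symm *ᵥ (fun i => φ.symm (y i)),
            A.map φ.symm *ᵥ (I.map φ.symm *ᵥ fun i => φ.symm (y i)),
            A.map φ.symm *ᵥ (J.map φ.symm *ᵥ fun i => φ.symm (y i)),
            A.map φ.symm *ᵥ ((I.map φ.symm * J.map φ.symm) *ᵥ fun i => φ.symm (y i))] := by
        intro y
        rw [tr_mul', ← tr_mul' φ I J, ← tr_mulVec', ← tr_mulVec', ← tr_mulVec', ← tr_mulVec',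
          ← tr_mulVec', ← tr_mulVec', ← tr_mulVec']
        congr 1
        ext i j
        fin_cases i <;> rfl
      rw [hmem, h]
      constructor
      · rintro ⟨y, hy⟩
        refine ⟨fun i => φ.symm (y i), ?_⟩
        rw [← key, ← hy, tr_inv]
      · rintro ⟨y, hy⟩
        refine ⟨fun i => φ (y i), ?_⟩
        have h1 := key fun i => φ (y i)
        rw [hback] at h1
        rw [hy, ← h1, tr_inv']

end Pool.Agent.Helper17.CKF
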