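import Pool.Agent.Helper17.CKF.RO6
import Pool.Agent.Helper40.CK.GramConst

/-! # CKF-RO7: the list over `K` in the real case -/

set_option autoImplicit false

namespace Pool.Agent.Helper17.CKF

open Matrix Module

/-- The list over `K` in the real case. -/
theorem real_list {K : Type} [RCLike K] (hI : (RCLike.I : K) = 0) {r n : ℕ}
    (P : Submodule ℝ (Matrix (Fin r) (Fin n) K)) (hP : P ≠ ⊥) {B0 : Matrix (Fin r) (Fin n) K}
    (hB0 : B0 ∈ P)
    (hconj : ∀ B ∈ P, ∃ (U : Matrix (Fin r) (Fin r) K) (W : Matrix (Fin n) (Fin n) K) (t : ℝ),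
      U * Uᴴ = 1 ∧ W * Wᴴ = 1 ∧ B = t • (U * B0 * W))
    (htri : ∀ B ∈ P, ∀ C ∈ P, (2 : ℝ) • (B * Cᴴ * B) - C * Bᴴ * B - B * Bᴴ * C ∈ P)
    (hdim : n + 1 ≤ finrank ℝ P + B0.rank) (hn : r * (r + 2) ≤ n + 4) : ROList P := by
  refine real_list_aux hI P hP hB0 ?_ htri hdim hn
  obtain ⟨φ, hφ⟩ : ∃ φ : K ≃+* ℝ, φ = RCLike.realRingEquiv hI := ⟨_, rfl⟩
  have hφr : ∀ x, φ x = RCLike.re x := fun x => by
    rw [hφ]
    rfl
  clear hφ
  have hre : ∀ {p q : ℕ} (B : Matrix (Fin p) (Fin q) K), B.map RCLike.re = B.map φ := by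
    intro p q B
    ext i j
    exact (hφr _).symm
  have hsm : ∀ (t : ℝ) (x : K), φ (t • x) = t * φ x := by
    intro t x
    rw [hφr, hφr, RCLike.smul_re]
  have hct : ∀ {p q : ℕ} (A : Matrix (Fin p) (Fin q) K), (Aᴴ).map φ = (A.map φ)ᵀ := by
    intro p q A
    ext i j
    rw [Matrix.map_apply, conjTranspose_apply, transpose_apply, Matrix.map_apply, hφr, hφr,
      RCLike.star_def, RCLike.conj_re]
  let ψ : K ≃ₗ[ℝ] ℝ :=
    { toFun := φ
      invFun := φ.symm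
      map_add' := map_add φ
      map_smul' := fun t x => by rw [hsm]; rfl
      left_inv := φ.symm_apply_apply
      right_inv := φ.apply_symm_apply }
  let Φ : Matrix (Fin r) (Fin n) K ≃ₗ[ℝ] Matrix (Fin r) (Fin n) ℝ := ψ.mapMatrix
  have hfin : finrank ℝ (P.map Φ.toLinearMap) = finrank ℝ P := Φ.finrank_map_eq P
  have hrk : B0.rank ≤ r := Matrix.rank_le_height B0
  have hr2 : r * (r + 2) = r * (r + 1) + r := by ring
  obtain ⟨D, hD⟩ := Pool.Agent.Helper40.CK.gram_const (P.map Φ.toLinearMap) (B0.map φ) (by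
      rintro _ ⟨B, hB, rfl⟩
      obtain ⟨U, W, t, hU, hW, e⟩ := hconj B hB
      refine ⟨U.map φ, W.map φ, t, ?_, ?_, ?_⟩
      · rw [← hct, ← tr_mul, hU, tr_one]
      · rw [← hct, ← tr_mul, hW, tr_one]
      · show B.map φ = _
        rw [e, ← tr_mul, ← tr_mul]
        ext i j
        rw [Matrix.map_apply, Matrix.smul_apply, hsm, Matrix.smul_apply, Matrix.map_apply,
          smul_eq_mul]) (by
      rw [hfin]
      omega)
  refine ⟨D, fun B hB => ?_⟩
  rw [hre]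
  exact hD _ ⟨B, hB, rfl⟩

end Pool.Agent.Helper17.CKF
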